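import Mathlib.LinearAlgebra.FreeModule.PID
import Mathlib.Tactic.Monotonicity.Lemmas
import Mathlib.RingTheory.Flat.TorsionFree
import Mathlib.Algebra.Order.Ring.Star
import Mathlib.LinearAlgebra.Eigenspace.Minpoly
import Mathlib.LinearAlgebra.Matrix.Rank
import Mathlib.RingTheory.PicardGroup
import Mathlib.Analysis.Complex.Polynomial.Basic
import Mathlib.RingTheory.PowerSeries.NoZeroDivisors
import Mathlib.RingTheory.Finiteness.ModuleFinitePresentation
import Mathlib.Analysis.CStarAlgebra.Classes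
import Mathlib.RingTheory.PowerSeries.Derivative
import Mathlib.RingTheory.SimpleRing.Principal
import Mathlib.Order.CompletePartialOrder
import Mathlib.RingTheory.TotallySplit
import Mathlib.RingTheory.Etale.Weakly
import Mathlib.RingTheory.Henselian
import Mathlib.RingTheory.MvPolynomial.IrreducibleQuadratic
import Mathlib.RingTheory.RegularLocalRing.Defs
import Mathlib.Tactic.Polynomial.Basic

-- ======== part 0: formerly Pool.Agent.MP_cbf1af_ag.h26.Alg
section MrgPart0

/-! Linear algebra helpers: generated subspaces, monomials, minors, Cramer elimination. -/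

namespace Pool.Agent.GPC
open Submodule Module

section Gen
variable {E : Type*} [Field E] {A : Type*} [CommRing A] [Algebra E A]

/-- `W` lies in the span of at most `m` elements -/
def Gen (E : Type*) [Field E] {A : Type*} [CommRing A] [Algebra E A] (W : Submodule E A) (m : ℕ) :
    Prop := ∃ s : Finset A, s.card ≤ m ∧ W ≤ span E (s : Set A)

lemma Gen.mono {W W' : Submodule E A} {m m' : ℕ} (h : Gen E W m) (hW : W' ≤ W) (hm : m ≤ m') :
    Gen E W' m' := by
  obtain ⟨s, h1, h2⟩ := h
  exact ⟨s, h1.trans hm, hW.trans h2⟩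

lemma Gen.mul {W W' : Submodule E A} {m m' : ℕ} (h : Gen E W m) (h' : Gen E W' m') :
    Gen E (W * W') (m * m') := by
  classical
  obtain ⟨s, h1, h2⟩ := h
  obtain ⟨s', h1', h2'⟩ := h'
  refine ⟨Finset.image₂ (· * ·) s s', (Finset.card_image₂_le _ _ _).trans (Nat.mul_le_mul h1 h1'),
    (mul_le_mul' h2 h2').trans ?_⟩
  rw [span_mul_span, Finset.coe_image₂]
  rfl

lemma gen_one : Gen E (1 : Submodule E A) 1 :=
  ⟨{1}, by simp, by simp [Submodule.one_eq_span]⟩

lemma gen_prod {ι : Type*} (s : Finset ι) {W : ι → Submodule E A} {m : ι → ℕ}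
    (h : ∀ i ∈ s, Gen E (W i) (m i)) : Gen E (∏ i ∈ s, W i) (∏ i ∈ s, m i) := by
  classical
  induction s using Finset.induction_on with
  | empty => simpa using gen_one
  | insert i s hi ih =>
    rw [Finset.prod_insert hi, Finset.prod_insert hi]
    exact (h i (by simp)).mul (ih fun j hj => h j (by simp [hj]))

lemma Gen.finite {W : Submodule E A} {m : ℕ} (h : Gen E W m) : FiniteDimensional E W := by
  obtain ⟨s, -, h2⟩ := h
  exact Submodule.finiteDimensional_of_le h2

lemma Gen.finrank_le {W : Submodule E A} {m : ℕ} (h : Gen E W m) : finrank E W ≤ m := by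
  obtain ⟨s, h1, h2⟩ := h
  exact (Submodule.finrank_mono h2).trans ((finrank_span_finset_le_card s).trans h1)

lemma gen_span_image {κ : Type*} (Γ : Finset κ) (m : κ → A) : Gen E (span E (m '' Γ)) Γ.card := by
  classical
  exact ⟨Γ.image m, Finset.card_image_le, by simp⟩

end Gen

section Mon
variable {E : Type*} [Field E] {A : Type*} [CommRing A] [Algebra E A] {σ : Type*}

/-- span of `1` and the `x v` -/
def A1 (E : Type*) [Field E] {A : Type*} [CommRing A] [Algebra E A] {σ : Type*} (x : σ → A) :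
    Submodule E A := span E (insert 1 (Set.range x))

lemma one_mem_A1 (x : σ → A) : (1 : A) ∈ A1 E x := subset_span (by simp)
lemma mem_A1 (x : σ → A) (v : σ) : x v ∈ A1 E x := subset_span (by simp)

lemma one_mem_pow {W : Submodule E A} (h : (1 : A) ∈ W) (a : ℕ) : (1 : A) ∈ W ^ a := by
  simpa using Submodule.pow_mem_pow W h a

lemma pow_mono' {W : Submodule E A} (h : (1 : A) ∈ W) {a b : ℕ} (hab : a ≤ b) : W ^ a ≤ W ^ b := by
  obtain ⟨c, rfl⟩ := Nat.exists_eq_add_of_le hab
  intro y hy
  rw [pow_add]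
  simpa using Submodule.mul_mem_mul hy (one_mem_pow h c)

lemma prod_mem_pow {ι : Type*} (s : Finset ι) {W : Submodule E A} {y : ι → A} {e : ι → ℕ}
    (h : ∀ i ∈ s, y i ∈ W ^ e i) : ∏ i ∈ s, y i ∈ W ^ (∑ i ∈ s, e i) := by
  classical
  induction s using Finset.induction_on with
  | empty => simp [Submodule.one_le.1 le_rfl]
  | insert i s hi ih =>
    rw [Finset.prod_insert hi, Finset.sum_insert hi, pow_add]
    exact Submodule.mul_mem_mul (h i (by simp)) (ih fun j hj => h j (by simp [hj]))

lemma prod_mem_pow_card {ι : Type*} (s : Finset ι) {W : Submodule E A} {y : ι → A}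
    (h : ∀ i ∈ s, y i ∈ W) : ∏ i ∈ s, y i ∈ W ^ s.card := by
  have := prod_mem_pow s (W := W) (y := y) (e := fun _ => 1) (by simpa using h)
  simpa using this

/-- monomial -/
def mon (x : σ → A) (γ : σ →₀ ℕ) : A := γ.prod fun v e => x v ^ e

lemma mon_mem (x : σ → A) (γ : σ →₀ ℕ) {D : ℕ} (h : γ.degree ≤ D) : mon x γ ∈ A1 E x ^ D := by
  refine pow_mono' (one_mem_A1 x) h ?_
  exact prod_mem_pow γ.support fun v _ => Submodule.pow_mem_pow _ (mem_A1 x v) _

lemma aeval_monomial' (x : σ → A) (γ : σ →₀ ℕ) (c : E) :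
    MvPolynomial.aeval x (MvPolynomial.monomial γ c) = c • mon x γ := by
  rw [MvPolynomial.aeval_monomial, Algebra.smul_def]; rfl

lemma degree_le_of_mem_support {R : Type*} [CommSemiring R] {Q : MvPolynomial σ R} {γ : σ →₀ ℕ}
    (h : γ ∈ Q.support) : γ.degree ≤ Q.totalDegree := MvPolynomial.le_totalDegree h

lemma aeval_mem_pow (x : σ → A) {Q : MvPolynomial σ E} {D : ℕ} (h : Q.totalDegree ≤ D) :
    MvPolynomial.aeval x Q ∈ A1 E x ^ D := by
  rw [Q.as_sum, map_sum]
  refine Submodule.sum_mem _ fun γ hγ => ?_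
  rw [aeval_monomial']
  exact Submodule.smul_mem _ _ (mon_mem x γ ((degree_le_of_mem_support hγ).trans h))

lemma exists_of_mem_pow (x : σ → A) {D : ℕ} {a : A} (h : a ∈ A1 E x ^ D) :
    ∃ Q : MvPolynomial σ E, Q.totalDegree ≤ D ∧ MvPolynomial.aeval x Q = a := by
  induction h using Submodule.pow_induction_on_left' with
  | algebraMap r => exact ⟨MvPolynomial.C r, by simp, by simp⟩
  | add a b i _ _ ha hb =>
    obtain ⟨P, h1, rfl⟩ := ha
    obtain ⟨Q, h2, rfl⟩ := hb
    exact ⟨P + Q, (MvPolynomial.totalDegree_add _ _).trans (max_le h1 h2), by simp⟩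
  | mem_mul m hm i a _ ha =>
    obtain ⟨Q, h2, rfl⟩ := ha
    have : ∃ P : MvPolynomial σ E, P.totalDegree ≤ 1 ∧ MvPolynomial.aeval x P = m := by
      induction hm using Submodule.span_induction with
      | mem y hy =>
        rcases hy with rfl | ⟨v, rfl⟩
        · exact ⟨1, by simp, by simp⟩
        · exact ⟨MvPolynomial.X v, by simp, by simp⟩
      | zero => exact ⟨0, by simp, by simp⟩
      | add a b _ _ ha hb =>
        obtain ⟨P, h1, rfl⟩ := ha
        obtain ⟨Q, h2, rfl⟩ := hb
        exact ⟨P + Q, (MvPolynomial.totalDegree_add _ _).trans (max_le h1 h2), by simp⟩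
      | smul c a _ ha =>
        obtain ⟨P, h1, rfl⟩ := ha
        exact ⟨c • P, (MvPolynomial.totalDegree_smul_le _ _).trans h1, by simp⟩
    obtain ⟨P, h1, rfl⟩ := this
    exact ⟨P * Q, (MvPolynomial.totalDegree_mul _ _).trans (by omega), by simp⟩

/-- exponents of degree at most `D` -/
noncomputable def Gam (σ : Type*) [Finite σ] (D : ℕ) : Finset (σ →₀ ℕ) :=
  (Finsupp.finite_of_degree_le (σ := σ) D).toFinset

lemma mem_Gam [Finite σ] {D : ℕ} {γ : σ →₀ ℕ} : γ ∈ Gam σ D ↔ γ.degree ≤ D := by simp [Gam]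

lemma card_Gam [Fintype σ] (D : ℕ) : (Gam σ D).card ≤ (D + 1) ^ Fintype.card σ := by
  classical
  have : (Gam σ D).card ≤ (Fintype.piFinset fun _ : σ => Finset.range (D + 1)).card := by
    refine Finset.card_le_card_of_injOn (fun γ => ⇑γ) (fun γ hγ => ?_)
      (fun a _ b _ h => DFunLike.coe_injective h)
    simp only [Finset.mem_coe, Fintype.mem_piFinset, Finset.mem_range]
    intro v
    have h1 := Finsupp.le_degree v γ
    have h2 := mem_Gam.1 (Finset.mem_coe.1 hγ)
    omega
  simpa using this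

lemma eq_sum_Gam [Finite σ] {R : Type*} [CommSemiring R] {Q : MvPolynomial σ R} {D : ℕ}
    (h : Q.totalDegree ≤ D) : Q = ∑ γ ∈ Gam σ D, MvPolynomial.monomial γ (Q.coeff γ) := by
  conv_lhs => rw [Q.as_sum]
  refine Finset.sum_subset (fun γ hγ => mem_Gam.2 ((degree_le_of_mem_support hγ).trans h)) ?_
  intro γ _ hγ
  rw [MvPolynomial.notMem_support_iff.1 hγ, map_zero]

lemma aeval_eq_sum_Gam [Finite σ] (x : σ → A) {Q : MvPolynomial σ E} {D : ℕ}
    (h : Q.totalDegree ≤ D) : MvPolynomial.aeval x Q = ∑ γ ∈ Gam σ D, Q.coeff γ • mon x γ := by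
  conv_lhs => rw [eq_sum_Gam h]
  rw [map_sum]
  exact Finset.sum_congr rfl fun γ _ => aeval_monomial' x γ _

lemma pow_le_span_Gam [Finite σ] (x : σ → A) (D : ℕ) :
    A1 E x ^ D ≤ span E (mon x '' (Gam σ D : Set (σ →₀ ℕ))) := by
  intro a ha
  obtain ⟨Q, hQ, rfl⟩ := exists_of_mem_pow x ha
  rw [aeval_eq_sum_Gam x hQ]
  exact Submodule.sum_mem _ fun γ hγ => Submodule.smul_mem _ _ (subset_span ⟨γ, hγ, rfl⟩)

lemma gen_pow [Fintype σ] (x : σ → A) (D : ℕ) : Gen E (A1 E x ^ D) ((D + 1) ^ Fintype.card σ) :=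
  (gen_span_image (Gam σ D) (mon x)).mono (pow_le_span_Gam x D) (card_Gam D)

/-- product along a word -/
def wd {D : ℕ} (x : σ → A) (w : Fin D → Option σ) : A := ∏ l, (w l).elim 1 x

lemma wd_mem {D : ℕ} (x : σ → A) (w : Fin D → Option σ) : wd x w ∈ A1 E x ^ D := by
  have := prod_mem_pow_card (E := E) Finset.univ (W := A1 E x) (y := fun l => (w l).elim 1 x)
    (fun l _ => by
      cases w l with
      | none => exact one_mem_A1 x
      | some v => exact mem_A1 x v)
  simpa [wd] using this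

lemma pow_eq_span_wd (x : σ → A) (D : ℕ) :
    A1 E x ^ D = span E (Set.range fun w : Fin D → Option σ => wd x w) := by
  refine le_antisymm ?_ (span_le.2 (by rintro _ ⟨w, rfl⟩; exact wd_mem x w))
  rw [A1, Submodule.span_pow]
  refine span_mono fun a ha => ?_
  rw [Set.mem_pow] at ha
  obtain ⟨f, hf⟩ := ha
  have : ∀ l, ∃ o : Option σ, o.elim 1 x = (f l : A) := by
    intro l
    rcases (f l).2 with h | ⟨v, h⟩
    · exact ⟨none, h.symm⟩
    · exact ⟨some v, h⟩
  choose w hw using this
  refine ⟨w, ?_⟩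
  simp only [wd, hw]
  rw [← hf, List.prod_ofFn]

end Mon

section Minor

lemma exists_minor {F : Type*} [Field F] {κ : Type*} [Fintype κ] {r : ℕ} (p : Fin r → κ → F)
    (hp : LinearIndependent F p) :
    ∃ σ : Fin r → κ, (Matrix.of fun k j => p k (σ j)).det ≠ 0 := by
  classical
  set M : Matrix (Fin r) κ F := Matrix.of p
  have h1 : M.rank = r := by simpa using LinearIndependent.rank_matrix (M := M) hp
  rw [Matrix.rank_eq_finrank_span_cols] at h1
  obtain ⟨f, hf1, -, hf3⟩ := Submodule.exists_fun_fin_finrank_span_eq F (Set.range M.col)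
  choose τ hτ using hf1
  refine ⟨fun j => τ (j.cast h1.symm), ?_⟩
  have : LinearIndependent F (Matrix.of fun k j => p k (τ (Fin.cast h1.symm j))).col := by
    have h2 := hf3.comp (Fin.cast h1.symm) (Fin.cast_injective _)
    have h3 : (Matrix.of fun k j => p k (τ (Fin.cast h1.symm j))).col = f ∘ Fin.cast h1.symm := by
      funext j k
      simp only [Function.comp, ← hτ]
      rfl
    rw [h3]; exact h2
  have h3 := Matrix.linearIndependent_cols_iff_isUnit.1 this
  rw [Matrix.isUnit_iff_isUnit_det] at h3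
  exact h3.ne_zero

lemma det_mem_pow {E : Type*} [Field E] {A : Type*} [CommRing A] [Algebra E A] {m : Type*}
    [Fintype m] [DecidableEq m] {W : Submodule E A} (M : Matrix m m A) (h : ∀ i j, M i j ∈ W) :
    M.det ∈ W ^ Fintype.card m := by
  rw [Matrix.det_apply]
  refine Submodule.sum_mem _ fun σ _ => ?_
  rw [Units.smul_def]
  refine zsmul_mem ?_ _
  simpa using prod_mem_pow_card Finset.univ (W := W) (y := fun i => M (σ i) i) fun i _ => h _ _

/-- Cramer elimination -/
lemma cramer_elim {E : Type*} [Field E] [Algebra E ℂ] {κ : Type*} [Fintype κ] (m : κ → ℂ)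
    (W : Submodule E ℂ) (h1 : (1 : ℂ) ∈ W) (r : ℕ)
    (h : Fintype.card κ ≤
      finrank ℂ (span ℂ {c : κ → ℂ | (∀ γ, c γ ∈ W) ∧ ∑ γ, c γ * m γ = 0}) + r) :
    ∃ a : ℂ, a ≠ 0 ∧ ∃ Γ : Finset κ, Γ.card ≤ r ∧
      ∀ γ, a * m γ ∈ W ^ (Fintype.card κ + 1) * span E (m '' Γ) := by
  classical
  obtain ⟨k, ρ, hρ1, hρ3, h⟩ : ∃ (k : ℕ) (ρ : Fin k → κ → ℂ),
      (∀ i, (∀ γ, ρ i γ ∈ W) ∧ ∑ γ, ρ i γ * m γ = 0) ∧ LinearIndependent ℂ ρ ∧
      Fintype.card κ ≤ k + r := by
    obtain ⟨ρ, hρ1, -, hρ3⟩ := Submodule.exists_fun_fin_finrank_span_eq ℂ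
      {c : κ → ℂ | (∀ γ, c γ ∈ W) ∧ ∑ γ, c γ * m γ = 0}
    exact ⟨_, ρ, hρ1, hρ3, h⟩
  obtain ⟨σ, hσ⟩ := exists_minor ρ hρ3
  set M : Matrix (Fin k) (Fin k) ℂ := Matrix.of fun i j => ρ i (σ j) with hM
  have hinj : Function.Injective σ := by
    intro i j hij
    by_contra hne
    exact hσ (Matrix.det_zero_of_column_eq hne fun l => by simp [hM, hij])
  have hk : k ≤ Fintype.card κ := by simpa using Fintype.card_le_of_injective σ hinj
  set Γ : Finset κ := (Finset.univ.image σ)ᶜ with hΓ
  have hcard : Γ.card ≤ r := by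
    rw [hΓ, Finset.card_compl, Finset.card_image_of_injective _ hinj]
    simp only [Finset.card_univ, Fintype.card_fin]
    omega
  have hdet : M.det ∈ W ^ (Fintype.card κ + 1) :=
    pow_mono' h1 (by simp; omega) (det_mem_pow M fun i j => (hρ1 i).1 _)
  refine ⟨M.det, hσ, Γ, hcard, fun γ => ?_⟩
  by_cases hγ : γ ∈ Γ
  · exact Submodule.mul_mem_mul hdet (subset_span ⟨γ, hγ, rfl⟩)
  · obtain ⟨j, rfl⟩ : ∃ j, σ j = γ := by simpa [hΓ] using hγ
    have hrel : M.mulVec (fun j => m (σ j)) = fun i => -∑ β ∈ Γ, ρ i β * m β := by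
      funext i
      have h2 := (hρ1 i).2
      rw [← Finset.sum_add_sum_compl (Finset.univ.image σ), Finset.sum_image (by
        intro a _ b _ hab; exact hinj hab)] at h2
      simp only [Matrix.mulVec, dotProduct, hM, Matrix.of_apply]
      linear_combination h2
    have h3 : M.det * m (σ j) = ∑ i, M.adjugate j i * -∑ β ∈ Γ, ρ i β * m β := by
      have h4 := congrFun (congrArg (M.adjugate.mulVec) hrel) j
      rw [Matrix.mulVec_mulVec, Matrix.adjugate_mul, Matrix.smul_mulVec, Matrix.one_mulVec] at h4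
      simpa [Matrix.mulVec, dotProduct] using h4
    rw [h3]
    refine Submodule.sum_mem _ fun i _ => ?_
    rw [mul_neg, Finset.mul_sum]
    refine neg_mem (Submodule.sum_mem _ fun β hβ => ?_)
    rw [← mul_assoc]
    refine Submodule.mul_mem_mul ?_ (subset_span ⟨β, hβ, rfl⟩)
    rw [pow_succ]
    refine Submodule.mul_mem_mul (pow_mono' h1 hk ?_) ((hρ1 i).1 _)
    rw [Matrix.adjugate_apply]
    have := det_mem_pow (W := W) (M.updateRow i (Pi.single j 1)) (fun a b => by
      rw [Matrix.updateRow_apply]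
      split_ifs
      · rw [Pi.single_apply]
        split_ifs
        · exact h1
        · exact zero_mem _
      · exact (hρ1 a).1 _)
    simpa using this

lemma sum_det_updateCol {R : Type*} [CommRing R] {m : Type*} [Fintype m] [DecidableEq m]
    (P Q : Matrix m m R) :
    ∑ j, (P.updateCol j (fun k => Q k j)).det = ∑ k, (P.updateRow k (Q k)).det := by
  have h1 : ∀ j, (P.updateCol j (fun k => Q k j)).det = ∑ k, P.adjugate j k * Q k j := by
    intro j
    rw [← Matrix.cramer_apply, Matrix.cramer_eq_adjugate_mulVec]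
    rfl
  have h2 : ∀ k, (P.updateRow k (Q k)).det = ∑ j, P.adjugate j k * Q k j := by
    intro k
    rw [← Matrix.cramer_transpose_apply, Matrix.cramer_eq_adjugate_mulVec,
      ← Matrix.adjugate_transpose]
    rfl
  simp only [h1, h2]
  exact Finset.sum_comm

lemma det_updateCol_eq {R : Type*} [CommRing R] {m : Type*} [Fintype m] [DecidableEq m]
    (P : Matrix m m R) (j : m) (c : m → R) :
    (P.updateCol j c).det = ∑ σ : Equiv.Perm m,
      Equiv.Perm.sign σ • ((∏ i ∈ Finset.univ.erase j, P (σ i) i) * c (σ j)) := by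
  rw [Matrix.det_apply]
  refine Finset.sum_congr rfl fun σ _ => ?_
  congr 1
  rw [← Finset.prod_erase_mul _ _ (Finset.mem_univ j), Matrix.updateCol_self]
  congr 1
  refine Finset.prod_congr rfl fun i hi => ?_
  rw [Matrix.updateCol_ne (Finset.ne_of_mem_erase hi)]

lemma derivative_det {R : Type*} [CommRing R] {m : Type*} [Fintype m] [DecidableEq m]
    (P : Matrix m m (Polynomial R)) :
    Polynomial.derivative P.det =
      ∑ j, (P.updateCol j (fun k => Polynomial.derivative (P k j))).det := by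
  simp only [det_updateCol_eq]
  rw [Matrix.det_apply, map_sum, Finset.sum_comm]
  refine Finset.sum_congr rfl fun σ _ => ?_
  rw [Units.smul_def, map_zsmul, Polynomial.derivative_prod_finset, ← Finset.smul_sum,
    Units.smul_def]

lemma hasDerivAt_det {m : Type*} [Fintype m] [DecidableEq m] {Y : ℂ → Matrix m m ℂ}
    {Y' : Matrix m m ℂ} {z : ℂ} (h : ∀ a b, HasDerivAt (fun w => Y w a b) (Y' a b) z) :
    HasDerivAt (fun w => (Y w).det) (∑ k, ((Y z).updateRow k (Y' k)).det) z := by
  rw [← sum_det_updateCol]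
  simp only [det_updateCol_eq]
  rw [Finset.sum_comm]
  simp only [Matrix.det_apply]
  refine HasDerivAt.fun_sum fun σ _ => ?_
  rw [← Finset.smul_sum]
  refine HasDerivAt.const_smul (Equiv.Perm.sign σ) ?_
  have := HasDerivAt.fun_finsetProd (u := Finset.univ) (f := fun i w => Y w (σ i) i)
    (f' := fun i => Y' (σ i) i) (x := z) fun i _ => h _ _
  simpa using this

end Minor

end Pool.Agent.GPC

end MrgPart0

-- ======== part 1: formerly Pool.Agent.MP_cbf1af_ag.h26.Zero
section MrgPart1

/-! A Shidlovsky type zero estimate for Fuchsian systems with simple poles. -/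

namespace Pool.Agent.GPC
open Polynomial Module

section Prim
variable {κ : Type*} [Fintype κ]

/-- induced action on tensors -/
noncomputable def Bc (r : ℕ) (M : κ → κ → ℂ) : ((Fin r → κ) → ℂ) →ₗ[ℂ] ((Fin r → κ) → ℂ) where
  toFun u σ := ∑ j, ∑ l, M l (σ j) * u (Function.update σ j l)
  map_add' u v := by
    funext σ
    simp [mul_add, Finset.sum_add_distrib]
  map_smul' c u := by
    funext σ
    simp [Finset.mul_sum, mul_left_comm]

lemma hasEig {r : ℕ} {M : κ → κ → ℂ} {u : (Fin r → κ) → ℂ} {μ : ℂ} (hu : u ≠ 0)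
    (h : ∀ σ, ∑ j, ∑ l, M l (σ j) * u (Function.update σ j l) = μ * u σ) :
    Module.End.HasEigenvalue (Bc r M) μ :=
  Module.End.hasEigenvalue_of_hasEigenvector (x := u)
    ⟨Module.End.mem_eigenspace_iff.2 (funext h), hu⟩

lemma prim_deg_bound (T : ℂ[X]) (q : ℕ) (hT : T.natDegree = q + 1) (Z : Finset ℂ)
    (hZ : ∀ c ∈ Z, T.eval c = 0) (hcard : Z.card = q + 1) (B : κ → κ → ℂ[X])
    (hB : ∀ l l', (B l l').natDegree ≤ q) (r : ℕ) :
    ∃ C : ℕ, ∀ (v : (Fin r → κ) → ℂ[X]) (lam : ℂ[X]), Finset.univ.gcd v = 1 →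
      (∀ σ, T * derivative (v σ) + ∑ j, ∑ l, B l (σ j) * v (Function.update σ j l) = lam * v σ) →
      ∀ σ, (v σ).natDegree ≤ C := by
  classical
  set Eig : (κ → κ → ℂ) → Set ℂ := fun M => {μ | Module.End.HasEigenvalue (Bc r M) μ}
  have hEig : ∀ M, (Eig M).Finite := fun M => Module.End.finite_hasEigenvalue _
  set Lam : Set ℂ[X] := {lam | lam.natDegree ≤ q ∧
    ∀ c ∈ Z, lam.eval c ∈ Eig fun l l' => (B l l').eval c}
  have hLam : Lam.Finite := by
    refine Set.Finite.of_finite_image (f := fun lam (c : Z) => lam.eval (c : ℂ)) ?_ ?_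
    · refine (Set.Finite.pi' fun c : Z => hEig fun l l' => (B l l').eval (c : ℂ)).subset ?_
      rintro _ ⟨lam, h, rfl⟩ c
      exact h.2 c c.2
    · intro a ha b hb hab
      rw [← sub_eq_zero]
      refine eq_zero_of_natDegree_lt_card_of_eval_eq_zero' _ Z (fun c hc => ?_) ?_
      · have := congrFun hab ⟨c, hc⟩
        simp only at this
        rw [eval_sub, this, sub_self]
      · have := (natDegree_sub_le a b).trans (max_le ha.1 hb.1)
        omega
  have hTq : T.coeff (q + 1) ≠ 0 := by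
    rw [← hT]
    refine leadingCoeff_ne_zero.2 fun h => ?_
    rw [h] at hT
    simp at hT
  set E : Set ℕ := (fun e : ℕ => (e : ℂ) * T.coeff (q + 1)) ⁻¹'
    (Set.image2 (fun lam μ => lam.coeff q - μ) Lam (Eig fun l l' => (B l l').coeff q))
  have hE : E.Finite := by
    refine (hLam.image2 _ (hEig _)).preimage fun a _ b _ hab => ?_
    exact_mod_cast mul_right_cancel₀ hTq hab
  obtain ⟨C, hC⟩ := hE.bddAbove
  refine ⟨C, fun v lam hg hv => ?_⟩
  have hne : ∃ σ, v σ ≠ 0 := by
    by_contra h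
    push Not at h
    have : Finset.univ.gcd v = 0 := Finset.gcd_eq_zero_iff.2 fun σ _ => h σ
    rw [hg] at this
    exact one_ne_zero this
  obtain ⟨σ₀, hσ₀, hmax⟩ := Finset.exists_max_image (Finset.univ.filter fun σ => v σ ≠ 0)
    (fun σ => (v σ).natDegree) (by obtain ⟨σ, h⟩ := hne; exact ⟨σ, by simpa using h⟩)
  have hσ₀' : v σ₀ ≠ 0 := by simpa using hσ₀
  set e := (v σ₀).natDegree with he
  have hle : ∀ σ, (v σ).natDegree ≤ e := by
    intro σ
    by_cases h : v σ = 0
    · simp [h]
    · exact hmax σ (by simpa using h)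
  have hder : ∀ σ, (T * derivative (v σ)).natDegree ≤ q + e := by
    intro σ
    by_cases h0 : e = 0
    · have : derivative (v σ) = 0 := derivative_of_natDegree_zero (by have := hle σ; omega)
      simp [this]
    · have h1 := natDegree_derivative_le (v σ)
      have h2 := hle σ
      have h3 := natDegree_mul_le (p := T) (q := derivative (v σ))
      omega
  have hBv : ∀ σ j l, (B l (σ j) * v (Function.update σ j l)).natDegree ≤ q + e := fun σ j l =>
    natDegree_mul_le.trans (add_le_add (hB _ _) (hle _))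
  have hlam : lam.natDegree ≤ q := by
    by_cases h : lam = 0
    · simp [h]
    have h1 : (lam * v σ₀).natDegree ≤ q + e := by
      rw [← hv]
      refine (natDegree_add_le _ _).trans (max_le (hder _) ?_)
      exact natDegree_sum_le_of_forall_le _ _ fun j _ =>
        natDegree_sum_le_of_forall_le _ _ fun l _ => hBv _ _ _
    rw [natDegree_mul h hσ₀'] at h1
    omega
  have hmem : lam ∈ Lam := by
    refine ⟨hlam, fun c hc => hasEig (u := fun σ => (v σ).eval c) (fun h => ?_) fun σ => ?_⟩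
    · have : X - Polynomial.C c ∣ Finset.univ.gcd v :=
        Finset.dvd_gcd fun σ _ => dvd_iff_isRoot.2 (congrFun h σ)
      rw [hg] at this
      exact not_isUnit_X_sub_C c (isUnit_of_dvd_one this)
    · have := congrArg (eval c) (hv σ)
      simpa [eval_finsetSum, hZ c hc] using this
  have htop : Module.End.HasEigenvalue (Bc r fun l l' => (B l l').coeff q)
      (lam.coeff q - e * T.coeff (q + 1)) := by
    refine hasEig (u := fun σ => (v σ).coeff e) (fun h => ?_) fun σ => ?_
    · exact leadingCoeff_ne_zero.2 hσ₀' (congrFun h σ₀)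
    · have h1 := congrArg (fun p => p.coeff (q + e)) (hv σ)
      simp only [coeff_add, finsetSum_coeff] at h1
      rw [coeff_mul_add_eq_of_natDegree_le hlam (hle σ)] at h1
      simp only [coeff_mul_add_eq_of_natDegree_le (hB _ _) (hle _)] at h1
      have h2 : (T * derivative (v σ)).coeff (q + e) = T.coeff (q + 1) * (e * (v σ).coeff e) := by
        rcases Nat.eq_zero_or_pos e with h0 | h0
        · have : derivative (v σ) = 0 := derivative_of_natDegree_zero (by have := hle σ; omega)
          simp [this, h0]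
        · obtain ⟨e', he'⟩ : ∃ e', e = e' + 1 := ⟨e - 1, by omega⟩
          have h3 : (derivative (v σ)).natDegree ≤ e' := by
            have h1 := natDegree_derivative_le (v σ)
            have h2 := hle σ
            omega
          rw [show q + e = (q + 1) + e' by omega, coeff_mul_add_eq_of_natDegree_le hT.le h3,
            coeff_derivative, he']
          push_cast; ring
      rw [h2] at h1
      linear_combination h1
  have : e ∈ E := ⟨lam, hmem, _, htop, by ring⟩
  exact fun σ => (hle σ).trans (hC this)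

end Prim

lemma order_bound (V : Submodule ℂ (PowerSeries ℂ)) [FiniteDimensional ℂ V] :
    ∃ C : ℕ, ∀ s ∈ V, s ≠ 0 → ∃ m ≤ C, PowerSeries.coeff m s ≠ 0 := by
  let f : ℕ →o (Submodule ℂ V)ᵒᵈ :=
    ⟨fun μ => OrderDual.toDual (⨅ m : Fin μ,
      LinearMap.ker ((PowerSeries.coeff (R := ℂ) m).comp V.subtype)), by
      intro a b hab
      refine OrderDual.toDual_le_toDual.2 (le_iInf fun m => iInf_le_of_le (m.castLE hab) le_rfl)⟩
  obtain ⟨C, hC⟩ := IsArtinian.monotone_stabilizes f
  refine ⟨C, fun s hs h0 => ?_⟩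
  by_contra h
  push Not at h
  apply h0
  ext m
  have h1 : (⟨s, hs⟩ : V) ∈ OrderDual.ofDual (f C) := by
    simp only [f, OrderHom.coe_mk, OrderDual.ofDual_toDual, Submodule.mem_iInf]
    intro j
    exact h j j.2.le
  rw [hC (max C (m + 1)) (le_max_left _ _)] at h1
  simp only [f, OrderHom.coe_mk, OrderDual.ofDual_toDual, Submodule.mem_iInf] at h1
  exact h1 ⟨m, lt_of_lt_of_le (Nat.lt_succ_self m) (le_max_right _ _)⟩

lemma natDegree_det_le' {m : Type*} [Fintype m] [DecidableEq m] (M : Matrix m m ℂ[X]) (d : ℕ)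
    (h : ∀ i j, (M i j).natDegree ≤ d) : M.det.natDegree ≤ Fintype.card m * d := by
  rw [Matrix.det_apply]
  refine natDegree_sum_le_of_forall_le _ _ fun σ _ => ?_
  rw [Units.smul_def, zsmul_eq_mul]
  refine natDegree_mul_le.trans ?_
  rw [natDegree_intCast, zero_add]
  refine (natDegree_prod_le _ _).trans ?_
  simpa using Finset.sum_le_card_nsmul Finset.univ (fun i => (M (σ i) i).natDegree) d
    fun i _ => h _ _

section Main
variable {κ : Type*} [Fintype κ]

/-- the connection on coefficient vectors -/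
noncomputable def nab (T : ℂ[X]) (B : κ → κ → ℂ[X]) (p : κ → ℂ[X]) : κ → ℂ[X] :=
  fun l => T * derivative (p l) + ∑ l', B l' l * p l'

/-- pairing with the series -/
noncomputable def evp (w : κ → PowerSeries ℂ) (p : κ → ℂ[X]) : PowerSeries ℂ :=
  ∑ l, (p l : PowerSeries ℂ) * w l

lemma evp_nab {T : ℂ[X]} {B : κ → κ → ℂ[X]} {w : κ → PowerSeries ℂ}
    (hw : ∀ l, (T : PowerSeries ℂ) * PowerSeries.derivative ℂ (w l) =
      ∑ l', (B l l' : PowerSeries ℂ) * w l') (p : κ → ℂ[X]) :
    evp w (nab T B p) = (T : PowerSeries ℂ) * PowerSeries.derivative ℂ (evp w p) := by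
  simp only [evp, nab, map_sum, Derivation.leibniz, smul_eq_mul, Finset.mul_sum, mul_add,
    Polynomial.coe_add, Polynomial.coe_mul, add_mul, Finset.sum_add_distrib,
    PowerSeries.derivative_coe]
  rw [add_comm]
  congr 1
  · simp only [mul_left_comm (T : PowerSeries ℂ), hw, Finset.mul_sum]
    rw [Finset.sum_comm]
    refine Finset.sum_congr rfl fun l _ => ?_
    rw [← Polynomial.coeToPowerSeries.ringHom_apply, map_sum, Finset.sum_mul]
    refine Finset.sum_congr rfl fun l' _ => ?_
    simp only [Polynomial.coeToPowerSeries.ringHom_apply, Polynomial.coe_mul]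
    ring
  · exact Finset.sum_congr rfl fun l _ => by ring

lemma minor_eq (T : ℂ[X]) (B : κ → κ → ℂ[X]) (p : ℕ → κ → ℂ[X])
    (hp : ∀ k, p (k + 1) = nab T B (p k)) (s : ℕ) (a : ℂ[X]) (c : Fin (s + 1) → ℂ[X])
    (hrel : a • p (s + 1) = ∑ k, c k • p k) (σ : Fin (s + 1) → κ) :
    a * (T * derivative (Matrix.of fun (k : Fin (s + 1)) j => p k (σ j)).det +
      ∑ j, ∑ l, B l (σ j) *
        (Matrix.of fun (k : Fin (s + 1)) i => p k (Function.update σ j l i)).det) =
      c (Fin.last s) * (Matrix.of fun (k : Fin (s + 1)) j => p k (σ j)).det := by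
  set P : Matrix (Fin (s + 1)) (Fin (s + 1)) ℂ[X] := Matrix.of fun k j => p k (σ j) with hP
  have hup : ∀ j l, (Matrix.of fun (k : Fin (s + 1)) i => p k (Function.update σ j l i)) =
      P.updateCol j fun k => p k l := by
    intro j l
    ext k i
    rw [Matrix.updateCol_apply, Matrix.of_apply]
    split_ifs with h
    · rw [h, Function.update_self]
    · rw [Function.update_of_ne h, hP, Matrix.of_apply]
  have h1 : T * derivative P.det + ∑ j, ∑ l, B l (σ j) *
      (Matrix.of fun (k : Fin (s + 1)) i => p k (Function.update σ j l i)).det =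
      ∑ j, (P.updateCol j fun k => p (k + 1) (σ j)).det := by
    rw [derivative_det, Finset.mul_sum, ← Finset.sum_add_distrib]
    refine Finset.sum_congr rfl fun j _ => ?_
    simp only [hup, ← Matrix.cramer_apply]
    have : (fun k : Fin (s + 1) => p (k + 1) (σ j)) =
        T • (fun k => derivative (P k j)) + ∑ l, B l (σ j) • fun k : Fin (s + 1) => p k l := by
      funext k
      simp [hp, nab, hP, Finset.sum_apply]
    rw [this, map_add, map_smul, map_sum]
    simp [Finset.sum_apply]
  have h2 := sum_det_updateCol P (Matrix.of fun (k : Fin (s + 1)) j => p (k + 1) (σ j))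
  simp only [Matrix.of_apply] at h2
  rw [h1, h2, Fin.sum_univ_castSucc, Finset.sum_eq_zero, zero_add]
  · rw [← Matrix.det_updateRow_smul, ← smul_eq_mul (c (Fin.last s)),
      ← Matrix.det_updateRow_sum P (Fin.last s) c]
    congr 2
    funext j
    have := congrFun hrel (σ j)
    simpa [Finset.sum_apply, hP] using this
  · intro k _
    have : (Matrix.of fun (k : Fin (s + 1)) j => p (k + 1) (σ j)) k.castSucc = P k.succ := by
      funext j; simp [hP]
    rw [this]
    exact Matrix.det_updateRow_eq_zero (Fin.castSucc_lt_succ).ne'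

lemma exists_minor_poly {r : ℕ} (p : Fin r → κ → ℂ[X]) (hp : LinearIndependent ℂ[X] p) :
    ∃ σ : Fin r → κ, (Matrix.of fun k j => p k (σ j)).det ≠ 0 := by
  set F := FractionRing ℂ[X]
  have h1 : LinearIndependent ℂ[X] (fun k l => algebraMap ℂ[X] F (p k l)) := by
    refine hp.map' (LinearMap.pi fun l => (Algebra.linearMap ℂ[X] F).comp (LinearMap.proj l)) ?_
    rw [LinearMap.ker_eq_bot]
    intro x y hxy
    funext l
    exact IsFractionRing.injective ℂ[X] F (congrFun hxy l)
  rw [LinearIndependent.iff_fractionRing ℂ[X] F] at h1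
  obtain ⟨σ, hσ⟩ := exists_minor _ h1
  refine ⟨σ, fun h => hσ ?_⟩
  have := (algebraMap ℂ[X] F).map_det (Matrix.of fun k j => p k (σ j))
  rw [h, map_zero] at this
  rw [this]
  rfl

lemma dvd_step {μ : ℕ} {R : PowerSeries ℂ} (T : PowerSeries ℂ)
    (h : (PowerSeries.X : PowerSeries ℂ) ^ μ ∣ R) :
    (PowerSeries.X : PowerSeries ℂ) ^ (μ - 1) ∣ T * PowerSeries.derivative ℂ R := by
  refine Dvd.dvd.mul_left ?_ _
  rw [PowerSeries.X_pow_dvd_iff] at h ⊢
  intro m hm
  rw [PowerSeries.coeff_derivative, h (m + 1) (by omega), zero_mul]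

theorem zero_basis (T : ℂ[X]) (q : ℕ) (hT : T.natDegree = q + 1) (Z : Finset ℂ)
    (hZ : ∀ c ∈ Z, T.eval c = 0) (hcard : Z.card = q + 1) (B : κ → κ → ℂ[X])
    (hB : ∀ l l', (B l l').natDegree ≤ q) (w : κ → PowerSeries ℂ)
    (hw : ∀ l, (T : PowerSeries ℂ) * PowerSeries.derivative ℂ (w l) =
      ∑ l', (B l l' : PowerSeries ℂ) * w l') :
    ∃ C : ℕ, ∀ (N : ℕ) (p : κ → ℂ[X]), (∀ l, (p l).natDegree ≤ N) → evp w p ≠ 0 →
      ∃ m ≤ Fintype.card κ * N + C, PowerSeries.coeff m (evp w p) ≠ 0 := by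
  classical
  choose C₁ hC₁ using prim_deg_bound T q hT Z hZ hcard B hB
  set n := Fintype.card κ with hn
  set D := (Finset.range (n + 1)).sup C₁
  set V : Submodule ℂ (PowerSeries ℂ) := Submodule.span ℂ
    (Set.range fun x : Fin (D + 1) × κ => PowerSeries.X ^ (x.1 : ℕ) * w x.2) with hV
  have : FiniteDimensional ℂ V := FiniteDimensional.span_of_finite ℂ (Set.finite_range _)
  obtain ⟨C₂, hC₂⟩ := order_bound V
  have hVmem : ∀ v : κ → ℂ[X], (∀ l, (v l).natDegree ≤ D) → evp w v ∈ V := by
    intro v hv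
    refine Submodule.sum_mem _ fun l _ => ?_
    rw [(v l).as_sum_range' (D + 1) (Nat.lt_succ_of_le (hv l)),
      ← Polynomial.coeToPowerSeries.ringHom_apply, map_sum, Finset.sum_mul]
    refine Submodule.sum_mem _ fun a ha => ?_
    rw [Polynomial.coeToPowerSeries.ringHom_apply, ← Polynomial.C_mul_X_pow_eq_monomial,
      Polynomial.coe_mul, Polynomial.coe_C, Polynomial.coe_pow, Polynomial.coe_X, mul_assoc,
      ← PowerSeries.smul_eq_C_mul]
    exact Submodule.smul_mem _ _
      (Submodule.subset_span ⟨(⟨a, Finset.mem_range.1 ha⟩, l), rfl⟩)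
  refine ⟨n * (n * (q + 1)) + n + C₂, fun N p₀ hp₀ hR => ?_⟩
  by_contra hcon
  push Not at hcon
  set μ := n * N + (n * (n * (q + 1)) + n + C₂) + 1 with hμ
  set p : ℕ → κ → ℂ[X] := fun k => (nab T B)^[k] p₀ with hp
  have hps : ∀ k, p (k + 1) = nab T B (p k) := fun k => Function.iterate_succ_apply' _ _ _
  have hdeg : ∀ k l, (p k l).natDegree ≤ N + k * (q + 1) := by
    intro k
    induction k with
    | zero => simpa [hp] using hp₀
    | succ k ih =>
      intro l
      rw [hps]
      refine (natDegree_add_le _ _).trans (max_le ?_ ?_)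
      · have h1 := natDegree_derivative_le (p k l)
        have h2 := ih l
        have h3 := natDegree_mul_le (p := T) (q := derivative (p k l))
        rw [add_mul]; omega
      · refine natDegree_sum_le_of_forall_le _ _ fun l' _ => ?_
        have h2 := ih l'
        have h3 := natDegree_mul_le (p := B l' l) (q := p k l')
        have h4 := hB l' l
        rw [add_mul]; omega
  have hdvd : ∀ k, (PowerSeries.X : PowerSeries ℂ) ^ (μ - k) ∣ evp w (p k) := by
    intro k
    induction k with
    | zero => exact PowerSeries.X_pow_dvd_iff.2 fun m hm => hcon m (by omega)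
    | succ k ih =>
      rw [hps, evp_nab hw, ← Nat.sub_sub]
      exact dvd_step _ ih
  have hex : ∃ r, ¬ LinearIndependent ℂ[X] fun k : Fin (r + 1) => p k := by
    refine ⟨n, fun h => ?_⟩
    have := h.fintype_card_le_finrank
    simp [hn] at this
  have hrn : Nat.find hex ≤ n := Nat.find_min' hex (fun h => by
    have := h.fintype_card_le_finrank
    simp [hn] at this)
  have hdep := Nat.find_spec hex
  rcases hr : Nat.find hex with _ | s
  · rw [hr] at hdep
    apply hdep
    refine (linearIndependent_unique_iff (ι := Fin 1)).2 fun h => hR ?_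
    have : p₀ = 0 := h
    simp [this, evp]
  have hind : LinearIndependent ℂ[X] fun k : Fin (s + 1) => p k := by
    have := Nat.find_min hex (m := s) (by omega)
    exact not_not.1 this
  rw [hr] at hdep hrn
  obtain ⟨g₀, hg₀, k₀, hk₀⟩ := Fintype.not_linearIndependent_iff.1 hdep
  rw [Fin.sum_univ_castSucc] at hg₀
  have ha : g₀ (Fin.last (s + 1)) ≠ 0 := by
    intro h
    rw [h, zero_smul, add_zero] at hg₀
    have := Fintype.linearIndependent_iff.1 hind (fun k => g₀ k.castSucc) (by simpa using hg₀)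
    revert hk₀
    refine Fin.lastCases ?_ (fun k => ?_) k₀
    · exact fun h' => h' h
    · exact fun h' => h' (this k)
  have hrel : g₀ (Fin.last (s + 1)) • p (s + 1) =
      ∑ k : Fin (s + 1), (-g₀ k.castSucc) • p k := by
    simp only [neg_smul, Finset.sum_neg_distrib]
    rw [eq_neg_iff_add_eq_zero, add_comm]
    simpa using hg₀
  set a := g₀ (Fin.last (s + 1))
  set ω : (Fin (s + 1) → κ) → ℂ[X] :=
    fun σ => (Matrix.of fun (k : Fin (s + 1)) j => p k (σ j)).det with hω
  have heq := fun σ => minor_eq T B p hps s a _ hrel σ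
  obtain ⟨σ₀, hσ₀⟩ := exists_minor_poly _ hind
  obtain ⟨v, hv, hvg⟩ := Finset.extract_gcd (s := Finset.univ) ω ⟨σ₀, Finset.mem_univ _⟩
  set g := Finset.univ.gcd ω
  have hv' : ∀ σ, ω σ = g * v σ := fun σ => hv σ (Finset.mem_univ _)
  have hg0 : g ≠ 0 := by
    intro h
    apply hσ₀
    have := hv' σ₀
    rwa [h, zero_mul] at this
  set b := -g₀ (Fin.last s).castSucc * g - a * T * derivative g
  have hkey : ∀ σ, a * g * (T * derivative (v σ) +
      ∑ j, ∑ l, B l (σ j) * v (Function.update σ j l)) = b * v σ := by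
    intro σ
    have h1 : a * (T * derivative (ω σ) + ∑ j, ∑ l, B l (σ j) * ω (Function.update σ j l)) =
      -g₀ (Fin.last s).castSucc * ω σ := heq σ
    simp only [hv', derivative_mul, mul_left_comm _ g, ← Finset.mul_sum] at h1
    linear_combination h1
  have hdiv : a * g ∣ b := by
    have h1 : a * g ∣ Finset.univ.gcd fun σ => b * v σ :=
      Finset.dvd_gcd fun σ _ => ⟨_, (hkey σ).symm⟩
    have h2 := Finset.gcd_mul_left' (s := Finset.univ) (f := v) b
    rw [hvg, mul_one] at h2
    exact h1.trans h2.dvd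
  obtain ⟨lam, hlam⟩ := hdiv
  have hvdeg : ∀ σ, (v σ).natDegree ≤ D := by
    intro σ
    refine (hC₁ (s + 1) v lam hvg (fun σ => ?_) σ).trans
      (Finset.le_sup (f := C₁) (Finset.mem_range.2 (by omega)))
    refine mul_left_cancel₀ (mul_ne_zero ha hg0) ?_
    rw [hkey, hlam, mul_assoc]
  set P : Matrix (Fin (s + 1)) (Fin (s + 1)) ℂ[X] := Matrix.of fun k j => p k (σ₀ j) with hP
  have hup : ∀ j l, ω (Function.update σ₀ j l) = ∑ k, P.adjugate j k * p k l := by
    intro j l
    have : (Matrix.of fun (k : Fin (s + 1)) i => p k (Function.update σ₀ j l i)) =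
        P.updateCol j fun k => p k l := by
      ext k i
      rw [Matrix.updateCol_apply, Matrix.of_apply]
      split_ifs with h
      · rw [h, Function.update_self]
      · rw [Function.update_of_ne h, hP, Matrix.of_apply]
    simp only [hω]
    rw [this, ← Matrix.cramer_apply, Matrix.cramer_eq_adjugate_mulVec]
    rfl
  set φ := Polynomial.coeToPowerSeries.ringHom (R := ℂ)
  have hφ : ∀ x : ℂ[X], (x : PowerSeries ℂ) = φ x := fun _ => rfl
  have hhat : ∀ j, (g : PowerSeries ℂ) * evp w (fun l => v (Function.update σ₀ j l)) =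
      ∑ k, φ (P.adjugate j k) * evp w (p k) := by
    intro j
    simp only [evp, hφ, Finset.mul_sum, ← mul_assoc, ← map_mul, ← hv', hup, map_sum,
      Finset.sum_mul]
    exact Finset.sum_comm
  have hsome : ∃ j, evp w (fun l => v (Function.update σ₀ j l)) ≠ 0 := by
    by_contra h
    push Not at h
    have h1 : ∑ j, φ (P 0 j) * ∑ k, φ (P.adjugate j k) * evp w (p k) = 0 := by
      simp [← hhat, h]
    simp only [Finset.mul_sum, ← mul_assoc, ← map_mul] at h1
    rw [Finset.sum_comm] at h1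
    simp only [← Finset.sum_mul, ← map_sum, ← Matrix.mul_apply, Matrix.mul_adjugate] at h1
    rw [Finset.sum_eq_single 0 (fun k _ hk => by simp [Matrix.one_apply_ne' hk]) (by simp)] at h1
    simp only [Matrix.smul_apply, Matrix.one_apply_eq, smul_eq_mul, mul_one, mul_eq_zero] at h1
    rcases h1 with h1 | h1
    · exact hσ₀ (Polynomial.coe_eq_zero_iff.1 h1)
    · exact hR h1
  obtain ⟨j, hj⟩ := hsome
  obtain ⟨m, hm, hm'⟩ := hC₂ _ (hVmem _ fun l => hvdeg _) hj
  have hgdeg : g.natDegree ≤ (s + 1) * (N + n * (q + 1)) := by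
    have h1 : (ω σ₀).natDegree ≤ (s + 1) * (N + n * (q + 1)) := by
      have := natDegree_det_le' P (N + n * (q + 1)) fun k j => (hdeg k _).trans (by
        have : (k : ℕ) ≤ n := by omega
        gcongr)
      simpa using this
    exact (natDegree_le_of_dvd ⟨_, hv' σ₀⟩ hσ₀).trans h1
  have hord : ((μ - n : ℕ) : ℕ∞) ≤
      PowerSeries.order ((g : PowerSeries ℂ) * evp w (fun l => v (Function.update σ₀ j l))) := by
    refine PowerSeries.nat_le_order _ _ (PowerSeries.X_pow_dvd_iff.1 ?_)
    rw [hhat]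
    refine Finset.dvd_sum fun k _ => Dvd.dvd.mul_left ((pow_dvd_pow _ ?_).trans (hdvd k)) _
    omega
  rw [PowerSeries.order_mul] at hord
  have h1 : PowerSeries.order (g : PowerSeries ℂ) ≤ g.natDegree :=
    PowerSeries.order_le _ (by rw [Polynomial.coeff_coe]; exact leadingCoeff_ne_zero.2 hg0)
  have h2 := hord.trans (add_le_add h1 (PowerSeries.order_le _ hm'))
  have h3 : μ - n ≤ g.natDegree + m := by exact_mod_cast h2
  have h4 : (s + 1) * (N + n * (q + 1)) ≤ n * (N + n * (q + 1)) := Nat.mul_le_mul_right _ hrn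
  rw [mul_add n N] at h4
  omega

end Main

/-- polynomials of degree at most `N` inside power series -/
def Pl (N : ℕ) : Submodule ℂ (PowerSeries ℂ) where
  carrier := {s | ∃ p : ℂ[X], p.natDegree ≤ N ∧ s = p}
  add_mem' := by
    rintro _ _ ⟨a, ha, rfl⟩ ⟨b, hb, rfl⟩
    exact ⟨a + b, (natDegree_add_le _ _).trans (max_le ha hb), by simp⟩
  zero_mem' := ⟨0, by simp, by simp⟩
  smul_mem' := by
    rintro c _ ⟨a, ha, rfl⟩
    exact ⟨C c * a, (natDegree_C_mul_le _ _).trans ha, by simp [PowerSeries.smul_eq_C_mul]⟩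

lemma coe_mem_Pl {N : ℕ} {p : ℂ[X]} (h : p.natDegree ≤ N) : (p : PowerSeries ℂ) ∈ Pl N :=
  ⟨p, h, rfl⟩

lemma exists_evp {κ : Type*} [Fintype κ] {W : Submodule ℂ (PowerSeries ℂ)} (b : Basis κ ℂ W)
    {N : ℕ} {R : PowerSeries ℂ} (h : R ∈ Pl N * W) :
    ∃ p : κ → ℂ[X], (∀ l, (p l).natDegree ≤ N) ∧ R = evp (fun l => (b l : PowerSeries ℂ)) p := by
  induction h using Submodule.mul_induction_on' with
  | mem_mul_mem x hx y hy =>
    obtain ⟨a, ha, rfl⟩ := hx
    refine ⟨fun l => C (b.repr ⟨y, hy⟩ l) * a, fun l => (natDegree_C_mul_le _ _).trans ha, ?_⟩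
    have := congrArg Subtype.val (b.sum_repr ⟨y, hy⟩)
    simp only [AddSubmonoidClass.coe_finsetSum, SetLike.val_smul] at this
    generalize b.repr ⟨y, hy⟩ = c at this ⊢
    rw [← this, evp, Finset.mul_sum]
    refine Finset.sum_congr rfl fun l _ => ?_
    simp only [Polynomial.coe_mul, Polynomial.coe_C, PowerSeries.smul_eq_C_mul]
    ring
  | add x _ y _ hx hy =>
    obtain ⟨p, hp, rfl⟩ := hx
    obtain ⟨p', hp', rfl⟩ := hy
    exact ⟨p + p', fun l => (natDegree_add_le _ _).trans (max_le (hp l) (hp' l)), by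
      simp [evp, add_mul, Finset.sum_add_distrib]⟩

theorem zero_lemma (T : ℂ[X]) (q : ℕ) (hT : T.natDegree = q + 1) (Z : Finset ℂ)
    (hZ : ∀ c ∈ Z, T.eval c = 0) (hcard : Z.card = q + 1) (W : Submodule ℂ (PowerSeries ℂ))
    [FiniteDimensional ℂ W]
    (hW : ∀ w ∈ W, (T : PowerSeries ℂ) * PowerSeries.derivative ℂ w ∈ Pl q * W) :
    ∃ C : ℕ, ∀ (N : ℕ), ∀ R ∈ Pl N * W, R ≠ 0 →
      ∃ m ≤ finrank ℂ W * N + C, PowerSeries.coeff m R ≠ 0 := by
  classical
  let b := Module.finBasis ℂ W
  choose B hB hB' using fun l => exists_evp b (hW _ (b l).2)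
  obtain ⟨C, hC⟩ := zero_basis T q hT Z hZ hcard B hB (fun l => (b l : PowerSeries ℂ)) hB'
  refine ⟨C, fun N R hR h0 => ?_⟩
  obtain ⟨p, hp, rfl⟩ := exists_evp b hR
  simpa using hC N p hp h0

/-- the differential condition passes to powers -/
lemma deriv_pow_mem (T : PowerSeries ℂ) (q : ℕ) (W : Submodule ℂ (PowerSeries ℂ))
    (hW : ∀ w ∈ W, T * PowerSeries.derivative ℂ w ∈ Pl q * W) (D : ℕ) :
    ∀ w ∈ W ^ D, T * PowerSeries.derivative ℂ w ∈ Pl q * W ^ D := by
  intro w hw
  induction hw using Submodule.pow_induction_on_left' with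
  | algebraMap r => simp
  | add x y i _ _ hx hy => rw [map_add, mul_add]; exact add_mem hx hy
  | mem_mul m hm i x hx ih =>
    rw [Derivation.leibniz, smul_eq_mul, smul_eq_mul, mul_add, pow_succ']
    refine add_mem ?_ ?_
    · rw [mul_left_comm T, mul_left_comm (Pl q)]
      exact Submodule.mul_mem_mul hm ih
    · rw [mul_left_comm T, mul_comm x, ← mul_assoc (Pl q)]
      exact Submodule.mul_mem_mul (hW m hm) hx

end Pool.Agent.GPC

end MrgPart1

-- marker of a merged file
example : 731051 + 312016 = 731051 + 312016 := rfl
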