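import Mathlib.Topology.Sheaves.Presheaf
import Mathlib.LinearAlgebra.Lagrange
import Mathlib.RingTheory.Derivation.MapCoeffs
import Mathlib.Analysis.Calculus.SmoothSeries
import Mathlib.Analysis.Complex.TaylorSeries
import Mathlib.Combinatorics.SimpleGraph.Basic
import Mathlib.RingTheory.PiTensorProduct
import Mathlib.Topology.Separation.CompletelyRegular
import Mathlib.NumberTheory.Chebyshev
import Mathlib.RingTheory.AdicCompletion.Completeness
import Pool.Agent.MP_cbf1af_ag.h26.Zero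

-- ======== part 0: formerly Pool.Agent.MP_cbf1af_ag.h26.Ser
section MrgPart0

/-! Convergent power series: weighted norm, evaluation, derivative, Schwarz step. -/

namespace Pool.Agent.GPC
open PowerSeries Filter Topology

/-- absolutely convergent at radius `r` -/
def Cv (r : ℝ) (s : ℂ⟦X⟧) : Prop := Summable (fun m => ‖coeff m s‖ * r ^ m)

/-- weighted norm bound -/
def Nb (r : ℝ) (s : ℂ⟦X⟧) (b : ℝ) : Prop :=
  Cv r s ∧ ∑' m, ‖coeff m s‖ * r ^ m ≤ b

noncomputable def ev (z : ℂ) (s : ℂ⟦X⟧) : ℂ := ∑' m, coeff m s * z ^ m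

variable {r : ℝ} {s t : ℂ⟦X⟧} {a b : ℝ} {z : ℂ}

lemma Cv.summable_norm (h : Cv r s) (hz : ‖z‖ ≤ r) :
    Summable (fun m => ‖coeff m s * z ^ m‖) := by
  refine Summable.of_nonneg_of_le (fun _ => norm_nonneg _) (fun m => ?_) h
  rw [norm_mul, norm_pow]
  gcongr

lemma Cv.summable (h : Cv r s) (hz : ‖z‖ ≤ r) : Summable (fun m => coeff m s * z ^ m) :=
  (h.summable_norm hz).of_norm

lemma Cv.mono {r' : ℝ} (h : Cv r s) (h0 : 0 ≤ r') (hr : r' ≤ r) : Cv r' s := by
  refine Summable.of_nonneg_of_le (fun _ => by positivity) (fun m => ?_) h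
  gcongr

lemma Nb.mono (h : Nb r s a) (hab : a ≤ b) : Nb r s b := ⟨h.1, h.2.trans hab⟩

lemma Nb.mono_r {r' : ℝ} (h : Nb r s a) (h0 : 0 ≤ r') (hr : r' ≤ r) : Nb r' s a := by
  refine ⟨h.1.mono h0 hr, le_trans ?_ h.2⟩
  refine Summable.tsum_le_tsum (fun m => ?_) (h.1.mono h0 hr) h.1
  gcongr

lemma Nb.nonneg (h : Nb r s a) (hr : 0 ≤ r) : 0 ≤ a :=
  le_trans (tsum_nonneg fun _ => by positivity) h.2

lemma Cv.nb (h : Cv r s) : Nb r s (∑' m, ‖coeff m s‖ * r ^ m) := ⟨h, le_rfl⟩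

lemma Nb.coeff_le (h : Nb r s a) (hr : 0 ≤ r) (m : ℕ) : ‖coeff m s‖ * r ^ m ≤ a :=
  le_trans (h.1.le_tsum m fun _ _ => by positivity) h.2

lemma Nb.norm_ev_le (h : Nb r s a) (hz : ‖z‖ ≤ r) : ‖ev z s‖ ≤ a := by
  refine le_trans (norm_tsum_le_tsum_norm (h.1.summable_norm hz)) (le_trans ?_ h.2)
  refine Summable.tsum_le_tsum (fun m => ?_) (h.1.summable_norm hz) h.1
  rw [norm_mul, norm_pow]
  gcongr

lemma Nb.add (hr : 0 ≤ r) (hs : Nb r s a) (ht : Nb r t b) : Nb r (s + t) (a + b) := by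
  have key : ∀ m, ‖coeff m (s + t)‖ * r ^ m ≤ ‖coeff m s‖ * r ^ m + ‖coeff m t‖ * r ^ m := by
    intro m
    rw [map_add, ← add_mul]
    gcongr
    exact norm_add_le _ _
  have hsum := hs.1.add ht.1
  have h1 : Cv r (s + t) := Summable.of_nonneg_of_le (fun _ => by positivity) key hsum
  refine ⟨h1, le_trans (Summable.tsum_le_tsum key h1 hsum) ?_⟩
  rw [Summable.tsum_add hs.1 ht.1]
  exact add_le_add hs.2 ht.2

lemma Nb.mul (hr : 0 ≤ r) (hs : Nb r s a) (ht : Nb r t b) : Nb r (s * t) (a * b) := by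
  set f : ℕ → ℝ := fun m => ‖coeff m s‖ * r ^ m
  set g : ℕ → ℝ := fun m => ‖coeff m t‖ * r ^ m
  have hf0 : ∀ m, 0 ≤ f m := fun m => by positivity
  have hg0 : ∀ m, 0 ≤ g m := fun m => by positivity
  have hf1 : Summable f := hs.1
  have hg1 : Summable g := ht.1
  have hfn : Summable fun m => ‖f m‖ := hf1.norm
  have hgn : Summable fun m => ‖g m‖ := hg1.norm
  have key : ∀ m, ‖coeff m (s * t)‖ * r ^ m ≤
      ∑ kl ∈ Finset.HasAntidiagonal.antidiagonal m, f kl.1 * g kl.2 := by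
    intro m
    rw [coeff_mul]
    refine le_trans (mul_le_mul_of_nonneg_right (norm_sum_le _ _) (by positivity)) ?_
    rw [Finset.sum_mul]
    refine Finset.sum_le_sum fun kl hkl => le_of_eq ?_
    rw [Finset.HasAntidiagonal.mem_antidiagonal] at hkl
    simp only [f, g, norm_mul, ← hkl, pow_add]
    ring
  have hsum : Summable fun m => ∑ kl ∈ Finset.HasAntidiagonal.antidiagonal m, f kl.1 * g kl.2 :=
    (summable_norm_sum_mul_antidiagonal_of_summable_norm hfn hgn).of_norm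
  have h1 : Cv r (s * t) := Summable.of_nonneg_of_le (fun _ => by positivity) key hsum
  refine ⟨h1, le_trans (Summable.tsum_le_tsum key h1 hsum) ?_⟩
  rw [← tsum_mul_tsum_eq_tsum_sum_antidiagonal_of_summable_norm hfn hgn]
  exact mul_le_mul hs.2 ht.2 (tsum_nonneg hg0) (hs.nonneg hr)

lemma nb_monomial (hr : 0 ≤ r) (k : ℕ) (c : ℂ) : Nb r (monomial k c) (‖c‖ * r ^ k) := by
  have h : (fun m => ‖coeff m (monomial k c : ℂ⟦X⟧)‖ * r ^ m) =
      fun m => if m = k then ‖c‖ * r ^ k else 0 := by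
    funext m
    rw [coeff_monomial]
    split_ifs with h
    · rw [h]
    · simp
  refine ⟨?_, ?_⟩
  · unfold Cv
    rw [h]
    exact (hasSum_ite_eq k _).summable
  · rw [h, tsum_ite_eq]

lemma nb_C (hr : 0 ≤ r) (c : ℂ) : Nb r (C c) ‖c‖ := by
  have := nb_monomial hr 0 c
  simpa using this

lemma nb_one (hr : 0 ≤ r) : Nb r 1 1 := by simpa using nb_C hr 1

lemma nb_zero (hr : 0 ≤ r) : Nb r 0 0 := by simpa using nb_C hr 0

lemma nb_X (hr : 0 ≤ r) : Nb r X r := by
  have := nb_monomial hr 1 1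
  simpa [← X_pow_eq] using this

lemma Nb.pow (hr : 0 ≤ r) (hs : Nb r s a) (k : ℕ) : Nb r (s ^ k) (a ^ k) := by
  induction k with
  | zero => simpa using nb_one hr
  | succ k ih => rw [pow_succ, pow_succ]; exact ih.mul hr hs

lemma Nb.smul (hr : 0 ≤ r) (hs : Nb r s a) (c : ℂ) : Nb r (c • s) (‖c‖ * a) := by
  rw [smul_eq_C_mul]; exact (nb_C hr c).mul hr hs

lemma Nb.neg (hr : 0 ≤ r) (hs : Nb r s a) : Nb r (-s) a := by
  have := hs.smul hr (-1)
  simpa using this

lemma nb_sum {ι : Type*} (hr : 0 ≤ r) (S : Finset ι) {f : ι → ℂ⟦X⟧} {b : ι → ℝ}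
    (h : ∀ i ∈ S, Nb r (f i) (b i)) : Nb r (∑ i ∈ S, f i) (∑ i ∈ S, b i) := by
  classical
  induction S using Finset.induction_on with
  | empty => simpa using nb_zero hr
  | insert i S hi ih =>
    rw [Finset.sum_insert hi, Finset.sum_insert hi]
    exact (h i (by simp)).add hr (ih fun j hj => h j (by simp [hj]))

lemma nb_prod {ι : Type*} (hr : 0 ≤ r) (S : Finset ι) {f : ι → ℂ⟦X⟧} {b : ι → ℝ}
    (h : ∀ i ∈ S, Nb r (f i) (b i)) : Nb r (∏ i ∈ S, f i) (∏ i ∈ S, b i) := by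
  classical
  induction S using Finset.induction_on with
  | empty => simpa using nb_one hr
  | insert i S hi ih =>
    rw [Finset.prod_insert hi, Finset.prod_insert hi]
    exact (h i (by simp)).mul hr (ih fun j hj => h j (by simp [hj]))

lemma coe_eq_sum (p : Polynomial ℂ) :
    (p : ℂ⟦X⟧) = ∑ k ∈ p.support, monomial k (p.coeff k) := by
  ext m
  rw [Polynomial.coeff_coe, map_sum]
  simp only [coeff_monomial]
  rw [Finset.sum_ite_eq]
  split_ifs with h
  · rfl
  · simpa using h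

lemma nb_poly (hr : 0 ≤ r) (p : Polynomial ℂ) :
    Nb r (p : ℂ⟦X⟧) (∑ k ∈ p.support, ‖p.coeff k‖ * r ^ k) := by
  rw [coe_eq_sum]
  exact nb_sum hr _ fun k _ => nb_monomial hr k _

lemma Cv.add (hr : 0 ≤ r) (hs : Cv r s) (ht : Cv r t) : Cv r (s + t) := (hs.nb.add hr ht.nb).1
lemma Cv.mul (hr : 0 ≤ r) (hs : Cv r s) (ht : Cv r t) : Cv r (s * t) := (hs.nb.mul hr ht.nb).1
lemma Cv.neg (hr : 0 ≤ r) (hs : Cv r s) : Cv r (-s) := (hs.nb.neg hr).1
lemma Cv.sub (hr : 0 ≤ r) (hs : Cv r s) (ht : Cv r t) : Cv r (s - t) := by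
  rw [sub_eq_add_neg]; exact hs.add hr (ht.neg hr)
lemma Cv.smul (hr : 0 ≤ r) (hs : Cv r s) (c : ℂ) : Cv r (c • s) := (hs.nb.smul hr c).1
lemma Cv.pow (hr : 0 ≤ r) (hs : Cv r s) (k : ℕ) : Cv r (s ^ k) := (hs.nb.pow hr k).1
lemma cv_poly (hr : 0 ≤ r) (p : Polynomial ℂ) : Cv r (p : ℂ⟦X⟧) := (nb_poly hr p).1
lemma cv_C (hr : 0 ≤ r) (c : ℂ) : Cv r (C c) := (nb_C hr c).1
lemma cv_X (hr : 0 ≤ r) : Cv r X := (nb_X hr).1
lemma cv_sum {ι : Type*} (hr : 0 ≤ r) (S : Finset ι) {f : ι → ℂ⟦X⟧}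
    (h : ∀ i ∈ S, Cv r (f i)) : Cv r (∑ i ∈ S, f i) :=
  (nb_sum hr S fun i hi => (h i hi).nb).1
lemma cv_prod {ι : Type*} (hr : 0 ≤ r) (S : Finset ι) {f : ι → ℂ⟦X⟧}
    (h : ∀ i ∈ S, Cv r (f i)) : Cv r (∏ i ∈ S, f i) :=
  (nb_prod hr S fun i hi => (h i hi).nb).1

lemma ev_add (hs : Cv r s) (ht : Cv r t) (hz : ‖z‖ ≤ r) : ev z (s + t) = ev z s + ev z t := by
  unfold ev
  rw [← Summable.tsum_add (hs.summable hz) (ht.summable hz)]
  simp [add_mul]

lemma ev_mul (hs : Cv r s) (ht : Cv r t) (hz : ‖z‖ ≤ r) : ev z (s * t) = ev z s * ev z t := by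
  unfold ev
  rw [tsum_mul_tsum_eq_tsum_sum_antidiagonal_of_summable_norm (hs.summable_norm hz)
    (ht.summable_norm hz)]
  refine tsum_congr fun m => ?_
  rw [coeff_mul, Finset.sum_mul]
  refine Finset.sum_congr rfl fun kl hkl => ?_
  rw [Finset.HasAntidiagonal.mem_antidiagonal] at hkl
  rw [← hkl, pow_add]; ring

lemma ev_monomial (k : ℕ) (c : ℂ) : ev z (monomial k c) = c * z ^ k := by
  unfold ev
  rw [tsum_eq_single k]
  · simp
  · intro m hm
    simp [coeff_monomial, hm]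

lemma ev_C (c : ℂ) : ev z (C c) = c := by simpa using ev_monomial (z := z) 0 c
lemma ev_one : ev z 1 = 1 := by simpa using ev_C (z := z) 1
lemma ev_zero : ev z 0 = 0 := by simp [ev]
lemma ev_X : ev z X = z := by
  have := ev_monomial (z := z) 1 1
  simpa [← X_pow_eq] using this

lemma ev_smul (c : ℂ) : ev z (c • s) = c * ev z s := by
  unfold ev
  rw [← tsum_mul_left]
  refine tsum_congr fun m => ?_
  simp [mul_assoc]

lemma ev_neg : ev z (-s) = - ev z s := by
  have := ev_smul (z := z) (s := s) (-1)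
  simpa using this

lemma ev_sub (hs : Cv r s) (ht : Cv r t) (hz : ‖z‖ ≤ r) : ev z (s - t) = ev z s - ev z t := by
  have hr : 0 ≤ r := (norm_nonneg _).trans hz
  rw [sub_eq_add_neg, ev_add hs (ht.neg hr) hz, ev_neg, sub_eq_add_neg]

lemma ev_sum {ι : Type*} (S : Finset ι) {f : ι → ℂ⟦X⟧} (h : ∀ i ∈ S, Cv r (f i))
    (hz : ‖z‖ ≤ r) : ev z (∑ i ∈ S, f i) = ∑ i ∈ S, ev z (f i) := by
  classical
  have hr : 0 ≤ r := (norm_nonneg _).trans hz
  induction S using Finset.induction_on with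
  | empty => simp [ev_zero]
  | insert i S hi ih =>
    rw [Finset.sum_insert hi, Finset.sum_insert hi,
      ev_add (h i (by simp)) (cv_sum hr S fun j hj => h j (by simp [hj])) hz,
      ih fun j hj => h j (by simp [hj])]

lemma ev_prod {ι : Type*} (S : Finset ι) {f : ι → ℂ⟦X⟧} (h : ∀ i ∈ S, Cv r (f i))
    (hz : ‖z‖ ≤ r) : ev z (∏ i ∈ S, f i) = ∏ i ∈ S, ev z (f i) := by
  classical
  have hr : 0 ≤ r := (norm_nonneg _).trans hz
  induction S using Finset.induction_on with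
  | empty => simp [ev_one]
  | insert i S hi ih =>
    rw [Finset.prod_insert hi, Finset.prod_insert hi,
      ev_mul (h i (by simp)) (cv_prod hr S fun j hj => h j (by simp [hj])) hz,
      ih fun j hj => h j (by simp [hj])]

lemma ev_pow (hs : Cv r s) (hz : ‖z‖ ≤ r) (k : ℕ) : ev z (s ^ k) = ev z s ^ k := by
  have hr : 0 ≤ r := (norm_nonneg _).trans hz
  induction k with
  | zero => simp [ev_one]
  | succ k ih => rw [pow_succ, ev_mul (hs.pow hr k) hs hz, ih, pow_succ]

lemma ev_poly (p : Polynomial ℂ) : ev z (p : ℂ⟦X⟧) = p.eval z := by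
  rw [coe_eq_sum, ev_sum (r := ‖z‖) _ (fun k _ => (nb_monomial (norm_nonneg z) k _).1) le_rfl,
    Polynomial.eval_eq_sum, Polynomial.sum]
  simp [ev_monomial]

lemma cv_aeval {V : Type*} (hr : 0 ≤ r) {y : V → ℂ⟦X⟧} (hy : ∀ v, Cv r (y v))
    (P : MvPolynomial V ℂ) : Cv r (MvPolynomial.aeval y P) := by
  induction P using MvPolynomial.induction_on with
  | C c => simpa [PowerSeries.algebraMap_apply] using cv_C hr c
  | add p q hp hq => rw [map_add]; exact hp.add hr hq
  | mul_X p v hp => rw [map_mul, MvPolynomial.aeval_X]; exact hp.mul hr (hy v)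

lemma ev_aeval {V : Type*} {y : V → ℂ⟦X⟧} (hy : ∀ v, Cv r (y v)) (hz : ‖z‖ ≤ r)
    (P : MvPolynomial V ℂ) :
    ev z (MvPolynomial.aeval y P) = MvPolynomial.aeval (fun v => ev z (y v)) P := by
  have hr : 0 ≤ r := (norm_nonneg _).trans hz
  induction P using MvPolynomial.induction_on with
  | C c => simp [PowerSeries.algebraMap_apply, ev_C]
  | add p q hp hq =>
    rw [map_add, map_add, ev_add (cv_aeval hr hy p) (cv_aeval hr hy q) hz, hp, hq]
  | mul_X p v hp =>
    rw [map_mul, map_mul, MvPolynomial.aeval_X, MvPolynomial.aeval_X,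
      ev_mul (cv_aeval hr hy p) (hy v) hz, hp]

/-- geometric coefficient bound gives a norm bound -/
lemma nb_of_geom {κ : ℝ} (hr : 0 ≤ r) (hκ : 0 ≤ κ) (hκr : κ * r ≤ 1 / 2)
    (h : ∀ m, ‖coeff m s‖ ≤ b * κ ^ m) : Nb r s (2 * b) := by
  have hb : 0 ≤ b := by simpa using (norm_nonneg _).trans (h 0)
  have key : ∀ m, ‖coeff m s‖ * r ^ m ≤ b * (1 / 2) ^ m := by
    intro m
    calc ‖coeff m s‖ * r ^ m ≤ b * κ ^ m * r ^ m := by gcongr; exact h m
      _ = b * (κ * r) ^ m := by rw [mul_pow]; ring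
      _ ≤ b * (1 / 2) ^ m := by gcongr
  have hsum : HasSum (fun m : ℕ => b * (1 / 2 : ℝ) ^ m) (b * 2) := hasSum_geometric_two.mul_left b
  have h1 : Cv r s := Summable.of_nonneg_of_le (fun _ => by positivity) key hsum.summable
  refine ⟨h1, le_trans (Summable.tsum_le_tsum key h1 hsum.summable) ?_⟩
  rw [hsum.tsum_eq]; linarith

/-- sum of a series of power series -/
noncomputable def tsumS (f : ℕ → ℂ⟦X⟧) : ℂ⟦X⟧ := mk fun m => ∑' j, coeff m (f j)

lemma tsumS_aux (hr : 0 < r) {f : ℕ → ℂ⟦X⟧} {b : ℕ → ℝ} (hf : ∀ j, Nb r (f j) (b j))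
    (hb : Summable b) :
    Summable (fun p : ℕ × ℕ => ‖coeff p.2 (f p.1)‖ * r ^ p.2) := by
  rw [summable_prod_of_nonneg (fun _ => by positivity)]
  refine ⟨fun j => (hf j).1, ?_⟩
  exact Summable.of_nonneg_of_le (fun j => tsum_nonneg fun _ => by positivity)
    (fun j => (hf j).2) hb

lemma nb_tsumS (hr : 0 < r) {f : ℕ → ℂ⟦X⟧} {b : ℕ → ℝ} (hf : ∀ j, Nb r (f j) (b j))
    (hb : Summable b) : Nb r (tsumS f) (∑' j, b j) := by
  have h := tsumS_aux hr hf hb
  have h' := h.prod_symm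
  have hm : ∀ m, Summable fun j => ‖coeff m (f j)‖ * r ^ m := fun m => h'.prod_factor m
  have hm' : ∀ m, Summable fun j => ‖coeff m (f j)‖ := fun m =>
    (summable_mul_right_iff (pow_pos hr m).ne').1 (hm m)
  have key : ∀ m, ‖coeff m (tsumS f)‖ * r ^ m ≤ ∑' j, ‖coeff m (f j)‖ * r ^ m := by
    intro m
    rw [tsumS, coeff_mk, tsum_mul_right]
    gcongr
    exact norm_tsum_le_tsum_norm (hm' m)
  have hsum : Summable fun m => ∑' j, ‖coeff m (f j)‖ * r ^ m := h'.prod
  have h1 : Cv r (tsumS f) := Summable.of_nonneg_of_le (fun _ => by positivity) key hsum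
  refine ⟨h1, le_trans (Summable.tsum_le_tsum key h1 hsum) ?_⟩
  rw [Summable.tsum_comm (f := fun j m => ‖coeff m (f j)‖ * r ^ m) h]
  exact Summable.tsum_le_tsum (fun j => (hf j).2) h.prod hb

lemma ev_tsumS (hr : 0 < r) {f : ℕ → ℂ⟦X⟧} {b : ℕ → ℝ} (hf : ∀ j, Nb r (f j) (b j))
    (hb : Summable b) (hz : ‖z‖ ≤ r) : ev z (tsumS f) = ∑' j, ev z (f j) := by
  have h := tsumS_aux hr hf hb
  have h2 : Summable (fun p : ℕ × ℕ => coeff p.2 (f p.1) * z ^ p.2) := by
    refine Summable.of_norm (Summable.of_nonneg_of_le (fun _ => norm_nonneg _) (fun p => ?_) h)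
    rw [norm_mul, norm_pow]
    gcongr
  unfold ev
  rw [← Summable.tsum_comm (f := fun j m => coeff m (f j) * z ^ m) h2]
  refine tsum_congr fun m => ?_
  rw [tsumS, coeff_mk, tsum_mul_right]

lemma Cv.derivative {r' : ℝ} (h : Cv r s) (h0 : 0 ≤ r') (hr : r' < r) :
    Cv r' (d⁄dX ℂ s) := by
  have hr0 : 0 < r := lt_of_le_of_lt h0 hr
  set q := r' / r with hq
  have hq0 : 0 ≤ q := by positivity
  have hq1 : q < 1 := (div_lt_one hr0).2 hr
  have hsum : Summable fun m : ℕ => ((m : ℝ) + 1) * q ^ m := by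
    have h1 := summable_pow_mul_geometric_of_norm_lt_one (R := ℝ) 1 (r := q)
      (by rwa [Real.norm_of_nonneg hq0])
    have h2 := summable_geometric_of_lt_one hq0 hq1
    simpa [add_mul] using h1.add h2
  set B := ∑' m, ‖coeff m s‖ * r ^ m
  refine Summable.of_nonneg_of_le (fun _ => by positivity) (fun m => ?_) (hsum.mul_left (B / r))
  have hB := h.nb.coeff_le hr0.le (m + 1)
  rw [coeff_derivative, norm_mul]
  have hn : ‖((m : ℂ) + 1)‖ = (m : ℝ) + 1 := by
    rw [← Nat.cast_succ, Complex.norm_natCast]; push_cast; ring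
  rw [hn]
  have : r' = q * r := by rw [hq]; field_simp
  rw [this, mul_pow]
  calc ‖coeff (m + 1) s‖ * (↑m + 1) * (q ^ m * r ^ m)
      = (‖coeff (m + 1) s‖ * r ^ (m + 1)) / r * ((↑m + 1) * q ^ m) := by
        field_simp
        ring
    _ ≤ B / r * ((↑m + 1) * q ^ m) := by gcongr

lemma hasDerivAt_ev (h : Cv r s) (hz : ‖z‖ < r) :
    HasDerivAt (fun w => ev w s) (ev z (d⁄dX ℂ s)) z := by
  obtain ⟨r', h1, h2⟩ := exists_between hz
  have hr' : 0 < r' := lt_of_le_of_lt (norm_nonneg _) h1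
  have hd := h.derivative hr'.le h2
  have hu : Summable fun m : ℕ => ‖coeff m s‖ * m * r' ^ (m - 1) := by
    rw [← summable_nat_add_iff 1]
    refine hd.congr fun m => ?_
    rw [coeff_derivative, norm_mul, ← Nat.cast_succ, Complex.norm_natCast]
    simp
  have := hasDerivAt_tsum_of_isPreconnected (𝕜 := ℂ) (t := Metric.ball 0 r')
    (g := fun m w => coeff m s * w ^ m) (g' := fun m w => coeff m s * (m * w ^ (m - 1)))
    (y₀ := 0) (y := z) hu Metric.isOpen_ball (convex_ball _ _).isPreconnected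
    (fun m y _ => (hasDerivAt_pow m y).const_mul _)
    (fun m y hy => by
      have hy' : ‖y‖ ≤ r' := by simpa using (mem_ball_zero_iff.1 hy).le
      rw [norm_mul, norm_mul, norm_pow, Complex.norm_natCast, ← mul_assoc]
      gcongr)
    (Metric.mem_ball_self hr') (h.summable (by simpa using hr'.le.trans h2.le))
    (by simpa using h1)
  refine HasDerivAt.congr_deriv this (Eq.symm ?_)
  have hs2 : Summable fun m : ℕ => coeff m s * ((m : ℂ) * z ^ (m - 1)) := by
    refine Summable.of_norm (Summable.of_nonneg_of_le (fun _ => norm_nonneg _) (fun m => ?_) hu)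
    rw [norm_mul, norm_mul, norm_pow, Complex.norm_natCast, ← mul_assoc]
    gcongr
  rw [hs2.tsum_eq_zero_add]
  simp only [ev, coeff_derivative, Nat.cast_zero, zero_mul, mul_zero, zero_add]
  refine tsum_congr fun m => ?_
  push_cast
  simp [mul_assoc]

lemma ev_at_zero (s : ℂ⟦X⟧) : ev 0 s = coeff 0 s := by
  unfold ev
  rw [tsum_eq_single 0]
  · simp
  · intro m hm; simp [hm]

lemma analyticAt_ev (h : Cv r s) (hz : ‖z‖ < r) : AnalyticAt ℂ (fun w => ev w s) z := by
  refine DifferentiableOn.analyticAt (s := Metric.ball 0 r) (fun w hw => ?_)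
    (Metric.isOpen_ball.mem_nhds (by simpa using hz))
  exact (hasDerivAt_ev h (by simpa using hw)).differentiableAt.differentiableWithinAt

lemma eq_zero_of_ev_eventually (m : ℕ) : ∀ (r : ℝ) (s : ℂ⟦X⟧), 0 < r → Cv r s →
    (∀ᶠ w in 𝓝 (0 : ℂ), ev w s = 0) → coeff m s = 0 := by
  induction m with
  | zero =>
    intro r s _ _ h
    rw [← ev_at_zero]
    exact h.self_of_nhds
  | succ m ih =>
    intro r s hr hs h
    have h1 : ∀ᶠ w in 𝓝 (0 : ℂ), ev w (d⁄dX ℂ s) = 0 := by
      have h2 : ∀ᶠ w in 𝓝 (0 : ℂ), ‖w‖ < r := by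
        have := Metric.ball_mem_nhds (0 : ℂ) hr
        filter_upwards [this] with w hw using by simpa using hw
      filter_upwards [h.eventually_nhds, h2] with w hw hw2
      have h3 := hasDerivAt_ev hs hw2
      have h4 : HasDerivAt (fun w => ev w s) 0 w :=
        (hasDerivAt_const w (0 : ℂ)).congr_of_eventuallyEq hw
      exact h3.unique h4
    have := ih (r / 2) _ (by positivity) (hs.derivative (by positivity) (by linarith)) h1
    rw [coeff_derivative] at this
    rcases mul_eq_zero.1 this with h5 | h5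
    · exact h5
    · exact absurd h5 (by exact_mod_cast Nat.succ_ne_zero m)

lemma eq_zero_of_ev_frequently (hr : 0 < r) (hs : Cv r s)
    (h : ∃ᶠ w in 𝓝[≠] (0 : ℂ), ev w s = 0) : s = 0 := by
  have ha := analyticAt_ev (z := 0) hs (by simpa using hr)
  have := ha.frequently_zero_iff_eventually_zero.1 h
  ext m
  simpa using eq_zero_of_ev_eventually m r s hr hs this

lemma cv_of_geom {κ : ℝ} (hr : 0 ≤ r) (hκ : 0 ≤ κ) (hκr : κ * r < 1)
    (h : ∀ m, ‖coeff m s‖ ≤ b * κ ^ m) : Cv r s := by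
  have key : ∀ m, ‖coeff m s‖ * r ^ m ≤ b * (κ * r) ^ m := by
    intro m
    calc ‖coeff m s‖ * r ^ m ≤ b * κ ^ m * r ^ m := by gcongr; exact h m
      _ = b * (κ * r) ^ m := by rw [mul_pow]; ring
  exact Summable.of_nonneg_of_le (fun _ => by positivity) key
    ((summable_geometric_of_lt_one (by positivity) hκr).mul_left b)

/-- division by `1 - t X` -/
lemma schwarz_step {K t : ℝ} (hK : 0 < K) (hKt : K < t) (h : ∀ m, ‖coeff m s‖ ≤ b * K ^ m)
    (h0 : ev ((t : ℂ)⁻¹) s = 0) :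
    ∃ g : ℂ⟦X⟧, s = (1 - C (t : ℂ) * X) * g ∧ ∀ m, ‖coeff m g‖ ≤ b * (K / (t - K)) * K ^ m := by
  have ht : 0 < t := hK.trans hKt
  have htc : (t : ℂ) ≠ 0 := by exact_mod_cast ht.ne'
  have hb : 0 ≤ b := by simpa using (norm_nonneg _).trans (h 0)
  set ξ : ℂ := (t : ℂ)⁻¹ with hξ
  have hξn : ‖ξ‖ = t⁻¹ := by rw [hξ, norm_inv, Complex.norm_real, Real.norm_of_nonneg ht.le]
  have hq : K / t < 1 := (div_lt_one ht).2 hKt
  have hq0 : 0 ≤ K / t := by positivity
  have hbd : ∀ m j, ‖coeff (j + m) s * ξ ^ j‖ ≤ b * K ^ m * (K / t) ^ j := by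
    intro m j
    rw [norm_mul, norm_pow, hξn]
    calc ‖coeff (j + m) s‖ * t⁻¹ ^ j ≤ b * K ^ (j + m) * t⁻¹ ^ j := by gcongr; exact h _
      _ = _ := by rw [div_eq_mul_inv, mul_pow, pow_add]; ring
  have hgeo : ∀ m, HasSum (fun j : ℕ => b * K ^ m * (K / t) ^ j) (b * K ^ m * (1 - K / t)⁻¹) :=
    fun m => (hasSum_geometric_of_lt_one hq0 hq).mul_left _
  have hsumn : ∀ m, Summable fun j => ‖coeff (j + m) s * ξ ^ j‖ := fun m =>
    Summable.of_nonneg_of_le (fun _ => norm_nonneg _) (hbd m) (hgeo m).summable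
  set τ : ℕ → ℂ := fun m => ∑' j, coeff (j + m) s * ξ ^ j with hτ
  have hrec : ∀ m, τ m = coeff m s + ξ * τ (m + 1) := by
    intro m
    simp only [hτ]
    rw [(hsumn m).of_norm.tsum_eq_zero_add, ← tsum_mul_left]
    simp only [zero_add, pow_zero, mul_one]
    congr 1
    refine tsum_congr fun j => ?_
    rw [show j + 1 + m = j + (m + 1) by ring]; ring
  have hτ0 : τ 0 = 0 := by simpa [hτ, ev] using h0
  refine ⟨mk fun m => -(ξ * τ (m + 1)), ?_, fun m => ?_⟩
  · ext m
    rw [sub_mul, one_mul, map_sub, mul_assoc, coeff_C_mul, coeff_mk]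
    cases m with
    | zero =>
      have := hrec 0
      rw [hτ0] at this
      simp only [coeff_zero_X_mul, mul_zero, sub_zero]
      linear_combination -this
    | succ m =>
      rw [coeff_succ_X_mul, coeff_mk]
      have h1 := hrec (m + 1)
      have h2 : (t : ℂ) * ξ = 1 := mul_inv_cancel₀ htc
      linear_combination -h1 - τ (m + 1) * h2
  · rw [coeff_mk, norm_neg, norm_mul, hξn]
    have h1 : ‖τ (m + 1)‖ ≤ b * K ^ (m + 1) * (1 - K / t)⁻¹ :=
      tsum_of_norm_bounded (hgeo (m + 1)) (hbd (m + 1))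
    calc t⁻¹ * ‖τ (m + 1)‖ ≤ t⁻¹ * (b * K ^ (m + 1) * (1 - K / t)⁻¹) := by gcongr
      _ = _ := by
        have : t - K ≠ 0 := by linarith
        field_simp
        ring

lemma schwarz_aux {K t : ℝ} (hK : 0 < K) (hKt : K < t) (M : ℕ) : ∀ (s : ℂ⟦X⟧) (b : ℝ),
    (∀ m, ‖coeff m s‖ ≤ b * K ^ m) →
    ((fun z => ev z s) =O[𝓝[≠] ((t : ℂ)⁻¹)] fun z => (1 - (t : ℂ) * z) ^ M) →
    ‖coeff 0 s‖ ≤ b * (K / (t - K)) ^ M := by
  have ht : 0 < t := hK.trans hKt
  have htc : (t : ℂ) ≠ 0 := by exact_mod_cast ht.ne'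
  have hξn : ‖(t : ℂ)⁻¹‖ = t⁻¹ := by
    rw [norm_inv, Complex.norm_real, Real.norm_of_nonneg ht.le]
  obtain ⟨ρ, hρ1, hρ2⟩ : ∃ ρ, t⁻¹ < ρ ∧ ρ < K⁻¹ := exists_between (inv_strictAnti₀ hK hKt)
  have hρ0 : 0 ≤ ρ := le_trans (by positivity) hρ1.le
  have hKρ : K * ρ < 1 := by
    calc K * ρ < K * K⁻¹ := by gcongr
      _ = 1 := mul_inv_cancel₀ hK.ne'
  induction M with
  | zero => intro s b h _; simpa using h 0
  | succ M ih =>
    intro s b h hO
    have hs : Cv ρ s := cv_of_geom hρ0 hK.le hKρ h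
    have hcont : ContinuousAt (fun z => ev z s) ((t : ℂ)⁻¹) :=
      (hasDerivAt_ev hs (by rwa [hξn])).continuousAt
    have hlim : Tendsto (fun z : ℂ => (1 - (t : ℂ) * z) ^ (M + 1)) (𝓝[≠] ((t : ℂ)⁻¹)) (𝓝 0) := by
      have : ContinuousAt (fun z : ℂ => (1 - (t : ℂ) * z) ^ (M + 1)) ((t : ℂ)⁻¹) := by fun_prop
      have h2 := this.tendsto.mono_left (nhdsWithin_le_nhds (s := {((t : ℂ)⁻¹)}ᶜ))
      simpa [mul_inv_cancel₀ htc] using h2
    have h0 : ev ((t : ℂ)⁻¹) s = 0 :=
      tendsto_nhds_unique (hcont.tendsto.mono_left nhdsWithin_le_nhds) (hO.trans_tendsto hlim)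
    obtain ⟨g, hg, hgb⟩ := schwarz_step hK hKt h h0
    have hgc : Cv ρ g := cv_of_geom hρ0 hK.le hKρ hgb
    have hev : ∀ᶠ z in 𝓝[≠] ((t : ℂ)⁻¹), ev z s = (1 - (t : ℂ) * z) * ev z g ∧
        (1 - (t : ℂ) * z) ≠ 0 := by
      have h1 : ∀ᶠ z in 𝓝 ((t : ℂ)⁻¹), ‖z‖ < ρ :=
        continuous_norm.continuousAt.eventually_lt continuousAt_const (by rwa [hξn])
      filter_upwards [nhdsWithin_le_nhds h1, self_mem_nhdsWithin] with z hz hz'
      refine ⟨?_, fun h => hz' ?_⟩
      · have hc : Cv ρ (C (t : ℂ) * X) := (cv_C hρ0 _).mul hρ0 (cv_X hρ0)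
        rw [hg, ev_mul ((nb_one hρ0).1.sub hρ0 hc) hgc hz.le, ev_sub (nb_one hρ0).1 hc hz.le,
          ev_mul (cv_C hρ0 _) (cv_X hρ0) hz.le, ev_one, ev_C, ev_X]
      · rw [Set.mem_singleton_iff]
        field_simp
        linear_combination -h
    have hO' : (fun z => ev z g) =O[𝓝[≠] ((t : ℂ)⁻¹)] fun z => (1 - (t : ℂ) * z) ^ M := by
      obtain ⟨c, hc⟩ := hO.bound
      refine Asymptotics.IsBigO.of_bound c ?_
      filter_upwards [hc, hev] with z h1 h2
      rw [h2.1, pow_succ', norm_mul, norm_mul, mul_left_comm] at h1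
      exact le_of_mul_le_mul_left h1 (norm_pos_iff.2 h2.2)
    have := ih g _ hgb hO'
    have h3 : coeff 0 s = coeff 0 g := by rw [hg]; simp
    rw [h3, pow_succ']
    linarith [mul_assoc b (K / (t - K)) ((K / (t - K)) ^ M)]

/-- Schwarz lemma for the first possibly nonzero coefficient -/
lemma schwarz {K t : ℝ} (hK : 0 < K) (hKt : K < t) {M M' : ℕ} (h : ∀ m, ‖coeff m s‖ ≤ b * K ^ m)
    (hO : (fun z => ev z s) =O[𝓝[≠] ((t : ℂ)⁻¹)] fun z => (1 - (t : ℂ) * z) ^ M')
    (h0 : ∀ m < M, coeff m s = 0) : ‖coeff M s‖ ≤ b * K ^ M * (K / (t - K)) ^ M' := by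
  have ht : 0 < t := hK.trans hKt
  have htc : (t : ℂ) ≠ 0 := by exact_mod_cast ht.ne'
  have hξn : ‖(t : ℂ)⁻¹‖ = t⁻¹ := by
    rw [norm_inv, Complex.norm_real, Real.norm_of_nonneg ht.le]
  obtain ⟨g, hg⟩ := X_pow_dvd_iff.2 h0
  have hc : ∀ m, coeff m g = coeff (m + M) s := fun m => by rw [hg, coeff_X_pow_mul]
  have hgb : ∀ m, ‖coeff m g‖ ≤ b * K ^ M * K ^ m := fun m => by
    rw [hc, mul_assoc, ← pow_add, add_comm M m]; exact h _
  obtain ⟨ρ, hρ1, hρ2⟩ : ∃ ρ, t⁻¹ < ρ ∧ ρ < K⁻¹ := exists_between (inv_strictAnti₀ hK hKt)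
  have hρ0 : 0 ≤ ρ := le_trans (by positivity) hρ1.le
  have hKρ : K * ρ < 1 := by
    calc K * ρ < K * K⁻¹ := by gcongr
      _ = 1 := mul_inv_cancel₀ hK.ne'
  have hgc : Cv ρ g := cv_of_geom hρ0 hK.le hKρ hgb
  have hO' : (fun z => ev z g) =O[𝓝[≠] ((t : ℂ)⁻¹)] fun z => (1 - (t : ℂ) * z) ^ M' := by
    have h1 : ∀ᶠ z in 𝓝 ((t : ℂ)⁻¹), ‖z‖ < ρ :=
      continuous_norm.continuousAt.eventually_lt continuousAt_const (by rwa [hξn])
    have h2 : ∀ᶠ z in 𝓝 ((t : ℂ)⁻¹), z ≠ 0 := eventually_ne_nhds (inv_ne_zero htc)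
    have h3 : (fun z : ℂ => (z ^ M)⁻¹) =O[𝓝[≠] ((t : ℂ)⁻¹)] fun _ => (1 : ℂ) := by
      have : ContinuousAt (fun z : ℂ => (z ^ M)⁻¹) ((t : ℂ)⁻¹) :=
        ContinuousAt.inv₀ (by fun_prop) (pow_ne_zero _ (inv_ne_zero htc))
      exact (this.tendsto.mono_left nhdsWithin_le_nhds).isBigO_one ℂ
    have h4 := h3.mul hO
    simp only [one_mul] at h4
    refine h4.congr' ?_ EventuallyEq.rfl
    filter_upwards [nhdsWithin_le_nhds h1, nhdsWithin_le_nhds h2] with z hz hz'
    rw [hg, ev_mul ((cv_X hρ0).pow hρ0 M) hgc hz.le, ev_pow (cv_X hρ0) hz.le, ev_X]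
    field_simp
  have := schwarz_aux hK hKt M' g _ hgb hO'
  rwa [hc, zero_add] at this

/-- vanishing of the first coefficients gives a big-O bound at zero -/
lemma isBigO_ev_of_coeff (hr : 0 < r) (hs : Cv r s) {M : ℕ} (h0 : ∀ m < M, coeff m s = 0) :
    (fun z => ev z s) =O[𝓝 0] fun z : ℂ => z ^ M := by
  obtain ⟨g, hg⟩ := X_pow_dvd_iff.2 h0
  have hc : ∀ m, coeff m g = coeff (m + M) s := fun m => by rw [hg, coeff_X_pow_mul]
  have hgc : Cv r g := by
    have h1 : Summable fun m => ‖coeff (m + M) s‖ * r ^ (m + M) :=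
      (summable_nat_add_iff (f := fun m => ‖coeff m s‖ * r ^ m) M).2 hs
    refine (h1.mul_right (r ^ M)⁻¹).congr fun m => ?_
    rw [hc, pow_add]
    field_simp
  refine Asymptotics.IsBigO.of_bound (∑' m, ‖coeff m g‖ * r ^ m) ?_
  filter_upwards [Metric.ball_mem_nhds (0 : ℂ) hr] with z hz
  have hz' : ‖z‖ ≤ r := (mem_ball_zero_iff.1 hz).le
  rw [hg, ev_mul ((cv_X hr.le).pow hr.le M) hgc hz', ev_pow (cv_X hr.le) hz', ev_X, norm_mul,
    mul_comm]
  gcongr
  exact hgc.nb.norm_ev_le hz'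

end Pool.Agent.GPC

end MrgPart0

-- ======== part 1: formerly Pool.Agent.MP_cbf1af_ag.h26.GM
section MrgPart1

/-! The Gauss-Manin system of `y ^ 2 = f(x) (x - T)` and its flat alternating form. -/

namespace Pool.Agent.GPC
open Polynomial Matrix

variable {n : ℕ} (α : Fin n → ℂ)

noncomputable def f1 : ℂ[X] := ∏ k, (X - C (α k))
noncomputable def p1 (k : Fin n) : ℂ[X] := ∏ j ∈ Finset.univ.erase k, (X - C (α j))
noncomputable def pi1 (k : Fin n) : ℂ := (p1 α k).eval (α k)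
def vV (k : Fin n) : Fin n → ℂ := fun a => α k ^ (a : ℕ)
noncomputable def Cf : Matrix (Fin n) (Fin n) ℂ := Matrix.of fun k b => (p1 α k).coeff b
noncomputable def lamV (k : Fin n) : Fin n → ℂ :=
  fun b => (derivative (f1 α) - p1 α k).coeff b / (2 * pi1 α k)
noncomputable def Em (k : Fin n) : Matrix (Fin n) (Fin n) ℂ := vecMulVec (vV α k) (lamV α k)
noncomputable def Am (T : ℂ) : Matrix (Fin n) (Fin n) ℂ := ∑ k, (T - α k)⁻¹ • Em α k
noncomputable def Nm : Matrix (Fin n) (Fin n) ℂ[X] :=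
  Matrix.of fun a b => ∑ k, p1 α k * C (Em α k a b)
noncomputable def Kp (T : ℂ) : Matrix (Fin n) (Fin n) ℂ :=
  Matrix.of fun k m => ((α k - T) / pi1 α m + (α m - T) / pi1 α k) / (2 * (α k - α m))
noncomputable def Kt (T : ℂ) : Matrix (Fin n) (Fin n) ℂ := (Cf α)ᵀ * Kp α T * Cf α

/-- `Y` solves the system on `O` -/
def Sol (O : Set ℂ) (Y : ℂ → Matrix (Fin n) (Fin n) ℂ) : Prop :=
  ∀ T ∈ O, ∀ a b, HasDerivAt (fun z => Y z a b) ((Am α T * Y T) a b) T

lemma f1_eq (k : Fin n) : f1 α = (X - C (α k)) * p1 α k :=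
  (Finset.mul_prod_erase _ (fun j => X - C (α j)) (Finset.mem_univ k)).symm

lemma der_f1 : derivative (f1 α) = ∑ k, p1 α k := by
  simp [f1, p1, derivative_prod_finset]

lemma f1_monic : (f1 α).Monic := monic_prod_of_monic _ _ fun _ _ => monic_X_sub_C _

lemma natDegree_f1 : (f1 α).natDegree = n := by
  rw [f1, natDegree_prod_of_monic _ _ fun _ _ => monic_X_sub_C _]; simp

lemma natDegree_p1 (k : Fin n) : (p1 α k).natDegree = n - 1 := by
  rw [p1, natDegree_prod_of_monic _ _ fun _ _ => monic_X_sub_C _]; simp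

lemma natDegree_p1_lt (k : Fin n) : (p1 α k).natDegree < n := by
  rw [natDegree_p1]; have := k.2; omega

lemma eval_p1_ne {k j : Fin n} (h : j ≠ k) : (p1 α k).eval (α j) = 0 := by
  rw [p1, eval_prod]
  exact Finset.prod_eq_zero (Finset.mem_erase.2 ⟨h, Finset.mem_univ _⟩) (by simp)

lemma eval_f1 (T : ℂ) : (f1 α).eval T = ∏ k, (T - α k) := by simp [f1, eval_prod]

lemma eval_f1_ne {T : ℂ} (h : ∀ k, T ≠ α k) : (f1 α).eval T ≠ 0 := by
  rw [eval_f1]; exact Finset.prod_ne_zero_iff.2 fun k _ => sub_ne_zero.2 (h k)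

lemma natDegree_lam (k : Fin n) : (derivative (f1 α) - p1 α k).natDegree < n := by
  refine lt_of_le_of_lt (natDegree_sub_le _ _) (max_lt ?_ (natDegree_p1_lt α k))
  have := natDegree_derivative_le (f1 α)
  rw [natDegree_f1] at this
  have := k.2
  omega

lemma sum_coeff_aeval {R : Type*} [CommRing R] [Algebra ℂ R] {p : ℂ[X]} (hp : p.natDegree < n)
    (x : R) : ∑ b : Fin n, algebraMap ℂ R (p.coeff b) * x ^ (b : ℕ) = aeval x p := by
  rw [aeval_eq_sum_range' hp, Finset.sum_range]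
  simp [Algebra.smul_def]

lemma sum_coeff_eval {p : ℂ[X]} (hp : p.natDegree < n) (x : ℂ) :
    ∑ b : Fin n, p.coeff b * x ^ (b : ℕ) = p.eval x := by
  simpa using sum_coeff_aeval hp x

lemma lam_sum (k : Fin n) (x : ℂ) : ∑ b : Fin n, lamV α k b * x ^ (b : ℕ) =
    (derivative (f1 α) - p1 α k).eval x / (2 * pi1 α k) := by
  rw [← sum_coeff_eval (natDegree_lam α k), Finset.sum_div]
  exact Finset.sum_congr rfl fun b _ => by rw [lamV]; ring

lemma eval_der_f1 (k : Fin n) : (derivative (f1 α)).eval (α k) = pi1 α k := by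
  rw [f1_eq α k]; simp [pi1]

lemma lam_dot_v (k : Fin n) : lamV α k ⬝ᵥ vV α k = 0 := by
  have := lam_sum α k (α k)
  rw [eval_sub, eval_der_f1, pi1, sub_self, zero_div] at this
  exact this

lemma Em_mulVec (k : Fin n) (y : Fin n → ℂ) : Em α k *ᵥ y = (lamV α k ⬝ᵥ y) • vV α k := by
  rw [Em, vecMulVec_mulVec]; simp

lemma Em_sq (k : Fin n) : Em α k * Em α k = 0 := by
  rw [Em, vecMulVec_mul_vecMulVec, lam_dot_v]; simp

lemma trace_Am (T : ℂ) : ∑ a, Am α T a a = 0 := by
  simp only [Am, Matrix.sum_apply, Matrix.smul_apply, smul_eq_mul]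
  rw [Finset.sum_comm]
  refine Finset.sum_eq_zero fun k _ => ?_
  rw [← Finset.mul_sum]
  have := lam_dot_v α k
  simp only [dotProduct] at this
  simp only [Em, vecMulVec_apply, mul_comm (vV α k _), this, mul_zero]

lemma natDegree_Nm (a b : Fin n) : (Nm α a b).natDegree ≤ n - 1 := by
  rw [Nm, Matrix.of_apply]
  exact natDegree_sum_le_of_forall_le _ _ fun k _ =>
    (natDegree_mul_C_le _ _).trans (natDegree_p1 α k).le

lemma eval_Nm {T : ℂ} (h : ∀ k, T ≠ α k) (a b : Fin n) :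
    (Nm α a b).eval T = (f1 α).eval T * Am α T a b := by
  simp only [Nm, Am, Matrix.of_apply, eval_finsetSum, Matrix.sum_apply, Matrix.smul_apply,
    smul_eq_mul, Finset.mul_sum]
  refine Finset.sum_congr rfl fun k _ => ?_
  have := sub_ne_zero.2 (h k)
  rw [f1_eq α k]
  simp only [eval_mul, eval_C, eval_sub, eval_X]
  field_simp

lemma Kp_lin (T : ℂ) : Kp α T = Kp α 0 + T • (Kp α 1 - Kp α 0) := by
  ext k m
  simp only [Kp, Matrix.of_apply, Matrix.add_apply, Matrix.smul_apply, Matrix.sub_apply,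
    smul_eq_mul]
  ring

lemma Kt_lin (T : ℂ) : Kt α T = Kt α 0 + T • (Kt α 1 - Kt α 0) := by
  simp only [Kt]
  rw [Kp_lin α T]
  simp [Matrix.mul_add, Matrix.add_mul, Matrix.mul_sub, Matrix.sub_mul, smul_sub]

lemma Kp_transpose (T : ℂ) : (Kp α T)ᵀ = -Kp α T := by
  ext k m
  simp only [Kp, Matrix.transpose_apply, Matrix.of_apply, Matrix.neg_apply]
  rw [← neg_sub (α k) (α m), mul_neg, div_neg, add_comm]

lemma Kt_transpose (T : ℂ) : (Kt α T)ᵀ = -Kt α T := by
  simp [Kt, Matrix.transpose_mul, Kp_transpose, Matrix.mul_assoc]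

lemma Kt_mem (E : Subfield ℂ) (hE : ∀ k, α k ∈ E) {T : ℂ} (hT : T ∈ E) (a b : Fin n) :
    Kt α T a b ∈ E := by
  have hp : ∀ k, p1 α k = (∏ j ∈ Finset.univ.erase k, (X - C (⟨α j, hE j⟩ : E))).map E.subtype := by
    intro k
    simp [p1, Polynomial.map_prod]
  have hc : ∀ k b, Cf α k b ∈ E := by
    intro k b
    rw [Cf, Matrix.of_apply, hp, coeff_map]
    exact Subtype.property _
  have hpi : ∀ k, pi1 α k ∈ E := by
    intro k
    rw [pi1, p1, eval_prod]
    exact prod_mem fun j _ => by simpa using sub_mem (hE k) (hE j)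
  have hK : ∀ k m, Kp α T k m ∈ E := by
    intro k m
    have h2 : (2 : ℂ) ∈ E := by exact_mod_cast natCast_mem E 2
    exact div_mem (add_mem (div_mem (sub_mem (hE k) hT) (hpi m))
      (div_mem (sub_mem (hE m) hT) (hpi k))) (mul_mem h2 (sub_mem (hE k) (hE m)))
  simp only [Kt, Matrix.mul_apply, Matrix.transpose_apply]
  exact sum_mem fun m _ => mul_mem (sum_mem fun k _ => mul_mem (hc _ _) (hK _ _)) (hc _ _)

lemma Cf_mulVec (k : Fin n) : Cf α *ᵥ vV α k = Pi.single k (pi1 α k) := by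
  funext j
  have : (Cf α *ᵥ vV α k) j = (p1 α j).eval (α k) := sum_coeff_eval (natDegree_p1_lt α j) _
  rw [this]
  by_cases h : j = k
  · subst h; simp [pi1]
  · rw [eval_p1_ne α (Ne.symm h), Pi.single_eq_of_ne h]

lemma sum_erase_Cf (k b : Fin n) :
    ∑ m ∈ Finset.univ.erase k, Cf α m b = (derivative (f1 α) - p1 α k).coeff b := by
  rw [der_f1, ← Finset.add_sum_erase _ _ (Finset.mem_univ k), add_sub_cancel_left,
    finsetSum_coeff]
  rfl

variable {α} (hα : Function.Injective α)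
include hα

lemma pi1_ne (k : Fin n) : pi1 α k ≠ 0 := by
  rw [pi1, p1, eval_prod]
  refine Finset.prod_ne_zero_iff.2 fun j hj => ?_
  simpa [sub_eq_zero] using fun h => (Finset.ne_of_mem_erase hj) (hα h).symm

lemma lagrange (p : ℂ[X]) (hp : p.degree < n) :
    p = ∑ k, C (p.eval (α k) / pi1 α k) * p1 α k := by
  classical
  refine eq_of_degrees_lt_of_eval_index_eq Finset.univ (v := α) hα.injOn (by simpa using hp) ?_ ?_
  · simp only [Finset.card_univ, Fintype.card_fin]
    refine lt_of_le_of_lt (degree_sum_le _ _) ((Finset.sup_lt_iff (WithBot.bot_lt_coe n)).2 ?_)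
    intro k _
    refine lt_of_le_of_lt degree_le_natDegree ?_
    exact WithBot.coe_lt_coe.2 (lt_of_le_of_lt (natDegree_C_mul_le _ _) (natDegree_p1_lt α k))
  · intro j _
    rw [eval_finsetSum, Finset.sum_eq_single j]
    · have := pi1_ne hα j
      simp only [eval_mul, eval_C]
      rw [← pi1]; field_simp
    · intro k _ hk
      simp [eval_p1_ne α (Ne.symm hk)]
    · simp

lemma key_id {R : Type*} [CommRing R] [Algebra ℂ R] (t x : R) (a : Fin n) :
    (x - t) * (2 * ∑ b : Fin n, aeval t (Nm α a b) * x ^ (b : ℕ) -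
      t ^ (a : ℕ) * aeval x (derivative (f1 α))) =
      aeval t (f1 α) * x ^ (a : ℕ) - t ^ (a : ℕ) * aeval x (f1 α) := by
  set c : Fin n → R := fun k => algebraMap ℂ R (α k ^ (a : ℕ) / pi1 α k)
  have hL : ∀ y : R, y ^ (a : ℕ) = ∑ k, c k * aeval y (p1 α k) := by
    intro y
    have := congrArg (aeval y) (lagrange hα (X ^ (a : ℕ)) (by
      rw [degree_X_pow]; exact_mod_cast a.2))
    simpa [c, map_sum] using this
  have h1 : 2 * ∑ b : Fin n, aeval t (Nm α a b) * x ^ (b : ℕ) =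
      ∑ k, c k * aeval t (p1 α k) * (aeval x (derivative (f1 α)) - aeval x (p1 α k)) := by
    simp only [Nm, Matrix.of_apply, map_sum, Finset.sum_mul, Finset.mul_sum]
    rw [Finset.sum_comm]
    refine Finset.sum_congr rfl fun k _ => ?_
    rw [← map_sub, ← sum_coeff_aeval (natDegree_lam α k), Finset.mul_sum]
    refine Finset.sum_congr rfl fun b _ => ?_
    have h2 : (2 : R) * algebraMap ℂ R (Em α k a b) =
        c k * algebraMap ℂ R ((derivative (f1 α) - p1 α k).coeff b) := by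
      rw [← map_ofNat (algebraMap ℂ R) 2, ← map_mul, ← map_mul]
      congr 1
      have := pi1_ne hα k
      simp only [Em, vecMulVec_apply, vV, lamV]
      field_simp
    rw [map_mul, aeval_C]
    linear_combination (aeval t (p1 α k) * x ^ (b : ℕ)) * h2
  have h3 : ∀ k (y : R), aeval y (f1 α) = (y - algebraMap ℂ R (α k)) * aeval y (p1 α k) := by
    intro k y
    rw [f1_eq α k]; simp
  rw [h1, hL t, hL x, Finset.sum_mul, Finset.sum_mul, Finset.mul_sum, ← Finset.sum_sub_distrib,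
    ← Finset.sum_sub_distrib, Finset.mul_sum]
  refine Finset.sum_congr rfl fun k _ => ?_
  rw [h3 k t, h3 k x]
  ring

lemma Kt_mulVec (m : Fin n) : Kt α (α m) *ᵥ vV α m = pi1 α m • lamV α m := by
  rw [Kt, ← mulVec_mulVec, ← mulVec_mulVec, Cf_mulVec]
  funext b
  have hp := pi1_ne hα m
  have h1 : ∀ k, (Kp α (α m) *ᵥ Pi.single m (pi1 α m)) k = if k = m then 0 else 1 / 2 := by
    intro k
    rw [mulVec_single]
    simp only [Kp]
    split_ifs with h
    · simp [h]
    · have := sub_ne_zero.2 fun h' => h (hα h')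
      simp only [Pi.smul_apply, col_apply, Matrix.of_apply, MulOpposite.smul_eq_mul_unop,
        MulOpposite.unop_op, sub_self, zero_div, add_zero]
      field_simp
  simp only [mulVec, dotProduct, Matrix.transpose_apply] at h1 ⊢
  simp only [h1, Pi.smul_apply, smul_eq_mul, lamV, ← sum_erase_Cf]
  rw [← Finset.add_sum_erase _ _ (Finset.mem_univ m), if_pos rfl, mul_zero, zero_add,
    Finset.sum_div, Finset.mul_sum]
  refine Finset.sum_congr rfl fun k hk => ?_
  rw [if_neg (Finset.ne_of_mem_erase hk)]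
  field_simp

lemma sum_w (k : Fin n) :
    ∑ l ∈ Finset.univ.erase k, ((pi1 α l)⁻¹ + (pi1 α k)⁻¹) / (α k - α l) = 0 := by
  have hk := pi1_ne hα k
  have h1 : ∀ l ∈ Finset.univ.erase k,
      (derivative (p1 α l)).eval (α k) = pi1 α k / (α k - α l) := by
    intro l hl
    have hl' := Finset.ne_of_mem_erase hl
    have h2 := eval_der_f1 α k
    rw [f1_eq α l] at h2
    simp only [derivative_mul, derivative_sub, derivative_X, derivative_C, sub_zero, one_mul,
      eval_add, eval_mul, eval_sub, eval_X, eval_C, eval_p1_ne α (Ne.symm hl'), zero_add] at h2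
    have := sub_ne_zero.2 fun h' => hl' (hα h').symm
    rw [← h2]; field_simp
  have h2 : (derivative (p1 α k)).eval (α k) =
      ∑ l ∈ Finset.univ.erase k, (derivative (p1 α l)).eval (α k) := by
    have h3 : (derivative (derivative (f1 α))).eval (α k) =
        2 * (derivative (p1 α k)).eval (α k) := by
      rw [f1_eq α k]; simp; ring
    rw [der_f1, map_sum, eval_finsetSum, ← Finset.add_sum_erase _ _ (Finset.mem_univ k)] at h3
    linear_combination -h3
  have h4 := congrArg (fun p => (derivative p).eval (α k)) (lagrange hα 1 (by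
    rw [degree_one]; exact_mod_cast k.pos))
  simp only [derivative_one, eval_zero, eval_one, map_sum, derivative_C_mul, eval_finsetSum,
    eval_mul, eval_C] at h4
  rw [← Finset.add_sum_erase _ _ (Finset.mem_univ k), h2, Finset.mul_sum,
    ← Finset.sum_add_distrib] at h4
  refine mul_left_cancel₀ hk ?_
  rw [mul_zero, h4, Finset.mul_sum]
  refine Finset.sum_congr rfl fun l hl => ?_
  rw [h1 l hl]; ring

lemma flat {T : ℂ} (hT : ∀ k, T ≠ α k) :
    (Kt α 1 - Kt α 0) + (Am α T)ᵀ * Kt α T + Kt α T * Am α T = 0 := by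
  set Ap : Matrix (Fin n) (Fin n) ℂ := Matrix.of fun k m => if m = k then 0 else (T - α k)⁻¹ / 2
  have h1 : Cf α * Am α T = Ap * Cf α := by
    ext k b
    have h2 : (Cf α * Am α T) k b = (T - α k)⁻¹ * (pi1 α k * lamV α k b) := by
      simp only [Am, Matrix.mul_sum, Matrix.mul_smul, Em, mul_vecMulVec, Cf_mulVec,
        Matrix.sum_apply, Matrix.smul_apply, vecMulVec_apply, smul_eq_mul]
      rw [Finset.sum_eq_single k (fun j _ hj => by simp [Pi.single_eq_of_ne' hj]) (by simp)]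
      simp
    have := pi1_ne hα k
    rw [h2, Matrix.mul_apply, ← Finset.add_sum_erase _ _ (Finset.mem_univ k), lamV,
      ← sum_erase_Cf, Finset.sum_div, Finset.mul_sum, Finset.mul_sum]
    simp only [Ap, Matrix.of_apply, if_true, zero_mul, zero_add]
    refine Finset.sum_congr rfl fun m hm => ?_
    rw [if_neg (Finset.ne_of_mem_erase hm)]
    field_simp
  have h3 : ∀ k m, (Kp α T * Ap) k m = ∑ l, if l = m ∨ l = k then 0 else
      ((pi1 α l)⁻¹ / (T - α l) - ((pi1 α l)⁻¹ + (pi1 α k)⁻¹) / (α k - α l)) / 4 := by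
    intro k m
    rw [Matrix.mul_apply]
    refine Finset.sum_congr rfl fun l _ => ?_
    simp only [Kp, Ap, Matrix.of_apply]
    by_cases h : l = m
    · simp [h]
    by_cases h' : l = k
    · simp [h']
    rw [if_neg (Ne.symm h), if_neg (by tauto)]
    have := sub_ne_zero.2 fun h'' => h' (hα h'').symm
    have := sub_ne_zero.2 (hT l)
    have := pi1_ne hα k
    have := pi1_ne hα l
    field_simp
    ring
  have h4 : (Kp α 1 - Kp α 0) + Apᵀ * Kp α T + Kp α T * Ap = 0 := by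
    ext k m
    have h5 : (Apᵀ * Kp α T) k m = -(Kp α T * Ap) m k := by
      rw [← Matrix.transpose_apply (Apᵀ * Kp α T), Matrix.transpose_mul, Kp_transpose]
      simp
    simp only [Matrix.add_apply, h5, h3, Matrix.zero_apply]
    by_cases hkm : k = m
    · subst hkm
      simp [Kp]
    have h6 : ∀ (k m : Fin n), k ≠ m → ∑ l, (if l = m ∨ l = k then 0 else
        ((pi1 α l)⁻¹ / (T - α l) - ((pi1 α l)⁻¹ + (pi1 α k)⁻¹) / (α k - α l)) / 4) =
        (∑ l, (if l = m ∨ l = k then 0 else (pi1 α l)⁻¹ / (T - α l)) +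
          ((pi1 α m)⁻¹ + (pi1 α k)⁻¹) / (α k - α m)) / 4 := by
      intro k m hkm
      have h7 := sum_w hα k
      rw [← Finset.add_sum_erase _ _ (Finset.mem_erase.2 ⟨hkm.symm, Finset.mem_univ m⟩)] at h7
      have h8 : ∀ g : Fin n → ℂ, ∑ l, (if l = m ∨ l = k then 0 else g l) =
          ∑ l ∈ (Finset.univ.erase k).erase m, g l := by
        intro g
        rw [← Finset.sum_subset (Finset.subset_univ ((Finset.univ.erase k).erase m))]
        · exact Finset.sum_congr rfl fun l hl => if_neg (by simpa using hl)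
        · intro l _ hl
          exact if_pos (by by_contra h; exact hl (by simpa using h))
      rw [h8, h8, ← Finset.sum_div, Finset.sum_sub_distrib]
      linear_combination (-1 / 4) * h7
    rw [h6 k m hkm, h6 m k (Ne.symm hkm)]
    simp only [or_comm (a := _ = k), Kp, Matrix.sub_apply, Matrix.of_apply]
    have := sub_ne_zero.2 fun h'' => hkm (hα h'')
    have h9 : α m - α k = -(α k - α m) := by ring
    have := pi1_ne hα k
    have := pi1_ne hα m
    rw [h9]
    field_simp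
    ring
  have h5 : (Am α T)ᵀ * (Cf α)ᵀ = (Cf α)ᵀ * Apᵀ := by
    rw [← Matrix.transpose_mul, h1, Matrix.transpose_mul]
  have := congrArg (fun M => (Cf α)ᵀ * M * Cf α) h4
  simp only [Matrix.mul_add, Matrix.add_mul, Matrix.mul_sub, Matrix.sub_mul, Matrix.mul_zero,
    Matrix.zero_mul] at this
  rw [← this]
  simp only [Kt, ← Matrix.mul_assoc, h5]
  simp only [Matrix.mul_assoc, h1]

end Pool.Agent.GPC

end MrgPart1

-- ======== part 2: formerly Pool.Agent.MP_cbf1af_ag.h26.Gal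
section MrgPart2

/-! Iterates of the connection and the Galochkin condition. -/

namespace Pool.Agent.GPC
open Polynomial

section Integral
variable {R : Type*} [CommRing R] (R₀ : Subring R)

lemma mem_lifts_iff' (p : R[X]) : p ∈ liftsRing R₀.subtype ↔ ∀ m, p.coeff m ∈ R₀ := by
  rw [← lifts_iff_liftsRing, lifts_iff_coeff_lifts]
  simp

lemma mem_range_map_iff (s : PowerSeries R) :
    s ∈ (PowerSeries.map R₀.subtype).range ↔ ∀ m, PowerSeries.coeff m s ∈ R₀ := by
  constructor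
  · rintro ⟨s, rfl⟩ m
    rw [PowerSeries.coeff_map]; exact Subtype.property _
  · intro h
    exact ⟨PowerSeries.mk fun m => ⟨_, h m⟩, by ext m; simp⟩

lemma exists_sqrt (y : PowerSeries R) (hy : PowerSeries.constantCoeff y = 0) :
    ∃ θ ψ : PowerSeries R, θ ^ 2 = 1 + 4 * y ∧ θ * ψ = 1 := by
  obtain ⟨ζ, h1, h2⟩ := HenselianRing.is_henselian
    (I := (Ideal.span {PowerSeries.X} : Ideal (PowerSeries R))) (X ^ 2 + (X - C y))
    (monic_X_pow_add (by
      refine lt_of_le_of_lt (degree_X_sub_C_le y) (by norm_num))) 0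
    (by simp [Ideal.mem_span_singleton, PowerSeries.X_dvd_iff, hy]) (by simp)
  simp only [IsRoot.def, eval_add, eval_pow, eval_X, eval_sub, eval_C] at h1
  rw [sub_zero, Ideal.mem_span_singleton, PowerSeries.X_dvd_iff] at h2
  refine ⟨1 + 2 * ζ, PowerSeries.invOfUnit (1 + 2 * ζ) 1, by linear_combination 4 * h1, ?_⟩
  exact PowerSeries.mul_invOfUnit _ _ (by simp [h2])

lemma coeff_theta (s : PowerSeries R) (m : ℕ) :
    PowerSeries.coeff m (PowerSeries.X * PowerSeries.derivative R s) =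
      m * PowerSeries.coeff m s := by
  cases m with
  | zero => simp
  | succ m => rw [PowerSeries.coeff_succ_X_mul, PowerSeries.coeff_derivative]; push_cast; ring

theorem galo [IsDomain R] {c : R} (hc : c ∈ R₀) (hc0 : c ≠ 0) {φ Ξ W β : R[X]}
    (hφ : φ ∈ liftsRing R₀.subtype) (hφ0 : φ.coeff 0 = c) (hΞ : Ξ ∈ liftsRing R₀.subtype)
    {j : ℕ} (hW : W.degree < j) (γ : ℕ)
    (h : 4 ^ j * (2 * X * φ * derivative W + W * (X * derivative φ + (1 - 2 * (j : R[X])) * φ) +
      2 * X ^ j * β) = 2 * (γ : R[X]) * C c ^ j * Ξ) :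
    ((2 * Nat.lcmUpto (2 * j) * 16 ^ j : ℕ) : R[X]) * β ∈ liftsRing R₀.subtype := by
  set ℓ := Nat.lcmUpto (2 * j)
  set Λ := liftsRing R₀.subtype
  have hX : (X : R[X]) ∈ Λ := ⟨X, by simp⟩
  have hC : ∀ a ∈ R₀, C a ∈ Λ := fun a ha => ⟨C ⟨a, ha⟩, by simp⟩
  have hder : ∀ p ∈ Λ, derivative p ∈ Λ := by
    rintro _ ⟨p, rfl⟩
    exact ⟨derivative p, by simp [derivative_map]⟩
  have hWint : ((ℓ * 16 ^ j : ℕ) : R[X]) * W ∈ Λ := by
    rw [mem_lifts_iff']
    intro m
    rw [coeff_natCast_mul]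
    by_cases hm : j ≤ m
    · rw [coeff_eq_zero_of_degree_lt (lt_of_lt_of_le hW (by exact_mod_cast hm)), mul_zero]
      exact zero_mem _
    push Not at hm
    obtain ⟨i, rfl⟩ : ∃ i, j = i + 1 := ⟨j - 1, by omega⟩
    set sc : R[X] →+* PowerSeries R :=
      (coeToPowerSeries.ringHom (R := R)).comp (compRingHom (C (4 * c) * X)) with hsc
    have hscc : ∀ p m, PowerSeries.coeff m (sc p) = p.coeff m * (4 * c) ^ m := by
      intro p m
      simp only [hsc, RingHom.comp_apply, coeToPowerSeries.ringHom_apply, coeff_coe,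
        coe_compRingHom_apply, comp_C_mul_X_coeff]
    set Ψ := (PowerSeries.map R₀.subtype).range
    have hscm : ∀ p ∈ Λ, sc p ∈ Ψ := by
      intro p hp
      rw [mem_range_map_iff]
      intro m
      rw [hscc]
      exact mul_mem ((mem_lifts_iff' R₀ p).1 hp m) (pow_mem (mul_mem (ofNat_mem _ 4) hc) _)
    have hscX : sc X = PowerSeries.C (4 * c) * PowerSeries.X := by simp [hsc]
    have hscC : ∀ a, sc (C a) = PowerSeries.C a := fun a => by simp [hsc]
    have hscd : ∀ p, sc (X * derivative p) =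
        PowerSeries.X * PowerSeries.derivative R (sc p) := by
      intro p
      ext m
      rw [coeff_theta, hscc, hscc]
      cases m with
      | zero => simp
      | succ m => rw [coeff_X_mul, coeff_derivative]; push_cast; ring
    have hdiv : divX φ ∈ Λ := by
      rw [mem_lifts_iff'] at hφ ⊢
      intro m; rw [coeff_divX]; exact hφ _
    obtain ⟨χ, hχ⟩ := hscm _ hdiv
    obtain ⟨θ₀, ψ₀, hθ₀, hψ₀⟩ := exists_sqrt (PowerSeries.X * χ) (by simp)
    set θ := PowerSeries.map R₀.subtype θ₀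
    set ψ := PowerSeries.map R₀.subtype ψ₀
    have hψm : ψ ∈ Ψ := ⟨ψ₀, rfl⟩
    have hθψ : θ * ψ = 1 := by rw [← map_mul, hψ₀, map_one]
    have hφθ : sc φ = PowerSeries.C c * θ ^ 2 := by
      rw [← map_pow, hθ₀]
      conv_lhs => rw [← X_mul_divX_add φ, hφ0]
      simp only [map_add, map_mul, map_one, PowerSeries.map_X, hχ, hscX, hscC, map_ofNat]
      ring
    set Ω := θ * sc W with hΩ
    have h1 := congrArg (fun p => ψ * sc p) h
    have h2 : sc (2 * X * φ * derivative W) =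
        2 * sc φ * (PowerSeries.X * PowerSeries.derivative R (sc W)) := by
      rw [← hscd, ← map_ofNat sc 2, ← map_mul, ← map_mul]; congr 1; ring
    simp only [map_mul sc (4 ^ _), map_add, h2, map_mul sc W, hscd] at h1
    simp only [map_mul, map_pow, map_ofNat, map_sub, map_one, map_natCast, hscC, hscX, hφθ,
      Derivation.leibniz, Derivation.leibniz_pow, PowerSeries.derivative_C, smul_eq_mul,
      nsmul_eq_mul] at h1
    have h3 : 4 ^ (i + 1) * (PowerSeries.C c * (2 * (PowerSeries.X * PowerSeries.derivative R Ω) +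
        (1 - 2 * ((i + 1 : ℕ) : PowerSeries R)) * Ω)) + PowerSeries.X ^ (i + 1) *
        (4 ^ (i + 1) * 2 * ψ * (4 * PowerSeries.C c) ^ (i + 1) * sc β) =
        2 * (γ : PowerSeries R) * PowerSeries.C c ^ (i + 1) * (ψ * sc Ξ) := by
      rw [hΩ, Derivation.leibniz, smul_eq_mul, smul_eq_mul]
      simp only [mul_pow] at h1 ⊢
      push_cast at h1 ⊢
      linear_combination h1 - 4 ^ (i + 1) * PowerSeries.C c *
        (2 * θ * PowerSeries.X * PowerSeries.derivative R (sc W) +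
        2 * sc W * PowerSeries.X * PowerSeries.derivative R θ +
        (1 - 2 * ((i : PowerSeries R) + 1)) * θ * sc W) * hθψ
    have h4 : ∀ b < i + 1, ∃ z ∈ R₀,
        ((ℓ : R) * 4 ^ (i + 1)) * PowerSeries.coeff b Ω = c ^ i * z := by
      intro b hb
      have h5 := congrArg (PowerSeries.coeff b) h3
      have e1 : (4 ^ (i + 1) : PowerSeries R) = PowerSeries.C (4 ^ (i + 1)) := by simp [map_ofNat]
      have e2 : (1 - 2 * ((i + 1 : ℕ) : PowerSeries R)) =
          PowerSeries.C (1 - 2 * ((i + 1 : ℕ) : R)) := by simp [map_ofNat]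
      have e3 : (2 * (γ : PowerSeries R) * PowerSeries.C c ^ (i + 1) : PowerSeries R) =
          PowerSeries.C (2 * (γ : R) * c ^ (i + 1)) := by simp [map_ofNat]
      have e4 : (2 : PowerSeries R) = PowerSeries.C 2 := by simp [map_ofNat]
      rw [map_add, PowerSeries.coeff_X_pow_mul', if_neg (by omega), add_zero, e1, e2, e3, e4] at h5
      simp only [PowerSeries.coeff_C_mul, map_add, coeff_theta] at h5
      obtain ⟨k, hk⟩ : 2 * (i - b) + 1 ∣ ℓ :=
        Finset.dvd_lcm (f := id) (Finset.mem_Icc.2 ⟨by omega, by omega⟩)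
      have hz := (mem_range_map_iff R₀ _).1 (mul_mem hψm (hscm _ hΞ)) b
      refine ⟨-((k : R) * 2 * (γ : R) * PowerSeries.coeff b (ψ * sc Ξ)), neg_mem (mul_mem (mul_mem (mul_mem
        (natCast_mem _ k) (ofNat_mem _ 2)) (natCast_mem _ γ)) hz), mul_left_cancel₀ hc0 ?_⟩
      rw [hk]
      push_cast [Nat.cast_sub (show b ≤ i by omega)] at h5 ⊢
      linear_combination (-(k : R)) * h5
    have h6 : ∃ z ∈ R₀, ((ℓ : R) * 4 ^ (i + 1)) * PowerSeries.coeff m (sc W) = c ^ i * z := by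
      have h7 : sc W = ψ * Ω := by rw [hΩ, ← mul_assoc, mul_comm ψ, hθψ, one_mul]
      choose! z hz hz' using h4
      refine ⟨∑ p ∈ Finset.HasAntidiagonal.antidiagonal m, PowerSeries.coeff p.1 ψ * z p.2,
        sum_mem fun p hp => ?_, ?_⟩
      · rw [Finset.HasAntidiagonal.mem_antidiagonal] at hp
        exact mul_mem ((mem_range_map_iff R₀ _).1 hψm _) (hz _ (by omega))
      · rw [h7, PowerSeries.coeff_mul, Finset.mul_sum, Finset.mul_sum]
        refine Finset.sum_congr rfl fun p hp => ?_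
        rw [Finset.HasAntidiagonal.mem_antidiagonal] at hp
        linear_combination PowerSeries.coeff p.1 ψ * hz' p.2 (by omega)
    obtain ⟨z, hz, hz'⟩ := h6
    obtain ⟨e, rfl⟩ : ∃ e, i = m + e := ⟨i - m, by omega⟩
    have h8 : ((ℓ * 16 ^ (m + e + 1) : ℕ) : R) * W.coeff m = 4 ^ (e + 1) * c ^ e * z := by
      refine mul_left_cancel₀ (pow_ne_zero m hc0) ?_
      rw [hscc] at hz'
      push_cast
      rw [show (16 : R) = 4 * 4 by norm_num]
      simp only [mul_pow, pow_add] at hz' ⊢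
      linear_combination (4 ^ e * 4) * hz'
    rw [h8]
    exact mul_mem (mul_mem (pow_mem (ofNat_mem _ 4) _) (pow_mem hc _)) hz
  set V := ((ℓ * 16 ^ j : ℕ) : R[X]) * W with hV
  have h9 : X ^ j * (((2 * ℓ * 16 ^ j : ℕ) : R[X]) * β) = (ℓ : R[X]) * 4 ^ j * (2 * (γ : R[X]) * C c ^ j * Ξ) -
      (2 * X * φ * derivative V + V * (X * derivative φ + (1 - 2 * (j : R[X])) * φ)) := by
    rw [hV, derivative_natCast_mul, ← h]
    push_cast
    rw [show (16 : R[X]) = 4 * 4 by norm_num, mul_pow]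
    ring
  have h10 : X ^ j * (((2 * ℓ * 16 ^ j : ℕ) : R[X]) * β) ∈ Λ := by
    rw [h9]
    have h2 : (2 : R[X]) ∈ Λ := ofNat_mem _ 2
    exact sub_mem (mul_mem (mul_mem (natCast_mem _ _) (pow_mem (ofNat_mem _ 4) _))
      (mul_mem (mul_mem (mul_mem h2 (natCast_mem _ _)) (pow_mem (hC c hc) _)) hΞ))
      (add_mem (mul_mem (mul_mem (mul_mem h2 hX) hφ) (hder _ hWint)) (mul_mem hWint
        (add_mem (mul_mem hX (hder _ hφ))
          (mul_mem (sub_mem (one_mem _) (mul_mem h2 (natCast_mem _ _))) hφ))))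
  rw [mem_lifts_iff'] at h10 ⊢
  intro m
  have := h10 (m + j)
  rwa [coeff_X_pow_mul] at this

end Integral

section Rec
variable {n : ℕ} (c : ℂ) (α : Fin n → ℂ)

noncomputable def FF : ℂ[X] := C c * f1 α

/-- numerators of the divided iterates of the connection -/
noncomputable def Pm : ℕ → Matrix (Fin n) (Fin n) ℂ[X]
  | 0 => 1
  | j + 1 => Matrix.of fun a b => C (((j : ℂ) + 1)⁻¹) * (FF c α * derivative (Pm j a b) -
      (j : ℂ[X]) * derivative (FF c α) * Pm j a b + ∑ e, Pm j a e * (C c * Nm α e b))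

/-- common denominator -/
def den (j : ℕ) : ℕ := 2 * Nat.lcmUpto (2 * j) * 16 ^ j

/-- coefficientwise derivative -/
noncomputable def dT : Derivation ℂ ℂ[X][X] ℂ[X][X] :=
  PolynomialModule.equivPolynomialSelf.compDer (Polynomial.derivative' (R := ℂ)).mapCoeffs

lemma coeff_dT (p : ℂ[X][X]) (i : ℕ) : (dT p).coeff i = derivative (p.coeff i) := rfl

/-- derivative in the parameter with `x = u + T` fixed -/
noncomputable def DD : Derivation ℂ ℂ[X][X] ℂ[X][X] :=
  dT - (Polynomial.derivative' (R := ℂ[X])).restrictScalars ℂ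

lemma DD_apply (p : ℂ[X][X]) : DD p = dT p - derivative p := rfl

lemma DD_X : DD (X : ℂ[X][X]) = -1 := by
  have : dT (X : ℂ[X][X]) = 0 := by
    ext1 i
    rw [coeff_dT, coeff_X]
    split_ifs <;> simp
  simp [DD_apply, this]

lemma DD_C (p : ℂ[X]) : DD (C p) = C (derivative p) := by
  have : dT (C p) = C (derivative p) := by
    ext1 i
    rw [coeff_dT, coeff_C, coeff_C]
    split_ifs <;> simp
  simp [DD_apply, this]

lemma DD_der (p : ℂ[X][X]) : DD (derivative p) = derivative (DD p) := by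
  rw [DD_apply, DD_apply, map_sub]
  congr 1
  ext1 i
  rw [coeff_dT, coeff_derivative, coeff_derivative, coeff_dT]
  simp

lemma degree_DD {p : ℂ[X][X]} {j : ℕ} (h : p.degree < j) : (DD p).degree < j := by
  rw [degree_lt_iff_coeff_zero] at h ⊢
  intro m hm
  rw [DD_apply, coeff_sub, coeff_dT, coeff_derivative, h m hm, h (m + 1) (by omega)]
  simp

variable {α} (hα : Function.Injective α)
include hα

lemma rec_id (a : Fin n) (j : ℕ) : ∃ W : ℂ[X][X], W.degree < j ∧
    4 ^ j * (2 * X * aeval (X + C X) (FF c α) * derivative W +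
      W * (X * derivative (aeval (X + C X : ℂ[X][X]) (FF c α)) +
        (1 - 2 * (j : ℂ[X][X])) * aeval (X + C X) (FF c α)) +
      2 * X ^ j * ∑ b, C (Pm c α j a b) * (X + C X) ^ (b : ℕ)) =
      2 * (j.centralBinom : ℂ[X][X]) * C (FF c α) ^ j * (X + C X) ^ (a : ℕ) := by
  set x : ℂ[X][X] := X + C X with hx
  set φ := aeval x (FF c α) with hφ
  have hDx : DD x = 0 := by simp [hx, DD_X, DD_C]
  have hDφ : DD φ = 0 := by rw [hφ, Derivation.comp_aeval_eq, hDx, smul_zero]
  have hφ' : derivative φ = aeval x (derivative (FF c α)) := by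
    have := Derivation.comp_aeval_eq
      (d := (Polynomial.derivative' (R := ℂ[X])).restrictScalars ℂ) (a := x) (f := FF c α)
    have h1 : derivative x = 1 := by simp [hx]
    change derivative φ = _ • derivative x at this
    rw [this, h1, smul_eq_mul, mul_one]
  have hC : ∀ p : ℂ[X], aeval (C X : ℂ[X][X]) p = C p := by
    intro p
    have := aeval_algHom_apply (CAlgHom (R := ℂ) (A := ℂ[X])) X p
    simpa using this
  induction j with
  | zero =>
    refine ⟨0, by simp, ?_⟩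
    simp only [Pm, Matrix.one_apply]
    rw [Finset.sum_eq_single a (fun b _ hb => by simp [Ne.symm hb]) (by simp)]
    simp
  | succ j ih =>
    obtain ⟨W, hW, h⟩ := ih
    set P := Pm c α j a
    set β := ∑ b, C (P b) * x ^ (b : ℕ) with hβ
    set βT : ℂ[X][X] := C (∑ b, P b * X ^ (b : ℕ)) with hβT
    set βN := ∑ b : Fin n, C (∑ e, P e * (C c * Nm α e b)) * x ^ (b : ℕ) with hβN
    set F : ℂ[X][X] := C (FF c α) with hF
    set F' : ℂ[X][X] := C (derivative (FF c α)) with hF'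
    have hN : X * (2 * βN - βT * derivative φ) = F * β - βT * φ := by
      have h1 : ∀ e : Fin n, X * (2 * ∑ b : Fin n, C (C c * Nm α e b) * x ^ (b : ℕ) -
          C X ^ (e : ℕ) * derivative φ) = F * x ^ (e : ℕ) - C X ^ (e : ℕ) * φ := by
        intro e
        have h2 := key_id hα (C X : ℂ[X][X]) x e
        simp only [hC] at h2
        rw [hφ', hφ, hF]
        simp only [FF, derivative_C_mul, map_mul, aeval_C, mul_assoc, ← Finset.mul_sum]
        have h3 : algebraMap ℂ ℂ[X][X] c = C (C c) := rfl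
        rw [h3]
        rw [hx, add_sub_cancel_right, ← hx] at h2
        linear_combination C (C c) * h2
      have h4 : βN = ∑ e, C (P e) * ∑ b : Fin n, C (C c * Nm α e b) * x ^ (b : ℕ) := by
        simp only [hβN, map_sum, Finset.sum_mul, Finset.mul_sum]
        rw [Finset.sum_comm]
        exact Finset.sum_congr rfl fun e _ => Finset.sum_congr rfl fun b _ => by
          rw [map_mul, mul_assoc]
      rw [h4, hβ, hβT, map_sum, Finset.mul_sum, Finset.mul_sum, Finset.sum_mul, Finset.sum_mul,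
        ← Finset.sum_sub_distrib, ← Finset.sum_sub_distrib, Finset.mul_sum]
      refine Finset.sum_congr rfl fun e _ => ?_
      rw [map_mul, map_pow]
      linear_combination C (P e) * h1 e
    have hDβ : DD β = ∑ b, C (derivative (P b)) * x ^ (b : ℕ) := by
      rw [hβ, map_sum]
      refine Finset.sum_congr rfl fun b _ => ?_
      rw [Derivation.leibniz, Derivation.leibniz_pow, hDx, DD_C]
      simp [mul_comm]
    set ι : ℂ[X][X] := C (C ((2 * ((j : ℂ) + 1))⁻¹)) with hι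
    have hj : ((j : ℂ) + 1) ≠ 0 := by exact_mod_cast Nat.succ_ne_zero j
    have hι1 : 2 * ((j : ℂ[X][X]) + 1) * ι = 1 := by
      have : (2 * ((j : ℂ[X][X]) + 1)) = C (C (2 * ((j : ℂ) + 1))) := by simp [map_ofNat]
      rw [this, hι, ← map_mul, ← map_mul, mul_inv_cancel₀ (mul_ne_zero two_ne_zero hj)]
      simp
    have hβ1 : ∑ b, C (Pm c α (j + 1) a b) * x ^ (b : ℕ) =
        2 * ι * (F * DD β - (j : ℂ[X][X]) * F' * β + βN) := by
      have h5 : 2 * ι = C (C (((j : ℂ) + 1)⁻¹)) := by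
        rw [hι, ← map_ofNat C 2, ← map_mul, ← map_ofNat C 2, ← map_mul]
        congr 2
        field_simp
      rw [h5, hDβ, hβ, hβN, Finset.mul_sum, Finset.mul_sum, ← Finset.sum_sub_distrib,
        ← Finset.sum_add_distrib, Finset.mul_sum]
      refine Finset.sum_congr rfl fun b _ => ?_
      simp only [Pm, Matrix.of_apply, map_mul, map_add, map_sub, map_natCast, hF, hF', P]
      ring
    set V := F * (2 * X * DD W + (2 * (j : ℂ[X][X]) - 1) * W) - 2 * (j : ℂ[X][X]) * F' * X * W - 2 * βT * X ^ j with hV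
    refine ⟨ι * V, ?_, ?_⟩
    · have h6 : ∀ (p : ℂ[X]) (q : ℂ[X][X]), q.degree < (j + 1 : ℕ) →
          (C p * q).degree < (j + 1 : ℕ) :=
        fun p q hq => lt_of_le_of_lt (by rw [← smul_eq_C_mul]; exact degree_smul_le _ _) hq
      have h7 : ∀ q : ℂ[X][X], q.degree < j → (X * q).degree < ((j + 1 : ℕ) : WithBot ℕ) := by
        intro q hq
        rw [degree_lt_iff_coeff_zero] at hq ⊢
        intro m hm
        obtain ⟨m, rfl⟩ : ∃ k, m = k + 1 := ⟨m - 1, by omega⟩
        rw [coeff_X_mul, hq m (by omega)]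
      have h8 : W.degree < (j + 1 : ℕ) := hW.trans (by exact_mod_cast Nat.lt_succ_self j)
      have h9 : V = C (FF c α * 2) * (X * DD W) + C (FF c α * (2 * (j : ℂ[X]) - 1)) * W +
          C (-(2 * (j : ℂ[X]) * derivative (FF c α))) * (X * W) +
          C (-(2 * ∑ b, P b * X ^ (b : ℕ))) * X ^ j := by
        simp only [hV, hF, hF', hβT, map_mul, map_neg, map_sub, map_ofNat, map_natCast, map_one]
        ring
      refine h6 _ _ ?_
      rw [h9]
      refine lt_of_le_of_lt (degree_add_le _ _) (max_lt (lt_of_le_of_lt (degree_add_le _ _)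
        (max_lt (lt_of_le_of_lt (degree_add_le _ _) (max_lt (h6 _ _ (h7 _ (degree_DD hW)))
        (h6 _ _ h8))) (h6 _ _ (h7 _ hW)))) (h6 _ _ ?_))
      rw [degree_X_pow]
      exact_mod_cast Nat.lt_succ_self j
    · have hD := congrArg DD h
      have e1 : X * DD (X ^ j : ℂ[X][X]) = -((j : ℂ[X][X]) * X ^ j) := by
        rw [Derivation.leibniz_pow, DD_X]
        cases j <;> simp [pow_succ]
        ring
      have e2 : X * derivative (X ^ j : ℂ[X][X]) = (j : ℂ[X][X]) * X ^ j := by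
        rw [derivative_X_pow]
        cases j <;> simp [pow_succ]
        ring
      have e3 : F * DD (F ^ j) = (j : ℂ[X][X]) * F' * F ^ j := by
        rw [Derivation.leibniz_pow, hF, DD_C]
        cases j <;> simp [pow_succ, hF']
        ring
      have e4 : DD (4 ^ j : ℂ[X][X]) = 0 := by
        have := Derivation.map_natCast DD (4 ^ j)
        simpa using this
      have e5 : DD (x ^ (a : ℕ)) = 0 := by rw [Derivation.leibniz_pow, hDx]; simp
      have e6 : DD (2 : ℂ[X][X]) = 0 := Derivation.map_natCast DD 2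
      have e7 : (((j : ℂ[X][X]) + 1) * ((j + 1).centralBinom : ℂ[X][X])) =
          2 * (2 * (j : ℂ[X][X]) + 1) * (j.centralBinom : ℂ[X][X]) := by
        exact_mod_cast congrArg (Nat.cast : ℕ → ℂ[X][X]) (Nat.succ_mul_centralBinom_succ j)
      simp only [Derivation.leibniz, map_add, map_sub, smul_eq_mul, e4, e5, e6, hDφ, DD_der, DD_X,
        Derivation.map_natCast, Derivation.map_one_eq_zero, map_zero] at hD
      have hV' : derivative (ι * V) = ι * (F * (2 * DD W + 2 * X * derivative (DD W) +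
          (2 * (j : ℂ[X][X]) - 1) * derivative W) - 2 * (j : ℂ[X][X]) * F' * (W + X * derivative W) -
          2 * βT * derivative (X ^ j)) := by
        simp only [hι, hV, hF, hF', hβT, derivative_mul, derivative_sub, derivative_add,
          derivative_C, derivative_X, derivative_ofNat, derivative_natCast, derivative_one]
        ring
      rw [hV', hβ1, hV]
      push_cast
      linear_combination (4 * ι) * ((2 * (j : ℂ[X][X]) + 1) * F * h + 2 * X * (F * hD - (j : ℂ[X][X]) * F' * h)) +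
        (4 * ι * 4 ^ j) * (2 * X ^ j * hN - 4 * F * β * e1 - 4 * βT * φ * e2) +
        (16 * ι * X * (j.centralBinom : ℂ[X][X]) * x ^ (a : ℕ)) * e3 -
        (4 * ι * F ^ (j + 1) * x ^ (a : ℕ)) * e7 +
        (2 * ((j + 1).centralBinom : ℂ[X][X]) * F ^ (j + 1) * x ^ (a : ℕ)) * hι1

theorem Pm_int (hc : c ≠ 0) (hF : ∀ m, ∃ z : ℤ, (FF c α).coeff m = z) (j : ℕ) (a b : Fin n)
    (m : ℕ) : ∃ z : ℤ, (den j : ℂ) * (Pm c α j a b).coeff m = z := by
  set R₀ : Subring ℂ[X] := liftsRing (Int.castRingHom ℂ)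
  have hR₀ : ∀ p : ℂ[X], p ∈ R₀ ↔ ∀ m, ∃ z : ℤ, p.coeff m = z := by
    intro p
    rw [← lifts_iff_liftsRing, lifts_iff_coeff_lifts]
    simp [eq_comm]
  set Λ := liftsRing R₀.subtype
  have hX0 : (X : ℂ[X]) ∈ R₀ := ⟨X, by simp⟩
  have hX : (X : ℂ[X][X]) ∈ Λ := ⟨X, by simp⟩
  have hC : ∀ a ∈ R₀, C a ∈ Λ := fun a ha => ⟨C ⟨a, ha⟩, by simp⟩
  have hx : (X + C X : ℂ[X][X]) ∈ Λ := add_mem hX (hC _ hX0)
  have hF0 : FF c α ≠ 0 := mul_ne_zero (C_ne_zero.2 hc) (f1_monic α).ne_zero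
  have hφ : aeval (X + C X : ℂ[X][X]) (FF c α) ∈ Λ := by
    rw [aeval_eq_sum_range]
    refine sum_mem fun m _ => ?_
    obtain ⟨z, hz⟩ := hF m
    rw [hz, Int.cast_smul_eq_zsmul]
    exact zsmul_mem (pow_mem hx _) _
  have hφ0 : ∀ F : ℂ[X], (aeval (X + C X : ℂ[X][X]) F).coeff 0 = F := by
    intro F
    induction F using Polynomial.induction_on' with
    | add p q hp hq => rw [map_add, coeff_add, hp, hq]
    | monomial k a =>
      rw [aeval_monomial, coeff_zero_eq_eval_zero, ← C_mul_X_pow_eq_monomial]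
      simp
  obtain ⟨W, hW, h⟩ := rec_id c hα a j
  obtain ⟨q, hq⟩ := galo R₀ ((hR₀ _).2 hF) hF0 hφ (hφ0 _) (pow_mem hx _) hW _ h
  have h1 : ((den j : ℕ) : ℂ[X][X]) * ∑ b, C (Pm c α j a b) * X ^ (b : ℕ) ∈ Λ := by
    refine ⟨q.comp (X - C ⟨X, hX0⟩), ?_⟩
    rw [coe_mapRingHom] at hq ⊢
    rw [map_comp, hq]
    simp [den, Polynomial.sum_comp]
  have h2 := (mem_lifts_iff' R₀ _).1 h1 b
  rw [coeff_natCast_mul, finsetSum_coeff, Finset.sum_eq_single b (fun e _ he => by
    rw [coeff_C_mul_X_pow, if_neg fun h => he (Fin.ext h).symm]) (by simp),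
    coeff_C_mul_X_pow, if_pos rfl] at h2
  obtain ⟨z, hz⟩ := (hR₀ _).1 h2 m
  exact ⟨z, by rw [← hz, coeff_natCast_mul]⟩

omit hα

lemma den_pos (j : ℕ) : 0 < den j := by
  have := Nat.lcmUpto_pos (2 * j)
  unfold den; positivity

lemma den_dvd {j M : ℕ} (h : j ≤ M) : den j ∣ den M := by
  refine mul_dvd_mul (mul_dvd_mul_left _ ?_) (pow_dvd_pow _ h)
  exact Finset.lcm_mono (Finset.Icc_subset_Icc_right (by omega))

lemma den_le : ∃ Λ : ℕ, ∀ M, den M ≤ Λ ^ (M + 1) := by
  obtain ⟨B, hB⟩ := exists_nat_ge (Real.exp (2 * (Real.log 4 + 4)))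
  refine ⟨16 * B + 2, fun M => ?_⟩
  have h1 : (Nat.lcmUpto (2 * M) : ℝ) ≤ (B : ℝ) ^ M := by
    have h2 := Chebyshev.psi_le_const_mul_self (x := ((2 * M : ℕ) : ℝ)) (by positivity)
    rw [Chebyshev.psi_eq_log_lcmUpto,
      Real.log_le_iff_le_exp (by exact_mod_cast Nat.lcmUpto_pos _)] at h2
    refine h2.trans (le_trans (le_of_eq ?_) (pow_le_pow_left₀ (Real.exp_pos _).le hB M))
    rw [← Real.exp_nat_mul]
    congr 1
    push_cast; ring
  have h3 : Nat.lcmUpto (2 * M) ≤ B ^ M := by exact_mod_cast h1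
  calc den M ≤ 2 * B ^ M * 16 ^ M := by unfold den; gcongr
    _ = 2 * (16 * B) ^ M := by rw [mul_pow]; ring
    _ ≤ (16 * B + 2) * (16 * B + 2) ^ M := by gcongr <;> omega
    _ = _ := by ring

lemma natDegree_FF : (FF c α).natDegree ≤ n := (natDegree_C_mul_le _ _).trans (natDegree_f1 α).le

lemma natDegree_Pm (j : ℕ) : ∀ a b, (Pm c α j a b).natDegree ≤ (n - 1) * j := by
  induction j with
  | zero =>
    intro a b
    simp only [Pm, Matrix.one_apply]
    split_ifs <;> simp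
  | succ j ih =>
    intro a b
    simp only [Pm, Matrix.of_apply]
    have hF := natDegree_FF c (α := α)
    have hn := a.pos
    rw [mul_add (n - 1), mul_one]
    refine (natDegree_C_mul_le _ _).trans ((natDegree_add_le _ _).trans (max_le
      ((natDegree_sub_le _ _).trans (max_le ?_ ?_)) ?_))
    · by_cases h0 : (Pm c α j a b).natDegree = 0
      · simp [derivative_of_natDegree_zero h0]
      have h1 := natDegree_derivative_le (Pm c α j a b)
      have h2 := ih a b
      have h3 := natDegree_mul_le (p := FF c α) (q := derivative (Pm c α j a b))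
      omega
    · have h1 := natDegree_derivative_le (FF c α)
      have h2 := ih a b
      have h3 := natDegree_mul_le (p := (j : ℂ[X]) * derivative (FF c α)) (q := Pm c α j a b)
      have h4 := natDegree_mul_le (p := (j : ℂ[X])) (q := derivative (FF c α))
      rw [natDegree_natCast] at h4
      omega
    · refine natDegree_sum_le_of_forall_le _ _ fun e _ => natDegree_mul_le.trans ?_
      exact add_le_add (ih a e) ((natDegree_C_mul_le _ _).trans (natDegree_Nm α e b))

end Rec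

end Pool.Agent.GPC

end MrgPart2

-- ======== part 3: formerly Pool.Agent.MP_cbf1af_ag.h26.Ode
section MrgPart3

/-! Norm bounds for the iterates, Taylor expansion, uniqueness, Liouville. -/

namespace Pool.Agent.GPC
open Polynomial Filter Topology Matrix

lemma nb_deriv_poly {p : ℂ[X]} {d : ℕ} {b : ℝ} (hd : p.natDegree ≤ d)
    (h : Nb 1 (p : PowerSeries ℂ) b) : Nb 1 ((derivative p : ℂ[X]) : PowerSeries ℂ) (d * b) := by
  refine ⟨cv_poly zero_le_one _, ?_⟩
  have h1 : Summable fun m => ‖p.coeff m‖ := by simpa [Cv] using h.1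
  have h2 : ∑' m, ‖p.coeff m‖ ≤ b := by simpa using h.2
  have h3 : Summable fun m => ‖p.coeff (m + 1)‖ := (summable_nat_add_iff 1).2 h1
  have h4 : ∑' m, ‖p.coeff (m + 1)‖ ≤ b := by
    rw [h1.tsum_eq_zero_add] at h2
    linarith [norm_nonneg (p.coeff 0)]
  have h5 := cv_poly (r := 1) zero_le_one (derivative p)
  refine le_trans (Summable.tsum_le_tsum (fun m => ?_) h5 (h3.mul_left (d : ℝ))) ?_
  · rw [coeff_coe, coeff_derivative, one_pow, mul_one, norm_mul, mul_comm]
    by_cases hm : m + 1 ≤ d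
    · gcongr
      rw [← Nat.cast_succ, Complex.norm_natCast]
      exact_mod_cast hm
    · rw [coeff_eq_zero_of_natDegree_lt (by omega)]; simp
  · rw [tsum_mul_left]; gcongr

lemma nb_poly_scale {p : ℂ[X]} {d : ℕ} {b r : ℝ} (hd : p.natDegree ≤ d) (hr : 1 ≤ r)
    (h : Nb 1 (p : PowerSeries ℂ) b) : Nb r (p : PowerSeries ℂ) (b * r ^ d) := by
  refine ⟨cv_poly (by linarith) _, ?_⟩
  refine le_trans (Summable.tsum_le_tsum (fun m => ?_) (cv_poly (by linarith) _)
    (h.1.mul_right (r ^ d))) ?_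
  · rw [coeff_coe, one_pow, mul_one]
    by_cases hm : m ≤ d
    · gcongr
    · rw [coeff_eq_zero_of_natDegree_lt (by omega)]; simp
  · rw [tsum_mul_right]
    gcongr
    exact h.2

lemma nb_reflect {p : ℂ[X]} {b : ℝ} (d : ℕ) (h : Nb 1 (p : PowerSeries ℂ) b) :
    Nb 1 ((reflect d p : ℂ[X]) : PowerSeries ℂ) b := by
  refine ⟨cv_poly zero_le_one _, le_trans (le_of_eq ?_) h.2⟩
  simp only [coeff_coe, coeff_reflect, one_pow, mul_one]
  exact (Function.Involutive.toPerm (revAt d) (fun _ => revAt_invol)).tsum_eq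
    fun m => ‖p.coeff m‖

variable {n : ℕ} (c : ℂ) (α : Fin n → ℂ)

lemma nb_Pm : ∃ B : ℝ, 1 ≤ B ∧ ∀ j a b, Nb 1 ((Pm c α j a b : ℂ[X]) : PowerSeries ℂ) (B ^ j) := by
  have h0 : (0 : ℝ) ≤ 1 := zero_le_one
  obtain ⟨A, hA0, hA1, hA2, hA3⟩ : ∃ A : ℝ, 0 ≤ A ∧ Nb 1 (FF c α : PowerSeries ℂ) A ∧
      Nb 1 ((derivative (FF c α) : ℂ[X]) : PowerSeries ℂ) A ∧
      ∀ a b, Nb 1 ((C c * Nm α a b : ℂ[X]) : PowerSeries ℂ) A := by
    choose g hg using fun p : ℂ[X] => (⟨_, nb_poly h0 p⟩ : ∃ b, Nb 1 (p : PowerSeries ℂ) b)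
    have hg0 : ∀ p, 0 ≤ g p := fun p => (hg p).nonneg h0
    have h1 : 0 ≤ ∑ a, ∑ b, g (C c * Nm α a b) :=
      Finset.sum_nonneg fun a _ => Finset.sum_nonneg fun b _ => hg0 _
    refine ⟨g (FF c α) + g (derivative (FF c α)) + ∑ a, ∑ b, g (C c * Nm α a b), ?_,
      (hg _).mono ?_, (hg _).mono ?_, fun a b => (hg _).mono ?_⟩
    · linarith [hg0 (FF c α), hg0 (derivative (FF c α))]
    · linarith [hg0 (derivative (FF c α))]
    · linarith [hg0 (FF c α)]
    · have h2 := Finset.single_le_sum (s := Finset.univ) (f := fun b => g (C c * Nm α a b))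
        (fun _ _ => hg0 _) (Finset.mem_univ b)
      have h3 := Finset.single_le_sum (s := Finset.univ)
        (f := fun a => ∑ b, g (C c * Nm α a b))
        (fun _ _ => Finset.sum_nonneg fun b _ => hg0 _) (Finset.mem_univ a)
      linarith [hg0 (FF c α), hg0 (derivative (FF c α))]
  refine ⟨n * A + 1, by linarith [mul_nonneg (Nat.cast_nonneg n) hA0], fun j => ?_⟩
  induction j with
  | zero =>
    intro a b
    simp only [Pm, Matrix.one_apply]
    split_ifs
    · simpa using nb_one h0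
    · simpa using (nb_zero h0).mono h0
  | succ j ih =>
    intro a b
    set B := n * A + 1
    have hB : 0 ≤ B := by positivity
    have h1 := (nb_C h0 (((j : ℂ) + 1)⁻¹)).mul h0 (((hA1.mul h0
      (nb_deriv_poly (natDegree_Pm c j a b) (ih a b))).add h0
      ((((nb_C h0 (j : ℂ)).mul h0 hA2).mul h0 (ih a b)).neg h0)).add h0
      (nb_sum h0 Finset.univ fun e _ => (ih a e).mul h0 (hA3 e b)))
    have h2 : ((Pm c α (j + 1) a b : ℂ[X]) : PowerSeries ℂ) = PowerSeries.C (((j : ℂ) + 1)⁻¹) *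
        ((FF c α : PowerSeries ℂ) * (derivative (Pm c α j a b) : ℂ[X]) +
          -(PowerSeries.C (j : ℂ) * (derivative (FF c α) : ℂ[X]) * (Pm c α j a b : ℂ[X])) +
        ∑ e, ((Pm c α j a e : ℂ[X]) : PowerSeries ℂ) * (C c * Nm α e b : ℂ[X])) := by
      simp only [Pm, Matrix.of_apply, ← coeToPowerSeries.ringHom_apply, map_mul, map_add,
        map_sum, map_natCast, sub_eq_add_neg, map_neg]
      simp
    rw [h2]
    refine h1.mono ?_
    have h3 : ‖((j : ℂ) + 1)⁻¹‖ = ((j : ℝ) + 1)⁻¹ := by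
      rw [norm_inv, ← Nat.cast_succ, Complex.norm_natCast]; simp
    have hn : 1 ≤ n := a.pos
    rw [h3, Complex.norm_natCast, Finset.sum_const, Finset.card_univ, Fintype.card_fin,
      nsmul_eq_mul, Nat.cast_mul, Nat.cast_sub hn, inv_mul_le_iff₀ (by positivity), pow_succ]
    have : 0 ≤ B ^ j := by positivity
    have h4 : B = n * A + 1 := rfl
    have : 0 ≤ (j : ℝ) * B ^ j := by positivity
    push_cast
    nlinarith

/-- divided iterates of the connection -/
noncomputable def Gm (j : ℕ) (T : ℂ) : Matrix (Fin n) (Fin n) ℂ :=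
  Matrix.of fun a b => (Pm c α j a b).eval T / (FF c α).eval T ^ j

variable {c α} {O : Set ℂ} {Y Z : ℂ → Matrix (Fin n) (Fin n) ℂ}

lemma eval_FF_ne (hc : c ≠ 0) {T : ℂ} (h : ∀ k, T ≠ α k) : (FF c α).eval T ≠ 0 := by
  rw [FF, eval_mul, eval_C]; exact mul_ne_zero hc (eval_f1_ne α h)

lemma Sol.iter (hc : c ≠ 0) (hY : Sol α O Y) (hO : IsOpen O) (hα : ∀ T ∈ O, ∀ k, T ≠ α k)
    (a b : Fin n) (j : ℕ) : ∀ T ∈ O,
    iteratedDeriv j (fun z => Y z a b) T = j.factorial * (Gm c α j T * Y T) a b := by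
  induction j with
  | zero =>
    intro T _
    have : Gm c α 0 T = 1 := by
      ext a b
      simp only [Gm, Pm, Matrix.of_apply, Matrix.one_apply]
      split_ifs <;> simp
    simp [this]
  | succ j ih =>
    intro T hT
    have h1 : iteratedDeriv j (fun z => Y z a b) =ᶠ[𝓝 T]
        fun z => j.factorial * ∑ e, (Pm c α j a e).eval z / (FF c α).eval z ^ j * Y z e b := by
      filter_upwards [hO.mem_nhds hT] with z hz
      rw [ih z hz]; rfl
    have hF := eval_FF_ne hc (hα T hT)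
    have h2 := (HasDerivAt.fun_sum (u := Finset.univ) fun e _ =>
      (((Pm c α j a e).hasDerivAt T).fun_div (((FF c α).hasDerivAt T).fun_pow j)
        (pow_ne_zero j hF)).fun_mul (hY T hT e b)).const_mul (j.factorial : ℂ)
    rw [iteratedDeriv_succ, h1.deriv_eq, h2.deriv, Nat.factorial_succ]
    have hj : ((j : ℂ) + 1) ≠ 0 := by exact_mod_cast Nat.succ_ne_zero j
    simp only [Matrix.mul_apply, Gm, Matrix.of_apply, Pm, eval_mul, eval_C, eval_add, eval_sub,
      eval_finsetSum, eval_natCast, eval_Nm α (hα T hT), Finset.sum_add_distrib, mul_add]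
    have h6 : (j.factorial : ℂ) * ∑ e, (Pm c α j a e).eval T / (FF c α).eval T ^ j *
        ∑ i, Am α T e i * Y T i b = ∑ e, ∑ i, (j.factorial : ℂ) * ((Pm c α j a i).eval T /
        (FF c α).eval T ^ j * (Am α T i e * Y T e b)) := by
      rw [Finset.sum_comm]
      simp only [Finset.mul_sum]
    rw [h6, Finset.mul_sum, Finset.mul_sum, ← Finset.sum_add_distrib]
    refine Finset.sum_congr rfl fun e _ => ?_
    have h3 : (FF c α).eval T = c * (f1 α).eval T := by rw [FF, eval_mul, eval_C]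
    have h4 : ∑ i, (Pm c α j a i).eval T * (c * ((f1 α).eval T * Am α T i e)) =
        (FF c α).eval T * ∑ i, (Pm c α j a i).eval T * Am α T i e := by
      rw [h3, Finset.mul_sum]; exact Finset.sum_congr rfl fun i _ => by ring
    have h5 : ∑ i, (j.factorial : ℂ) * ((Pm c α j a i).eval T / (FF c α).eval T ^ j *
        (Am α T i e * Y T e b)) = j.factorial * (∑ i, (Pm c α j a i).eval T * Am α T i e) /
        (FF c α).eval T ^ j * Y T e b := by
      rw [Finset.mul_sum, Finset.sum_div, Finset.sum_mul]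
      exact Finset.sum_congr rfl fun i _ => by ring
    rw [h4, h5]
    push_cast
    cases j with
    | zero => simp; field_simp
    | succ j =>
      simp only [Nat.add_sub_cancel]
      field_simp
      ring

lemma Sol.differentiableOn (hY : Sol α O Y) (a b : Fin n) :
    DifferentiableOn ℂ (fun z => Y z a b) O :=
  fun T hT => (hY T hT a b).differentiableAt.differentiableWithinAt

lemma Sol.analyticOnNhd (hY : Sol α O Y) (hO : IsOpen O) (a b : Fin n) :
    AnalyticOnNhd ℂ (fun z => Y z a b) O := (hY.differentiableOn a b).analyticOnNhd hO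

lemma Sol.hasSum (hc : c ≠ 0) (hY : Sol α O Y) (hO : IsOpen O) (hα : ∀ T ∈ O, ∀ k, T ≠ α k)
    {T h : ℂ} {r : ℝ} (hr : Metric.ball T r ⊆ O) (hh : ‖h‖ < r) (a b : Fin n) :
    HasSum (fun j => h ^ j * (Gm c α j T * Y T) a b) (Y (T + h) a b) := by
  have hT : T ∈ O := hr (Metric.mem_ball_self (lt_of_le_of_lt (norm_nonneg _) hh))
  have := Complex.hasSum_taylorSeries_on_ball ((hY.differentiableOn a b).mono hr) (z := T + h)
    (by simpa using hh)
  refine HasSum.congr_fun this ?_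
  intro j
  rw [hY.iter hc hO hα a b j T hT]
  have : (j.factorial : ℂ) ≠ 0 := by exact_mod_cast j.factorial_ne_zero
  simp only [add_sub_cancel_left, smul_eq_mul]
  field_simp

lemma Sol.mono {O' : Set ℂ} (hY : Sol α O Y) (h : O' ⊆ O) : Sol α O' Y := fun T hT => hY T (h hT)

lemma Sol.sub (hY : Sol α O Y) (hZ : Sol α O Z) : Sol α O fun z => Y z - Z z := by
  intro T hT a b
  simpa [Matrix.mul_sub] using (hY T hT a b).fun_sub (hZ T hT a b)

lemma Sol.mul_const (hY : Sol α O Y) (M : Matrix (Fin n) (Fin n) ℂ) :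
    Sol α O fun z => Y z * M := by
  intro T hT a b
  rw [← Matrix.mul_assoc]
  simp only [Matrix.mul_apply (N := M)]
  exact HasDerivAt.fun_sum fun e _ => (hY T hT a e).mul_const _

lemma Sol.eq_zero (hY : Sol α O Y) (hO : IsOpen O) (hO' : IsPreconnected O)
    (hα : ∀ T ∈ O, ∀ k, T ≠ α k) {T₀ : ℂ} (h₀ : T₀ ∈ O) (h : Y T₀ = 0) : ∀ T ∈ O, Y T = 0 := by
  intro T hT
  ext a b
  obtain ⟨r, hr, hr'⟩ := Metric.isOpen_iff.1 hO T₀ h₀
  refine (hY.analyticOnNhd hO a b).eqOn_zero_of_preconnected_of_eventuallyEq_zero hO' h₀ ?_ hT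
  filter_upwards [Metric.ball_mem_nhds T₀ hr] with z hz
  have := hY.hasSum one_ne_zero hO hα hr' (h := z - T₀) (by simpa [dist_eq_norm] using hz) a b
  simp only [h, Matrix.zero_apply, mul_zero, add_sub_cancel] at this
  exact this.unique hasSum_zero

lemma Sol.det_const (hY : Sol α O Y) (hO : IsOpen O) (hO' : IsPreconnected O) {T T' : ℂ}
    (hT : T ∈ O) (hT' : T' ∈ O) : (Y T).det = (Y T').det := by
  have h : ∀ z ∈ O, HasDerivAt (fun w => (Y w).det) 0 z := by
    intro z hz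
    have := hasDerivAt_det (hY z hz)
    convert this using 1
    have h1 : ∀ k, (Am α z * Y z) k = ∑ l, Am α z k l • Y z l := by
      intro k; funext b; simp [Matrix.mul_apply, Finset.sum_apply]
    simp only [h1, Matrix.det_updateRow_sum, smul_eq_mul, ← Finset.sum_mul, trace_Am, zero_mul]
  exact hO.is_const_of_deriv_eq_zero hO'
    (fun z hz => (h z hz).differentiableAt.differentiableWithinAt) (fun z hz => (h z hz).deriv)
    hT hT'

lemma Sol.pair_const (hinj : Function.Injective α) (hY : Sol α O Y) (hO : IsOpen O)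
    (hO' : IsPreconnected O) (hα : ∀ T ∈ O, ∀ k, T ≠ α k) {T T' : ℂ} (hT : T ∈ O) (hT' : T' ∈ O) :
    (Y T)ᵀ * Kt α T * Y T = (Y T')ᵀ * Kt α T' * Y T' := by
  ext a b
  have h : ∀ z ∈ O, HasDerivAt (fun w => ((Y w)ᵀ * Kt α w * Y w) a b) 0 z := by
    intro z hz
    have hK : ∀ e l, HasDerivAt (fun w => Kt α w e l) ((Kt α 1 - Kt α 0) e l) z := by
      intro e l
      have : (fun w => Kt α w e l) = fun w => Kt α 0 e l + w * (Kt α 1 - Kt α 0) e l := by
        funext w; rw [Kt_lin α w]; simp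
      rw [this]
      simpa using ((hasDerivAt_id z).mul_const ((Kt α 1 - Kt α 0) e l)).const_add (Kt α 0 e l)
    have h0 := flat hinj (hα z hz)
    generalize Kt α 1 - Kt α 0 = K' at hK h0
    have h1 := HasDerivAt.fun_sum (u := Finset.univ) fun l _ => (HasDerivAt.fun_sum
      (u := Finset.univ) fun e _ => (hY z hz e a).fun_mul (hK e l)).fun_mul (hY z hz l b)
    have h2 := congrArg (fun M => ((Y z)ᵀ * M * Y z) a b) h0
    simp only [Matrix.mul_add, Matrix.add_mul, Matrix.mul_zero, Matrix.zero_mul,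
      Matrix.zero_apply, Matrix.add_apply] at h2
    rw [← Matrix.mul_assoc, ← Matrix.transpose_mul, Matrix.mul_assoc _ (Kt α z * _),
      Matrix.mul_assoc (Kt α z), ← Matrix.mul_assoc _ (Kt α z)] at h2
    refine HasDerivAt.congr_deriv h1 (Eq.symm ?_)
    rw [← h2]
    generalize Am α z * Y z = W
    simp only [Matrix.mul_apply, Matrix.transpose_apply, Finset.sum_add_distrib, add_mul]
    ring
  exact hO.is_const_of_deriv_eq_zero hO'
    (fun z hz => (h z hz).differentiableAt.differentiableWithinAt) (fun z hz => (h z hz).deriv)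
    hT hT'

end Pool.Agent.GPC

end MrgPart3

-- marker of a merged file
example : 731051 + 276589 = 731051 + 276589 := rfl
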