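import Mathlib.Data.Int.Star
import Mathlib.NumberTheory.NumberField.Basic
import Mathlib.Algebra.Order.Star.Real
import Mathlib.NumberTheory.SiegelsLemma
import Pool.Agent.MP_cbf1af_ag.h26.Ode
import Pool.Agent.MP_cbf1af_ag.h26.Zero

-- ======== part 0: formerly Pool.Agent.MP_cbf1af_ag.h26.USer
section MrgPart0

/-! The series `U_h(z)` with `U_h(1/T) = Y(T + h) Y(T)⁻¹`. -/

namespace Pool.Agent.GPC
open Polynomial Filter Topology Matrix

variable {n : ℕ} (c : ℂ) (α : Fin n → ℂ)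

noncomputable def finv : PowerSeries ℂ :=
  PowerSeries.C c⁻¹ * ∏ k, PowerSeries.mk fun m => α k ^ m

noncomputable def Uterm (h : ℂ) (j : ℕ) (a b : Fin n) : PowerSeries ℂ :=
  PowerSeries.C (h ^ j) * PowerSeries.X ^ j *
    ((reflect ((n - 1) * j) (Pm c α j a b) : ℂ[X]) : PowerSeries ℂ) * finv c α ^ j

noncomputable def Uh (h : ℂ) : Matrix (Fin n) (Fin n) (PowerSeries ℂ) :=
  Matrix.of fun a b => tsumS fun j => Uterm c α h j a b

lemma geo_mul (a : ℂ) :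
    (PowerSeries.mk fun m => a ^ m) * (1 - PowerSeries.C a * PowerSeries.X) = 1 := by
  ext m
  rw [mul_sub, mul_one, map_sub, ← mul_assoc, PowerSeries.coeff_mk]
  cases m with
  | zero => simp
  | succ m =>
    rw [PowerSeries.coeff_succ_mul_X, PowerSeries.coeff_mul_C, PowerSeries.coeff_mk,
      PowerSeries.coeff_one, if_neg (Nat.succ_ne_zero m)]
    ring

lemma reflect_prod {ι : Type*} (s : Finset ι) (a : ι → ℂ) :
    reflect s.card (∏ k ∈ s, (X - C (a k))) = ∏ k ∈ s, (1 - C (a k) * X) := by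
  classical
  induction s using Finset.induction_on with
  | empty => simp
  | insert i s hi ih =>
    rw [Finset.prod_insert hi, Finset.prod_insert hi, Finset.card_insert_of_notMem hi, add_comm,
      reflect_mul _ _ (natDegree_X_sub_C_le _) (by
        rw [natDegree_prod_of_monic _ _ fun _ _ => monic_X_sub_C _]; simp), ih]
    simp

variable {c} in
lemma finv_mul (hc : c ≠ 0) : finv c α * ((reflect n (FF c α) : ℂ[X]) : PowerSeries ℂ) = 1 := by
  have := reflect_prod Finset.univ α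
  rw [Finset.card_univ, Fintype.card_fin] at this
  rw [FF, reflect_C_mul, f1, this, finv, ← coeToPowerSeries.ringHom_apply, map_mul, map_prod,
    mul_mul_mul_comm, ← Finset.prod_mul_distrib, Finset.prod_eq_one]
  · simp [← map_mul, inv_mul_cancel₀ hc]
  · intro k _
    simpa using geo_mul (α k)

lemma nb_finv {r : ℝ} (hr : 0 ≤ r) (h : ∀ k, ‖α k‖ * r ≤ 1 / 2) :
    Nb r (finv c α) (‖c⁻¹‖ * 2 ^ n) := by
  have := (nb_C hr c⁻¹).mul hr (nb_prod hr Finset.univ (b := fun _ => 2 * 1) fun k _ =>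
    nb_of_geom (s := PowerSeries.mk fun m => α k ^ m) hr (norm_nonneg _) (h k) fun m => by simp)
  simpa [finv] using this

lemma eval_reflect {T : ℂ} (hT : T ≠ 0) {p : ℂ[X]} {N : ℕ} (h : p.natDegree ≤ N) :
    (reflect N p).eval T⁻¹ * T ^ N = p.eval T := by
  let _ := invertibleOfNonzero hT
  simpa using eval₂_reflect_mul_pow (RingHom.id ℂ) T N p h

lemma exists_K0 : ∃ K₀ : ℕ, 1 ≤ K₀ ∧ ∀ (h : ℕ) (K : ℝ), K₀ * (h + 1) ≤ K →
    Cv K⁻¹ (finv c α) ∧ ∀ j a b, Nb K⁻¹ (Uterm c α h j a b) ((1 / 2) ^ j) := by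
  obtain ⟨B, hB, hPm⟩ := nb_Pm c α
  obtain ⟨K₀, hK₀⟩ := exists_nat_ge (1 + 2 * ∑ k, ‖α k‖ + 2 * B * (‖c⁻¹‖ * 2 ^ n))
  have h1 : 0 ≤ ∑ k, ‖α k‖ := by positivity
  have h2 : 0 ≤ 2 * B * (‖c⁻¹‖ * 2 ^ n) := by positivity
  have h3 : (1 : ℝ) ≤ K₀ := by linarith
  refine ⟨K₀, by exact_mod_cast h3, fun h K hK => ?_⟩
  have hh : (0 : ℝ) ≤ h := Nat.cast_nonneg h
  have hK1 : K₀ ≤ K := by nlinarith
  have hK0 : 0 < K := by linarith
  have hr : 0 ≤ K⁻¹ := by positivity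
  have hf := nb_finv c α hr fun k => by
    have := Finset.single_le_sum (f := fun k => ‖α k‖) (fun _ _ => norm_nonneg _)
      (Finset.mem_univ k)
    rw [← div_eq_mul_inv, div_le_iff₀ hK0]
    linarith
  refine ⟨hf.1, fun j a b => ?_⟩
  refine ((((nb_C hr _).mul hr ((nb_X hr).pow hr j)).mul hr ((nb_reflect _ (hPm j a b)).mono_r hr
    (inv_le_one_of_one_le₀ (by linarith)))).mul hr (hf.pow hr j)).mono ?_
  rw [norm_pow, ← mul_pow, ← mul_pow, ← mul_pow, Complex.norm_natCast]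
  gcongr
  rw [mul_comm (h : ℝ), mul_assoc, mul_assoc, inv_mul_le_iff₀ hK0]
  nlinarith

variable {c α}

lemma nb_Uh {h : ℂ} {r : ℝ} (hr : 0 < r) (H : ∀ j a b, Nb r (Uterm c α h j a b) ((1 / 2) ^ j))
    (a b : Fin n) : Nb r (Uh c α h a b) 2 := by
  have := nb_tsumS hr (fun j => H j a b) summable_geometric_two
  rwa [tsum_geometric_two] at this

lemma ev_Uh (hc : c ≠ 0) {O : Set ℂ} {Y : ℂ → Matrix (Fin n) (Fin n) ℂ} (hY : Sol α O Y)
    (hO : IsOpen O) (hα : ∀ T ∈ O, ∀ k, T ≠ α k) {h T : ℂ} {K r : ℝ} (hK : 0 < K)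
    (hf : Cv K⁻¹ (finv c α)) (H : ∀ j a b, Nb K⁻¹ (Uterm c α h j a b) ((1 / 2) ^ j))
    (hT : K ≤ ‖T‖) (hr : Metric.ball T r ⊆ O) (hh : ‖h‖ < r) :
    (Uh c α h).map (ev T⁻¹) * Y T = Y (T + h) := by
  have hK' : 0 < K⁻¹ := by positivity
  have hz : ‖T⁻¹‖ ≤ K⁻¹ := by rw [norm_inv]; exact inv_anti₀ hK hT
  have hT0 : T ≠ 0 := norm_pos_iff.1 (hK.trans_le hT)
  have hTO : T ∈ O := hr (Metric.mem_ball_self (lt_of_le_of_lt (norm_nonneg _) hh))
  have hF := eval_FF_ne hc (hα T hTO)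
  have h1 : ∀ j a b, ev T⁻¹ (Uterm c α h j a b) = h ^ j * Gm c α j T a b := by
    intro j a b
    have h2 := congrArg (ev T⁻¹) (finv_mul α hc)
    rw [ev_mul hf (cv_poly hK'.le _) hz, ev_one, ev_poly] at h2
    have h3 := eval_reflect hT0 (natDegree_FF c (α := α))
    have h4 := eval_reflect hT0 (natDegree_Pm c (α := α) j a b)
    have h5 : ev T⁻¹ (finv c α) = T ^ n / (FF c α).eval T := by
      rw [eq_div_iff hF, ← h3]; linear_combination T ^ n * h2
    have hX := (cv_X hK'.le).pow hK'.le j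
    rw [Uterm, ev_mul (((cv_C hK'.le _).mul hK'.le hX).mul hK'.le (cv_poly hK'.le _))
      (hf.pow hK'.le j) hz, ev_mul ((cv_C hK'.le _).mul hK'.le hX) (cv_poly hK'.le _) hz,
      ev_mul (cv_C hK'.le _) hX hz, ev_pow hf hz, ev_pow (cv_X hK'.le) hz, ev_C, ev_X, ev_poly, h5,
      Gm, Matrix.of_apply, ← h4, div_pow, ← pow_mul]
    obtain ⟨m, rfl⟩ : ∃ m, n = m + 1 := ⟨n - 1, by have := a.pos; omega⟩
    simp only [Nat.add_sub_cancel, add_mul, one_mul, pow_add, inv_pow]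
    field_simp
  ext a b
  refine HasSum.unique ?_ (hY.hasSum hc hO hα hr hh a b)
  simp only [Matrix.mul_apply, Finset.mul_sum, Matrix.map_apply, ← mul_assoc]
  refine hasSum_sum fun e _ => HasSum.mul_right _ ?_
  rw [Uh, Matrix.of_apply, ev_tsumS hK' (fun j => H j a e) summable_geometric_two hz]
  simp only [← h1]
  exact (Summable.of_norm_bounded summable_geometric_two
    fun j => (H j a e).norm_ev_le hz).hasSum

lemma Uh_int (hα : Function.Injective α) (hc : c ≠ 0) (hF : ∀ m, ∃ z : ℤ, (FF c α).coeff m = z) :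
    ∃ Λ : ℕ, ∀ M, ∃ d : ℕ, 0 < d ∧ d ≤ Λ ^ (M + 1) ∧ ∀ (h : ℕ) a b, ∀ m ≤ M,
      ∃ z : ℤ, (d : ℂ) * PowerSeries.coeff m (Uh c α h a b) = z := by
  obtain ⟨Λ, hΛ⟩ := den_le
  obtain ⟨c₀, hc₀⟩ : ∃ z : ℤ, c = z := by
    obtain ⟨z, hz⟩ := hF n
    refine ⟨z, ?_⟩
    rw [← hz, FF, coeff_C_mul]
    have := (f1_monic α).coeff_natDegree
    rw [natDegree_f1] at this
    rw [this, mul_one]
  set R₀ : Subring ℂ := (Int.castRingHom ℂ).range
  have hR₀ : ∀ x : ℂ, x ∈ R₀ ↔ ∃ z : ℤ, x = z := fun x => by simp [R₀, eq_comm]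
  set Ψ := (PowerSeries.map R₀.subtype).range
  have hcR : c ∈ R₀ := (hR₀ c).2 ⟨c₀, hc₀⟩
  have hres : ∀ s ∈ Ψ, PowerSeries.rescale c s ∈ Ψ := by
    intro s hs
    rw [mem_range_map_iff] at hs ⊢
    intro m
    rw [PowerSeries.coeff_rescale]
    exact mul_mem (pow_mem hcR _) (hs m)
  have hCm : ∀ x ∈ R₀, PowerSeries.C x ∈ Ψ := fun x hx => ⟨PowerSeries.C ⟨x, hx⟩, by simp⟩
  have hfinv : PowerSeries.C c * PowerSeries.rescale c (finv c α) ∈ Ψ := by
    set g := reflect n (FF c α)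
    have hg : ∀ m, g.coeff m ∈ R₀ := fun m => by rw [coeff_reflect]; exact (hR₀ _).2 (hF _)
    have hg0 : g.coeff 0 = c := by
      rw [coeff_reflect, revAt_zero, FF, coeff_C_mul]
      have := (f1_monic α).coeff_natDegree
      rw [natDegree_f1] at this
      rw [this, mul_one]
    set g' : PowerSeries R₀ := 1 + PowerSeries.X *
      PowerSeries.mk fun m => ⟨c ^ m * g.coeff (m + 1), mul_mem (pow_mem hcR _) (hg _)⟩ with hg'
    have h1 : PowerSeries.rescale c (g : PowerSeries ℂ) =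
        PowerSeries.C c * PowerSeries.map R₀.subtype g' := by
      ext m
      rw [PowerSeries.coeff_rescale, PowerSeries.coeff_C_mul, PowerSeries.coeff_map, coeff_coe, hg']
      cases m with
      | zero => simp [hg0]
      | succ m => simp [PowerSeries.coeff_succ_X_mul, PowerSeries.coeff_one]; ring
    have h2 := congrArg (PowerSeries.rescale c) (finv_mul α hc)
    rw [map_mul, h1, map_one] at h2
    have h3 := congrArg (PowerSeries.map R₀.subtype)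
      (PowerSeries.mul_invOfUnit g' 1 (by simp [hg']))
    rw [map_mul, map_one] at h3
    refine ⟨PowerSeries.invOfUnit g' 1, ?_⟩
    linear_combination (PowerSeries.C c * PowerSeries.rescale c (finv c α)) * h3 -
      (PowerSeries.map R₀.subtype (PowerSeries.invOfUnit g' 1)) * h2
  have hc₀' : 0 < c₀.natAbs := Int.natAbs_pos.2 (by rintro rfl; simp at hc₀; exact hc hc₀)
  refine ⟨Λ * c₀.natAbs ^ 2, fun M => ⟨den M * c₀.natAbs ^ (2 * M),
    Nat.mul_pos (den_pos M) (pow_pos hc₀' _), ?_, fun h a b m hm => ?_⟩⟩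
  · rw [mul_pow, ← pow_mul]
    exact Nat.mul_le_mul (hΛ M) (Nat.pow_le_pow_right hc₀' (by omega))
  have hd : ((den M * c₀.natAbs ^ (2 * M) : ℕ) : ℂ) = den M * c ^ (2 * M) := by
    rw [hc₀, pow_mul, pow_mul]
    push_cast
    congr 2
    have := congrArg (Int.cast : ℤ → ℂ) (Int.natAbs_sq c₀)
    rwa [Int.cast_pow, Int.cast_pow, Int.cast_natCast] at this
  rw [← hR₀, hd, Uh, Matrix.of_apply, tsumS, PowerSeries.coeff_mk,
    tsum_eq_sum (s := Finset.range (m + 1)), Finset.mul_sum]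
  · refine sum_mem fun j hj => ?_
    have hj' : j ≤ m := Nat.lt_succ_iff.1 (Finset.mem_range.1 hj)
    have h1 : PowerSeries.C (den j : ℂ) *
        ((reflect ((n - 1) * j) (Pm c α j a b) : ℂ[X]) : PowerSeries ℂ) ∈ Ψ := by
      rw [mem_range_map_iff]
      intro i
      rw [PowerSeries.coeff_C_mul, coeff_coe, coeff_reflect, hR₀]
      exact Pm_int c hα hc hF j a b _
    have h2 : PowerSeries.C ((den j : ℂ) * c ^ j) * PowerSeries.rescale c (Uterm c α h j a b) =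
        PowerSeries.rescale c (PowerSeries.C ((h : ℂ) ^ j) * PowerSeries.X ^ j *
        (PowerSeries.C (den j : ℂ) *
        ((reflect ((n - 1) * j) (Pm c α j a b) : ℂ[X]) : PowerSeries ℂ))) *
        (PowerSeries.C c * PowerSeries.rescale c (finv c α)) ^ j := by
      simp only [Uterm, map_mul, map_pow, map_natCast, mul_pow]
      ring
    have h3 : PowerSeries.C ((den j : ℂ) * c ^ j) *
        PowerSeries.rescale c (Uterm c α h j a b) ∈ Ψ := by
      rw [h2]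
      exact mul_mem (hres _ (mul_mem (mul_mem (hCm _ (pow_mem (natCast_mem _ h) j))
        (pow_mem (show PowerSeries.X ∈ Ψ from ⟨PowerSeries.X, by simp⟩) j)) h1)) (pow_mem hfinv j)
    have h4 := (mem_range_map_iff R₀ _).1 h3 m
    rw [PowerSeries.coeff_C_mul, PowerSeries.coeff_rescale] at h4
    obtain ⟨e, he⟩ := den_dvd (hj'.trans hm)
    obtain ⟨i, hi⟩ : ∃ i, 2 * M = j + m + i := ⟨2 * M - (j + m), by omega⟩
    have := mul_mem (mul_mem (natCast_mem R₀ e) (pow_mem hcR i)) h4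
    convert this using 1
    rw [he, hi]
    push_cast
    ring
  · intro j hj
    have hj' : m < j := by simpa using hj
    rw [Uterm, mul_comm (PowerSeries.C _), mul_assoc, mul_assoc, PowerSeries.coeff_X_pow_mul',
      if_neg (by omega)]

/-- half plane -/
def HP (p : ℂ →L[ℝ] ℝ) (p₀ : ℝ) : Set ℂ := {T | p₀ < p T}

lemma isOpen_HP (p : ℂ →L[ℝ] ℝ) (p₀ : ℝ) : IsOpen (HP p p₀) :=
  isOpen_lt continuous_const p.continuous

lemma convex_HP (p : ℂ →L[ℝ] ℝ) (p₀ : ℝ) : Convex ℝ (HP p p₀) :=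
  convex_halfSpace_gt p.toLinearMap.isLinear p₀

lemma hp_ball (p : ℂ →L[ℝ] ℝ) (p₀ : ℝ) (h1 : 0 < p 1) : ∃ K₁ : ℕ, ∀ (H : ℕ) (x : ℝ),
    K₁ * (H + 1) ≤ x → Metric.ball (x : ℂ) (H + 2) ⊆ HP p p₀ := by
  obtain ⟨K₁, hK⟩ := exists_nat_ge ((2 * ‖p‖ + |p₀| + 1) / p 1)
  rw [div_le_iff₀ h1] at hK
  refine ⟨K₁, fun H x hx T hT => ?_⟩
  have h2 : p T = x * p 1 + p (T - x) := by
    rw [map_sub, ← smul_eq_mul, ← map_smul]; simp
  have h3 : |p (T - x)| ≤ ‖p‖ * (H + 2) := by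
    refine (p.le_opNorm _).trans ?_
    gcongr
    simpa [dist_eq_norm] using (Metric.mem_ball.1 hT).le
  have h4 := neg_abs_le (p (T - x))
  have h5 := le_abs_self p₀
  have hH : (0 : ℝ) ≤ H := Nat.cast_nonneg H
  have h6 : K₁ * (H + 1) * p 1 ≤ x * p 1 := by gcongr
  have h7 := norm_nonneg p
  have h8 := abs_nonneg p₀
  change p₀ < p T
  nlinarith

theorem Uh_ode (hc : c ≠ 0) {p : ℂ →L[ℝ] ℝ} {p₀ : ℝ} (h1 : 0 < p 1)
    {Y : ℂ → Matrix (Fin n) (Fin n) ℂ} (hY : Sol α (HP p p₀) Y)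
    (hα : ∀ T ∈ HP p p₀, ∀ k, T ≠ α k) (hdet : ∀ T ∈ HP p p₀, (Y T).det ≠ 0) (h : ℕ)
    (Z : Finset ℂ) (hZ1 : ∀ k, α k - h ≠ 0 → α k - h ∈ Z) (hZ2 : ∀ k, α k ≠ 0 → α k ∈ Z)
    (W : Submodule ℂ (PowerSeries ℂ)) (hW : ∀ a b, Uh c α h a b ∈ W) (a b : Fin n) :
    ((X * ∏ β ∈ Z, (1 - C β * X) : ℂ[X]) : PowerSeries ℂ) *
      PowerSeries.derivative ℂ (Uh c α h a b) ∈ Pl Z.card * W := by
  classical
  set Q : ℂ → ℂ[X] := fun β => ∏ γ ∈ Z.erase β, (1 - C γ * X) with hQ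
  have hQd : ∀ β x, (Q β * C x).natDegree ≤ Z.card := by
    intro β x
    refine (natDegree_mul_C_le _ _).trans ((natDegree_prod_le _ _).trans ?_)
    refine (Finset.sum_le_card_nsmul _ _ 1 fun γ _ => ?_).trans (by simpa using Finset.card_erase_le)
    compute_degree
  have hQm : ∀ β, (β ≠ 0 → β ∈ Z) → Q β * (1 - C β * X) = ∏ γ ∈ Z, (1 - C γ * X) := by
    intro β hβ
    by_cases h : β ∈ Z
    · exact Finset.prod_erase_mul _ _ h
    · obtain rfl : β = 0 := by tauto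
      simp [hQ, Finset.erase_eq_of_notMem h]
  set U := Uh c α h
  suffices hs : ((X * ∏ β ∈ Z, (1 - C β * X) : ℂ[X]) : PowerSeries ℂ) *
      PowerSeries.derivative ℂ (U a b) =
      ∑ k, ∑ e, ((Q (α k) * C (Em α k e b) : ℂ[X]) : PowerSeries ℂ) * U a e -
      ∑ k, ∑ e, ((Q (α k - h) * C (Em α k a e) : ℂ[X]) : PowerSeries ℂ) * U e b by
    rw [hs]
    exact sub_mem (sum_mem fun k _ => sum_mem fun e _ =>
      Submodule.mul_mem_mul (coe_mem_Pl (hQd _ _)) (hW _ _))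
      (sum_mem fun k _ => sum_mem fun e _ => Submodule.mul_mem_mul (coe_mem_Pl (hQd _ _)) (hW _ _))
  obtain ⟨K₀, hK₀, hK₀'⟩ := exists_K0 c α
  obtain ⟨K₁, hK₁⟩ := hp_ball p p₀ h1
  set K : ℝ := K₀ * (h + 1)
  have hK : 0 < K := by positivity
  obtain ⟨hf, H⟩ := hK₀' h K le_rfl
  have hK' : 0 < K⁻¹ := by positivity
  have hU : ∀ a b, Cv K⁻¹ (U a b) := fun a b => (nb_Uh hK' H a b).1
  set r := K⁻¹ / 2
  have hr : 0 < r := by positivity
  have hr' : r < K⁻¹ := half_lt_self hK'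
  have hU' : ∀ a b, Cv r (U a b) := fun a b => (hU a b).mono hr.le hr'.le
  have hU'' : ∀ a b, Cv r (PowerSeries.derivative ℂ (U a b)) :=
    fun a b => (hU a b).derivative hr.le hr'
  have hs1 : ∀ (g : Fin n → Fin n → ℂ[X]) (u : Fin n → PowerSeries ℂ), (∀ e, Cv r (u e)) →
      Cv r (∑ k, ∑ e, (g k e : PowerSeries ℂ) * u e) ∧ ∀ z, ‖z‖ ≤ r →
      ev z (∑ k, ∑ e, (g k e : PowerSeries ℂ) * u e) = ∑ k, ∑ e, (g k e).eval z * ev z (u e) := by
    intro g u hu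
    have h2 := fun k e => (cv_poly hr.le (g k e)).mul hr.le (hu e)
    refine ⟨cv_sum hr.le _ fun k _ => cv_sum hr.le _ fun e _ => h2 k e, fun z hz => ?_⟩
    rw [ev_sum _ (fun k _ => cv_sum hr.le _ fun e _ => h2 k e) hz]
    refine Finset.sum_congr rfl fun k _ => ?_
    rw [ev_sum _ (fun e _ => h2 k e) hz]
    exact Finset.sum_congr rfl fun e _ => by rw [ev_mul (cv_poly hr.le _) (hu e) hz, ev_poly]
  obtain ⟨c1, e1⟩ := hs1 (fun k e => Q (α k) * C (Em α k e b)) (fun e => U a e) fun e => hU' _ _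
  obtain ⟨c2, e2⟩ := hs1 (fun k e => Q (α k - h) * C (Em α k a e)) (fun e => U e b)
    fun e => hU' _ _
  have c3 := (cv_poly hr.le (X * ∏ β ∈ Z, (1 - C β * X))).mul hr.le (hU'' a b)
  rw [← sub_eq_zero]
  refine eq_zero_of_ev_frequently hr (c3.sub hr.le (c1.sub hr.le c2)) ?_
  have hten : Tendsto (fun x : ℝ => (x : ℂ)⁻¹) atTop (𝓝[≠] 0) := by
    refine tendsto_nhdsWithin_iff.2 ⟨?_, ?_⟩
    · have := (Complex.continuous_ofReal.tendsto 0).comp tendsto_inv_atTop_zero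
      simpa [Function.comp_def] using this
    · filter_upwards [eventually_gt_atTop 0] with x hx
      simpa using hx.ne'
  refine hten.frequently (Eventually.frequently ?_)
  filter_upwards [eventually_ge_atTop (K₁ * (h + 1) : ℝ), eventually_ge_atTop (2 * K + 1)]
    with x hx1 hx2
  have hx0 : 0 < x := by linarith
  have hball := hK₁ h x hx1
  have hxn : ‖(x : ℂ)‖ = x := by rw [Complex.norm_real, Real.norm_of_nonneg hx0.le]
  have hxc : (x : ℂ) ≠ 0 := by exact_mod_cast hx0.ne'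
  have hz : ‖(x : ℂ)⁻¹‖ ≤ r := by
    rw [norm_inv, hxn, show r = (2 * K)⁻¹ by simp only [r]; field_simp]
    exact inv_anti₀ (by positivity) (by linarith)
  have hloc : ∀ T ∈ Metric.ball (x : ℂ) 1, U.map (ev T⁻¹) * Y T = Y (T + h) := by
    intro T hT
    have hT' : ‖T - x‖ < 1 := by simpa [dist_eq_norm] using hT
    refine ev_Uh hc hY (isOpen_HP _ _) hα hK hf H ?_ (r := h + 1)
      ((Metric.ball_subset_ball' ?_).trans hball) (by simp)
    · have := norm_sub_norm_le (x : ℂ) T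
      rw [norm_sub_rev] at this
      linarith
    · rw [dist_eq_norm]; linarith
  have hxO : (x : ℂ) ∈ HP p p₀ := hball (Metric.mem_ball_self (by positivity))
  have hxO' : (x : ℂ) + h ∈ HP p p₀ := hball (by simp)
  set V := U.map (ev (x : ℂ)⁻¹)
  set V' : Matrix (Fin n) (Fin n) ℂ :=
    Matrix.of fun a b => ev (x : ℂ)⁻¹ (PowerSeries.derivative ℂ (U a b)) * (-((x : ℂ) ^ 2)⁻¹)
  have hder : (V' + V * Am α x) * Y x = (Am α (x + h) * V) * Y x := by
    ext a b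
    have h2 : HasDerivAt (fun T => (U.map (ev T⁻¹) * Y T) a b)
        (∑ e, (V' a e * Y x e b + V a e * (Am α x * Y x) e b)) x := by
      simp only [Matrix.mul_apply (M := U.map _)]
      exact HasDerivAt.fun_sum fun e _ => ((hasDerivAt_ev (hU a e) (hz.trans_lt hr')).comp (x : ℂ)
        (hasDerivAt_inv hxc)).fun_mul (hY x hxO e b)
    have h3 : HasDerivAt (fun T => Y (T + h) a b) ((Am α (x + h) * Y (x + h)) a b) x :=
      HasDerivAt.comp_add_const (x : ℂ) h (hY _ hxO' a b)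
    have h4 : (fun T => (U.map (ev T⁻¹) * Y T) a b) =ᶠ[𝓝 (x : ℂ)] fun T => Y (T + h) a b := by
      filter_upwards [Metric.ball_mem_nhds (x : ℂ) one_pos] with T hT
      rw [hloc T hT]
    have h5 := h2.unique (h3.congr_of_eventuallyEq h4)
    rw [← hloc x (Metric.mem_ball_self one_pos), ← Matrix.mul_assoc] at h5
    rw [← h5, Matrix.add_mul, Matrix.mul_assoc, Matrix.add_apply, Matrix.mul_apply,
      Matrix.mul_apply, Finset.sum_add_distrib]
  have hder' : V' + V * Am α x = Am α (x + h) * V := by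
    have hu : IsUnit (Y x).det := (hdet _ hxO).isUnit
    have := congrArg (· * (Y x)⁻¹) hder
    simpa only [Matrix.mul_nonsing_inv_cancel_right _ _ hu] using this
  have h6 := congrFun (congrFun hder' a) b
  simp only [Am, Matrix.sum_mul, Matrix.smul_mul] at h6
  simp only [Matrix.add_apply, Matrix.mul_sum, Matrix.sum_apply,
    Matrix.mul_smul, Matrix.smul_apply, smul_eq_mul, Matrix.mul_apply, V, V',
    Matrix.map_apply, Matrix.of_apply] at h6
  rw [ev_sub c3 (c1.sub hr.le c2) hz, ev_sub c1 c2 hz, e1 _ hz, e2 _ hz,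
    ev_mul (cv_poly hr.le _) (hU'' a b) hz, ev_poly]
  set Pz := (∏ β ∈ Z, (1 - C β * X)).eval (x : ℂ)⁻¹ with hPz
  have h7 : ∀ β, (β ≠ 0 → β ∈ Z) → (x : ℂ) ≠ β → (Q β).eval (x : ℂ)⁻¹ = Pz * x * (x - β)⁻¹ := by
    intro β hβ hne
    have := sub_ne_zero.2 hne
    rw [hPz, ← hQm β hβ]
    simp only [eval_mul, eval_sub, eval_one, eval_C, eval_X]
    field_simp
  have h8 : ∀ k, (Q (α k - h)).eval (x : ℂ)⁻¹ = Pz * x * (x + h - α k)⁻¹ := by
    intro k
    rw [h7 _ (hZ1 k) (fun h' => hα _ hxO' k (by rw [h']; ring))]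
    congr 2; ring
  simp only [eval_mul, eval_C, eval_X, h8, fun k => h7 _ (hZ2 k) (hα _ hxO k), ← hPz,
    mul_assoc, ← Finset.mul_sum]
  simp only [mul_comm (Em α _ _ b)]
  have h9 : (x : ℂ)⁻¹ = x * ((x : ℂ) ^ 2)⁻¹ := by field_simp
  linear_combination (-Pz * x) * h6 + (Pz * ev (x : ℂ)⁻¹ (PowerSeries.derivative ℂ (U a b))) * h9

end Pool.Agent.GPC

end MrgPart0

-- ======== part 1: formerly Pool.Agent.MP_cbf1af_ag.h26.Core
section MrgPart1

/-! The Diophantine core: auxiliary function, Siegel lemma, Schwarz lemma. -/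

namespace Pool.Agent.GPC
open PowerSeries Filter Topology

/-- integer combinations of elements of `S` with bounded sum of absolute values -/
inductive Lat (S : Set ℂ) : ℝ → ℂ → Prop
  | zero : Lat S 0 0
  | base {s : ℂ} : s ∈ S → Lat S 1 s
  | neg {b : ℝ} {x : ℂ} : Lat S b x → Lat S b (-x)
  | add {a b : ℝ} {x y : ℂ} : Lat S a x → Lat S b y → Lat S (a + b) (x + y)
  | mono {a b : ℝ} {x : ℂ} : Lat S a x → a ≤ b → Lat S b x

variable {S S' S'' : Set ℂ}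

lemma Lat.nonneg {b : ℝ} {x : ℂ} (h : Lat S b x) : 0 ≤ b := by
  induction h with
  | zero => exact le_rfl
  | base _ => exact zero_le_one
  | neg _ ih => exact ih
  | add _ _ h1 h2 => exact add_nonneg h1 h2
  | mono _ h ih => exact ih.trans h

lemma Lat.mul (hS : ∀ s ∈ S, ∀ s' ∈ S', s * s' ∈ S'') {a b : ℝ} {x y : ℂ} (hx : Lat S a x)
    (hy : Lat S' b y) : Lat S'' (a * b) (x * y) := by
  induction hx with
  | zero => simpa using Lat.zero
  | @base s hs =>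
    rw [one_mul]
    induction hy with
    | zero => simpa using Lat.zero
    | base hs' => exact Lat.base (hS _ hs _ hs')
    | neg _ ih => rw [mul_neg]; exact ih.neg
    | add _ _ h1 h2 => rw [mul_add]; exact h1.add h2
    | mono _ h ih => exact ih.mono h
  | neg _ ih => rw [neg_mul]; exact ih.neg
  | add _ _ h1 h2 => rw [add_mul, add_mul]; exact h1.add h2
  | mono _ h ih => exact ih.mono (mul_le_mul_of_nonneg_right h hy.nonneg)

lemma lat_nat (k : ℕ) : Lat {1} k k := by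
  induction k with
  | zero => simpa using Lat.zero
  | succ k ih => push_cast; exact ih.add (Lat.base rfl)

lemma lat_int (z : ℤ) {b : ℝ} (h : |(z : ℝ)| ≤ b) : Lat {1} b z := by
  refine Lat.mono ?_ h
  obtain ⟨k, rfl | rfl⟩ := z.eq_nat_or_neg
  · simpa using lat_nat k
  · simpa using (lat_nat k).neg

lemma lat_sum {ι : Type*} (s : Finset ι) {b : ℝ} {x : ι → ℂ} (h : ∀ i ∈ s, Lat S b (x i)) :
    Lat S (s.card * b) (∑ i ∈ s, x i) := by
  classical
  induction s using Finset.induction_on with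
  | empty => simpa using Lat.zero
  | insert i s hi ih =>
    rw [Finset.sum_insert hi, Finset.card_insert_of_notMem hi]
    have := (h i (by simp)).add (ih fun j hj => h j (by simp [hj]))
    refine this.mono (le_of_eq ?_)
    push_cast; ring

lemma Lat.subset (hS : S ⊆ S') {b : ℝ} {x : ℂ} (h : Lat S b x) : Lat S' b x := by
  have := Lat.mul (S := {1}) (S' := S) (S'' := S') (by rintro _ rfl s hs; simpa using hS hs)
    (Lat.base rfl) h
  simpa using this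

lemma Lat.mem_span {b : ℝ} {x : ℂ} (h : Lat S b x) : x ∈ Submodule.span ℚ S := by
  induction h with
  | zero => exact zero_mem _
  | base hs => exact Submodule.subset_span hs
  | neg _ ih => exact neg_mem ih
  | add _ _ h1 h2 => exact add_mem h1 h2
  | mono _ _ ih => exact ih

lemma Lat.int_val (φ : ℂ →+ ℚ) {b₁ : ℝ} (hb : 0 ≤ b₁)
    (hφ : ∀ s ∈ S, ∃ z : ℤ, (z : ℚ) = φ s ∧ |(z : ℝ)| ≤ b₁) {b : ℝ} {x : ℂ} (h : Lat S b x) :
    ∃ z : ℤ, (z : ℚ) = φ x ∧ |(z : ℝ)| ≤ b₁ * b := by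
  induction h with
  | zero => exact ⟨0, by simp, by simp⟩
  | base hs => simpa using hφ _ hs
  | neg _ ih =>
    obtain ⟨z, h1, h2⟩ := ih
    exact ⟨-z, by simp [h1], by simpa using h2⟩
  | add _ _ h1 h2 =>
    obtain ⟨z, h3, h4⟩ := h1
    obtain ⟨w, h5, h6⟩ := h2
    refine ⟨z + w, by simp [h3, h5], ?_⟩
    push_cast
    exact (abs_add_le _ _).trans (by linarith)
  | mono _ h ih =>
    obtain ⟨z, h1, h2⟩ := ih
    exact ⟨z, h1, h2.trans (by gcongr)⟩

/-- coefficientwise version -/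
def LS (S : Set ℂ) (M d : ℕ) (B : ℝ) (F : ℂ⟦X⟧) : Prop := ∀ m ≤ M, Lat S B (d * coeff m F)

lemma LS.mul (hS : ∀ s ∈ S, ∀ s' ∈ S', s * s' ∈ S'') {M d d' : ℕ} {B B' : ℝ} {F F' : ℂ⟦X⟧}
    (h : LS S M d B F) (h' : LS S' M d' B' F') :
    LS S'' M (d * d') ((M + 1) * (B * B')) (F * F') := by
  intro m hm
  rw [coeff_mul, Finset.mul_sum]
  have := lat_sum (S := S'') (Finset.HasAntidiagonal.antidiagonal m) (b := B * B')
    (x := fun p => ((d * d' : ℕ) : ℂ) * (coeff p.1 F * coeff p.2 F')) (fun p hp => by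
      rw [Finset.HasAntidiagonal.mem_antidiagonal] at hp
      have := (h p.1 (by omega)).mul hS (h' p.2 (by omega))
      convert this using 1
      push_cast; ring)
  refine this.mono ?_
  have h0 : 0 ≤ B * B' := mul_nonneg (h 0 (by omega)).nonneg (h' 0 (by omega)).nonneg
  rw [Finset.Nat.card_antidiagonal]
  gcongr
  exact_mod_cast Nat.succ_le_succ hm

lemma LS.mono {M d : ℕ} {B B' : ℝ} {F : ℂ⟦X⟧} (h : LS S M d B F) (hS : S ⊆ S') (hB : B ≤ B') :
    LS S' M d B' F := fun m hm => ((h m hm).subset hS).mono hB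

lemma LS.sum {ι : Type*} (s : Finset ι) {M d : ℕ} {B : ℝ} {F : ι → ℂ⟦X⟧}
    (h : ∀ i ∈ s, LS S M d B (F i)) : LS S M d (s.card * B) (∑ i ∈ s, F i) := by
  intro m hm
  rw [map_sum, Finset.mul_sum]
  exact lat_sum s fun i hi => h i hi m hm

lemma LS.neg {M d : ℕ} {B : ℝ} {F : ℂ⟦X⟧} (h : LS S M d B F) : LS S M d B (-F) := by
  intro m hm
  rw [map_neg, mul_neg]
  exact (h m hm).neg

lemma ls_C {M d : ℕ} {s : ℂ} (hs : s ∈ S) : LS S M d d (C s) := by
  intro m _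
  rw [coeff_C]
  split_ifs
  · have := (lat_nat d).mul (S'' := S) (by rintro _ rfl s hs; simpa using hs) (Lat.base hs)
    simpa using this
  · simpa using Lat.zero.mono (Nat.cast_nonneg d)

lemma ls_shift (t j N M : ℕ) (hj : j ≤ N) :
    LS {1} M 1 ((t + 1 : ℝ) ^ N) ((C (t : ℂ) + X) ^ j) := by
  intro m _
  have h1 : ((C (t : ℂ) + X) ^ j : ℂ⟦X⟧) =
      (((Polynomial.X + Polynomial.C (t : ℂ)) ^ j : Polynomial ℂ) : ℂ⟦X⟧) := by
    rw [Polynomial.coe_pow, Polynomial.coe_add, Polynomial.coe_C, Polynomial.coe_X, add_comm]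
  rw [h1, Polynomial.coeff_coe, Polynomial.coeff_X_add_C_pow]
  have h2 : t ^ (j - m) * j.choose m ≤ (t + 1) ^ N := by
    by_cases hm : m ≤ j
    · refine le_trans ?_ (Nat.pow_le_pow_right (Nat.succ_pos t) hj)
      rw [Nat.succ_eq_add_one, add_comm t 1, add_pow]
      have := Finset.single_le_sum (s := Finset.range (j + 1))
        (f := fun m => 1 ^ m * t ^ (j - m) * j.choose m) (fun _ _ => Nat.zero_le _)
        (Finset.mem_range.2 (Nat.lt_succ_of_le hm))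
      simpa using this
    · rw [Nat.choose_eq_zero_of_lt (by omega)]
      simp
  have := (lat_nat (t ^ (j - m) * j.choose m)).mono (b := (t + 1 : ℝ) ^ N) (by exact_mod_cast h2)
  simpa using this

lemma siegel {α β : Type*} [Fintype α] [Fintype β] (A : α → β → ℤ) (q : ℕ) (hq : 0 < q)
    (hα : 0 < Fintype.card α) (hβ : Fintype.card β = (q + 1) * Fintype.card α) {B : ℝ}
    (hB : 1 ≤ B) (hA : ∀ i j, |(A i j : ℝ)| ≤ B ^ q) :
    ∃ p : β → ℤ, p ≠ 0 ∧ (∀ i, ∑ j, A i j * p j = 0) ∧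
      ∀ j, |(p j : ℝ)| ≤ Fintype.card β * B := by
  let _ := Matrix.seminormedAddCommGroup (m := α) (n := β) (α := ℤ)
  obtain ⟨p, h0, h1, h2⟩ := Int.Matrix.exists_ne_zero_int_vec_norm_le (Matrix.of A)
    (by rw [hβ]; nlinarith) hα
  refine ⟨p, h0, fun i => congrFun h1 i, fun j => ?_⟩
  have hn : (1 : ℝ) ≤ Fintype.card β := by
    rw [hβ]; exact_mod_cast Nat.mul_pos (Nat.succ_pos q) hα
  have he : ((Fintype.card α : ℝ) / (Fintype.card β - Fintype.card α)) = (q : ℝ)⁻¹ := by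
    rw [hβ]
    have : (Fintype.card α : ℝ) ≠ 0 := by exact_mod_cast hα.ne'
    have : (q : ℝ) ≠ 0 := by exact_mod_cast hq.ne'
    push_cast
    rw [show ((q : ℝ) + 1) * Fintype.card α - Fintype.card α = q * Fintype.card α by ring]
    field_simp
  have hBq : 1 ≤ B ^ q := one_le_pow₀ hB
  have hA' : ‖Matrix.of A‖ ≤ B ^ q := by
    rw [Matrix.norm_le_iff (by positivity)]
    intro i j
    simpa [Int.norm_eq_abs] using hA i j
  rw [he] at h2
  calc |(p j : ℝ)| = ‖p j‖ := by simp [Int.norm_eq_abs]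
    _ ≤ ‖p‖ := norm_le_pi_norm p j
    _ ≤ _ := h2
    _ ≤ ((Fintype.card β * B) ^ q) ^ (q : ℝ)⁻¹ := by
      gcongr
      rw [mul_pow]
      gcongr
      · exact le_self_pow₀ hn hq.ne'
      · exact max_le hBq hA'
    _ = _ := Real.pow_rpow_inv_natCast (by positivity) hq.ne'

lemma exists_coord {ρ : ℕ} (hS : S.Finite) (hρ : Gen ℚ (Submodule.span ℚ S) ρ) :
    ∃ (φ : Fin ρ → ℂ →+ ℚ) (b₁ : ℝ), 1 ≤ b₁ ∧
      (∀ x ∈ Submodule.span ℚ S, (∀ l, φ l x = 0) → x = 0) ∧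
      ∀ l, ∀ s ∈ S, ∃ z : ℤ, (z : ℚ) = φ l s ∧ |(z : ℝ)| ≤ b₁ := by
  classical
  have := hρ.finite
  obtain ⟨f, hf⟩ := (finrank_le_iff_exists_linearMap (R := ℚ) (M := Submodule.span ℚ S)
    (M' := Fin ρ → ℚ)).1 (by simpa using hρ.finrank_le)
  obtain ⟨g, hg⟩ := f.exists_extend
  set e : ℕ := ∏ s ∈ hS.toFinset, ∏ l, (g s l).den
  have he : e ≠ 0 := Finset.prod_ne_zero_iff.2 fun s _ =>
    Finset.prod_ne_zero_iff.2 fun l _ => (g s l).den_nz
  have hint : ∀ l, ∀ s ∈ S, ∃ z : ℤ, (z : ℚ) = e * g s l := by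
    intro l s hs
    obtain ⟨k, hk⟩ : (g s l).den ∣ e :=
      (Finset.dvd_prod_of_mem _ (Finset.mem_univ l)).trans
        (Finset.dvd_prod_of_mem (fun s => ∏ l, (g s l).den) (hS.mem_toFinset.2 hs))
    refine ⟨k * (g s l).num, ?_⟩
    rw [hk]
    push_cast
    rw [mul_right_comm, Rat.den_mul_eq_num]; ring
  refine ⟨fun l => (AddMonoidHom.mulLeft (e : ℚ)).comp
      ((Pi.evalAddMonoidHom _ l).comp g.toAddMonoidHom),
    1 + ∑ s ∈ hS.toFinset, ∑ l, |((e * g s l : ℚ) : ℝ)|, ?_, fun x hx h => ?_, fun l s hs => ?_⟩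
  · have : 0 ≤ ∑ s ∈ hS.toFinset, ∑ l, |((e * g s l : ℚ) : ℝ)| := by positivity
    linarith
  · have h1 : f ⟨x, hx⟩ = 0 := by
      funext l
      have h2 : (e : ℚ) * g x l = 0 := h l
      rw [← hg]
      exact (mul_eq_zero.1 h2).resolve_left (by exact_mod_cast he)
    have := hf (h1.trans (map_zero f).symm)
    exact congrArg Subtype.val this
  · obtain ⟨z, hz⟩ := hint l s hs
    refine ⟨z, hz, ?_⟩
    have h1 : (z : ℝ) = ((e * g s l : ℚ) : ℝ) := by rw [← hz]; simp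
    rw [h1]
    have h2 := Finset.single_le_sum (s := Finset.univ) (f := fun l => |((e * g s l : ℚ) : ℝ)|)
      (fun _ _ => abs_nonneg _) (Finset.mem_univ l)
    have h3 := Finset.single_le_sum (s := hS.toFinset)
      (f := fun s => ∑ l, |((e * g s l : ℚ) : ℝ)|) (fun _ _ => by positivity)
      (hS.mem_toFinset.2 hs)
    linarith

lemma eventually_cube (c : ℝ) : ∃ M₀ : ℕ, ∀ M ≥ M₀, c * ((M : ℝ) + 1) ^ 3 < 2 ^ M := by
  have h := (tendsto_pow_const_div_const_pow_of_one_lt 3 (r := 2) one_lt_two).comp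
    (tendsto_add_atTop_nat 1)
  have h2 := (h.const_mul (2 * c)).eventually (gt_mem_nhds (show 2 * c * 0 < 1 by simp))
  obtain ⟨M₀, hM⟩ := eventually_atTop.1 h2
  refine ⟨M₀, fun M hM' => ?_⟩
  have := hM M hM'
  simp only [Function.comp, Nat.cast_add, Nat.cast_one] at this
  rw [← mul_div_assoc, div_lt_one (by positivity), pow_succ 2 M] at this
  linarith

lemma transfer {R R' : ℂ⟦X⟧} {r : ℝ} {t : ℝ} (ht : 0 < t) (hr : 0 < r) (hR' : Cv r R') {N M : ℕ}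
    (hev : ∀ᶠ η in 𝓝 (0 : ℂ), ev η R' = (t + η) ^ N * ev ((t + η)⁻¹) R)
    (h0 : ∀ m < M, coeff m R' = 0) :
    (fun z => ev z R) =O[𝓝[≠] ((t : ℂ)⁻¹)] fun z => (1 - (t : ℂ) * z) ^ M := by
  have htc : (t : ℂ) ≠ 0 := by exact_mod_cast ht.ne'
  have hη : Tendsto (fun z : ℂ => z⁻¹ - t) (𝓝 ((t : ℂ)⁻¹)) (𝓝 0) := by
    have : ContinuousAt (fun z : ℂ => z⁻¹ - t) ((t : ℂ)⁻¹) :=
      (continuousAt_inv₀ (inv_ne_zero htc)).sub continuousAt_const
    simpa using this.tendsto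
  have h1 := (isBigO_ev_of_coeff hr hR' h0).comp_tendsto hη
  have h2 : (fun z : ℂ => z ^ N) =O[𝓝 ((t : ℂ)⁻¹)] fun _ => (1 : ℂ) :=
    (by fun_prop : ContinuousAt (fun z : ℂ => z ^ N) _).tendsto.isBigO_one ℂ
  have h3 : (fun z : ℂ => (z ^ M)⁻¹) =O[𝓝 ((t : ℂ)⁻¹)] fun _ => (1 : ℂ) :=
    (ContinuousAt.inv₀ (f := fun z : ℂ => z ^ M) (by fun_prop)
      (pow_ne_zero _ (inv_ne_zero htc))).tendsto.isBigO_one ℂ
  have hne : ∀ᶠ z in 𝓝 ((t : ℂ)⁻¹), z ≠ 0 := eventually_ne_nhds (inv_ne_zero htc)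
  have h4 : (fun z : ℂ => (z⁻¹ - t) ^ M) =O[𝓝 ((t : ℂ)⁻¹)] fun z => (1 - (t : ℂ) * z) ^ M := by
    have := h3.mul (Asymptotics.isBigO_refl (fun z => (1 - (t : ℂ) * z) ^ M) _)
    simp only [one_mul] at this
    refine this.congr' ?_ EventuallyEq.rfl
    filter_upwards [hne] with z hz
    rw [← inv_pow, ← mul_pow]
    congr 1
    field_simp
  have h5 := h2.mul (h1.trans h4)
  simp only [one_mul] at h5
  refine (h5.congr' ?_ EventuallyEq.rfl).mono nhdsWithin_le_nhds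
  filter_upwards [hne, hη.eventually hev] with z hz h
  simp only [Function.comp]
  rw [h, add_sub_cancel, inv_inv, ← mul_assoc, ← mul_pow, mul_inv_cancel₀ hz, one_pow, one_mul]

theorem core {ι : Type} [Fintype ι] (Y U : ι → ℂ⟦X⟧) (K b₀ r : ℝ) (Λ t c ν ρ : ℕ) (S : Set ℂ)
    (hS : S.Finite) (hK : 1 ≤ K) (hY : ∀ β, Nb K⁻¹ (Y β) b₀)
    (hΛ : ∀ M, ∃ d : ℕ, 0 < d ∧ d ≤ Λ ^ (M + 1) ∧
      ∀ β, ∀ m ≤ M, ∃ z : ℤ, (d : ℂ) * coeff m (Y β) = z)
    (hr : 0 < r) (hU : ∀ β, Cv r (U β))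
    (hUY : ∀ᶠ η in 𝓝 (0 : ℂ), ∀ β, ev η (U β) = ev (((t : ℂ) + η)⁻¹) (Y β))
    (hLS : ∀ M, ∃ d : ℕ, 0 < d ∧ ∀ β, LS S M d ((t : ℝ) ^ (c * (M + 1))) (U β))
    (hρ : Gen ℚ (Submodule.span ℚ S) ρ) (hρ1 : 1 ≤ ρ) (hμ : 16 * ρ ≤ Fintype.card ι)
    (hind : ∀ p : ι → Polynomial ℂ, ∑ β, (p β : ℂ⟦X⟧) * Y β = 0 → ∀ β, p β = 0)
    (hz : ∃ C, ∀ (N : ℕ) (p : ι → Polynomial ℂ), (∀ β, (p β).natDegree ≤ N) →
      ∑ β, (p β : ℂ⟦X⟧) * Y β ≠ 0 → ∃ m ≤ ν * N + C, coeff m (∑ β, (p β : ℂ⟦X⟧) * Y β) ≠ 0)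
    (hc : 1 ≤ c) (ht1 : (2 * K) ^ 8 ≤ t) (ht2 : (K * Λ) ^ (ν * (8 * c + 1)) ≤ t) : False := by
  classical
  obtain ⟨C₀, hC₀⟩ := hz
  obtain ⟨φ, b₁, hb₁, hφ0, hφ⟩ := exists_coord hS hρ
  set μ := Fintype.card ι with hμdef
  set q := 8 * c with hq
  have hμ1 : 1 ≤ μ := by omega
  have hK0 : 0 < K := by linarith
  have hK' : 0 ≤ K⁻¹ := by positivity
  obtain ⟨β₀⟩ : Nonempty ι := Fintype.card_pos_iff.1 hμ1
  have hb₀ : 0 ≤ b₀ := (hY β₀).nonneg hK'
  have hΛ1 : (1 : ℝ) ≤ Λ := by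
    obtain ⟨d, h1, h2, -⟩ := hΛ 0
    simp at h2
    exact_mod_cast h1.trans_le h2
  set θ : ℝ := (t : ℝ) ^ ((16 : ℕ) : ℝ)⁻¹ with hθ
  have hθ0 : 0 ≤ θ := by positivity
  have hθt : θ ^ 16 = t := Real.rpow_inv_natCast_pow (by positivity) (by norm_num)
  have hθK : 2 * K ≤ θ ^ 2 := by
    refine le_of_pow_le_pow_left₀ (n := 8) (by norm_num) (by positivity) ?_
    rw [← pow_mul, hθt]; exact ht1
  have hθ1 : 1 ≤ θ := by nlinarith
  have hθ2 : 2 ≤ θ ^ 2 := by linarith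
  have htK : 2 * K ≤ t := hθK.trans (by rw [← hθt]; exact pow_le_pow_right₀ hθ1 (by norm_num))
  have ht0 : (0 : ℝ) < t := by linarith
  set L := K * Λ with hL
  have hL1 : 1 ≤ L := one_le_mul_of_one_le_of_one_le hK hΛ1
  obtain ⟨M₀, hM₀⟩ := eventually_cube (L ^ (C₀ + 1) * b₀ * b₁ * θ ^ 2 * ((q + 1) * ρ) ^ 2)
  set s := M₀ + 1 with hs
  set M' := μ * s with hM'
  obtain ⟨N, hN⟩ : ∃ N, N + 1 = (q + 1) * ρ * s :=
    ⟨(q + 1) * ρ * s - 1, Nat.sub_add_cancel (Nat.mul_pos (Nat.mul_pos (by omega) hρ1) (by omega))⟩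
  have hM'0 : M₀ ≤ M' := by nlinarith
  have hρs : 16 * (ρ * s) ≤ M' := by nlinarith
  obtain ⟨d, hd, hdLS⟩ := hLS M'
  set G : ι × Fin (N + 1) → ℂ⟦X⟧ := fun x => (C (t : ℂ) + X) ^ (N - x.2) * U x.1 with hG
  set BA : ℝ := b₁ * (M' + 1) * θ ^ (6 * M' + 2) with hBA
  have hBA1 : 1 ≤ BA := one_le_mul_of_one_le_of_one_le
    (one_le_mul_of_one_le_of_one_le hb₁ (by simp)) (one_le_pow₀ hθ1)
  have hGL : ∀ x, LS S M' d ((M' + 1) * θ ^ (q * (6 * M' + 2))) (G x) := by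
    intro x
    have := (ls_shift t (N - x.2) N M' (Nat.sub_le _ _)).mul (S'' := S)
      (by rintro _ rfl s hs; simpa using hs) (hdLS x.1)
    rw [one_mul] at this
    refine this.mono le_rfl ?_
    gcongr
    have h1 : ((t : ℝ) + 1) ^ N ≤ θ ^ (q * (4 * M')) := by
      calc ((t : ℝ) + 1) ^ N ≤ (θ ^ 32) ^ N := by
            gcongr
            rw [show 32 = 16 * 2 by rfl, pow_mul, hθt]
            nlinarith
        _ = θ ^ (32 * N) := by rw [← pow_mul]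
        _ ≤ _ := by
            refine pow_le_pow_right₀ hθ1 ?_
            have h2 : N ≤ 2 * q * (ρ * s) := by nlinarith
            nlinarith
    calc _ ≤ θ ^ (q * (4 * M')) * (θ ^ 16) ^ (c * (M' + 1)) := by rw [hθt]; gcongr
      _ = _ := by rw [← pow_mul, ← pow_add, hq]; congr 1; ring
  have hAex : ∀ (i : Fin M' × Fin ρ) (x : ι × Fin (N + 1)), ∃ z : ℤ,
      (z : ℚ) = φ i.2 (d * coeff i.1 (G x)) ∧ |(z : ℝ)| ≤ BA ^ q := by
    intro i x
    obtain ⟨z, h1, h2⟩ := (hGL x i.1 i.1.2.le).int_val (φ i.2) (by linarith) (hφ i.2)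
    refine ⟨z, h1, h2.trans ?_⟩
    rw [hBA, mul_pow, ← pow_mul, mul_comm (6 * M' + 2), ← mul_assoc]
    gcongr
    exact le_self_pow₀ (one_le_mul_of_one_le_of_one_le hb₁ (by simp)) (by omega)
  choose A hA hA' using hAex
  have hcard : Fintype.card (ι × Fin (N + 1)) = (q + 1) * Fintype.card (Fin M' × Fin ρ) := by
    simp only [Fintype.card_prod, Fintype.card_fin, ← hμdef, hN, hM']; ring
  obtain ⟨p, hp0, hp1, hp2⟩ := siegel A q (by omega)
    (by simp only [Fintype.card_prod, Fintype.card_fin]; positivity) hcard hBA1 hA'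
  set nu : ℝ := (Fintype.card (ι × Fin (N + 1)) : ℝ) with hnu
  have hnu' : nu = (q + 1) * ρ * M' := by
    rw [hnu, hcard]; simp; ring
  set P : ι → Polynomial ℂ := fun β => ∑ a : Fin (N + 1), Polynomial.monomial a (p (β, a) : ℂ)
  have hPc : ∀ β (a : Fin (N + 1)), (P β).coeff a = p (β, a) := by
    intro β a
    simp only [P, Polynomial.finsetSum_coeff, Polynomial.coeff_monomial]
    rw [Finset.sum_eq_single a (fun b _ hb => if_neg fun h => hb (Fin.ext h)) (by simp), if_pos rfl]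
  have hPdeg : ∀ β, (P β).natDegree ≤ N := fun β =>
    Polynomial.natDegree_sum_le_of_forall_le _ _ fun a _ =>
      (Polynomial.natDegree_monomial_le _).trans (Nat.lt_succ_iff.1 a.2)
  set R := ∑ β, (P β : ℂ⟦X⟧) * Y β with hR
  have hR' : R = ∑ x : ι × Fin (N + 1), (p x : ℂ) • (X ^ (x.2 : ℕ) * Y x.1) := by
    rw [hR, Fintype.sum_prod_type]
    refine Finset.sum_congr rfl fun β _ => ?_
    simp only [P]
    rw [← Polynomial.coeToPowerSeries.ringHom_apply, map_sum, Finset.sum_mul]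
    refine Finset.sum_congr rfl fun a _ => ?_
    rw [Polynomial.coeToPowerSeries.ringHom_apply, ← Polynomial.C_mul_X_pow_eq_monomial,
      Polynomial.coe_mul, Polynomial.coe_C, Polynomial.coe_pow, Polynomial.coe_X, mul_assoc,
      ← PowerSeries.smul_eq_C_mul]
  have hR0 : R ≠ 0 := by
    intro h
    apply hp0
    funext x
    have := hPc x.1 x.2
    rw [hind P h x.1, Polynomial.coeff_zero] at this
    exact_mod_cast this.symm
  have hXY : ∀ x : ι × Fin (N + 1), Nb K⁻¹ (X ^ (x.2 : ℕ) * Y x.1) b₀ := by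
    intro x
    refine (((nb_X hK').pow hK' _).mul hK' (hY x.1)).mono ?_
    exact mul_le_of_le_one_left hb₀ (pow_le_one₀ hK' (inv_le_one_of_one_le₀ hK))
  set b := nu * (nu * BA * b₀) with hb
  have hRb : Nb K⁻¹ R b := by
    rw [hR']
    refine (nb_sum hK' _ fun x _ => (hXY x).smul hK' (p x : ℂ)).mono ?_
    rw [hb, hnu, ← nsmul_eq_mul, ← Finset.card_univ]
    refine Finset.sum_le_card_nsmul _ _ _ fun x _ => ?_
    gcongr
    rw [Complex.norm_intCast]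
    exact hp2 x
  have hRc : ∀ m, ‖coeff m R‖ ≤ b * K ^ m := by
    intro m
    have := hRb.coeff_le hK' m
    rwa [inv_pow, ← div_eq_mul_inv, div_le_iff₀ (by positivity)] at this
  set R' : ℂ⟦X⟧ := ∑ x : ι × Fin (N + 1), (p x : ℂ) • G x with hR'def
  have hsh : Cv r (C (t : ℂ) + X) := (cv_C hr.le _).add hr.le (cv_X hr.le)
  have hGc : ∀ x, Cv r (G x) := fun x => (hsh.pow hr.le _).mul hr.le (hU _)
  have hvan : ∀ m < M', coeff m R' = 0 := by
    intro m hm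
    have h1 : (d : ℂ) * coeff m R' = ∑ x, p x • ((d : ℂ) * coeff m (G x)) := by
      rw [hR'def, map_sum, Finset.mul_sum]
      exact Finset.sum_congr rfl fun x _ => by simp; ring
    have h2 : (d : ℂ) * coeff m R' = 0 := by
      refine hφ0 _ ?_ fun l => ?_
      · rw [h1]
        exact Submodule.sum_mem _ fun x _ => zsmul_mem (hGL x m hm.le).mem_span _
      · rw [h1, map_sum]
        have h3 := hp1 (⟨m, hm⟩, l)
        have h4 : ((∑ j, A (⟨m, hm⟩, l) j * p j : ℤ) : ℚ) = 0 := by rw [h3]; simp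
        push_cast at h4
        rw [← h4]
        exact Finset.sum_congr rfl fun x _ => by rw [map_zsmul, hA, zsmul_eq_mul, mul_comm]
    exact (mul_eq_zero.1 h2).resolve_left (by exact_mod_cast hd.ne')
  have hKt : K < t := by linarith
  have hev : ∀ᶠ η in 𝓝 (0 : ℂ), ev η R' = ((t : ℝ) + η) ^ N * ev (((t : ℝ) + η)⁻¹) R := by
    have htc : (t : ℂ) ≠ 0 := by exact_mod_cast ht0.ne'
    have h1 : ∀ᶠ η in 𝓝 (0 : ℂ), ‖((t : ℂ) + η)⁻¹‖ < K⁻¹ := by
      have : ContinuousAt (fun η : ℂ => ‖((t : ℂ) + η)⁻¹‖) 0 :=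
        (ContinuousAt.inv₀ (by fun_prop) (by simpa using htc)).norm
      refine this.eventually_lt continuousAt_const ?_
      simpa using inv_strictAnti₀ hK0 hKt
    have h2 : ∀ᶠ η in 𝓝 (0 : ℂ), (t : ℂ) + η ≠ 0 :=
      (by fun_prop : ContinuousAt (fun η : ℂ => (t : ℂ) + η) 0).eventually_ne (by simpa using htc)
    filter_upwards [h1, h2, hUY, Metric.ball_mem_nhds (0 : ℂ) hr] with η h1 h2 h3 h4
    have h4' : ‖η‖ ≤ r := (mem_ball_zero_iff.1 h4).le
    rw [hR', hR'def, ev_sum _ (fun x _ => (hGc x).smul hr.le _) h4', Complex.ofReal_natCast,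
      ev_sum _ (fun x _ => (hXY x).1.smul hK' _) h1.le, Finset.mul_sum]
    refine Finset.sum_congr rfl fun x _ => ?_
    rw [ev_smul, ev_smul, ev_mul (hsh.pow hr.le _) (hU _) h4', ev_pow hsh h4',
      ev_add (cv_C hr.le _) (cv_X hr.le) h4', ev_C, ev_X, h3,
      ev_mul ((cv_X hK').pow hK' _) (hY _).1 h1.le, ev_pow (cv_X hK') h1.le, ev_X]
    obtain ⟨j, hj⟩ := Nat.exists_eq_add_of_le (Nat.lt_succ_iff.1 x.2.2)
    rw [show N - x.2 = j by omega,
      show ((t : ℂ) + η) ^ N = (t + η) ^ (x.2 : ℕ) * (t + η) ^ j by rw [← pow_add, ← hj], inv_pow]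
    field_simp
  have hO := transfer ht0 hr (cv_sum hr.le _ fun x _ => (hGc x).smul hr.le _) hev hvan
  have hall : ∀ M ≤ ν * N + C₀, coeff M R = 0 := by
    intro M
    induction M using Nat.strong_induction_on with
    | _ M ih =>
    intro hM
    have h1 := schwarz hK0 hKt hRc hO (M := M) fun m hm => ih m hm (by omega)
    obtain ⟨e, he0, he1, he2⟩ := hΛ M
    obtain ⟨z, hz⟩ : ∃ z : ℤ, (e : ℂ) * coeff M R = z := by
      have : ∀ x : ι × Fin (N + 1), ∃ z : ℤ, (e : ℂ) * coeff M (X ^ (x.2 : ℕ) * Y x.1) = z := by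
        intro x
        rw [coeff_X_pow_mul']
        split_ifs
        · exact he2 _ _ (Nat.sub_le _ _)
        · exact ⟨0, by simp⟩
      choose w hw using this
      refine ⟨∑ x, p x * w x, ?_⟩
      rw [hR', map_sum, Finset.mul_sum]
      push_cast
      exact Finset.sum_congr rfl fun x _ => by rw [← hw]; simp; ring
    have hb0 : 0 ≤ b := hRb.nonneg hK'
    have h2 : K / (t - K) ≤ (θ ^ 14)⁻¹ := by
      rw [div_le_iff₀ (by linarith), ← div_eq_inv_mul, le_div_iff₀ (by positivity)]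
      have h3 : θ ^ 2 * θ ^ 14 = t := by rw [← pow_add, hθt]
      have h4 : 0 ≤ θ ^ 14 := by positivity
      nlinarith
    have h3 : (Λ : ℝ) ^ (M + 1) * K ^ M ≤ θ ^ M' * L ^ (C₀ + 1) := by
      calc (Λ : ℝ) ^ (M + 1) * K ^ M ≤ (Λ : ℝ) ^ (M + 1) * K ^ (M + 1) := by
            gcongr
            omega
        _ = L ^ (M + 1) := by rw [hL, mul_pow, mul_comm]
        _ ≤ L ^ (ν * (N + 1) + (C₀ + 1)) := pow_le_pow_right₀ hL1 (by nlinarith)
        _ = (L ^ (ν * (q + 1))) ^ (ρ * s) * L ^ (C₀ + 1) := by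
            rw [pow_add, hN, ← pow_mul]; congr 2; ring
        _ ≤ (θ ^ 16) ^ (ρ * s) * L ^ (C₀ + 1) := by rw [hθt]; gcongr
        _ ≤ _ := by
            rw [← pow_mul]
            gcongr
    have h4 : |(z : ℝ)| < 1 := by
      have h5 : (2 : ℝ) ^ M' ≤ θ ^ (7 * M') := by
        rw [pow_mul θ]
        exact pow_le_pow_left₀ (by norm_num)
          (hθ2.trans (pow_le_pow_right₀ hθ1 (show 2 ≤ 7 by norm_num))) _
      have h6 := (hM₀ M' hM'0).trans_le h5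
      have hθp : 0 < θ := by linarith
      calc |(z : ℝ)| = ‖(z : ℂ)‖ := by simp
        _ = e * ‖coeff M R‖ := by rw [← hz, norm_mul, Complex.norm_natCast]
        _ ≤ (Λ : ℝ) ^ (M + 1) * (b * K ^ M * ((θ ^ 14)⁻¹) ^ M') := by
            gcongr
            · exact_mod_cast he1
            · refine h1.trans ?_
              gcongr
        _ = ((Λ : ℝ) ^ (M + 1) * K ^ M) * b * ((θ ^ 14)⁻¹) ^ M' := by ring
        _ ≤ (θ ^ M' * L ^ (C₀ + 1)) * b * ((θ ^ 14)⁻¹) ^ M' := by gcongr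
        _ = (L ^ (C₀ + 1) * b₀ * b₁ * θ ^ 2 * ((q + 1) * ρ) ^ 2 * ((M' : ℝ) ^ 2 * (M' + 1))) /
            θ ^ (7 * M') := by
            rw [hb, hnu', hBA, inv_pow, ← pow_mul]
            field_simp
            ring
        _ ≤ (L ^ (C₀ + 1) * b₀ * b₁ * θ ^ 2 * ((q + 1) * ρ) ^ 2 * ((M' : ℝ) + 1) ^ 3) /
            θ ^ (7 * M') := by
            gcongr
            rw [pow_succ ((M' : ℝ) + 1) 2]
            gcongr
            linarith
        _ < 1 := (div_lt_one (by positivity)).2 h6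
    have h5 : z = 0 := by
      have : |z| < 1 := by exact_mod_cast h4
      exact Int.abs_lt_one_iff.1 this
    rw [h5, Int.cast_zero] at hz
    exact (mul_eq_zero.1 hz).resolve_left (by exact_mod_cast he0.ne')
  obtain ⟨m, hm, hm'⟩ := hC₀ N P hPdeg hR0
  exact hm' (hall m hm)

end Pool.Agent.GPC

end MrgPart1

-- ======== part 2: formerly Pool.Agent.MP_cbf1af_ag.h26.Jet
section MrgPart2

/-! Taylor expansions at integer points and their heights. -/

namespace Pool.Agent.GPC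
open Polynomial Filter Topology Matrix
open scoped Pointwise

variable {S S' S'' : Set ℂ}

lemma LS.pad {M d : ℕ} {B : ℝ} {F : PowerSeries ℂ} (h : LS S M d B F) (e : ℕ) :
    LS S M (d * e) (B * e) F := by
  intro m hm
  have := (h m hm).mul (S'' := S) (by rintro s hs _ rfl; simpa using hs) (lat_nat e)
  convert this using 1
  push_cast; ring

/-- height bound for Taylor coefficients -/
def Gd (t : ℕ) (S : Set ℂ) (c : ℕ) (F : PowerSeries ℂ) : Prop :=
  ∀ M, ∃ d : ℕ, 0 < d ∧ (d : ℝ) ≤ (t : ℝ) ^ (c * (M + 1)) ∧ LS S M d ((t : ℝ) ^ (c * (M + 1))) F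

variable {t : ℕ} (ht : 2 ≤ t)
include ht

lemma succ_le_pow (M : ℕ) : (M : ℝ) + 1 ≤ (t : ℝ) ^ (M + 1) := by
  have : M + 1 ≤ t ^ (M + 1) := (Nat.lt_pow_self (by omega)).le
  exact_mod_cast this

lemma Gd.mono {c c' : ℕ} {F : PowerSeries ℂ} (h : Gd t S c F) (hS : S ⊆ S') (hc : c ≤ c') :
    Gd t S' c' F := by
  intro M
  obtain ⟨d, h1, h2, h3⟩ := h M
  have : (t : ℝ) ^ (c * (M + 1)) ≤ (t : ℝ) ^ (c' * (M + 1)) :=
    pow_le_pow_right₀ (by exact_mod_cast (by omega : 1 ≤ t)) (by gcongr)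
  exact ⟨d, h1, h2.trans this, h3.mono hS this⟩

lemma Gd.mul (hS : ∀ s ∈ S, ∀ s' ∈ S', s * s' ∈ S'') {c c' : ℕ} {F F' : PowerSeries ℂ}
    (h : Gd t S c F) (h' : Gd t S' c' F') : Gd t S'' (c + c' + 1) (F * F') := by
  intro M
  obtain ⟨d, h1, h2, h3⟩ := h M
  obtain ⟨d', h1', h2', h3'⟩ := h' M
  have h4 := succ_le_pow ht M
  have h5 : (t : ℝ) ^ ((c + c' + 1) * (M + 1)) =
      t ^ (M + 1) * (t ^ (c * (M + 1)) * t ^ (c' * (M + 1))) := by ring
  refine ⟨d * d', Nat.mul_pos h1 h1', ?_, (h3.mul hS h3').mono le_rfl ?_⟩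
  · rw [h5]
    push_cast
    refine le_trans ?_ (le_mul_of_one_le_left (by positivity) (le_trans (by simp) h4))
    gcongr
  · rw [h5]; gcongr

lemma Gd.add {c c' : ℕ} {F F' : PowerSeries ℂ} (h : Gd t S c F) (h' : Gd t S c' F') :
    Gd t S (c + c' + 1) (F + F') := by
  intro M
  obtain ⟨d, h1, h2, h3⟩ := h M
  obtain ⟨d', h1', h2', h3'⟩ := h' M
  have h4 : (2 : ℝ) ≤ t ^ (M + 1) := le_trans (by exact_mod_cast ht)
    (le_self_pow₀ (by exact_mod_cast (by omega : 1 ≤ t)) (Nat.succ_ne_zero M))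
  have h5 : (t : ℝ) ^ ((c + c' + 1) * (M + 1)) =
      t ^ (M + 1) * (t ^ (c * (M + 1)) * t ^ (c' * (M + 1))) := by ring
  refine ⟨d * d', Nat.mul_pos h1 h1', ?_, fun m hm => ?_⟩
  · rw [h5]
    push_cast
    refine le_trans ?_ (le_mul_of_one_le_left (by positivity) (le_trans (by simp) h4))
    gcongr
  · rw [map_add, mul_add ((d * d' : ℕ) : ℂ)]
    have h6 := h3'.pad d m hm
    rw [mul_comm d' d] at h6
    refine ((h3.pad d' m hm).add h6).mono ?_
    rw [h5]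
    calc _ ≤ (t : ℝ) ^ (c * (M + 1)) * t ^ (c' * (M + 1)) +
          t ^ (c' * (M + 1)) * t ^ (c * (M + 1)) := by gcongr
      _ = 2 * (t ^ (c * (M + 1)) * t ^ (c' * (M + 1))) := by ring
      _ ≤ _ := by gcongr

omit ht in
lemma Gd.neg {c : ℕ} {F : PowerSeries ℂ} (h : Gd t S c F) : Gd t S c (-F) := fun M => by
  obtain ⟨d, h1, h2, h3⟩ := h M
  exact ⟨d, h1, h2, h3.neg⟩

omit ht in
lemma gd_C {s : ℂ} (hs : s ∈ S) : Gd t S 0 (PowerSeries.C s) := fun M =>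
  ⟨1, one_pos, by simp, by simpa using ls_C (M := M) (d := 1) hs⟩

omit ht in
lemma gd_zero : Gd t S 0 0 := fun M =>
  ⟨1, one_pos, by simp, fun m _ => by simpa using Lat.zero.mono zero_le_one⟩

lemma gd_sum {ι : Type*} (s : Finset ι) {c : ℕ} {F : ι → PowerSeries ℂ}
    (h : ∀ i ∈ s, Gd t S c (F i)) : Gd t S (s.card * (c + 1)) (∑ i ∈ s, F i) := by
  classical
  induction s using Finset.induction_on with
  | empty => simpa using gd_zero
  | insert i s hi ih =>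
    rw [Finset.sum_insert hi, Finset.card_insert_of_notMem hi]
    refine ((h i (by simp)).add ht (ih fun j hj => h j (by simp [hj]))).mono ht le_rfl
      (le_of_eq (by ring))

lemma gd_prod {ι : Type*} (s : Finset ι) {c : ℕ} {F : ι → PowerSeries ℂ}
    (h : ∀ i ∈ s, Gd t {1} c (F i)) : Gd t {1} (s.card * (c + 1)) (∏ i ∈ s, F i) := by
  classical
  induction s using Finset.induction_on with
  | empty => simpa using gd_C (S := {1}) rfl
  | insert i s hi ih =>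
    rw [Finset.prod_insert hi, Finset.card_insert_of_notMem hi]
    refine ((h i (by simp)).mul (S'' := {1}) ht (by simp)
      (ih fun j hj => h j (by simp [hj]))).mono ht le_rfl (le_of_eq (by ring))

lemma gd_adj {n c : ℕ} {R : Matrix (Fin n) (Fin n) (PowerSeries ℂ)}
    (h : ∀ a b, Gd t {1} c (R a b)) (a b : Fin n) :
    Gd t {1} (n.factorial * (n * (c + 1) + 1)) (R.adjugate a b) := by
  rw [Matrix.adjugate_apply, Matrix.det_apply]
  have := gd_sum ht (S := {1}) (Finset.univ : Finset (Equiv.Perm (Fin n))) (c := n * (c + 1))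
    (F := fun σ => Equiv.Perm.sign σ • ∏ i, R.updateRow b (Pi.single a 1) (σ i) i) (fun σ _ => by
      have h1 := gd_prod ht Finset.univ (c := c)
        (F := fun i => R.updateRow b (Pi.single a 1) (σ i) i) fun i _ => by
          rw [Matrix.updateRow_apply]
          split_ifs
          · rw [Pi.single_apply]
            split_ifs
            · simpa using (gd_C (S := {1}) rfl).mono ht le_rfl (Nat.zero_le c)
            · exact gd_zero.mono ht le_rfl (Nat.zero_le c)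
          · exact h _ _
      rw [Finset.card_univ, Fintype.card_fin] at h1
      rcases Int.units_eq_one_or (Equiv.Perm.sign σ) with h2 | h2
      · simpa [h2] using h1
      · simpa [h2] using h1.neg)
  simpa [Fintype.card_perm] using this

lemma gd_family {ι : Type*} [Fintype ι] {S : ι → Set ℂ} {c : ℕ} {F : ι → PowerSeries ℂ}
    (h : ∀ i, Gd t (S i) c (F i)) (M : ℕ) : ∃ d : ℕ, 0 < d ∧
    ∀ i, LS (S i) M d ((t : ℝ) ^ (c * (Fintype.card ι + 1) * (M + 1))) (F i) := by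
  classical
  choose d h1 h2 h3 using fun i => h i M
  refine ⟨∏ i, d i, Finset.prod_pos fun i _ => h1 i, fun i => ?_⟩
  rw [← Finset.mul_prod_erase _ _ (Finset.mem_univ i)]
  refine ((h3 i).pad _).mono le_rfl ?_
  have h4 : (1 : ℝ) ≤ t ^ (c * (M + 1)) := one_le_pow₀ (by exact_mod_cast (by omega : 1 ≤ t))
  calc _ ≤ (t : ℝ) ^ (c * (M + 1)) * ((t : ℝ) ^ (c * (M + 1))) ^ Fintype.card ι := by
        gcongr
        push_cast
        refine (Finset.prod_le_prod (fun j _ => Nat.cast_nonneg _) fun j _ => h2 j).trans ?_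
        rw [Finset.prod_const]
        exact pow_le_pow_right₀ h4 (Finset.card_le_univ _)
    _ = _ := by ring

omit ht

lemma ls_prod {ι : Type*} (s : Finset ι) {S : ι → Set ℂ} {M d : ℕ} {B : ℝ} {F : ι → PowerSeries ℂ}
    (h : ∀ i ∈ s, LS (S i) M d B (F i)) :
    LS (∏ i ∈ s, S i) M (d ^ s.card) (((M + 1) * B) ^ s.card) (∏ i ∈ s, F i) := by
  classical
  induction s using Finset.induction_on with
  | empty => simpa using ls_C (S := 1) (M := M) (d := 1) (s := 1) rfl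
  | insert i s hi ih =>
    rw [Finset.prod_insert hi, Finset.prod_insert hi, Finset.card_insert_of_notMem hi,
      pow_succ', pow_succ', mul_assoc]
    exact (h i (by simp)).mul (fun a ha b hb => Set.mul_mem_mul ha hb)
      (ih fun j hj => h j (by simp [hj]))

/-- convergent series form a subring -/
def CvS {r : ℝ} (hr : 0 ≤ r) : Subring (PowerSeries ℂ) where
  carrier := {s | Cv r s}
  mul_mem' := fun h h' => Cv.mul hr h h'
  one_mem' := (nb_one hr).1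
  add_mem' := fun h h' => Cv.add hr h h'
  zero_mem' := (nb_zero hr).1
  neg_mem' := fun h => Cv.neg hr h

/-- evaluation as a ring homomorphism -/
noncomputable def evH {r : ℝ} (hr : 0 ≤ r) {z : ℂ} (hz : ‖z‖ ≤ r) : CvS hr →+* ℂ where
  toFun s := ev z s
  map_one' := ev_one
  map_mul' a b := ev_mul a.2 b.2 hz
  map_zero' := ev_zero
  map_add' a b := ev_add a.2 b.2 hz

variable {n : ℕ} (c : ℂ) (α : Fin n → ℂ)

/-- Taylor series of the parallel transport -/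
noncomputable def Res (τ : ℂ) : Matrix (Fin n) (Fin n) (PowerSeries ℂ) :=
  Matrix.of fun a b => PowerSeries.mk fun j => Gm c α j τ a b

lemma norm_Pm_le {B : ℝ} (hPm : ∀ j a b, Nb 1 ((Pm c α j a b : ℂ[X]) : PowerSeries ℂ) (B ^ j))
    {τ : ℂ} {x : ℝ} (hx : 1 ≤ x) (hτ : ‖τ‖ ≤ x) (j : ℕ) (a b : Fin n) :
    ‖(Pm c α j a b).eval τ‖ ≤ (B * x ^ n) ^ j := by
  rw [← ev_poly, mul_pow, ← pow_mul]
  exact (nb_poly_scale ((natDegree_Pm c j a b).trans (Nat.mul_le_mul_right _ (Nat.sub_le n 1))) hx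
    (hPm j a b)).norm_ev_le hτ

lemma cv_Res (τ : ℂ) : ∃ r > 0, ∀ a b, Cv r (Res c α τ a b) := by
  obtain ⟨B, hB, hPm⟩ := nb_Pm c α
  set κ := B * (‖τ‖ + 1) ^ n / ‖(FF c α).eval τ‖
  have hκ : 0 ≤ κ := by positivity
  refine ⟨(κ + 1)⁻¹, by positivity, fun a b => cv_of_geom (b := 1) (by positivity) hκ ?_ fun m => ?_⟩
  · rw [← div_eq_mul_inv, div_lt_one (by positivity)]; linarith
  · rw [Res, Matrix.of_apply, PowerSeries.coeff_mk, Gm, Matrix.of_apply, norm_div, norm_pow,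
      one_mul, div_pow]
    gcongr
    exact norm_Pm_le c α hPm (by simp) (by simp) m a b

variable {c α}

lemma ev_Res (hc : c ≠ 0) {O : Set ℂ} {Y : ℂ → Matrix (Fin n) (Fin n) ℂ} (hY : Sol α O Y)
    (hO : IsOpen O) (hα : ∀ T ∈ O, ∀ k, T ≠ α k) {τ η : ℂ} {r r' : ℝ}
    (hR : ∀ a b, Cv r' (Res c α τ a b)) (hr : Metric.ball τ r ⊆ O) (hη : ‖η‖ < r)
    (hη' : ‖η‖ ≤ r') : (Res c α τ).map (ev η) * Y τ = Y (τ + η) := by
  ext a b
  refine HasSum.unique ?_ (hY.hasSum hc hO hα hr hη a b)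
  simp only [Matrix.mul_apply, Finset.mul_sum, Matrix.map_apply, ← mul_assoc]
  refine hasSum_sum fun e _ => HasSum.mul_right _ ?_
  have := ((hR a e).summable hη').hasSum
  simp only [Res, Matrix.of_apply, PowerSeries.coeff_mk, mul_comm _ (η ^ _)] at this
  simpa [ev, Res, mul_comm _ (η ^ _)] using this

lemma gd_Res (hα : Function.Injective α) (hc : c ≠ 0) (hF : ∀ m, ∃ z : ℤ, (FF c α).coeff m = z) :
    ∃ B₀ : ℕ, ∀ t τ : ℕ, B₀ ≤ t → 1 ≤ τ → τ ≤ t ^ 2 → (FF c α).eval (τ : ℂ) ≠ 0 →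
      ∀ a b, Gd t {1} (4 * n + 3) (Res c α τ a b) := by
  obtain ⟨B, hB, hPm⟩ := nb_Pm c α
  obtain ⟨Λ, hΛ⟩ := den_le
  obtain ⟨A, hA⟩ : ∃ A, Nb 1 (FF c α : PowerSeries ℂ) A := ⟨_, nb_poly zero_le_one _⟩
  obtain ⟨B₀, hB₀⟩ := exists_nat_ge (B + Λ + A)
  have hA0 := hA.nonneg zero_le_one
  have hΛ0 : (0 : ℝ) ≤ Λ := Nat.cast_nonneg _
  refine ⟨B₀, fun t τ ht hτ1 hτ2 hne a b M => ?_⟩
  have ht' : (B₀ : ℝ) ≤ t := by exact_mod_cast ht
  have ht1 : (1 : ℝ) ≤ t := by linarith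
  have hτn : ‖(τ : ℂ)‖ ≤ (t : ℝ) ^ 2 := by rw [Complex.norm_natCast]; exact_mod_cast hτ2
  have ht2 : (1 : ℝ) ≤ (t : ℝ) ^ 2 := one_le_pow₀ ht1
  have hint : ∀ (p : ℂ[X]) (e : ℕ), (∀ m, ∃ z : ℤ, (e : ℂ) * p.coeff m = z) →
      ∃ z : ℤ, (e : ℂ) * p.eval (τ : ℂ) = z := by
    intro p e hp
    choose w hw using hp
    refine ⟨∑ m ∈ Finset.range (p.natDegree + 1), w m * τ ^ m, ?_⟩
    rw [eval_eq_sum_range, Finset.mul_sum]
    push_cast
    exact Finset.sum_congr rfl fun m _ => by rw [← hw, mul_assoc]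
  obtain ⟨F₀, hF₀⟩ := hint (FF c α) 1 (by simpa using hF)
  rw [Nat.cast_one, one_mul] at hF₀
  have hF₀0 : F₀ ≠ 0 := by rintro rfl; exact hne (by simpa using hF₀)
  have hF₁ : (F₀.natAbs : ℝ) ≤ (t : ℝ) ^ (2 * n + 1) := by
    have h1 := (nb_poly_scale (natDegree_FF c (α := α)) ht2 hA).norm_ev_le hτn
    rw [ev_poly, hF₀, Complex.norm_intCast, ← pow_mul] at h1
    rw [Nat.cast_natAbs, Int.cast_abs, pow_succ']
    refine h1.trans ?_
    gcongr; linarith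
  have hd : ((den M * F₀.natAbs ^ M : ℕ) : ℝ) ≤ (t : ℝ) ^ ((2 * n + 2) * (M + 1)) := by
    push_cast
    have h1 : (den M : ℝ) ≤ (t : ℝ) ^ (M + 1) := by
      refine le_trans (by exact_mod_cast hΛ M : (den M : ℝ) ≤ (Λ : ℝ) ^ (M + 1)) ?_
      exact pow_le_pow_left₀ hΛ0 (by linarith) _
    calc _ ≤ (t : ℝ) ^ (M + 1) * ((t : ℝ) ^ (2 * n + 1)) ^ M := by gcongr
      _ = (t : ℝ) ^ (M + 1 + (2 * n + 1) * M) := by ring
      _ ≤ _ := pow_le_pow_right₀ ht1 (by nlinarith)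
  refine ⟨den M * F₀.natAbs ^ M, Nat.mul_pos (den_pos M) (pow_pos (Int.natAbs_pos.2 hF₀0) _),
    hd.trans (pow_le_pow_right₀ ht1 (by nlinarith)), fun j hj => ?_⟩
  obtain ⟨w, hw⟩ := hint _ _ (Pm_int c hα hc hF j a b)
  obtain ⟨e, he⟩ := den_dvd hj
  obtain ⟨i, rfl⟩ := Nat.exists_eq_add_of_le hj
  have hFc : (F₀ : ℂ) ≠ 0 := by exact_mod_cast hF₀0
  have h2 : ((den (j + i) * F₀.natAbs ^ (j + i) : ℕ) : ℂ) * PowerSeries.coeff j (Res c α τ a b) =
      ((e * w * F₀.sign ^ j * F₀.natAbs ^ i : ℤ) : ℂ) := by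
    rw [Res, Matrix.of_apply, PowerSeries.coeff_mk, Gm, Matrix.of_apply, he, hF₀]
    have h3 : ((F₀.natAbs : ℕ) : ℂ) = F₀.sign * F₀ := by
      have := congrArg (Int.cast : ℤ → ℂ) (Int.sign_mul_self F₀)
      rw [Int.cast_mul, Int.cast_natCast] at this
      exact this.symm
    push_cast
    rw [← hw, pow_add, show ((F₀.natAbs : ℕ) : ℂ) ^ j = (F₀.sign * F₀) ^ j by rw [h3], mul_pow]
    simp only [Nat.cast_natAbs]
    field_simp
  rw [h2]
  refine lat_int _ ?_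
  rw [← Complex.norm_intCast, ← h2, norm_mul, Complex.norm_natCast, Res, Matrix.of_apply,
    PowerSeries.coeff_mk, Gm, Matrix.of_apply, norm_div, hF₀, norm_pow, Complex.norm_intCast]
  have h4 : (1 : ℝ) ≤ |(F₀ : ℝ)| := by exact_mod_cast Int.one_le_abs hF₀0
  have h5 := norm_Pm_le c α hPm ht2 hτn j a b
  calc _ ≤ (t : ℝ) ^ ((2 * n + 2) * (j + i + 1)) * ((t : ℝ) * ((t : ℝ) ^ 2) ^ n) ^ j := by
        gcongr
        refine (div_le_self (norm_nonneg _) (one_le_pow₀ h4)).trans (h5.trans ?_)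
        gcongr; linarith
    _ = (t : ℝ) ^ ((2 * n + 2) * (j + i + 1) + (2 * n + 1) * j) := by ring
    _ ≤ _ := pow_le_pow_right₀ ht1 (by nlinarith)

/-- Taylor series of `Y(τ + η) Y(τ₀ + η)⁻¹` -/
noncomputable def Jt (c : ℂ) (α : Fin n → ℂ) (τ τ₀ : ℂ) (u : Matrix (Fin n) (Fin n) ℂ) :
    Matrix (Fin n) (Fin n) (PowerSeries ℂ) :=
  Res c α τ * u.map PowerSeries.C * (Res c α τ₀).adjugate

lemma gd_Jt {t : ℕ} (ht : 2 ≤ t) {k : ℕ} {τ τ₀ : ℂ} (u : Matrix (Fin n) (Fin n) ℂ)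
    (h : ∀ a b, Gd t {1} k (Res c α τ a b)) (h₀ : ∀ a b, Gd t {1} k (Res c α τ₀ a b))
    (a b : Fin n) : Gd t (Set.range fun v : Fin n × Fin n => u v.1 v.2)
      (n * (n * (k + 2) + n.factorial * (n * (k + 1) + 1) + 2)) (Jt c α τ τ₀ u a b) := by
  set S := Set.range fun v : Fin n × Fin n => u v.1 v.2
  rw [Jt, Matrix.mul_apply]
  have := gd_sum ht (S := S) Finset.univ
    (F := fun e => (Res c α τ * u.map PowerSeries.C) a e * (Res c α τ₀).adjugate e b)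
    fun e _ => Gd.mul ht (S := S) (by rintro s hs _ rfl; simpa using hs) (c := n * (k + 2)) (by
      rw [Matrix.mul_apply]
      have := gd_sum ht (S := S) Finset.univ
        (F := fun l => Res c α τ a l * u.map PowerSeries.C l e) fun l _ =>
        (h a l).mul ht (S' := S) (by rintro _ rfl s hs; simpa using hs) (gd_C ⟨(l, e), rfl⟩)
      simpa using this) (gd_adj ht h₀ e b)
  simpa using this

lemma ev_Jt (hc : c ≠ 0) {O : Set ℂ} {Y : ℂ → Matrix (Fin n) (Fin n) ℂ} (hY : Sol α O Y)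
    (hO : IsOpen O) (hO' : IsPreconnected O) (hα : ∀ T ∈ O, ∀ k, T ≠ α k)
    (hdet : ∀ T ∈ O, (Y T).det ≠ 0) {τ τ₀ : ℂ} (hτ : τ ∈ O) (hτ₀ : τ₀ ∈ O) :
    ∃ r > 0, (∀ a b, Cv r (Jt c α τ τ₀ (Y τ * (Y τ₀)⁻¹) a b)) ∧ ∀ᶠ η in 𝓝 (0 : ℂ),
      (Jt c α τ τ₀ (Y τ * (Y τ₀)⁻¹)).map (ev η) * Y (τ₀ + η) = Y (τ + η) := by
  obtain ⟨r₁, hr₁, h₁⟩ := cv_Res c α τ
  obtain ⟨r₂, hr₂, h₂⟩ := cv_Res c α τ₀
  obtain ⟨r₃, hr₃, h₃⟩ := Metric.isOpen_iff.1 hO τ hτ
  obtain ⟨r₄, hr₄, h₄⟩ := Metric.isOpen_iff.1 hO τ₀ hτ₀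
  set r := min r₁ r₂
  have hr : 0 < r := lt_min hr₁ hr₂
  have h₁' := fun a b => (h₁ a b).mono hr.le (min_le_left r₁ r₂)
  have h₂' := fun a b => (h₂ a b).mono hr.le (min_le_right r₁ r₂)
  set u := Y τ * (Y τ₀)⁻¹ with hu
  set R₁ : Matrix (Fin n) (Fin n) (CvS hr.le) := Matrix.of fun a b => ⟨_, h₁' a b⟩
  set R₂ : Matrix (Fin n) (Fin n) (CvS hr.le) := Matrix.of fun a b => ⟨_, h₂' a b⟩
  set u' : Matrix (Fin n) (Fin n) (CvS hr.le) := Matrix.of fun a b => ⟨_, cv_C hr.le (u a b)⟩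
  have hJ : Jt c α τ τ₀ u = (CvS hr.le).subtype.mapMatrix (R₁ * u' * R₂.adjugate) := by
    rw [map_mul, map_mul, RingHom.map_adjugate]
    rfl
  refine ⟨r, hr, fun a b => ?_, ?_⟩
  · rw [hJ]; exact Subtype.property (_ : CvS hr.le)
  filter_upwards [Metric.ball_mem_nhds (0 : ℂ) hr, Metric.ball_mem_nhds (0 : ℂ) hr₃,
    Metric.ball_mem_nhds (0 : ℂ) hr₄] with η h5 h6 h7
  rw [mem_ball_zero_iff] at h5 h6 h7
  have e1 := ev_Res hc hY hO hα h₁' h₃ h6 h5.le
  have e2 := ev_Res hc hY hO hα h₂' h₄ h7 h5.le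
  have e3 : (Jt c α τ τ₀ u).map (ev η) =
      (Res c α τ).map (ev η) * u * ((Res c α τ₀).map (ev η)).adjugate := by
    have h8 : (Jt c α τ τ₀ u).map (ev η) = (evH hr.le h5.le).mapMatrix (R₁ * u' * R₂.adjugate) := by
      rw [hJ]; rfl
    rw [h8, map_mul, map_mul, RingHom.map_adjugate]
    congr 2
    ext a b
    exact ev_C _
  have hm : τ₀ + η ∈ O := h₄ (by simpa using h7)
  have e4 : ((Res c α τ₀).map (ev η)).det = 1 := by
    have := congrArg Matrix.det e2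
    rw [Matrix.det_mul, hY.det_const hO hO' hm hτ₀] at this
    exact (mul_eq_right₀ (hdet _ hτ₀)).1 this
  rw [e3, ← e2, ← e1, Matrix.mul_assoc, ← Matrix.mul_assoc (adjugate _), Matrix.adjugate_mul, e4,
    one_smul, Matrix.one_mul, Matrix.mul_assoc, hu,
    Matrix.nonsing_inv_mul_cancel_right _ _ (hdet _ hτ₀).isUnit]

end Pool.Agent.GPC

end MrgPart2

-- marker of a merged file
example : 731051 + 530447 = 731051 + 530447 := rfl
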