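import Mathlib.Analysis.Matrix.Normed
import Pool.Agent.MP_cbf1af_ag.h26.Ode

/-! Frobenius solution at a singular point and the separation of powers of the logarithm. -/

namespace Pool.Agent.GPC
open Polynomial Filter Topology Matrix

lemma frob_coeff {A : Type*} [NormedRing A] [NormedAlgebra ℂ A] (E : A) (hE : E * E = 0)
    (R : ℕ → A) {b ρ : ℝ} (hρ : 0 < ρ) (hR : ∀ l, ‖R l‖ ≤ b * ρ ^ l) :
    ∃ (Z : ℕ → A) (b' κ : ℝ), 0 < κ ∧ Z 0 = 1 ∧ (∀ j, ‖Z j‖ ≤ b' * κ ^ j) ∧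
      ∀ j : ℕ, ((j : ℂ) + 1) • Z (j + 1) = E * Z (j + 1) - Z (j + 1) * E +
        ∑ i ∈ Finset.range (j + 1), R (j - i) * Z i := by
  set Φ : ℂ → A → A := fun c W => c • W + c ^ 2 • (E * W - W * E) - (2 * c ^ 3) • (E * W * E)
  have hΦ : ∀ (j : ℂ) (W : A), j ≠ 0 → j • Φ j⁻¹ W = E * Φ j⁻¹ W - Φ j⁻¹ W * E + W := by
    intro j W hj
    have h1 : ∀ y, E * (E * y) = 0 := fun y => by rw [← mul_assoc, hE, zero_mul]
    simp only [Φ, mul_add, mul_sub, add_mul, sub_mul, mul_smul_comm, smul_mul_assoc, mul_assoc,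
      hE, h1, mul_zero, smul_zero]
    match_scalars <;> (field_simp; try ring)
  set B := 1 + 2 * ‖E‖ + 2 * ‖E‖ ^ 2
  have hB : ∀ (c : ℂ) (W : A), ‖c‖ ≤ 1 → ‖Φ c W‖ ≤ B * ‖W‖ := by
    intro c W hc
    have h1 : ‖E * W - W * E‖ ≤ ‖E‖ * ‖W‖ + ‖W‖ * ‖E‖ :=
      (norm_sub_le _ _).trans (add_le_add (norm_mul_le _ _) (norm_mul_le _ _))
    have h2 : ‖E * W * E‖ ≤ ‖E‖ * ‖W‖ * ‖E‖ := norm_mul₃_le
    have h3 : ‖c ^ 2‖ ≤ 1 := by rw [norm_pow]; exact pow_le_one₀ (norm_nonneg _) hc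
    have h4 : ‖2 * c ^ 3‖ ≤ 2 := by
      rw [norm_mul, norm_pow, Complex.norm_two]
      have := pow_le_one₀ (n := 3) (norm_nonneg _) hc
      linarith
    calc _ ≤ ‖c‖ * ‖W‖ + ‖c ^ 2‖ * ‖E * W - W * E‖ + ‖2 * c ^ 3‖ * ‖E * W * E‖ := by
          simp only [← norm_smul]
          exact (norm_sub_le _ _).trans (add_le_add_left (norm_add_le _ _) _)
      _ ≤ 1 * ‖W‖ + 1 * (‖E‖ * ‖W‖ + ‖W‖ * ‖E‖) + 2 * (‖E‖ * ‖W‖ * ‖E‖) := by gcongr
      _ = _ := by ring
  let Z : ℕ → A := fun j => Nat.strongRec (motive := fun _ => A) (fun j ih => match j, ih with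
    | 0, _ => 1
    | j + 1, ih => Φ ((j : ℂ) + 1)⁻¹ (∑ i : Fin (j + 1), R (j - i) * ih i i.2)) j
  have hZ0 : Z 0 = 1 := by simp only [Z]; rw [Nat.strongRec_eq]
  have hZ : ∀ j : ℕ, Z (j + 1) = Φ ((j : ℂ) + 1)⁻¹ (∑ i ∈ Finset.range (j + 1), R (j - i) * Z i) := by
    intro j
    rw [Finset.sum_range]
    simp only [Z]
    rw [Nat.strongRec_eq]
  have hb : 0 ≤ b := by simpa using (norm_nonneg _).trans (hR 0)
  have hB0 : 0 ≤ B := by positivity
  set κ := 2 * ρ + 2 * B * b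
  have hκ : 0 < κ := by positivity
  have hj : ∀ j : ℕ, (j : ℂ) + 1 ≠ 0 := fun j => by exact_mod_cast j.succ_ne_zero
  refine ⟨Z, ‖(1 : A)‖, κ, hκ, hZ0, fun j => ?_, fun j => by rw [hZ j]; exact hΦ _ _ (hj j)⟩
  induction j using Nat.strong_induction_on with | _ j ih => ?_
  rcases j with _ | j
  · simp [hZ0]
  rw [hZ]
  refine (hB _ _ ?_).trans ?_
  · rw [norm_inv]
    refine inv_le_one_of_one_le₀ ?_
    rw [show (j : ℂ) + 1 = ((j + 1 : ℕ) : ℂ) by push_cast; rfl, Complex.norm_natCast]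
    exact_mod_cast Nat.le_add_left 1 j
  have h1 : ‖∑ i ∈ Finset.range (j + 1), R (j - i) * Z i‖ ≤
      ∑ i ∈ Finset.range (j + 1), b * ‖(1 : A)‖ * κ ^ j * (1 / 2) ^ (j - i) := by
    refine norm_sum_le_of_le _ fun i hi => (norm_mul_le _ _).trans ?_
    have hi' := Finset.mem_range.1 hi
    have h2 : ρ ^ (j - i) ≤ (κ * (1 / 2)) ^ (j - i) := by
      have : 0 ≤ B * b := by positivity
      gcongr
      simp only [κ]; linarith
    calc _ ≤ (b * (κ * (1 / 2)) ^ (j - i)) * (‖(1 : A)‖ * κ ^ i) := by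
          gcongr
          · exact (hR _).trans (by gcongr)
          · exact ih i hi'
      _ = b * ‖(1 : A)‖ * (κ ^ (j - i) * κ ^ i) * (1 / 2) ^ (j - i) := by ring
      _ = _ := by rw [← pow_add, Nat.sub_add_cancel (by omega)]
  rw [← Finset.mul_sum] at h1
  have h3 : ∑ i ∈ Finset.range (j + 1), (1 / 2 : ℝ) ^ (j - i) ≤ 2 := by
    have := Finset.sum_range_reflect (fun i => (1 / 2 : ℝ) ^ i) (j + 1)
    simp only [Nat.add_sub_cancel] at this
    rw [this]
    exact sum_geometric_two_le _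
  calc _ ≤ B * (b * ‖(1 : A)‖ * κ ^ j * 2) := by gcongr; exact h1.trans (by gcongr)
    _ = ‖(1 : A)‖ * κ ^ j * (2 * B * b) := by ring
    _ ≤ ‖(1 : A)‖ * κ ^ j * κ := by gcongr; simp only [κ]; linarith
    _ = _ := by ring

variable {n : ℕ} {α : Fin n → ℂ}

open scoped Matrix.Norms.Operator in
lemma frob_mat (E : Matrix (Fin n) (Fin n) ℂ) (hE : E * E = 0) (R : ℕ → Matrix (Fin n) (Fin n) ℂ)
    {b ρ : ℝ} (hρ : 0 < ρ) (hR : ∀ l a e, ‖R l a e‖ ≤ b * ρ ^ l) :
    ∃ (Z : ℕ → Matrix (Fin n) (Fin n) ℂ) (b' κ : ℝ), 0 < κ ∧ Z 0 = 1 ∧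
      (∀ j a e, ‖Z j a e‖ ≤ b' * κ ^ j) ∧
      ∀ j : ℕ, ((j : ℂ) + 1) • Z (j + 1) = E * Z (j + 1) - Z (j + 1) * E +
        ∑ i ∈ Finset.range (j + 1), R (j - i) * Z i := by
  obtain ⟨Z, b', κ, h1, h2, h3, h4⟩ := frob_coeff E hE R (b := n * |b|) hρ fun l => by
    rw [linfty_opNorm_def]
    have : (Finset.univ.sup fun i => ∑ j, ‖R l i j‖₊) ≤ ⟨n * |b| * ρ ^ l, by positivity⟩ := by
      refine Finset.sup_le fun i _ => ?_
      rw [← NNReal.coe_le_coe, NNReal.coe_sum]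
      refine (Finset.sum_le_card_nsmul _ _ (|b| * ρ ^ l) fun e _ => ?_).trans
        (by simp only [Finset.card_univ, Fintype.card_fin, nsmul_eq_mul, ← mul_assoc]; rfl)
      exact (hR l i e).trans (by gcongr; exact le_abs_self b)
    exact this
  refine ⟨Z, b', κ, h1, h2, fun j a e => le_trans ?_ (h3 j), h4⟩
  rw [linfty_opNorm_def]
  have : ‖Z j a e‖₊ ≤ Finset.univ.sup fun i => ∑ l, ‖Z j i l‖₊ :=
    (Finset.single_le_sum (f := fun l => ‖Z j a l‖₊) (fun _ _ => zero_le) (Finset.mem_univ e)).trans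
      (Finset.le_sup (f := fun i => ∑ l, ‖Z j i l‖₊) (Finset.mem_univ a))
  exact this

theorem frob (hα : Function.Injective α) (m : Fin n) (d : ℂ) :
    ∃ r > 0, ∃ Z : ℂ → Matrix (Fin n) (Fin n) ℂ, Z 0 = 1 ∧
      (∀ a b, AnalyticAt ℂ (fun η => Z η a b) 0) ∧
      Sol α {T | ‖T - α m‖ < r ∧ (T - α m) / d ∈ Complex.slitPlane}
        fun T => Z (T - α m) * (1 + Complex.log ((T - α m) / d) • Em α m) := by
  set s := Finset.univ.erase m
  set β : Fin n → ℂ := fun k => (α m - α k)⁻¹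
  set ρ := 1 + ∑ k, ‖β k‖
  have hρ : ∀ k, ‖β k‖ < ρ := fun k => by
    have := Finset.single_le_sum (f := fun k => ‖β k‖) (fun _ _ => norm_nonneg _) (Finset.mem_univ k)
    simp only [ρ]; linarith
  have hρ0 : 0 < ρ := (norm_nonneg _).trans_lt (hρ m)
  set R : ℕ → Matrix (Fin n) (Fin n) ℂ := fun l => ∑ k ∈ s, (β k * (-β k) ^ l) • Em α k
  set b := ∑ k ∈ s, ‖β k‖ * ∑ a, ∑ e, ‖Em α k a e‖
  have hR : ∀ l a e, ‖R l a e‖ ≤ b * ρ ^ l := by
    intro l a e
    simp only [R, b, Matrix.sum_apply, Matrix.smul_apply, smul_eq_mul, Finset.sum_mul]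
    refine norm_sum_le_of_le _ fun k _ => ?_
    rw [norm_mul, norm_mul, norm_pow, norm_neg, mul_right_comm]
    gcongr
    · exact (Finset.single_le_sum (f := fun e => ‖Em α k a e‖) (fun _ _ => norm_nonneg _)
        (Finset.mem_univ e)).trans (Finset.single_le_sum (f := fun a => ∑ e, ‖Em α k a e‖)
        (fun _ _ => by positivity) (Finset.mem_univ a))
    · exact (hρ k).le
  obtain ⟨Z, b', κ, hκ, hZ0, hZ, hrec⟩ := frob_mat (Em α m) (Em_sq α m) R hρ0 hR
  set r := (κ + ρ)⁻¹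
  have hr : 0 < r := by positivity
  set Zs : Fin n → Fin n → PowerSeries ℂ := fun a e => PowerSeries.mk fun j => Z j a e
  set Rs : Fin n → Fin n → PowerSeries ℂ := fun a e => PowerSeries.mk fun j => R j a e
  have hr1 : κ * r < 1 := by rw [← div_eq_mul_inv, div_lt_one (by positivity)]; linarith
  have hr2 : ρ * r < 1 := by rw [← div_eq_mul_inv, div_lt_one (by positivity)]; linarith
  have cZ : ∀ a e, Cv r (Zs a e) := fun a e =>
    cv_of_geom (b := b') hr.le hκ.le hr1 fun j => by simpa [Zs] using hZ j a e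
  have cR : ∀ a e, Cv r (Rs a e) := fun a e =>
    cv_of_geom (b := b) hr.le hρ0.le hr2 fun j => by simpa [Rs] using hR j a e
  have hid : ∀ a e, PowerSeries.X * PowerSeries.derivative ℂ (Zs a e) =
      ∑ l, PowerSeries.C (Em α m a l) * Zs l e - ∑ l, PowerSeries.C (Em α m l e) * Zs a l +
        PowerSeries.X * ∑ l, Rs a l * Zs l e := by
    intro a e
    ext j
    rcases j with _ | j
    · simp [Zs, hZ0, Matrix.one_apply]
    · have := congrFun (congrFun (hrec j) a) e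
      simp only [Matrix.smul_apply, smul_eq_mul, Matrix.add_apply, Matrix.sub_apply,
        Matrix.mul_apply, Matrix.sum_apply] at this
      simp only [PowerSeries.coeff_succ_X_mul, PowerSeries.coeff_derivative, map_add, map_sub,
        map_sum, PowerSeries.coeff_C_mul]
      simp only [Zs, Rs, PowerSeries.coeff_mk, PowerSeries.coeff_mul]
      rw [mul_comm, this, Finset.sum_comm]
      congr 1
      · simp only [mul_comm]
      · refine Finset.sum_congr rfl fun l _ => ?_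
        rw [← Finset.Nat.sum_antidiagonal_swap,
          Finset.Nat.sum_antidiagonal_eq_sum_range_succ_mk]
        rfl
  refine ⟨r, hr, fun η => Matrix.of fun a e => ev η (Zs a e), ?_,
    fun a e => analyticAt_ev (cZ a e) (by simpa using hr), ?_⟩
  · ext a e
    simp [ev_at_zero, Zs, hZ0]
  rintro T ⟨h1, h2⟩ a e
  set η := T - α m with hη
  have hη0 : η ≠ 0 := fun h => by simp [h] at h2
  have hd : d ≠ 0 := fun h => by simp [h] at h2
  set W : Matrix (Fin n) (Fin n) ℂ := Matrix.of fun a e => ev η (Zs a e)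
  set W' : Matrix (Fin n) (Fin n) ℂ := Matrix.of fun a e => ev η (PowerSeries.derivative ℂ (Zs a e))
  have hA : Am α T = η⁻¹ • Em α m + Matrix.of fun a l => ev η (Rs a l) := by
    rw [Am, ← Finset.add_sum_erase _ _ (Finset.mem_univ m)]
    congr 1
    ext a l
    simp only [Matrix.sum_apply, Matrix.smul_apply, smul_eq_mul, Matrix.of_apply, ev, Rs, R,
      PowerSeries.coeff_mk, Finset.sum_mul]
    refine (HasSum.tsum_eq (hasSum_sum fun k hk => ?_)).symm
    have hk' : α m - α k ≠ 0 := sub_ne_zero.2 fun h => Finset.ne_of_mem_erase hk (hα h).symm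
    have h3 : ‖-β k * η‖ < 1 := by
      rw [norm_mul, norm_neg]
      exact lt_of_le_of_lt (by gcongr; exact (hρ k).le) hr2
    have h4 : 1 - -β k * η = β k * (T - α k) := by simp only [β, hη]; field_simp; ring
    have h5 := (hasSum_geometric_of_norm_lt_one h3).mul_left (β k * Em α k a l)
    have h6 : β k * Em α k a l * (β k * (T - α k))⁻¹ = (T - α k)⁻¹ * Em α k a l := by
      rw [mul_inv, mul_comm (β k) (Em α k a l), mul_assoc, mul_inv_cancel_left₀ (inv_ne_zero hk'),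
        mul_comm]
    rw [h4, h6] at h5
    exact h5.congr_fun fun j => by rw [mul_pow]; ring
  have hW : η • W' = Em α m * W - W * Em α m + η • ((Matrix.of fun a l => ev η (Rs a l)) * W) := by
    ext a e
    have h3 := congrArg (ev η) (hid a e)
    have h0 := norm_nonneg η
    have cZ' := fun a e => (cZ a e).mono h0 h1.le
    have cR' := fun a e => (cR a e).mono h0 h1.le
    have c1 := fun (c : ℂ) a e => (cv_C h0 c).mul h0 (cZ' a e)
    have c2 := fun a l e => (cR' a l).mul h0 (cZ' l e)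
    rw [ev_mul (cv_X h0) ((cZ a e).derivative h0 h1) le_rfl,
      ev_add ((cv_sum h0 _ fun l _ => c1 _ _ _).sub h0 (cv_sum h0 _ fun l _ => c1 _ _ _))
        ((cv_X h0).mul h0 (cv_sum h0 _ fun l _ => c2 _ _ _)) le_rfl,
      ev_sub (cv_sum h0 _ fun l _ => c1 _ _ _) (cv_sum h0 _ fun l _ => c1 _ _ _) le_rfl,
      ev_mul (cv_X h0) (cv_sum h0 _ fun l _ => c2 _ _ _) le_rfl,
      ev_sum _ (fun l _ => c1 _ _ _) le_rfl, ev_sum _ (fun l _ => c1 _ _ _) le_rfl,
      ev_sum _ (fun l _ => c2 _ _ _) le_rfl, ev_X] at h3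
    simp only [ev_mul (cv_C h0 _) (cZ' _ _) le_rfl, ev_mul (cR' _ _) (cZ' _ _) le_rfl, ev_C] at h3
    simpa [W, W', Matrix.mul_apply, mul_comm (Em α m _ e)] using h3
  have hW' : W' = η⁻¹ • (Em α m * W - W * Em α m) + (Matrix.of fun a l => ev η (Rs a l)) * W := by
    rw [← inv_smul_smul₀ hη0 W', hW, smul_add, inv_smul_smul₀ hη0]
  have hder : ∀ a e, HasDerivAt (fun z => ev (z - α m) (Zs a e)) (W' a e) T := fun a e =>
    (hasDerivAt_ev (cZ a e) h1).comp_sub_const T (α m)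
  have hlog : HasDerivAt (fun z => Complex.log ((z - α m) / d)) η⁻¹ T :=
    ((((hasDerivAt_id T).sub_const (α m)).div_const d).clog h2).congr_deriv (by
      simp only [id, ← hη]; field_simp)
  have h6 : HasDerivAt (fun z => ∑ l, ev (z - α m) (Zs a l) *
      ((1 : Matrix (Fin n) (Fin n) ℂ) l e + Complex.log ((z - α m) / d) * Em α m l e))
      (∑ l, (W' a l * ((1 : Matrix (Fin n) (Fin n) ℂ) l e + Complex.log (η / d) * Em α m l e) +
        W a l * (η⁻¹ * Em α m l e))) T :=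
    HasDerivAt.fun_sum fun l _ => (hder a l).fun_mul ((hlog.mul_const _).const_add _)
  refine h6.congr_deriv ?_
  have h7 : W' * (1 + Complex.log (η / d) • Em α m) + W * (η⁻¹ • Em α m) =
      Am α T * (W * (1 + Complex.log (η / d) • Em α m)) := by
    rw [hA, hW']
    simp only [Matrix.mul_add, Matrix.add_mul, Matrix.sub_mul, Matrix.mul_smul, Matrix.smul_mul,
      Matrix.mul_one, Matrix.mul_assoc, Em_sq, Matrix.mul_zero]
    module
  rw [Finset.sum_add_distrib]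
  exact congrFun (congrFun h7 a) e

lemma tendsto_ray (c d : ℂ) : Tendsto (fun t : ℝ => c + t * d) (𝓝[>] 0) (𝓝 c) := by
  have : Continuous fun t : ℝ => c + t * d := by fun_prop
  simpa using (this.tendsto 0).mono_left nhdsWithin_le_nhds

lemma log_mul_tendsto {g : ℂ → ℂ} (hg : DifferentiableAt ℂ g 0) (h0 : g 0 = 0) (d : ℂ) (j : ℕ) :
    Tendsto (fun t : ℝ => g (t * d) * (Real.log t : ℂ) ^ j) (𝓝[>] 0) (𝓝 0) := by
  have h1 := hg.hasDerivAt.isBigO_sub.comp_tendsto (by simpa using tendsto_ray 0 d)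
  have h2 : Tendsto (fun t : ℝ => t * |Real.log t| ^ j) (𝓝[>] 0) (𝓝 0) := by
    have h3 := (isLittleO_abs_log_rpow_rpow_nhdsGT_zero (s := -1) j (by norm_num)).tendsto_div_nhds_zero
    refine h3.congr' ?_
    filter_upwards [self_mem_nhdsWithin] with t _
    rw [Real.rpow_neg_one, Real.rpow_natCast, div_inv_eq_mul, mul_comm]
  refine Asymptotics.IsBigO.trans_tendsto (g'' := fun t : ℝ => t * |Real.log t| ^ j) ?_ h2
  refine Asymptotics.IsBigO.mul ?_ (Asymptotics.IsBigO.of_norm_le fun t => by simp)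
  refine (h1.congr_left fun t => by simp [h0]).trans (Asymptotics.IsBigO.of_bound ‖d‖ ?_)
  exact Eventually.of_forall fun t => by simp [mul_comm]

lemma tendsto_norm_log : Tendsto (fun t : ℝ => ‖(Real.log t : ℂ)‖) (𝓝[>] 0) atTop := by
  simpa [Function.comp_def] using tendsto_abs_atBot_atTop.comp Real.tendsto_log_nhdsGT_zero

lemma log_sep {N : ℕ} {c : Fin N → ℂ → ℂ} (hc : ∀ j, AnalyticAt ℂ (c j) 0) {d : ℂ} (hd : d ≠ 0)
    (h : ∀ᶠ t : ℝ in 𝓝[>] 0, ∑ j, c j (t * d) * (Real.log t : ℂ) ^ (j : ℕ) = 0) :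
    ∀ᶠ η in 𝓝 (0 : ℂ), ∀ j, c j η = 0 := by
  by_contra hcon
  have h1 : AnalyticAt ℂ (fun η j => c j η) 0 := AnalyticAt.pi hc
  obtain ⟨r, g, hg, hg0, hcg⟩ := h1.exists_eventuallyEq_pow_smul_nonzero_iff.2
    (by simpa [funext_iff] using hcon)
  set P : ℂ[X] := ∑ j : Fin N, monomial j (g 0 j)
  have h2 : Tendsto (fun t : ℝ => P.eval (Real.log t : ℂ)) (𝓝[>] 0) (𝓝 0) := by
    have h3 := tendsto_finsetSum Finset.univ fun (j : Fin N) _ =>
      log_mul_tendsto (g := fun η => g 0 j - g η j)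
        ((analyticAt_pi_iff.1 hg j).differentiableAt.const_sub _) (sub_self _) d j
    rw [Finset.sum_const_zero] at h3
    refine h3.congr' ?_
    filter_upwards [h, (by simpa using tendsto_ray 0 d : Tendsto (fun t : ℝ => t * d) _ _).eventually
      hcg, self_mem_nhdsWithin] with t h4 h5 h6
    have h7 : (t * d : ℂ) ^ r ≠ 0 := pow_ne_zero _ (mul_ne_zero (by exact_mod_cast ne_of_gt h6) hd)
    have h8 : ∑ j, g (t * d) j * (Real.log t : ℂ) ^ (j : ℕ) = 0 := by
      refine mul_left_cancel₀ h7 ?_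
      rw [mul_zero, Finset.mul_sum, ← h4]
      exact Finset.sum_congr rfl fun j _ => by rw [congrFun h5 j]; simp [mul_assoc]
    simp [sub_mul, Finset.sum_sub_distrib, h8, P, eval_finsetSum]
  have hP : P = 0 := by
    rcases lt_or_ge 0 P.degree with h3 | h3
    · exact absurd (P.tendsto_norm_atTop h3 tendsto_norm_log)
        (not_tendsto_atTop_of_tendsto_nhds h2.norm)
    · rw [eq_C_of_degree_le_zero h3] at h2 ⊢
      simp only [eval_C] at h2
      rw [tendsto_nhds_unique tendsto_const_nhds h2, map_zero]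
  refine hg0 (funext fun j => ?_)
  have := congrArg (fun p => p.coeff j) hP
  simpa [P, finsetSum_coeff, coeff_monomial, Fin.val_inj] using this

end Pool.Agent.GPC
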