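import Mathlib.Algebra.Field.ZMod
import Mathlib.FieldTheory.Galois.Infinite
import Mathlib.AlgebraicTopology.FundamentalGroupoid.SimplyConnected
import Mathlib.Analysis.Convex.Contractible
import Mathlib.Analysis.SpecialFunctions.Gamma.Beta
import Mathlib.RingTheory.Nullstellensatz
import Mathlib.MeasureTheory.Integral.CurveIntegral.Poincare
import Pool.Agent.MP_cbf1af_ag.h26.Frob
import Pool.Agent.MP_cbf1af_ag.h26.Jet
import Pool.Agent.MP_cbf1af_ag.h26.Zero

-- ======== part 0: formerly Pool.Agent.MP_cbf1af_ag.h26.Geo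
section MrgPart0

/-! Regions of the parameter plane and the local form of solutions at a singular point. -/

namespace Pool.Agent.GPC
open Filter Topology Matrix

/-- two real functionals ordering the roots and a transversal direction -/
structure Geo {n : ℕ} (α : Fin n → ℂ) where
  p : ℂ →L[ℝ] ℝ
  q : ℂ →L[ℝ] ℝ
  d : ℂ
  pd : 0 < p d
  qd : 0 < q d
  p1 : 0 < p 1
  q1 : q 1 < 0
  mp : StrictMono fun k => p (α k)
  mq : StrictAnti fun k => q (α k)
  cone : ∀ w, 0 < p w → q w < 0 → w ∈ Complex.slitPlane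
  alg : IsAlgebraic ℚ d

lemma slit_of_pos {ℓ : ℂ →L[ℝ] ℝ} {d w : ℂ} (hd : 0 < ℓ d) (hw : 0 < ℓ w) :
    w / d ∈ Complex.slitPlane := by
  have hd0 : d ≠ 0 := fun h => by simp [h] at hd
  by_contra h
  rw [Complex.mem_slitPlane_iff, not_or, not_lt, not_not] at h
  have h1 : w = (w / d).re • d := by
    rw [Complex.real_smul, show (((w / d).re : ℝ) : ℂ) = w / d from
      Complex.ext rfl (by simp [h.2]), div_mul_cancel₀ _ hd0]
  rw [h1, map_smul, smul_eq_mul] at hw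
  nlinarith [h.1]

lemma map_ray (ℓ : ℂ →L[ℝ] ℝ) (c d : ℂ) (t : ℝ) : ℓ (c + t * d) = ℓ c + t * ℓ d := by
  rw [map_add, ← Complex.real_smul, map_smul, smul_eq_mul]

lemma map_real (ℓ : ℂ →L[ℝ] ℝ) (t : ℝ) : ℓ t = t * ℓ 1 := by simpa using map_ray ℓ 0 1 t

lemma ray_zero {F : ℂ → ℂ} {O : Set ℂ} (hF : AnalyticOnNhd ℂ F O) (hO : IsPreconnected O)
    {c d : ℂ} (hd : d ≠ 0) {a b : ℝ} (hab : a < b)
    (h : ∀ t ∈ Set.Ioo a b, c + t * d ∈ O ∧ F (c + t * d) = 0) : ∀ T ∈ O, F T = 0 := by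
  obtain ⟨t₀, ht₀⟩ := exists_between hab
  refine hF.eqOn_zero_of_preconnected_of_frequently_eq_zero hO (h t₀ ht₀).1 ?_
  have h1 : Tendsto (fun t : ℝ => c + t * d) (𝓝[≠] t₀) (𝓝[≠] (c + t₀ * d)) := by
    refine tendsto_nhdsWithin_iff.2 ⟨((by fun_prop : Continuous fun t : ℝ => c + t * d).tendsto
      t₀).mono_left nhdsWithin_le_nhds, ?_⟩
    filter_upwards [self_mem_nhdsWithin] with t ht
    simpa [hd] using ht
  refine h1.frequently (Eventually.frequently ?_)
  filter_upwards [nhdsWithin_le_nhds (Ioo_mem_nhds ht₀.1 ht₀.2)] with t ht using (h t ht).2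

lemma exists_geo {n : ℕ} (α : Fin n → ℂ) (h : StrictMono fun j => toLex ((α j).re, (α j).im)) :
    Nonempty (Geo α) := by
  have h1 : ∀ᶠ ε : ℝ in 𝓝[>] 0, StrictMono fun k => (α k).re + ε * (α k).im := by
    have : ∀ k l, ∀ᶠ ε : ℝ in 𝓝[>] 0, k < l → (α k).re + ε * (α k).im < (α l).re + ε * (α l).im := by
      intro k l
      by_cases hkl : k < l
      · rcases (Prod.Lex.toLex_lt_toLex).1 (h hkl) with h2 | ⟨h2, h3⟩
        · have h4 : ∀ᶠ ε : ℝ in 𝓝 0, (α k).re + ε * (α k).im < (α l).re + ε * (α l).im :=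
            ContinuousAt.eventually_lt (by fun_prop) (by fun_prop) (by simpa using h2)
          exact (h4.filter_mono nhdsWithin_le_nhds).mono fun _ h _ => h
        · filter_upwards [self_mem_nhdsWithin] with ε hε _
          simp only at h2 h3
          rw [h2]
          gcongr
      · exact Eventually.of_forall fun _ h => absurd h hkl
    filter_upwards [eventually_all.2 fun k => eventually_all.2 (this k)] with ε hε k l using hε k l
  obtain ⟨u, hu, h2⟩ := (mem_nhdsGT_iff_exists_Ioo_subset).1 h1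
  obtain ⟨ε, h3, h4⟩ := exists_rat_btwn (show (0 : ℝ) < u / 3 from div_pos hu (by norm_num))
  have h5 := h2 (show (3 * ε : ℝ) ∈ Set.Ioo 0 u from ⟨by linarith, by linarith⟩)
  have h6 := h2 (show (ε : ℝ) ∈ Set.Ioo 0 u from ⟨h3, by linarith⟩)
  refine ⟨⟨Complex.reCLM + (3 * ε : ℝ) • Complex.imCLM, -(Complex.reCLM + (ε : ℝ) • Complex.imCLM),
    Complex.I - 2 * (ε : ℝ), by simp; linarith, by simp; linarith, by simp, by simp,
    by simpa using h5, fun k l hkl => neg_lt_neg (by simpa using h6 hkl), fun w h7 _ => ?_, ?_⟩⟩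
  · by_cases h8 : w.im = 0
    · exact Or.inl (by simpa [h8] using h7)
    · exact Or.inr h8
  · have : IsAlgebraic ℚ Complex.I := IsAlgebraic.of_pow (n := 2) (by norm_num)
      (by rw [Complex.I_sq]; exact isAlgebraic_one.neg)
    exact this.sub (by simpa using isAlgebraic_ratCast (A := ℂ) ℚ (2 * ε))

variable {N : ℕ} {α : Fin (N + 1) → ℂ} (G : Geo α)

namespace Geo

/-- the region touching the root number `m` -/
def S (m : Fin (N + 1)) : Set ℂ :=
  {T | (m ≠ 0 → G.p (α m) < G.p T) ∧ (m ≠ Fin.last N → G.q (α m) < G.q T)}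

include G in
lemma inj : Function.Injective α := fun _ _ h => G.mp.injective (by simp [h])

lemma d_ne : G.d ≠ 0 := fun h => by simpa [h] using G.pd

lemma isOpen_S (m : Fin (N + 1)) : IsOpen (G.S m) := by
  have h : ∀ (P : Prop) (ℓ : ℂ →L[ℝ] ℝ) (c : ℝ), IsOpen {T | P → c < ℓ T} := fun P ℓ c => by
    by_cases h : P
    · simpa [h, HP] using isOpen_HP ℓ c
    · simp [h]
  exact (h _ _ _).inter (h _ _ _)

lemma convex_S (m : Fin (N + 1)) : Convex ℝ (G.S m) := by
  intro x hx y hy a b ha hb hab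
  exact ⟨fun h => convex_HP G.p _ (hx.1 h) (hy.1 h) ha hb hab,
    fun h => convex_HP G.q _ (hx.2 h) (hy.2 h) ha hb hab⟩

lemma S_add {m : Fin (N + 1)} {T : ℂ} (h : T ∈ G.S m) {t : ℝ} (ht : 0 ≤ t) : T + t * G.d ∈ G.S m := by
  have h1 := mul_nonneg ht G.pd.le
  have h2 := mul_nonneg ht G.qd.le
  exact ⟨fun h' => by rw [map_ray]; linarith [h.1 h'], fun h' => by rw [map_ray]; linarith [h.2 h']⟩

lemma S_ray (m : Fin (N + 1)) {t : ℝ} (ht : 0 < t) : α m + t * G.d ∈ G.S m := by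
  have h1 := mul_pos ht G.pd
  have h2 := mul_pos ht G.qd
  exact ⟨fun _ => by rw [map_ray]; linarith, fun _ => by rw [map_ray]; linarith⟩

lemma S_up (c : ℂ) : ∀ᶠ t : ℝ in atTop, ∀ m, c + t * G.d ∈ G.S m := by
  refine eventually_all.2 fun m => ?_
  filter_upwards [(tendsto_id.atTop_mul_const G.pd).eventually_gt_atTop (G.p (α m) - G.p c),
    (tendsto_id.atTop_mul_const G.qd).eventually_gt_atTop (G.q (α m) - G.q c)] with t h1 h2
  simp only [id] at h1 h2
  exact ⟨fun _ => by rw [map_ray]; linarith, fun _ => by rw [map_ray]; linarith⟩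

lemma S_right (c : ℂ) : ∀ᶠ t : ℝ in atTop, c + t ∈ G.S (Fin.last N) := by
  filter_upwards [(tendsto_id.atTop_mul_const G.p1).eventually_gt_atTop
    (G.p (α (Fin.last N)) - G.p c)] with t h1
  simp only [id] at h1
  exact ⟨fun _ => by rw [map_add, map_real]; linarith, fun h => absurd rfl h⟩

lemma S_left (c : ℂ) : ∀ᶠ t : ℝ in atTop, c - t ∈ G.S 0 := by
  filter_upwards [(tendsto_id.atTop_mul_const (neg_pos.2 G.q1)).eventually_gt_atTop
    (G.q (α 0) - G.q c)] with t h1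
  simp only [id] at h1
  exact ⟨fun h => absurd rfl h, fun _ => by rw [map_sub, map_real]; linarith⟩

variable (hN : 0 < N)
include hN

lemma S_pos {m : Fin (N + 1)} {T : ℂ} (h : T ∈ G.S m) :
    0 < G.p (T - α m) ∨ 0 < G.q (T - α m) := by
  rw [map_sub, map_sub, sub_pos, sub_pos]
  by_cases h0 : m = 0
  · exact Or.inr (h.2 (by rw [h0]; exact fun h => by simp [Fin.ext_iff] at h; omega))
  · exact Or.inl (h.1 h0)

lemma S_ne {m : Fin (N + 1)} : ∀ T ∈ G.S m, ∀ k, T ≠ α k := by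
  rintro _ h k rfl
  rcases lt_trichotomy k m with h1 | rfl | h1
  · exact (G.mp h1).not_gt (h.1 (Fin.pos_iff_ne_zero.1 (lt_of_le_of_lt (Fin.zero_le _) h1)))
  · simpa using G.S_pos hN h
  · exact (G.mq h1).not_gt (h.2 (lt_of_lt_of_le h1 (Fin.le_last _)).ne)

lemma S_last : G.S (Fin.last N) = HP G.p (G.p (α (Fin.last N))) := by
  ext T
  have : Fin.last N ≠ 0 := fun h => by simp [Fin.ext_iff] at h; omega
  simp [S, HP, this]

lemma local_form {m : Fin (N + 1)} {Y : ℂ → Matrix (Fin (N + 1)) (Fin (N + 1)) ℂ}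
    (hY : Sol α (G.S m) Y) : ∃ (Z : ℂ → Matrix (Fin (N + 1)) (Fin (N + 1)) ℂ) (C₀ : Matrix _ _ ℂ),
      Z 0 = 1 ∧ (∀ a b, AnalyticAt ℂ (fun η => Z η a b) 0) ∧ ∀ᶠ t : ℝ in 𝓝[>] 0,
        Y (α m + t * G.d) = Z (t * G.d) * (1 + (Real.log t : ℂ) • Em α m) * C₀ := by
  obtain ⟨r, hr, Z, hZ0, hZ, hM⟩ := frob G.inj m G.d
  set O := G.S m ∩ Metric.ball (α m) r
  have hM' := hM.mono (O' := O) fun T hT => ⟨by simpa [dist_eq_norm] using hT.2,
    (G.S_pos hN hT.1).elim (slit_of_pos G.pd) (slit_of_pos G.qd)⟩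
  have hO : ∀ᶠ t : ℝ in 𝓝[>] 0, α m + t * G.d ∈ O := by
    filter_upwards [self_mem_nhdsWithin, (tendsto_ray (α m) G.d).eventually
      (Metric.ball_mem_nhds _ hr)] with t h1 h2 using ⟨G.S_ray m h1, h2⟩
  have hc : ContinuousAt (fun η => (Z η).det) 0 :=
    (continuous_id.matrix_det.continuousAt).comp
      (continuousAt_pi.2 fun a => continuousAt_pi.2 fun b => (hZ a b).continuousAt)
  have hd := (by simpa using tendsto_ray 0 G.d : Tendsto (fun t : ℝ => t * G.d) _ _).eventually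
    (hc.eventually_ne (y := 0) (by simp [hZ0]))
  obtain ⟨t₁, h1, h2⟩ := (hO.and hd).exists
  set M := fun T => Z (T - α m) * (1 + Complex.log ((T - α m) / G.d) • Em α m)
  have hdet : IsUnit (M (α m + t₁ * G.d)).det := by
    simp only [M, Matrix.det_mul, add_sub_cancel_left]
    refine h2.isUnit.mul (Matrix.isUnit_det_of_right_inverse
      (B := 1 - Complex.log (t₁ * G.d / G.d) • Em α m) ?_)
    simp [Matrix.mul_sub, Matrix.add_mul, Em_sq]
  have h3 := ((hY.mono Set.inter_subset_left).sub (hM'.mul_const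
    ((M (α m + t₁ * G.d))⁻¹ * Y (α m + t₁ * G.d)))).eq_zero
    ((G.isOpen_S m).inter Metric.isOpen_ball)
    ((G.convex_S m).inter (convex_ball _ _)).isPreconnected (fun T hT => G.S_ne hN T hT.1) h1
    (sub_eq_zero.2 (Matrix.mul_nonsing_inv_cancel_left _ _ hdet).symm)
  refine ⟨Z, (M (α m + t₁ * G.d))⁻¹ * Y (α m + t₁ * G.d), hZ0, hZ, ?_⟩
  filter_upwards [hO, self_mem_nhdsWithin] with t h4 h5
  have := sub_eq_zero.1 (h3 _ h4)
  rwa [show M (α m + t * G.d) = Z (_ - _) * (1 + Complex.log ((_ - _) / G.d) • Em α m) from rfl,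
    add_sub_cancel_left, mul_div_cancel_right₀ _ G.d_ne, ← Complex.ofReal_log (le_of_lt h5)]
    at this

end Geo

section Local
variable {m : Fin (N + 1)} {d : ℂ} {Y : ℝ → Matrix (Fin (N + 1)) (Fin (N + 1)) ℂ}
  {Z : ℂ → Matrix (Fin (N + 1)) (Fin (N + 1)) ℂ} {C₀ : Matrix (Fin (N + 1)) (Fin (N + 1)) ℂ}
  (h0 : Z 0 = 1) (hZ : ∀ a b, AnalyticAt ℂ (fun η => Z η a b) 0)
  (hY : ∀ᶠ t : ℝ in 𝓝[>] 0, Y t = Z (t * d) * (1 + (Real.log t : ℂ) • Em α m) * C₀)

include hY in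
lemma loc_vec (x : Fin (N + 1) → ℂ) : ∀ᶠ t : ℝ in 𝓝[>] 0, Y t *ᵥ x = Z (t * d) *ᵥ (C₀ *ᵥ x) +
    ((Real.log t : ℂ) * (lamV α m ⬝ᵥ C₀ *ᵥ x)) • Z (t * d) *ᵥ vV α m := by
  filter_upwards [hY] with t ht
  rw [ht, ← mulVec_mulVec, ← mulVec_mulVec, add_mulVec, one_mulVec, smul_mulVec, Em_mulVec,
    mulVec_add, smul_smul, mulVec_smul]

include h0 hZ

lemma loc_Z (x : Fin (N + 1) → ℂ) : Tendsto (fun t : ℝ => Z (t * d) *ᵥ x) (𝓝[>] 0) (𝓝 x) := by
  have hc : ContinuousAt (fun η => Z η *ᵥ x) 0 :=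
    ((continuous_id.matrix_mulVec continuous_const).continuousAt).comp
      (continuousAt_pi.2 fun a => continuousAt_pi.2 fun b => (hZ a b).continuousAt)
  have := hc.tendsto.comp (by simpa using tendsto_ray 0 d : Tendsto (fun t : ℝ => t * d) _ _)
  simpa [h0, Function.comp_def] using this

include hY

lemma loc_lim {x y : Fin (N + 1) → ℂ} (h : Tendsto (fun t => Y t *ᵥ x) (𝓝[>] 0) (𝓝 y)) :
    lamV α m ⬝ᵥ C₀ *ᵥ x = 0 ∧ C₀ *ᵥ x = y := by
  have h1 : lamV α m ⬝ᵥ C₀ *ᵥ x = 0 := by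
    by_contra h1
    have h2 := (tendsto_pi_nhds.1 (h.sub (loc_Z h0 hZ (d := d) (C₀ *ᵥ x))) 0).div
      ((tendsto_pi_nhds.1 (loc_Z h0 hZ (d := d) (vV α m)) 0).const_mul (lamV α m ⬝ᵥ C₀ *ᵥ x))
      (by simpa [vV] using h1)
    refine not_tendsto_atTop_of_tendsto_nhds (h2.congr' ?_).norm tendsto_norm_log
    filter_upwards [loc_vec hY x, (tendsto_pi_nhds.1 (loc_Z h0 hZ (d := d) (vV α m))
      0).eventually_ne (b₂ := 0) (by simp [vV])] with t h3 h4
    simp only [h3, Pi.div_apply, add_sub_cancel_left, Pi.smul_apply, smul_eq_mul]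
    field_simp
  refine ⟨h1, tendsto_nhds_unique ((loc_Z h0 hZ (d := d) _).congr' ?_) h⟩
  filter_upwards [loc_vec hY x] with t ht
  simp [ht, h1]

lemma loc_lam (x : Fin (N + 1) → ℂ) :
    Tendsto (fun t => lamV α m ⬝ᵥ Y t *ᵥ x) (𝓝[>] 0) (𝓝 (lamV α m ⬝ᵥ C₀ *ᵥ x)) := by
  have h1 := log_mul_tendsto (g := fun η => lamV α m ⬝ᵥ Z η *ᵥ vV α m) (by
    simp only [dotProduct, mulVec]
    exact DifferentiableAt.fun_sum fun a _ => DifferentiableAt.const_mul
      (DifferentiableAt.fun_sum fun b _ => (hZ a b).differentiableAt.mul_const _) _)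
    (by simp [h0, lam_dot_v]) d 1
  have h2 := ((continuous_const (y := lamV α m)).dotProduct continuous_id).continuousAt.tendsto.comp
    (loc_Z h0 hZ (d := d) (C₀ *ᵥ x))
  have h3 := h2.add (h1.mul_const (lamV α m ⬝ᵥ C₀ *ᵥ x))
  rw [zero_mul, add_zero] at h3
  refine h3.congr' ?_
  filter_upwards [loc_vec hY x] with t ht
  simp only [ht, Function.comp, id, dotProduct_add, dotProduct_smul, smul_eq_mul]
  ring

lemma loc_pair (hα : Function.Injective α) {C : Matrix (Fin (N + 1)) (Fin (N + 1)) ℂ}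
    (hC : ∀ᶠ t : ℝ in 𝓝[>] 0, (Y t)ᵀ * Kt α (α m + t * d) * Y t = C) {γ : ℂ} {e : Fin (N + 1) → ℂ}
    (he : C₀ *ᵥ e = γ • vV α m) (x : Fin (N + 1) → ℂ) :
    x ⬝ᵥ C *ᵥ e = γ * pi1 α m * (lamV α m ⬝ᵥ C₀ *ᵥ x) := by
  have hK : Continuous (Kt α) := by
    rw [show Kt α = fun T => Kt α 0 + T • (Kt α 1 - Kt α 0) from funext (Kt_lin α)]
    fun_prop
  have h1 : Continuous fun z : (Fin (N + 1) → ℂ) × ℂ × (Fin (N + 1) → ℂ) =>
      γ * (z.1 ⬝ᵥ Kt α z.2.1 *ᵥ z.2.2) := continuous_const.mul (continuous_fst.dotProduct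
    ((hK.comp continuous_snd.fst).matrix_mulVec continuous_snd.snd))
  have h2 := (h1.tendsto _).comp ((loc_Z h0 hZ (d := d) (C₀ *ᵥ x)).prodMk_nhds
    ((tendsto_ray (α m) d).prodMk_nhds (loc_Z h0 hZ (d := d) (vV α m))))
  rw [Kt_mulVec hα, dotProduct_smul, dotProduct_comm, smul_eq_mul, ← mul_assoc] at h2
  refine tendsto_nhds_unique (tendsto_const_nhds.congr' ?_) h2
  filter_upwards [hC, loc_vec hY x, loc_vec hY e] with t h3 h4 h5
  rw [he, dotProduct_smul, lam_dot_v, smul_zero, mul_zero, zero_smul, add_zero, mulVec_smul] at h5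
  rw [← h3, ← mulVec_mulVec, ← mulVec_mulVec, dotProduct_mulVec, vecMul_transpose, h4, h5,
    mulVec_smul, dotProduct_smul, add_dotProduct, smul_dotProduct]
  have h6 : ∀ y, y ⬝ᵥ Kt α (α m + t * d) *ᵥ y = 0 := fun y => by
    have : y ⬝ᵥ Kt α (α m + t * d) *ᵥ y = -(y ⬝ᵥ Kt α (α m + t * d) *ᵥ y) := by
      conv_lhs => rw [dotProduct_mulVec, ← mulVec_transpose, Kt_transpose, neg_mulVec,
        neg_dotProduct, dotProduct_comm]
    linear_combination this / 2
  rw [h6, smul_zero, add_zero]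
  rfl

end Local

end Pool.Agent.GPC

end MrgPart0

-- ======== part 1: formerly Pool.Agent.MP_cbf1af_ag.h26.Sp
section MrgPart1

/-! The symplectic group is generated by transvections; density and irreducibility. -/

namespace Pool.Agent.GPC
open Matrix Filter Topology

variable {m : Type*} [Fintype m] [DecidableEq m]

/-- isometries of the form `J` -/
def SpS (J : Matrix m m ℂ) : Set (Matrix m m ℂ) := {g | gᵀ * J * g = J}

/-- transvection -/
def tv (J : Matrix m m ℂ) (σ : ℂ) (v : m → ℂ) : Matrix m m ℂ := 1 + σ • vecMulVec v (J *ᵥ v)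

variable {J : Matrix m m ℂ}

lemma one_mem_SpS : (1 : Matrix m m ℂ) ∈ SpS J := by simp [SpS]

omit [DecidableEq m] in
lemma mul_mem_SpS {g h : Matrix m m ℂ} (hg : g ∈ SpS J) (hh : h ∈ SpS J) : g * h ∈ SpS J := by
  change (g * h)ᵀ * J * (g * h) = J
  rw [transpose_mul, show hᵀ * gᵀ * J * (g * h) = hᵀ * (gᵀ * J * g) * h by
    simp only [Matrix.mul_assoc], hg, hh]

omit [DecidableEq m] in
lemma om_inv {g : Matrix m m ℂ} (hg : g ∈ SpS J) (x y : m → ℂ) :
    (g *ᵥ x) ⬝ᵥ J *ᵥ (g *ᵥ y) = x ⬝ᵥ J *ᵥ y := by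
  conv_rhs => rw [← hg]
  rw [← mulVec_mulVec, ← mulVec_mulVec, dotProduct_mulVec x, vecMul_transpose]

lemma tv_mulVec (σ : ℂ) (v x : m → ℂ) : tv J σ v *ᵥ x = x + (σ * (x ⬝ᵥ J *ᵥ v)) • v := by
  rw [tv, add_mulVec, one_mulVec, smul_mulVec, vecMulVec_mulVec, dotProduct_comm]
  simp [smul_smul]

lemma det_ne_of_mem (hd : J.det ≠ 0) {g : Matrix m m ℂ} (hg : g ∈ SpS J) : g.det ≠ 0 := by
  intro h
  have := congrArg det (show gᵀ * J * g = J from hg)
  rw [det_mul, h, mul_zero] at this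
  exact hd this.symm

lemma tv_conj {g : Matrix m m ℂ} (hg : g ∈ SpS J) (σ : ℂ) (v : m → ℂ) :
    tv J σ (g *ᵥ v) * g = g * tv J σ v := by
  simp only [tv, Matrix.add_mul, Matrix.mul_add, Matrix.one_mul, Matrix.mul_one, Matrix.smul_mul,
    Matrix.mul_smul, vecMulVec_mul, mul_vecMulVec]
  congr 3
  rw [← mulVec_transpose, mulVec_mulVec, mulVec_mulVec, hg]

lemma tv_smul (σ a : ℂ) (v : m → ℂ) : tv J σ (a • v) = tv J (σ * a ^ 2) v := by
  simp only [tv, mulVec_smul, smul_vecMulVec, vecMulVec_smul, smul_smul]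
  congr 2; ring

variable (hJ : Jᵀ = -J)
include hJ

omit [DecidableEq m] in
lemma om_swap (x y : m → ℂ) : x ⬝ᵥ J *ᵥ y = -(y ⬝ᵥ J *ᵥ x) := by
  rw [dotProduct_mulVec, ← mulVec_transpose, hJ, neg_mulVec, neg_dotProduct, dotProduct_comm]

omit [DecidableEq m] in
lemma om_self (x : m → ℂ) : x ⬝ᵥ J *ᵥ x = 0 := by
  have := om_swap hJ x x
  linear_combination this / 2

lemma tv_mul (σ τ : ℂ) (v : m → ℂ) : tv J σ v * tv J τ v = tv J (σ + τ) v := by
  simp only [tv, Matrix.add_mul, Matrix.mul_add, Matrix.one_mul, Matrix.mul_one, Matrix.smul_mul,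
    Matrix.mul_smul, vecMulVec_mul_vecMulVec, dotProduct_comm (J *ᵥ v), om_self hJ, add_smul]
  simp [add_assoc]

lemma tv_neg_mul (σ : ℂ) (v : m → ℂ) : tv J (-σ) v * tv J σ v = 1 := by
  rw [tv_mul hJ]; simp [tv]

lemma tv_mem (σ : ℂ) (v : m → ℂ) : tv J σ v ∈ SpS J := by
  change (tv J σ v)ᵀ * J * tv J σ v = J
  have h1 : (tv J σ v)ᵀ * J = J * tv J (-σ) v := by
    simp only [tv, transpose_add, transpose_one, transpose_smul, transpose_vecMulVec,
      Matrix.add_mul, Matrix.mul_add, Matrix.one_mul, Matrix.mul_one, Matrix.smul_mul,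
      Matrix.mul_smul, vecMulVec_mul, mul_vecMulVec, ← mulVec_transpose, hJ, neg_mulVec]
    simp
  rw [h1, Matrix.mul_assoc, tv_neg_mul hJ, Matrix.mul_one]

theorem sp_gen (hd : J.det ≠ 0) {P : Set (Matrix m m ℂ)} (h1 : (1 : Matrix m m ℂ) ∈ P)
    (hP : ∀ g ∈ P, ∀ σ v, tv J σ v * g ∈ P) : SpS J ⊆ P := by
  set Fx : Matrix m m ℂ → Submodule ℂ (m → ℂ) := fun g => LinearMap.ker (Matrix.toLin' (g - 1))
  have hFx : ∀ g x, x ∈ Fx g ↔ g *ᵥ x = x := fun g x => by
    simp [Fx, sub_eq_zero]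
  have back : ∀ g σ v, tv J σ v * g ∈ P → g ∈ P := by
    intro g σ v h
    have := hP _ h (-σ) v
    rwa [← Matrix.mul_assoc, tv_neg_mul hJ, Matrix.one_mul] at this
  have stepA : ∀ g ∈ SpS J, ∀ v, (g *ᵥ v) ⬝ᵥ J *ᵥ v ≠ 0 → ∃ σ u, Fx g < Fx (tv J σ u * g) := by
    intro g hg v hv
    refine ⟨((g *ᵥ v) ⬝ᵥ J *ᵥ v)⁻¹, g *ᵥ v - v, lt_of_le_of_ne (fun w hw => ?_) fun h => hv ?_⟩
    · rw [hFx] at hw ⊢
      have := om_inv hg w v
      rw [hw] at this
      rw [← mulVec_mulVec, hw, tv_mulVec, mulVec_sub, dotProduct_sub, this]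
      simp
    · have : v ∈ Fx g := by
        rw [h, hFx, ← mulVec_mulVec, tv_mulVec, mulVec_sub, dotProduct_sub, om_self hJ, zero_sub,
          mul_neg, inv_mul_cancel₀ hv]
        simp
      rw [(hFx _ _).1 this, om_self hJ]
  have stepB : ∀ g ∈ SpS J, Fx g < ⊤ → (∀ v, (g *ᵥ v) ⬝ᵥ J *ᵥ v = 0) →
      ∃ u v, Fx g ≤ Fx (tv J 1 u * g) ∧ ((tv J 1 u * g) *ᵥ v) ⬝ᵥ J *ᵥ v ≠ 0 := by
    intro g hg hlt h0
    obtain ⟨φ, hφ0, hφ⟩ := Submodule.exists_le_ker_of_lt_top _ hlt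
    set u := J⁻¹ *ᵥ fun i => φ (Pi.single i 1)
    have hu : ∀ x, x ⬝ᵥ J *ᵥ u = φ x := by
      intro x
      rw [mulVec_mulVec, Matrix.mul_nonsing_inv _ hd.isUnit, one_mulVec,
        LinearMap.pi_apply_eq_sum_univ φ x]
      refine Finset.sum_congr rfl fun i _ => ?_
      rw [smul_eq_mul]
      refine congrArg (fun y => x i * φ y) ?_
      funext j
      simp [Pi.single_apply, eq_comm]
    obtain ⟨v₂, hv₂⟩ : ∃ v, φ v ≠ 0 := by
      by_contra h
      push Not at h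
      exact hφ0 (LinearMap.ext h)
    have hv₁ : φ (g *ᵥ (g⁻¹ *ᵥ v₂)) ≠ 0 := by
      rwa [mulVec_mulVec, Matrix.mul_nonsing_inv _ (det_ne_of_mem hd hg).isUnit, one_mulVec]
    obtain ⟨v, hv, hv'⟩ : ∃ v, φ (g *ᵥ v) ≠ 0 ∧ φ v ≠ 0 := by
      by_cases h2 : φ (g *ᵥ v₂) = 0
      · by_cases h3 : φ (g⁻¹ *ᵥ v₂) = 0
        · exact ⟨g⁻¹ *ᵥ v₂ + v₂, by rwa [mulVec_add, map_add, h2, add_zero],
            by rwa [map_add, h3, zero_add]⟩
        · exact ⟨_, hv₁, h3⟩
      · exact ⟨v₂, h2, hv₂⟩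
    refine ⟨u, v, fun w hw => ?_, ?_⟩
    · have h2 : φ w = 0 := hφ hw
      rw [hFx] at hw ⊢
      rw [← mulVec_mulVec, hw, tv_mulVec, hu, h2]
      simp
    · rw [← mulVec_mulVec, tv_mulVec, add_dotProduct, h0, smul_dotProduct, om_swap hJ u, hu, hu]
      simp [hv, hv']
  have main : ∀ k, ∀ g ∈ SpS J, Fintype.card m ≤ Module.finrank ℂ (Fx g) + k → g ∈ P := by
    intro k
    induction k with
    | zero =>
      intro g _ h
      have : Fx g = ⊤ := Submodule.eq_top_of_finrank_eq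
        (le_antisymm (Submodule.finrank_le _) (by simpa using h))
      have h2 : g = 1 := Matrix.ext_of_mulVec_single fun i => by
        rw [(hFx _ _).1 (this ▸ Submodule.mem_top), one_mulVec]
      rwa [h2]
    | succ k ih =>
      intro g hg h
      have key : ∀ g' ∈ SpS J, Fx g ≤ Fx g' → ∀ v, (g' *ᵥ v) ⬝ᵥ J *ᵥ v ≠ 0 → g' ∈ P := by
        intro g' hg' hle v hv
        obtain ⟨σ, u, hlt⟩ := stepA g' hg' v hv
        refine back _ σ u (ih _ (mul_mem_SpS (tv_mem hJ _ _) hg') ?_)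
        have := Submodule.finrank_lt_finrank_of_lt (lt_of_le_of_lt hle hlt)
        omega
      by_cases h0 : ∀ v, (g *ᵥ v) ⬝ᵥ J *ᵥ v = 0
      · by_cases htop : Fx g = ⊤
        · exact ih g hg (by rw [htop]; simp)
        obtain ⟨u, v, h2, h3⟩ := stepB g hg (lt_top_iff_ne_top.2 htop) h0
        exact back _ 1 u (key _ (mul_mem_SpS (tv_mem hJ _ _) hg) h2 v h3)
      · push Not at h0
        obtain ⟨v, hv⟩ := h0
        exact key g hg le_rfl v hv
  exact fun g hg => main _ g hg (Nat.le_add_left _ _)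

theorem sp_sub_closed (hd : J.det ≠ 0) (hoff : ∀ k l, k ≠ l → J k l ≠ 0) {G : Set (Matrix m m ℂ)}
    (hc : IsClosed G) (h1 : (1 : Matrix m m ℂ) ∈ G) (hmul : ∀ g ∈ G, ∀ h ∈ G, g * h ∈ G)
    (he : ∀ k σ, tv J σ (Pi.single k 1) ∈ G) : SpS J ⊆ G := by
  have hconj : ∀ u v, (∀ σ, tv J σ u ∈ G) → (∀ σ, tv J σ v ∈ G) → v ⬝ᵥ J *ᵥ u ≠ 0 →
      ∀ a σ : ℂ, tv J σ (v + a • u) ∈ G := by
    intro u v hu hv hne a σ
    have h2 := tv_conj (tv_mem hJ (a / (v ⬝ᵥ J *ᵥ u)) u) σ v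
    rw [tv_mulVec, div_mul_cancel₀ _ hne] at h2
    have h3 := hmul _ (hmul _ (hu (a / (v ⬝ᵥ J *ᵥ u))) _ (hv σ)) _ (hu (-(a / (v ⬝ᵥ J *ᵥ u))))
    rwa [← h2, Matrix.mul_assoc, tv_mul hJ, add_neg_cancel,
      show tv J 0 u = 1 by simp [tv], Matrix.mul_one] at h3
  have hall : ∀ s : Finset m, ∀ v : m → ℂ, (∀ i ∉ s, v i = 0) → ∀ σ, tv J σ v ∈ G := by
    intro s
    induction s using Finset.induction_on with
    | empty =>
      intro v hv σ
      have : v = 0 := funext fun i => hv i (by simp)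
      simpa [this, tv] using h1
    | insert k s hk ih =>
      intro v hv σ
      set w := Function.update v k 0
      have hw : ∀ i ∉ s, w i = 0 := by
        intro i hi
        by_cases h : i = k
        · simp [w, h]
        · rw [show w i = v i from Function.update_of_ne h _ _]
          exact hv i (by simp [h, hi])
      have hvw : v = w + v k • Pi.single k 1 := by
        funext i
        by_cases h : i = k
        · simp [w, h]
        · simp [w, h]
      by_cases h0 : w ⬝ᵥ J *ᵥ Pi.single k 1 ≠ 0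
      · rw [hvw]; exact hconj _ _ (he k) (ih w hw) h0 _ _
      push Not at h0
      rcases s.eq_empty_or_nonempty with rfl | ⟨j, hj⟩
      · have : w = 0 := funext fun i => hw i (by simp)
        rw [hvw, this, zero_add, tv_smul]
        exact he k _
      have hjk : j ≠ k := fun h => hk (h ▸ hj)
      have h2 : ∀ c : ℂ, c ≠ 0 → tv J σ (w + c • Pi.single j 1 + v k • Pi.single k 1) ∈ G := by
        intro c hc0
        refine hconj _ _ (he k) (ih _ fun i hi => ?_) ?_ _ _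
        · have : i ≠ j := fun h => hi (h ▸ hj)
          simp [hw i hi, this]
        · rw [add_dotProduct, h0, zero_add, smul_dotProduct]
          simpa [hc0] using hoff j k hjk
      have h3 : Continuous fun c : ℂ =>
          tv J σ (w + c • Pi.single j 1 + v k • Pi.single k 1) := by
        unfold tv
        refine continuous_const.add (Continuous.const_smul ?_ σ)
        refine continuous_matrix fun a b => ?_
        simp only [vecMulVec_apply, mulVec, dotProduct]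
        fun_prop
      have h4 := hc.mem_of_tendsto (b := 𝓝[≠] 0)
        ((h3.tendsto 0).mono_left nhdsWithin_le_nhds)
        (eventually_nhdsWithin_of_forall fun c hc => h2 c hc)
      rwa [zero_smul, add_zero, ← hvw] at h4
  exact sp_gen hJ hd h1 fun g hg σ v => hmul _ (hall Finset.univ v (by simp) σ) _ hg

omit hJ in
lemma differentiable_eval {σ : Type*} {y : σ → ℂ → ℂ} (hy : ∀ v, Differentiable ℂ (y v))
    (Q : MvPolynomial σ ℂ) : Differentiable ℂ fun z => MvPolynomial.eval (fun v => y v z) Q := by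
  induction Q using MvPolynomial.induction_on with
  | C c => simp
  | add p q hp hq => simpa using hp.fun_add hq
  | mul_X p v hp => simpa using hp.fun_mul (hy v)

theorem sp_domain (hd : J.det ≠ 0) (A B : Matrix m m ℂ) (P Q : MvPolynomial (m × m) ℂ)
    (h : ∀ g ∈ SpS J, MvPolynomial.eval (fun v => (A * g * B) v.1 v.2) P *
      MvPolynomial.eval (fun v => (A * g * B) v.1 v.2) Q = 0) :
    (∀ g ∈ SpS J, MvPolynomial.eval (fun v => (A * g * B) v.1 v.2) P = 0) ∨
      ∀ g ∈ SpS J, MvPolynomial.eval (fun v => (A * g * B) v.1 v.2) Q = 0 := by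
  have hmul : ∀ γ γ' : ℂ → Matrix m m ℂ, (∀ a b, Differentiable ℂ fun z => γ z a b) →
      (∀ a b, Differentiable ℂ fun z => γ' z a b) →
      ∀ a b, Differentiable ℂ fun z => (γ z * γ' z) a b := by
    intro γ γ' h1 h2 a b
    simp only [Matrix.mul_apply]
    exact Differentiable.fun_sum fun e _ => (h1 a e).mul (h2 e b)
  have hcurve : SpS J ⊆ {g | ∃ γ : ℂ → Matrix m m ℂ, (∀ a b, Differentiable ℂ fun z => γ z a b) ∧
      γ 0 = 1 ∧ γ 1 = g ∧ ∀ z, γ z ∈ SpS J} := by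
    refine sp_gen hJ hd ⟨fun _ => 1, by simp, rfl, rfl, fun _ => one_mem_SpS⟩ ?_
    rintro g ⟨γ, h1, h2, h3, h4⟩ σ v
    refine ⟨fun z => tv J (z * σ) v * γ z, hmul _ _ (fun a b => ?_) h1, by simp [tv, h2],
      by simp [h3], fun z => mul_mem_SpS (tv_mem hJ _ _) (h4 z)⟩
    simp only [tv, Matrix.add_apply, Matrix.smul_apply, smul_eq_mul]
    fun_prop
  by_contra hcon
  push Not at hcon
  obtain ⟨⟨g₁, hg₁, h₁⟩, g₂, hg₂, h₂⟩ := hcon
  obtain ⟨γ₁, a1, a2, a3, a4⟩ := hcurve hg₁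
  obtain ⟨γ₂, b1, b2, b3, b4⟩ := hcurve hg₂
  set Γ : ℂ → Matrix m m ℂ := fun z => γ₁ (1 - z) * γ₂ z
  have hΓ : ∀ a b, Differentiable ℂ fun z => (A * Γ z * B) a b :=
    hmul _ _ (hmul _ _ (by simp) (hmul _ _ (fun a b => (a1 a b).comp (by fun_prop)) b1)) (by simp)
  have han : ∀ R : MvPolynomial (m × m) ℂ, AnalyticOnNhd ℂ
      (fun z => MvPolynomial.eval (fun v => (A * Γ z * B) v.1 v.2) R) Set.univ := fun R =>
    (differentiable_eval (fun v : m × m => hΓ v.1 v.2) R).differentiableOn.analyticOnNhd isOpen_univ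
  rcases (han P).eq_zero_or_eq_zero_of_mul_eq_zero (han Q)
    (fun z _ => h _ (mul_mem_SpS (a4 _) (b4 _))) isPreconnected_univ with h3 | h3
  · have := h3 0 trivial
    simp only [Γ, sub_zero, a3, b2, Matrix.mul_one] at this
    exact h₁ this
  · have := h3 1 trivial
    simp only [Γ, sub_self, a2, b3, Matrix.one_mul] at this
    exact h₂ this

end Pool.Agent.GPC

end MrgPart1

-- ======== part 2: formerly Pool.Agent.MP_cbf1af_ag.h26.Mono
section MrgPart2

/-! Monodromy: the invariant form and the invariance of polynomial relations. -/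

namespace Pool.Agent.GPC
open Filter Topology Matrix

/-- intersection matrix of the vanishing cycles -/
def Sg (R : Type*) [Ring R] (n : ℕ) : Matrix (Fin n) (Fin n) R :=
  Matrix.of fun k m => if k < m then 1 else if m < k then -1 else 0

lemma Sg_map {R R' : Type*} [Ring R] [Ring R'] (f : R →+* R') (n : ℕ) :
    (Sg R n).map f = Sg R' n := by
  ext k m
  simp only [Sg, Matrix.map_apply, Matrix.of_apply]
  split_ifs <;> simp

lemma Sg_transpose (R : Type*) [Ring R] (n : ℕ) : (Sg R n)ᵀ = -Sg R n := by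
  ext k m
  simp only [Sg, Matrix.transpose_apply, Matrix.of_apply, Matrix.neg_apply]
  rcases lt_trichotomy k m with h | rfl | h
  · simp [h, h.not_gt]
  · simp
  · simp [h, h.not_gt]

lemma Sg_det {n : ℕ} (hn : Even n) : (Sg ℂ n).det ≠ 0 := by
  have h1 : Sg (ZMod 2) n = 1 + Matrix.of fun _ _ => 1 := by
    ext k m
    simp only [Sg, Matrix.of_apply, Matrix.add_apply, Matrix.one_apply]
    rcases lt_trichotomy k m with h | rfl | h
    · simp [h, h.ne]
    · simp; rfl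
    · simp [h, h.not_gt, h.ne']
  have h2 : Sg (ZMod 2) n * Sg (ZMod 2) n = 1 := by
    rw [h1, add_mul, mul_add, mul_add, one_mul, one_mul, mul_one]
    ext k m
    have : (n : ZMod 2) = 0 := (ZMod.natCast_eq_zero_iff_even).2 hn
    simp only [mul_one, Matrix.add_apply, Matrix.mul_apply,
      Matrix.of_apply, Finset.sum_const, Finset.card_univ, Fintype.card_fin, nsmul_eq_mul, this]
    rw [add_zero, add_assoc, show (1 + 1 : ZMod 2) = 0 from rfl, add_zero]
  have h3 := (Matrix.isUnit_det_of_right_inverse h2).ne_zero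
  rw [← Sg_map (Int.castRingHom _), ← RingHom.mapMatrix_apply, ← RingHom.map_det] at h3 ⊢
  simp only [eq_intCast, ne_eq, Int.cast_eq_zero] at h3 ⊢
  exact fun h => h3 (by simp [h])

/-- functions analytic on a set -/
def anS (O : Set ℂ) : Subalgebra ℂ (ℂ → ℂ) where
  carrier := {f | AnalyticOnNhd ℂ f O}
  mul_mem' := fun h h' => AnalyticOnNhd.mul h h'
  add_mem' := fun h h' => AnalyticOnNhd.add h h'
  algebraMap_mem' := fun _ => analyticOnNhd_const

/-- polynomials in the second variable with coefficients analytic at the origin -/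
def logA : Subalgebra ℂ (ℂ × ℂ → ℂ) where
  carrier := {F | ∃ P : Polynomial (anS {0}), ∀ z, F z =
    P.eval₂ ((Pi.evalRingHom (fun _ => ℂ) z.1).comp (anS {0}).val.toRingHom) z.2}
  mul_mem' := by
    rintro _ _ ⟨P, hP⟩ ⟨Q, hQ⟩
    exact ⟨P * Q, fun z => by rw [Pi.mul_apply, hP, hQ, Polynomial.eval₂_mul]⟩
  add_mem' := by
    rintro _ _ ⟨P, hP⟩ ⟨Q, hQ⟩
    exact ⟨P + Q, fun z => by rw [Pi.add_apply, hP, hQ, Polynomial.eval₂_add]⟩
  algebraMap_mem' := fun c => ⟨Polynomial.C (algebraMap ℂ _ c), fun z => by simp⟩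

lemma an_mem_logA {c : ℂ → ℂ} (hc : AnalyticAt ℂ c 0) : (fun z : ℂ × ℂ => c z.1) ∈ logA :=
  ⟨Polynomial.C ⟨c, fun _ h => by rwa [Set.mem_singleton_iff.1 h]⟩, fun z => by simp⟩

lemma snd_mem_logA : (fun z : ℂ × ℂ => z.2) ∈ logA := ⟨Polynomial.X, fun z => by simp⟩

lemma logA_sep {F : ℂ × ℂ → ℂ} (hF : F ∈ logA) {d : ℂ} (hd : d ≠ 0)
    (h : ∀ᶠ t : ℝ in 𝓝[>] 0, F (t * d, Real.log t) = 0) : ∀ᶠ η in 𝓝 (0 : ℂ), ∀ z, F (η, z) = 0 := by
  obtain ⟨P, hP⟩ := hF
  simp only [hP, Polynomial.eval₂_eq_sum_range, Finset.sum_range] at h ⊢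
  filter_upwards [log_sep (c := fun j : Fin (P.natDegree + 1) => (P.coeff j).1)
    (fun j => (P.coeff j).2 0 rfl) hd h] with η hη z
  exact Finset.sum_eq_zero fun j _ => mul_eq_zero_of_left (hη j) _

/-- polynomial functions of a number and of several matrices -/
def PP (ι : Type*) (n : ℕ) : Subalgebra ℂ (ℂ × (ι → Matrix (Fin n) (Fin n) ℂ) → ℂ) :=
  Algebra.adjoin ℂ (insert Prod.fst (Set.range fun v : ι × Fin n × Fin n =>
    fun x => x.2 v.1 v.2.1 v.2.2))

lemma PP_comp {ι X : Type*} {n : ℕ} {Φ : ℂ × (ι → Matrix (Fin n) (Fin n) ℂ) → ℂ} (hΦ : Φ ∈ PP ι n)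
    (A : Subalgebra ℂ (X → ℂ)) (ψ : X → ℂ) (W : X → ι → Matrix (Fin n) (Fin n) ℂ)
    (h₀ : ψ ∈ A) (h : ∀ j a b, (fun y => W y j a b) ∈ A) :
    (fun y => Φ (ψ y, W y)) ∈ A := by
  induction hΦ using Algebra.adjoin_induction with
  | mem x hx =>
    rcases hx with rfl | ⟨v, rfl⟩
    exacts [h₀, h _ _ _]
  | algebraMap r => exact A.algebraMap_mem r
  | add x y _ _ hx hy => exact A.add_mem hx hy
  | mul x y _ _ hx hy => exact A.mul_mem hx hy

lemma mul_entry_mem {X : Type*} {n : ℕ} (A : Subalgebra ℂ (X → ℂ))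
    {M M' : X → Matrix (Fin n) (Fin n) ℂ} (h : ∀ a b, (fun y => M y a b) ∈ A)
    (h' : ∀ a b, (fun y => M' y a b) ∈ A) (a b : Fin n) : (fun y => (M y * M' y) a b) ∈ A := by
  have : (fun y => (M y * M' y) a b) = ∑ e, (fun y => M y a e) * fun y => M' y e b := by
    funext y; simp [Matrix.mul_apply]
  rw [this]
  exact A.sum_mem fun e _ => A.mul_mem (h _ _) (h' _ _)

variable {N : ℕ} {α : Fin (N + 1) → ℂ}

/-- the properties of the period integrals which are used -/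
structure Per (G : Geo α) (Y : Fin (N + 1) → ℂ → Matrix (Fin (N + 1)) (Fin (N + 1)) ℂ) : Prop where
  sol : ∀ m, Sol α (G.S m) (Y m)
  eqU : ∀ T, (∀ m, T ∈ G.S m) → ∀ m l, Y m T = Y l T
  limJ : ∀ m, ∃ γ : ℂ, γ ≠ 0 ∧ Tendsto (fun t : ℝ => Y m (α m + t * G.d) *ᵥ Pi.single m 1) (𝓝[>] 0)
    (𝓝 (γ • vV α m))
  limI : ∀ m (k : Fin N), k.castSucc ≠ m → k.succ ≠ m → ∃ y, Tendsto (fun t : ℝ =>
    Y m (α m + t * G.d) *ᵥ (Pi.single k.castSucc 1 - Pi.single k.succ 1)) (𝓝[>] 0) (𝓝 y)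
  lim0 : ∀ k : Fin N, ∃ e : ℂ, e ≠ 0 ∧ Tendsto (fun t : ℝ => lamV α k.castSucc ⬝ᵥ
    Y k.castSucc (α k.castSucc + t * G.d) *ᵥ (Pi.single k.castSucc 1 - Pi.single k.succ 1))
    (𝓝[>] 0) (𝓝 e)

variable {G : Geo α} {Y : Fin (N + 1) → ℂ → Matrix (Fin (N + 1)) (Fin (N + 1)) ℂ}
  (hY : Per G Y) (hN : 0 < N)
include hY hN

lemma Per.loc {C : Matrix (Fin (N + 1)) (Fin (N + 1)) ℂ}
    (hC : ∀ m, ∀ T ∈ G.S m, (Y m T)ᵀ * Kt α T * Y m T = C) (m : Fin (N + 1)) :
    ∃ (Z : ℂ → Matrix (Fin (N + 1)) (Fin (N + 1)) ℂ) (C₀ : Matrix _ _ ℂ) (γ : ℂ), γ ≠ 0 ∧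
      Z 0 = 1 ∧ (∀ a b, AnalyticAt ℂ (fun η => Z η a b) 0) ∧ (∀ᶠ t : ℝ in 𝓝[>] 0,
        Y m (α m + t * G.d) = Z (t * G.d) * (1 + (Real.log t : ℂ) • Em α m) * C₀) ∧
      C₀ *ᵥ Pi.single m 1 = γ • vV α m ∧
      ∀ x, x ⬝ᵥ C *ᵥ Pi.single m 1 = γ * pi1 α m * (lamV α m ⬝ᵥ C₀ *ᵥ x) := by
  obtain ⟨Z, C₀, h0, hZ, h⟩ := G.local_form hN (hY.sol m)
  obtain ⟨γ, hγ, h1⟩ := hY.limJ m
  have h2 := (loc_lim h0 hZ h h1).2
  refine ⟨Z, C₀, γ, hγ, h0, hZ, h, h2, loc_pair h0 hZ h G.inj ?_ h2⟩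
  filter_upwards [self_mem_nhdsWithin] with t ht using hC m _ (G.S_ray m ht)

theorem Per.pair : ∃ s : ℂ, s ≠ 0 ∧
    ∀ m, ∀ T ∈ G.S m, (Y m T)ᵀ * Kt α T * Y m T = s • Sg ℂ (N + 1) := by
  obtain ⟨t₀, h₀⟩ := (G.S_up 0).exists
  set T₀ := 0 + t₀ * G.d
  set C := (Y 0 T₀)ᵀ * Kt α T₀ * Y 0 T₀
  have hC : ∀ m, ∀ T ∈ G.S m, (Y m T)ᵀ * Kt α T * Y m T = C := fun m T hT => by
    rw [(hY.sol m).pair_const G.inj (G.isOpen_S m) (G.convex_S m).isPreconnected (G.S_ne hN) hT
      (h₀ m), hY.eqU _ h₀ m 0]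
  have hanti : ∀ k m, C k m = -C m k := fun k m => by
    have : Cᵀ = -C := by simp [C, Matrix.transpose_mul, Kt_transpose, Matrix.mul_assoc]
    exact congrFun (congrFun this m) k
  have step : ∀ m (k : Fin N), k.castSucc ≠ m → k.succ ≠ m → C k.castSucc m = C k.succ m := by
    intro m k h1 h2
    obtain ⟨Z, C₀, γ, -, h0, hZ, h, -, h3⟩ := hY.loc hN hC m
    obtain ⟨y, hy⟩ := hY.limI m k h1 h2
    have := h3 (Pi.single k.castSucc 1 - Pi.single k.succ 1)
    rw [(loc_lim h0 hZ h hy).1] at this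
    simpa [sub_eq_zero] using this
  have chain : ∀ (m : Fin (N + 1)) (a : ℕ) (b : ℕ) (hab : a ≤ b) (hb : b < N + 1), (m < a ∨ b < m) →
      C ⟨a, by omega⟩ m = C ⟨b, hb⟩ m := by
    intro m a b hab
    induction b, hab using Nat.le_induction with
    | base => intros; rfl
    | succ b hab ih =>
      intro hb h
      rw [ih (by omega) (by omega)]
      exact step m ⟨b, by omega⟩ (fun h1 => by simp [Fin.ext_iff] at h1; omega)
        (fun h1 => by simp [Fin.ext_iff] at h1; omega)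
  have hup : ∀ k m, k < m → C k m = C 0 (Fin.last N) := fun k m h => by
    have h1 : (k : ℕ) < m := h
    rw [← chain m 0 k (Nat.zero_le _) k.2 (Or.inr h1), hanti,
      chain ⟨0, by omega⟩ m N (by omega) (by omega) (Or.inl (show 0 < (m : ℕ) by omega)), ← hanti]
    rfl
  have hS : C = C 0 (Fin.last N) • Sg ℂ (N + 1) := by
    ext k m
    simp only [Sg, Matrix.smul_apply, Matrix.of_apply, smul_eq_mul]
    rcases lt_trichotomy k m with h | rfl | h
    · simp [h, hup k m h]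
    · simp only [lt_irrefl, if_false, mul_zero]
      linear_combination hanti k k / 2
    · simp [h, h.not_gt, hanti k m, hup m k h]
  refine ⟨_, fun hs => ?_, fun m T hT => (hC m T hT).trans hS⟩
  obtain ⟨Z, C₀, γ, hγ, h0, hZ, h, -, h3⟩ := hY.loc hN hC (Fin.castSucc ⟨0, hN⟩)
  obtain ⟨e, he, h4⟩ := hY.lim0 ⟨0, hN⟩
  have h5 := h3 (Pi.single (Fin.castSucc ⟨0, hN⟩) 1 - Pi.single (Fin.succ ⟨0, hN⟩) 1)
  rw [tendsto_nhds_unique (loc_lam h0 hZ h _) h4, hS, hs, zero_smul, zero_mulVec,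
    dotProduct_zero] at h5
  exact mul_ne_zero (mul_ne_zero hγ (pi1_ne G.inj _)) he h5.symm

section Inv
variable {ι : Type*} [Fintype ι] [DecidableEq ι] {h : ι → ℝ}
  {Φ : ℂ × (ι → Matrix (Fin (N + 1)) (Fin (N + 1)) ℂ) → ℂ} (hΦ : Φ ∈ PP ι (N + 1))
include hΦ

omit hN [Fintype ι] [DecidableEq ι] in
lemma Per.an (sel : ι → Fin (N + 1)) (g : ι → Matrix (Fin (N + 1)) (Fin (N + 1)) ℂ) :
    AnalyticOnNhd ℂ (fun T => Φ (T, fun j => Y (sel j) (T + h j) * g j))
      {T : ℂ | ∀ j, T + h j ∈ G.S (sel j)} :=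
  PP_comp hΦ (anS _) _ _ analyticOnNhd_id fun j => mul_entry_mem _ (fun a b _ hT =>
    ((hY.sol _).analyticOnNhd (G.isOpen_S _) a b _ (hT j)).comp_of_eq
      (f := fun T : ℂ => T + h j) (analyticAt_id.add analyticAt_const) rfl)
      fun _ _ => analyticOnNhd_const

omit hY hN hΦ [Fintype ι] [DecidableEq ι] in
lemma conn_sel (sel : ι → Fin (N + 1)) : IsPreconnected {T : ℂ | ∀ j, T + h j ∈ G.S (sel j)} := by
  rw [Set.ofPred_forall]
  exact (convex_iInter fun j => (G.convex_S _).translate_preimage_left _).isPreconnected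

omit hN [DecidableEq ι] in
lemma Per.transfer {sel sel' : ι → Fin (N + 1)} {g : ι → Matrix (Fin (N + 1)) (Fin (N + 1)) ℂ}
    (H : ∀ T : ℂ, (∀ j, T + h j ∈ G.S (sel j)) → Φ (T, fun j => Y (sel j) (T + h j) * g j) = 0) :
    ∀ T : ℂ, (∀ j, T + h j ∈ G.S (sel' j)) → Φ (T, fun j => Y (sel' j) (T + h j) * g j) = 0 := by
  obtain ⟨a, ha⟩ := eventually_atTop.1 (eventually_all.2 fun j => G.S_up (h j))
  refine ray_zero (hY.an hΦ sel' g) (conn_sel sel') (c := 0) G.d_ne (lt_add_one a) fun t ht => ?_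
  have h1 := ha t ht.1.le
  simp only [add_comm (h _ : ℂ), zero_add] at h1 ⊢
  refine ⟨fun j => h1 j _, ?_⟩
  rw [← H _ fun j => h1 j _]
  simp only [fun j => hY.eqU _ (h1 j) (sel j) (sel' j)]

lemma Per.step {C : Matrix (Fin (N + 1)) (Fin (N + 1)) ℂ}
    (hC : ∀ m, ∀ T ∈ G.S m, (Y m T)ᵀ * Kt α T * Y m T = C) {L : ℝ} (hL0 : 0 < L)
    (hL : ∀ x ≥ L, ∀ m, α m + x ∈ G.S (Fin.last N) ∧ α m - x ∈ G.S 0)
    (hh : ∀ i j, i ≠ j → L ≤ |h i - h j|) (i : ι) (m : Fin (N + 1)) (σ : ℂ)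
    (g : ι → Matrix (Fin (N + 1)) (Fin (N + 1)) ℂ) (H : ∀ T : ℂ, (∀ j, T + h j ∈ G.S (Fin.last N)) →
      Φ (T, fun j => Y (Fin.last N) (T + h j) * g j) = 0) :
    ∀ T : ℂ, (∀ j, T + h j ∈ G.S (Fin.last N)) → Φ (T, fun j => Y (Fin.last N) (T + h j) *
      Function.update g i (tv C σ (Pi.single m 1) * g i) j) = 0 := by
  set sel : ι → Fin (N + 1) := fun j => if j = i then m else if h i < h j then Fin.last N else 0
  have H1 := hY.transfer hΦ (sel := fun _ => Fin.last N) (sel' := sel) H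
  refine hY.transfer hΦ (sel := sel) (sel' := fun _ => Fin.last N) ?_
  obtain ⟨Z, C₀, γ, hγ, -, hZ, h1, h2, h3⟩ := hY.loc hN hC m
  have hin : ∀ j ≠ i, α m - h i + h j ∈ G.S (sel j) := by
    intro j hj
    have h4 := hh j i hj
    simp only [sel, hj, if_false]
    split_ifs with h5
    · rw [abs_of_pos (by linarith)] at h4
      simpa [sub_add_eq_add_sub, add_sub_assoc] using (hL _ h4 m).1
    · rw [abs_of_nonpos (by linarith), neg_sub] at h4
      simpa [sub_add, sub_add_comm] using (hL _ h4 m).2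
  have hray : ∀ t : ℝ, 0 < t → ∀ j, α m - h i + t * G.d + h j ∈ G.S (sel j) := by
    intro t ht j
    by_cases hj : j = i
    · simpa [sel, hj, sub_add_eq_add_sub] using G.S_ray m ht
    · rw [add_right_comm]; exact G.S_add (hin j hj) ht.le
  set W : ℂ × ℂ → ι → Matrix (Fin (N + 1)) (Fin (N + 1)) ℂ := fun z j => if j = i then
    Z z.1 * (1 + z.2 • Em α m) * C₀ * g j else Y (sel j) (α m - h i + z.1 + h j) * g j
  have hF : (fun z : ℂ × ℂ => Φ (α m - h i + z.1, W z)) ∈ logA := by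
    refine PP_comp hΦ logA _ _ (an_mem_logA (c := fun η => α m - h i + η) (by fun_prop)) fun j => ?_
    have hc : ∀ (M : Matrix (Fin (N + 1)) (Fin (N + 1)) ℂ) a b, (fun _ : ℂ × ℂ => M a b) ∈ logA :=
      fun M a b => logA.algebraMap_mem _
    by_cases hj : j = i
    · simp only [W, hj, if_true]
      exact mul_entry_mem _ (mul_entry_mem _ (mul_entry_mem _ (fun a b => an_mem_logA (hZ a b))
        fun a b => logA.add_mem (hc _ a b) (logA.mul_mem snd_mem_logA (hc _ a b))) (hc _)) (hc _)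
    · simp only [W, hj, if_false]
      exact mul_entry_mem _ (fun a b => an_mem_logA (c := fun η => Y _ (α m - h i + η + h j) a b)
        (((hY.sol _).analyticOnNhd (G.isOpen_S _) a b _ (hin j hj)).comp_of_eq
          (f := fun η => α m - h i + η + h j) (by fun_prop) (by simp))) (hc _)
  have hadd : ∀ t : ℝ, α m - h i + t * G.d + h i = α m + t * G.d := fun t => by ring
  have h4 := logA_sep hF G.d_ne (by
    filter_upwards [h1, self_mem_nhdsWithin] with t h5 h6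
    rw [← H1 _ (hray t h6)]
    congr 2
    funext j
    by_cases hj : j = i
    · simp [W, sel, hj, hadd, h5]
    · simp [W, hj])
  have h5 : (1 + (σ * (γ ^ 2 * pi1 α m)) • Em α m) * C₀ = C₀ * tv C σ (Pi.single m 1) := by
    refine Matrix.toLin'.injective (LinearMap.ext fun x => ?_)
    rw [Matrix.toLin'_apply, Matrix.toLin'_apply, ← mulVec_mulVec, ← mulVec_mulVec, tv_mulVec,
      h3, mulVec_add, mulVec_smul, h2, add_mulVec, one_mulVec, smul_mulVec, Em_mulVec, smul_smul,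
      smul_smul]
    congr 2
    ring
  obtain ⟨u, hu, h6⟩ := mem_nhdsGT_iff_exists_Ioo_subset.1 (h1.and
    ((by simpa using tendsto_ray 0 G.d : Tendsto (fun t : ℝ => t * G.d) _ _).eventually h4))
  refine ray_zero (hY.an hΦ sel _) (conn_sel sel) (c := α m - h i) G.d_ne hu fun t ht =>
    ⟨hray t ht.1, ?_⟩
  rw [← (h6 ht).2 (Real.log t + σ * (γ ^ 2 * pi1 α m))]
  congr 2
  funext j
  by_cases hj : j = i
  · simp only [W, sel, hj, hadd, (h6 ht).1, if_true, Function.update_self, Matrix.mul_assoc]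
    rw [← Matrix.mul_assoc C₀, ← h5]
    congr 1
    simp only [← Matrix.mul_assoc]
    congr 2
    simp [Matrix.mul_add, Matrix.add_mul, Em_sq, add_smul, add_assoc]
  · simp [W, hj]

end Inv

theorem Per.invar (hN' : Odd N) {s : ℂ} (hs : s ≠ 0)
    (hC : ∀ m, ∀ T ∈ G.S m, (Y m T)ᵀ * Kt α T * Y m T = s • Sg ℂ (N + 1)) :
    ∃ L : ℕ, ∀ {ι : Type} [Fintype ι] (h : ι → ℝ), (∀ i j, i ≠ j → L ≤ |h i - h j|) →
      ∀ Φ ∈ PP ι (N + 1), (∀ᶠ τ : ℝ in atTop, Φ (τ, fun j => Y (Fin.last N) (τ + h j)) = 0) →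
      ∀ g : ι → Matrix (Fin (N + 1)) (Fin (N + 1)) ℂ, (∀ j, g j ∈ SpS (s • Sg ℂ (N + 1))) →
      ∀ T : ℂ, (∀ j, T + h j ∈ G.S (Fin.last N)) →
        Φ (T, fun j => Y (Fin.last N) (T + h j) * g j) = 0 := by
  obtain ⟨L, hL⟩ := eventually_atTop.1 ((eventually_all.2 fun m =>
    (G.S_right (α m)).and (G.S_left (α m))).and (eventually_gt_atTop 0))
  obtain ⟨L', hL'⟩ := exists_nat_ge L
  refine ⟨L', fun {ι} _ h hh Φ hΦ H g hg => ?_⟩
  classical
  set R : (ι → Matrix (Fin (N + 1)) (Fin (N + 1)) ℂ) → Prop := fun g => ∀ T : ℂ,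
    (∀ j, T + h j ∈ G.S (Fin.last N)) → Φ (T, fun j => Y (Fin.last N) (T + h j) * g j) = 0
  have h1 : R 1 := by
    obtain ⟨a, ha⟩ := eventually_atTop.1 (H.and (eventually_all.2 fun j => G.S_right (h j)))
    refine ray_zero (hY.an hΦ (fun _ => Fin.last N) 1) (conn_sel _) (c := 0) one_ne_zero
      (lt_add_one a) fun t ht => ?_
    exact ⟨fun j => by simpa [add_comm] using (ha t ht.1.le).2 j, by simpa using (ha t ht.1.le).1⟩
  have h2 : ∀ i, SpS (s • Sg ℂ (N + 1)) ⊆ {u | ∀ g, R g → R (Function.update g i (u * g i))} := by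
    intro i
    refine sp_sub_closed (by simp [Sg_transpose]) (by
      rw [Matrix.det_smul]; exact mul_ne_zero (pow_ne_zero _ hs) (Sg_det hN'.add_one))
      (fun k l hkl => ?_) ?_ (fun g hg => by simpa using hg) (fun u hu u' hu' g hg => ?_)
      fun m σ g hg => hY.step hN hΦ hC (hL L le_rfl).2 (fun x hx => (hL x hx).1)
        (fun i j hij => hL'.trans (hh i j hij)) i m σ g hg
    · simp only [Sg, Matrix.smul_apply, Matrix.of_apply, smul_eq_mul]
      rcases lt_or_gt_of_ne hkl with h3 | h3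
      · simpa [h3] using hs
      · simpa [h3, h3.not_gt] using hs
    · simp only [R, Set.ofPred_forall]
      refine isClosed_iInter fun g => isClosed_iInter fun _ => isClosed_iInter fun T =>
        isClosed_iInter fun _ => isClosed_eq (PP_comp hΦ continuousSubalgebra _ _
          (show Continuous _ from continuous_const) fun j a b => ?_) continuous_const
      show Continuous _
      refine Continuous.matrix_elem (continuous_const.matrix_mul ?_) a b
      by_cases hj : j = i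
      · simp only [hj, Function.update_self]; fun_prop
      · simp only [Function.update_of_ne hj]; fun_prop
    · simpa [Matrix.mul_assoc] using hu _ (hu' g hg)
  have h3 : ∀ F : Finset ι, R fun j => if j ∈ F then g j else 1 := by
    intro F
    induction F using Finset.induction_on with
    | empty => exact h1
    | insert i F hi ih =>
      have := h2 i (hg i) _ ih
      convert this using 2 with j
      by_cases hj : j = i
      · simp [hj, hi]
      · simp [hj]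
  simpa using h3 Finset.univ

end Pool.Agent.GPC

end MrgPart2

-- ======== part 3: formerly Pool.Agent.MP_cbf1af_ag.h26.Desc
section MrgPart3

/-! Descent of vanishing ideals and specialization of a transcendental multiplier. -/

namespace Pool.Agent.GPC
open MvPolynomial Module Matrix

lemma exists_repr {k K κ μ : Type*} [Field k] [Field K] [Algebra k K] [Fintype κ] (b : Basis μ k K)
    (c : κ → K) : ∃ s : Finset μ, ∀ γ, c γ = ∑ i ∈ s, b.repr (c γ) i • b i := by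
  classical
  refine ⟨Finset.univ.biUnion fun γ => (b.repr (c γ)).support, fun γ => ?_⟩
  conv_lhs => rw [← b.linearCombination_repr (c γ), Finsupp.linearCombination_apply]
  exact Finsupp.sum_of_support_subset _ (Finset.subset_biUnion_of_mem
    (fun γ => (b.repr (c γ)).support) (Finset.mem_univ γ)) _ (by simp)

lemma artin {E F μ : Type*} [Field E] [Field F] [Algebra E F] [IsGalois E F] {e : μ → F}
    (he : LinearIndependent E e) (s : Finset μ) : ∀ r : μ → F,
    (∀ σ : F ≃ₐ[E] F, ∑ i ∈ s, σ (e i) * r i = 0) → ∀ i ∈ s, r i = 0 := by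
  classical
  induction s using Finset.induction_on with
  | empty => simp
  | insert j s hj ih =>
    intro r hr
    have hj0 : r j = 0 := by
      by_contra hne
      have h1 : ∀ i ∈ insert j s, r i / r j ∈ Set.range (algebraMap E F) := by
        intro i hi
        rw [InfiniteGalois.mem_range_algebraMap_iff_fixed]
        intro τ
        rcases Finset.mem_insert.1 hi with rfl | hi
        · simp [hne]
        refine sub_eq_zero.1 (ih (fun i => τ (r i / r j) - r i / r j) (fun σ => ?_) i hi)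
        have h2 := congrArg (fun x => τ (x / r j)) (hr (σ.trans τ.symm))
        have h3 := congrArg (· / r j) (hr σ)
        simp only [Finset.sum_insert hj, add_div, Finset.sum_div, map_add, map_sum, mul_div_assoc,
          map_mul, AlgEquiv.trans_apply, AlgEquiv.apply_symm_apply, div_self hne, map_one,
          zero_div, map_zero] at h2 h3
        simp only [mul_sub, Finset.sum_sub_distrib]
        linear_combination h2 - h3
      choose! a ha using h1
      have h4 : ∑ i ∈ insert j s, a i • e i = 0 := by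
        have h3 := congrArg (· / r j) (hr AlgEquiv.refl)
        simp only [Finset.sum_div, zero_div] at h3
        rw [← h3]
        refine Finset.sum_congr rfl fun i hi => ?_
        rw [Algebra.smul_def, ha i hi]
        simp only [AlgEquiv.coe_refl, id]
        ring
      have h5 := linearIndependent_iff'.1 he _ _ h4 j (by simp)
      have h6 := ha j (by simp)
      rw [h5, map_zero, div_self hne] at h6
      exact zero_ne_one h6
    intro i hi
    rcases Finset.mem_insert.1 hi with rfl | hi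
    · exact hj0
    · refine ih r (fun σ => ?_) i hi
      have := hr σ
      rwa [Finset.sum_insert hj, hj0, mul_zero, zero_add] at this

theorem descent {E : Type*} [Field E] [CharZero E] [Algebra E ℂ] {σ κ : Type*} [Finite σ]
    [Fintype κ] (I : Ideal (MvPolynomial σ E)) (Q : κ → MvPolynomial σ E) (c : κ → ℂ)
    (h : ∀ w ∈ zeroLocus ℂ I, ∑ γ, c γ * aeval w (Q γ) = 0) :
    c ∈ Submodule.span ℂ {c' : κ → ℂ | (∀ γ, c' γ ∈ Set.range (algebraMap E ℂ)) ∧
      ∀ w ∈ zeroLocus ℂ I, ∑ γ, c' γ * aeval w (Q γ) = 0} := by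
  set F := algebraicClosure E ℂ
  have : IsAlgClosed F := IsAlgClosure.isAlgClosed E
  set b := Basis.ofVectorSpace F ℂ
  set b' := Basis.ofVectorSpace E F
  obtain ⟨s, hs⟩ := exists_repr b c
  have hc : c = ∑ i ∈ s, b i • fun γ => algebraMap F ℂ (b.repr (c γ) i) := by
    funext γ
    rw [hs γ, Finset.sum_apply]
    exact Finset.sum_congr rfl fun i _ => by
      rw [Algebra.smul_def, Pi.smul_apply, smul_eq_mul, mul_comm]
  rw [hc]
  refine Submodule.sum_mem _ fun i _ => Submodule.smul_mem _ _ ?_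
  set d : κ → F := fun γ => b.repr (c γ) i with hd
  have h1 : ∀ w ∈ zeroLocus F I, ∑ γ, d γ * aeval w (Q γ) = 0 := by
    intro w hw
    have h2 : ∀ p : MvPolynomial σ E, aeval (fun v => algebraMap F ℂ (w v)) p =
        algebraMap F ℂ (aeval w p) := fun p =>
      (comp_aeval_apply w (IsScalarTower.toAlgHom E F ℂ) p).symm
    have h3 := h (fun v => algebraMap F ℂ (w v)) fun p hp => by rw [h2, hw p hp, map_zero]
    have h4 := congrArg (fun x => b.repr x i) h3
    simp only [h2, mul_comm (c _), ← Algebra.smul_def, map_sum, map_smul, map_zero,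
      Finsupp.coe_finsetSum, Finset.sum_apply, Finsupp.smul_apply, smul_eq_mul,
      Finsupp.zero_apply] at h4
    simpa [hd, mul_comm] using h4
  obtain ⟨s', hs'⟩ := exists_repr b' d
  have hd' : (fun γ => algebraMap F ℂ (d γ)) =
      ∑ j ∈ s', algebraMap F ℂ (b' j) • fun γ => algebraMap E ℂ (b'.repr (d γ) j) := by
    funext γ
    rw [hs' γ, Finset.sum_apply, map_sum]
    exact Finset.sum_congr rfl fun i _ => by
      rw [Algebra.smul_def, Pi.smul_apply, smul_eq_mul, mul_comm, map_mul,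
        ← IsScalarTower.algebraMap_apply]
  rw [hd']
  refine Submodule.sum_mem _ fun j hj => Submodule.smul_mem _ _
    (Submodule.subset_span ⟨fun γ => ⟨_, rfl⟩, fun w hw => ?_⟩)
  have h5 : ∑ γ, C (b'.repr (d γ) j) * Q γ ∈ vanishingIdeal E (zeroLocus F I) := by
    intro w hw
    have h6 := artin b'.linearIndependent s'
      (fun j => ∑ γ, algebraMap E F (b'.repr (d γ) j) * aeval w (Q γ)) (fun τ => ?_) j hj
    · simpa using h6
    have h2 : ∀ p : MvPolynomial σ E, aeval (fun v => τ.symm (w v)) p = τ.symm (aeval w p) :=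
      fun p => (comp_aeval_apply w τ.symm.toAlgHom p).symm
    have h7 := congrArg τ (h1 (fun v => τ.symm (w v)) fun p hp => by rw [h2, hw p hp, map_zero])
    simp only [h2, map_sum, map_mul, AlgEquiv.apply_symm_apply, map_zero] at h7
    rw [← h7]
    simp only [Finset.mul_sum]
    rw [Finset.sum_comm]
    refine Finset.sum_congr rfl fun γ _ => ?_
    conv_rhs => rw [hs' γ]
    rw [map_sum, Finset.sum_mul]
    refine Finset.sum_congr rfl fun i _ => ?_
    rw [Algebra.smul_def, map_mul, AlgEquiv.commutes]; ring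
  rw [vanishingIdeal_zeroLocus_eq_radical] at h5
  have h8 := radical_le_vanishingIdeal_zeroLocus (K := ℂ) I h5 w hw
  simpa using h8

lemma null_transfer {k σ : Type*} [Field k] [Finite σ] (φ ψ : k →+* ℂ)
    (I : Ideal (MvPolynomial σ k)) (P : MvPolynomial σ k)
    (h : ∀ w : σ → ℂ, (∀ p ∈ I, eval₂ φ w p = 0) → eval₂ φ w P = 0) (w : σ → ℂ)
    (hw : ∀ p ∈ I, eval₂ ψ w p = 0) : eval₂ ψ w P = 0 := by
  let _ := φ.toAlgebra
  have h1 : P ∈ vanishingIdeal k (zeroLocus ℂ I) := h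
  rw [vanishingIdeal_zeroLocus_eq_radical] at h1
  obtain ⟨m, hm⟩ := h1
  have := hw _ hm
  rw [eval₂_pow] at this
  exact eq_zero_of_pow_eq_zero this

section Tors
variable {m : Type*} [Fintype m] {k : Type*} [CommRing k]

/-- ideal of the equations `Xᵀ K X = S` -/
noncomputable def tI (K S : Matrix m m k) : Ideal (MvPolynomial (m × m) k) :=
  Ideal.span (Set.range fun v : m × m =>
    ((Matrix.of fun a b => X (a, b))ᵀ * K.map C * (Matrix.of fun a b => X (a, b)) - S.map C :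
      Matrix m m (MvPolynomial (m × m) k)) v.1 v.2)

lemma tI_iff (K S : Matrix m m k) (φ : k →+* ℂ) (Y : Matrix m m ℂ) :
    (∀ p ∈ tI K S, eval₂ φ (fun v => Y v.1 v.2) p = 0) ↔ Yᵀ * K.map φ * Y = S.map φ := by
  set Φ := eval₂Hom φ (fun v : m × m => Y v.1 v.2)
  have h1 : ∀ a b, Φ (((Matrix.of fun a b => X (a, b))ᵀ * K.map C *
      (Matrix.of fun a b => X (a, b)) - S.map C : Matrix m m (MvPolynomial (m × m) k)) a b) =
      (Yᵀ * K.map φ * Y - S.map φ) a b := by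
    intro a b
    simp [Φ, Matrix.mul_apply]
  constructor
  · intro h
    rw [← sub_eq_zero]
    ext a b
    rw [← h1]
    exact h _ (Ideal.subset_span ⟨(a, b), rfl⟩)
  · intro h
    have : tI K S ≤ RingHom.ker Φ := by
      rw [tI, Ideal.span_le]
      rintro _ ⟨v, rfl⟩
      simp only [SetLike.mem_coe, RingHom.mem_ker]
      rw [h1, h, sub_self, Matrix.zero_apply]
    exact fun p hp => this hp

theorem scale_transfer {L : Type*} [Field L] [Algebra L ℂ] (K S : Matrix m m L)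
    (P : MvPolynomial (m × m) L) {s : ℂ} (hs : Transcendental L s)
    (h : ∀ Y : Matrix m m ℂ, Yᵀ * K.map (algebraMap L ℂ) * Y = s • S.map (algebraMap L ℂ) →
      aeval (fun v => Y v.1 v.2) P = 0) {s' : ℂ} (hs' : s' ≠ 0) (Y : Matrix m m ℂ)
    (hY : Yᵀ * K.map (algebraMap L ℂ) * Y = s' • S.map (algebraMap L ℂ)) :
    aeval (fun v => Y v.1 v.2) P = 0 := by
  set k := FractionRing (Polynomial L)
  set ι : L →+* k := (algebraMap (Polynomial L) k).comp Polynomial.C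
  have hφ : ∀ x : ℂ, Transcendental L x → ∃ φ : k →+* ℂ, φ.comp ι = algebraMap L ℂ ∧
      φ (algebraMap (Polynomial L) k Polynomial.X) = x := by
    intro x hx
    have hi : Function.Injective (Polynomial.aeval x : Polynomial L →ₐ[L] ℂ).toRingHom :=
      transcendental_iff_injective.1 hx
    exact ⟨IsFractionRing.lift hi, by ext a; simp [ι], by simp⟩
  set S' : Matrix m m k := algebraMap (Polynomial L) k Polynomial.X • S.map ι
  have key : ∀ x : ℂ, Transcendental L x → ∃ φ : k →+* ℂ, (∀ Y : Matrix m m ℂ,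
      (∀ p ∈ tI (K.map ι) S', eval₂ φ (fun v => Y v.1 v.2) p = 0) ↔
        Yᵀ * K.map (algebraMap L ℂ) * Y = x • S.map (algebraMap L ℂ)) ∧
      ∀ w, eval₂ φ w (map ι P) = aeval w P := by
    intro x hx
    obtain ⟨φ, h1, h2⟩ := hφ x hx
    refine ⟨φ, fun Y => ?_, fun w => by rw [eval₂_map, h1, aeval_def]⟩
    rw [tI_iff, ← h1, ← h2]
    have : S'.map φ = φ (algebraMap (Polynomial L) k Polynomial.X) • S.map (φ.comp ι) := by
      ext a b
      exact map_mul φ _ _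
    rw [this]; rfl
  have h1 : ∀ x : ℂ, Transcendental L x → ∀ Y : Matrix m m ℂ,
      Yᵀ * K.map (algebraMap L ℂ) * Y = x • S.map (algebraMap L ℂ) →
      aeval (fun v => Y v.1 v.2) P = 0 := by
    intro x hx Y hY
    obtain ⟨φ, a1, a2⟩ := key s hs
    obtain ⟨ψ, b1, b2⟩ := key x hx
    rw [← b2]
    refine null_transfer φ ψ (tI (K.map ι) S') _ (fun w hw => ?_) _ ((b1 Y).2 hY)
    rw [a2]
    exact h (Matrix.of fun a b => w (a, b)) ((a1 _).1 hw)
  have h2 : ∀ j : ℕ, ∃ l : ℂ, l ^ 2 * s' = s + j := fun j => by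
    obtain ⟨l, hl⟩ := IsAlgClosed.exists_pow_nat_eq ((s + j) / s') two_pos
    exact ⟨l, by rw [hl]; field_simp⟩
  choose l hl using h2
  set q : Polynomial ℂ :=
    aeval (fun v : m × m => Polynomial.C (Y v.1 v.2) * Polynomial.X) (map (algebraMap L ℂ) P)
  have hq : ∀ z, q.eval z = aeval (fun v : m × m => (z • Y) v.1 v.2) P := by
    intro z
    have := comp_aeval_apply (fun v : m × m => Polynomial.C (Y v.1 v.2) * Polynomial.X)
      (Polynomial.aeval z) (map (algebraMap L ℂ) P)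
    rw [Polynomial.coe_aeval_eq_eval] at this
    rw [this, aeval_map_algebraMap]
    refine congrArg (fun w => aeval w P) (funext fun v => ?_)
    rw [Polynomial.eval_mul, Polynomial.eval_C, Polynomial.eval_X, mul_comm]
    rfl
  have h3 : q = 0 := by
    refine Polynomial.eq_zero_of_infinite_isRoot q (Set.infinite_of_injective_forall_mem
      (f := l) (fun i j hij => ?_) fun j => ?_)
    · have := hl i
      rw [hij, hl j] at this
      exact_mod_cast (add_left_cancel this).symm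
    · change q.eval _ = 0
      rw [hq]
      refine h1 (s + j) ?_ _ ?_
      · have := hs.aeval (Polynomial.X + Polynomial.C (j : L))
          (by rw [Polynomial.natDegree_X_add_C]; simp)
          (by rw [Polynomial.leadingCoeff_X_add_C]; exact one_mem _)
        simpa using this
      · rw [Matrix.transpose_smul, Matrix.smul_mul, Matrix.smul_mul, Matrix.mul_smul, hY,
          smul_smul, smul_smul, ← hl j, pow_two]
  have := hq 1
  rw [h3, one_smul] at this
  simpa using this.symm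

end Tors

end Pool.Agent.GPC

end MrgPart3

-- ======== part 4: formerly Pool.Agent.MP_cbf1af_ag.h26.Hilb
section MrgPart4

/-! Hilbert function of the symplectic group and the dimension of spaces of values. -/

namespace Pool.Agent.GPC
open MvPolynomial Module Matrix Submodule

variable {m : Type*} [Fintype m] [DecidableEq m] (J : Matrix m m ℂ)

/-- coordinate functions of a translate -/
def xf (A B : Matrix m m ℂ) : m × m → SpS J → ℂ := fun v g => (A * g.1 * B) v.1 v.2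

/-- Hilbert function -/
noncomputable def HF (D : ℕ) : ℕ := finrank ℂ (A1 ℂ (xf J 1 1) ^ D : Submodule ℂ (SpS J → ℂ))

omit [DecidableEq m] in
lemma A1_xf_le (A B A' B' : Matrix m m ℂ) : A1 ℂ (xf J (A' * A) (B * B')) ≤ A1 ℂ (xf J A B) := by
  refine span_le.2 ?_
  rintro _ (rfl | ⟨v, rfl⟩)
  · exact one_mem_A1 _
  · have : xf J (A' * A) (B * B') v = ∑ l, ∑ e, (A' v.1 e * B' l v.2) • xf J A B (e, l) := by
      funext g
      have : A' * A * g.1 * (B * B') = A' * (A * g.1 * B) * B' := by simp only [Matrix.mul_assoc]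
      simp only [xf, this, Finset.sum_apply, Pi.smul_apply, smul_eq_mul]
      generalize A * g.1 * B = Y
      simp only [Matrix.mul_apply, Finset.sum_mul]
      exact Finset.sum_congr rfl fun l _ => Finset.sum_congr rfl fun e _ => by ring
    rw [this]
    exact sum_mem fun l _ => sum_mem fun e _ => smul_mem _ _ (mem_A1 _ _)

lemma A1_xf {A B : Matrix m m ℂ} (hA : A.det ≠ 0) (hB : B.det ≠ 0) :
    A1 ℂ (xf J A B) = A1 ℂ (xf J 1 1) := by
  refine le_antisymm (by simpa using A1_xf_le J 1 1 A B) ?_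
  have := A1_xf_le J A B A⁻¹ B⁻¹
  rwa [Matrix.nonsing_inv_mul _ hA.isUnit, Matrix.mul_nonsing_inv _ hB.isUnit] at this

instance (D : ℕ) : FiniteDimensional ℂ (A1 ℂ (xf J 1 1) ^ D : Submodule ℂ (SpS J → ℂ)) :=
  (gen_pow _ D).finite

lemma HF_le (D : ℕ) : HF J D ≤ (D + 1) ^ Fintype.card (m × m) := (gen_pow _ D).finrank_le

lemma HF_mono : Monotone (HF J) := fun _ _ h => Submodule.finrank_mono (pow_mono' (one_mem_A1 _) h)

lemma HF_pos (D : ℕ) : 1 ≤ HF J D := by
  have : Nonempty (SpS J) := ⟨⟨1, one_mem_SpS⟩⟩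
  exact Module.finrank_pos_iff_exists_ne_zero.2
    ⟨⟨1, one_mem_pow (one_mem_A1 _) D⟩, fun h => one_ne_zero (congrArg Subtype.val h)⟩

omit [DecidableEq m] in
lemma aeval_xf (A B : Matrix m m ℂ) (Q : MvPolynomial (m × m) ℂ) (g : SpS J) :
    aeval (xf J A B) Q g = eval (fun v => (A * g.1 * B) v.1 v.2) Q :=
  comp_aeval_apply (xf J A B) (Pi.evalAlgHom ℂ _ g) Q

lemma exists_words {A B : Matrix m m ℂ} (hA : A.det ≠ 0) (hB : B.det ≠ 0) (D : ℕ) :
    ∃ w : Fin (HF J D) → Fin D → Option (m × m),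
      LinearIndependent ℂ fun j => wd (xf J A B) (w j) := by
  have h1 := pow_eq_span_wd (E := ℂ) (xf J A B) D
  rw [A1_xf J hA hB] at h1
  have : Module.Finite ℂ (span ℂ (Set.range fun w : Fin D → Option (m × m) =>
    wd (xf J A B) w)) := h1 ▸ inferInstance
  obtain ⟨f, hf1, -, hf3⟩ := Submodule.exists_fun_fin_finrank_span_eq ℂ
    (Set.range fun w : Fin D → Option (m × m) => wd (xf J A B) w)
  choose τ hτ using hf1
  have h2 : HF J D = finrank ℂ (span ℂ (Set.range fun w : Fin D → Option (m × m) =>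
    wd (xf J A B) w)) := by rw [HF, h1]
  refine ⟨fun j => τ (j.cast h2), ?_⟩
  simp only [hτ]
  exact hf3.comp (Fin.cast h2) (Fin.cast_injective _)

variable {J}

theorem value_block (hJ : Jᵀ = -J) (hd : J.det ≠ 0) {E : Type*} [Field E] [CharZero E]
    [Algebra E ℂ] (K₁ K₀ : Matrix m m E) {A B : Matrix m m ℂ} (hA : A.det ≠ 0) (hB : B.det ≠ 0)
    (hW : ∀ U : Matrix m m ℂ, Uᵀ * K₁.map (algebraMap E ℂ) * U = K₀.map (algebraMap E ℂ) ↔
      ∃ g ∈ SpS J, U = A * g * B) {g₀ : Matrix m m ℂ} (hg₀ : g₀ ∈ SpS J)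
    (W : Submodule E ℂ) (h1 : (1 : ℂ) ∈ W) {δ D : ℕ} (hδ : δ ≤ D) (P : MvPolynomial (m × m) ℂ)
    (hP : P.totalDegree ≤ δ) (hPW : ∀ γ, P.coeff γ ∈ W)
    (hP0 : eval (fun v => (A * g₀ * B) v.1 v.2) P = 0)
    (hP1 : ∃ g ∈ SpS J, eval (fun v => (A * g * B) v.1 v.2) P ≠ 0) :
    ∃ a : ℂ, a ≠ 0 ∧ ∃ V : Submodule E ℂ, Gen E V (HF J D - HF J (D - δ)) ∧
      ∀ y ∈ A1 E (fun v : m × m => (A * g₀ * B) v.1 v.2) ^ D,
        a * y ∈ W ^ ((D + 1) ^ Fintype.card (m × m) + 1) * V := by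
  set u : m × m → ℂ := fun v => (A * g₀ * B) v.1 v.2 with hu
  set κ := ↥(Gam (m × m) D)
  set R := {c : κ → ℂ | (∀ γ, c γ ∈ W) ∧ ∑ γ, c γ * mon u γ.1 = 0}
  set x := xf J A B
  set F := A1 ℂ (xf J 1 1)
  have hx : A1 ℂ x = F := A1_xf J hA hB
  set ev : (κ → ℂ) →ₗ[ℂ] (SpS J → ℂ) := Fintype.linearCombination ℂ fun γ : κ => mon x γ.1
  have hev : ∀ c, ev c = ∑ γ, c γ • mon x γ.1 := fun c => Fintype.linearCombination_apply _ _ _
  have hmon : ∀ (γ : m × m →₀ ℕ) (g : SpS J),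
      mon x γ g = mon (fun v : m × m => (A * g.1 * B) v.1 v.2) γ := by
    intro γ g
    simp [mon, Finsupp.prod, Finset.prod_apply, x, xf]
  have hker : LinearMap.ker ev ≤ span ℂ R := by
    intro c hc
    have hz : ∀ w : m × m → ℂ, w ∈ zeroLocus ℂ (tI K₁ K₀) ↔
        ∃ g ∈ SpS J, w = fun v => (A * g * B) v.1 v.2 := by
      intro w
      have := tI_iff K₁ K₀ (algebraMap E ℂ) (Matrix.of fun a b => w (a, b))
      rw [hW] at this
      refine this.trans ⟨?_, ?_⟩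
      · rintro ⟨g, hg, h⟩
        exact ⟨g, hg, funext fun v => congrFun (congrFun h v.1) v.2⟩
      · rintro ⟨g, hg, rfl⟩
        exact ⟨g, hg, rfl⟩
    have h2 := descent (tI K₁ K₀) (fun γ : κ => monomial γ.1 (1 : E)) c fun w hw => by
      obtain ⟨g, hg, rfl⟩ := (hz w).1 hw
      have := congrFun (LinearMap.mem_ker.1 hc) ⟨g, hg⟩
      rw [hev, Finset.sum_apply] at this
      simpa [aeval_monomial', hmon] using this
    refine span_mono ?_ h2
    intro c' hc'
    refine ⟨fun γ => ?_, ?_⟩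
    · obtain ⟨e, he⟩ := hc'.1 γ
      rw [← he, Algebra.algebraMap_eq_smul_one]
      exact smul_mem _ _ h1
    · simpa [aeval_monomial'] using hc'.2 u ((hz u).2 ⟨g₀, hg₀, rfl⟩)
  set π := aeval x P
  have hmap : (F ^ (D - δ)).map (LinearMap.mulLeft ℂ π) ≤ (span ℂ R).map ev := by
    rw [← hx]
    refine (map_mono (pow_le_span_Gam x (D - δ))).trans ?_
    rw [map_span, span_le]
    rintro _ ⟨_, ⟨γ, hγ, rfl⟩, rfl⟩
    have hdeg : (P * monomial γ (1 : ℂ)).totalDegree ≤ D := by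
      refine (totalDegree_mul _ _).trans ?_
      have h3 : (monomial γ (1 : ℂ)).totalDegree ≤ D - δ :=
        (totalDegree_monomial_le _ _).trans (mem_Gam.1 hγ)
      omega
    refine ⟨fun β => (P * monomial γ 1).coeff β.1, subset_span ⟨fun β => ?_, ?_⟩, ?_⟩
    · show coeff β.1 (P * monomial γ 1) ∈ W
      rw [coeff_mul_monomial']
      split_ifs
      · simpa using hPW _
      · exact zero_mem _
    · have := aeval_eq_sum_Gam u hdeg
      rw [map_mul, show aeval u P = 0 from hP0, zero_mul, ← Finset.sum_coe_sort] at this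
      exact this.symm
    · rw [hev, Finset.sum_coe_sort (Gam (m × m) D)
        fun β => (P * monomial γ (1 : ℂ)).coeff β • mon x β, ← aeval_eq_sum_Gam x hdeg, map_mul,
        aeval_monomial', one_smul]
      rfl
  have hinj : Function.Injective ((LinearMap.mulLeft ℂ π).domRestrict (F ^ (D - δ))) := by
    rw [← LinearMap.ker_eq_bot, LinearMap.ker_eq_bot']
    rintro ⟨y, hy⟩ h
    obtain ⟨Q, -, rfl⟩ := exists_of_mem_pow x (hx ▸ hy)
    rcases sp_domain hJ hd A B P Q (fun g hg => by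
      rw [← aeval_xf J A B P ⟨g, hg⟩, ← aeval_xf J A B Q ⟨g, hg⟩]
      exact congrFun h ⟨g, hg⟩) with h3 | h3
    · obtain ⟨g, hg, h4⟩ := hP1
      exact absurd (h3 g hg) h4
    · exact Subtype.ext (funext fun g => (aeval_xf J A B Q g).trans (h3 g.1 g.2))
  have hcard : Fintype.card κ ≤ finrank ℂ (span ℂ R) + (HF J D - HF J (D - δ)) := by
    have e1 := ev.finrank_range_add_finrank_ker
    have e2 : finrank ℂ (LinearMap.range ev) ≤ HF J D := by
      refine Submodule.finrank_mono ?_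
      rintro _ ⟨c, rfl⟩
      rw [hev]
      exact sum_mem fun γ _ => smul_mem _ _ (by
        have := mon_mem (E := ℂ) x γ.1 (mem_Gam.1 γ.2)
        rwa [hx] at this)
    have e3 := (ev.domRestrict (span ℂ R)).finrank_range_add_finrank_ker
    rw [LinearMap.range_domRestrict, LinearMap.ker_domRestrict,
      (Submodule.comapSubtypeEquivOfLe hker).finrank_eq] at e3
    have e4 := LinearMap.finrank_range_of_inj hinj
    rw [LinearMap.range_domRestrict] at e4
    have e5 := Submodule.finrank_mono hmap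
    have e6 := HF_mono J (Nat.sub_le D δ)
    rw [Module.finrank_fintype_fun_eq_card] at e1
    have e7 : HF J (D - δ) = finrank ℂ (F ^ (D - δ) : Submodule ℂ (SpS J → ℂ)) := rfl
    omega
  obtain ⟨a, ha, Γ, hΓ, h2⟩ := cramer_elim (fun γ : κ => mon u γ.1) W h1 _ hcard
  refine ⟨a, ha, _, (gen_span_image Γ fun γ : κ => mon u γ.1).mono le_rfl hΓ, fun y hy => ?_⟩
  have h3 : W ^ (Fintype.card κ + 1) ≤ W ^ ((D + 1) ^ Fintype.card (m × m) + 1) :=
    pow_mono' h1 (by simpa [κ] using card_Gam (σ := m × m) D)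
  refine span_induction (p := fun y _ => a * y ∈ _) ?_ (by simp) (fun y z _ _ hy hz => ?_)
    (fun e y _ hy => ?_) (pow_le_span_Gam u D hy)
  · rintro _ ⟨γ, hγ, rfl⟩
    exact mul_le_mul_left h3 _ (h2 ⟨γ, hγ⟩)
  · rw [mul_add]; exact add_mem hy hz
  · rw [mul_smul_comm]; exact smul_mem _ _ hy

lemma gen_restrict {E : Type*} [Field E] [Algebra E ℂ] [Algebra ℚ E] [IsScalarTower ℚ E ℂ]
    [FiniteDimensional ℚ E] {V : Submodule E ℂ} {r : ℕ} (hV : Gen E V r) {a : ℂ} (ha : a ≠ 0)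
    {S : Set ℂ} (hS : ∀ y ∈ S, a * y ∈ V) : Gen ℚ (span ℚ S) (finrank ℚ E * r) := by
  classical
  obtain ⟨s, h1, h2⟩ := hV
  set b := Module.finBasis ℚ E
  refine ⟨(Finset.univ ×ˢ s).image fun p => a⁻¹ * (b p.1 • p.2), Finset.card_image_le.trans ?_,
    span_le.2 fun y hy => ?_⟩
  · simp only [Finset.card_product, Finset.card_univ, Fintype.card_fin]
    gcongr
  obtain ⟨c, -, hc⟩ := Submodule.mem_span_finset.1 (h2 (hS y hy))
  have : y = ∑ z ∈ s, ∑ i, b.repr (c z) i • (a⁻¹ * (b i • z)) := by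
    rw [← inv_mul_cancel_left₀ ha y, ← hc, Finset.mul_sum]
    refine Finset.sum_congr rfl fun z _ => ?_
    conv_lhs => rw [← b.sum_repr (c z)]
    rw [Finset.sum_smul, Finset.mul_sum]
    exact Finset.sum_congr rfl fun i _ => by rw [smul_assoc, mul_smul_comm]
  rw [this]
  refine sum_mem fun z hz => sum_mem fun i _ => smul_mem _ _ (subset_span ?_)
  exact Finset.mem_coe.2 (Finset.mem_image.2 ⟨(i, z), by simpa using hz, rfl⟩)

lemma pigeon (H : ℕ → ℕ) (hm : Monotone H) (h1 : 1 ≤ H 0) {x δ : ℕ} (hx : 1 ≤ x)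
    (h : H (x * x * δ) < 2 ^ x) :
    ∃ D, δ ≤ D ∧ D ≤ x * x * δ ∧ x * (H D - H (D - δ)) ≤ H D := by
  by_contra hcon
  push Not at hcon
  have hx' : (0 : ℝ) < x := by exact_mod_cast hx
  have key : ∀ j ≤ x * x, (1 + 1 / (x : ℝ)) ^ j ≤ H (j * δ) := by
    intro j
    induction j with
    | zero => intro _; simpa using h1
    | succ j ih =>
      intro hj
      have h2 := hcon ((j + 1) * δ) (by nlinarith) (Nat.mul_le_mul_right _ hj)
      rw [show (j + 1) * δ - δ = j * δ by rw [add_mul, one_mul, Nat.add_sub_cancel]] at h2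
      have h3 : H (j * δ) ≤ H ((j + 1) * δ) := hm (by nlinarith)
      have h4 : (H ((j + 1) * δ) : ℝ) < x * (H ((j + 1) * δ) - H (j * δ)) := by exact_mod_cast h2
      have h5 : (H (j * δ) : ℝ) ≤ H ((j + 1) * δ) := by exact_mod_cast h3
      rw [pow_succ]
      calc _ ≤ (H (j * δ) : ℝ) * (1 + 1 / (x : ℝ)) := by gcongr; exact ih (by omega)
        _ ≤ _ := by
          rw [mul_add, mul_one, mul_one_div, ← le_sub_iff_add_le', div_le_iff₀ hx']
          linarith
  have h6 := key _ le_rfl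
  have h7 : (2 : ℝ) ≤ (1 + 1 / (x : ℝ)) ^ x := by
    have := one_add_mul_le_pow (a := 1 / (x : ℝ)) (by
      have : 0 ≤ 1 / (x : ℝ) := by positivity
      linarith) x
    rw [mul_one_div_cancel hx'.ne'] at this
    linarith
  rw [pow_mul] at h6
  have h8 : (2 : ℝ) ^ x ≤ H (x * x * δ) := le_trans (pow_le_pow_left₀ (by norm_num) h7 x) h6
  have h9 : (H (x * x * δ) : ℝ) < 2 ^ x := by exact_mod_cast h
  linarith

end Pool.Agent.GPC

end MrgPart4

-- ======== part 5: formerly Pool.Agent.MP_cbf1af_ag.h26.Int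
section MrgPart5

/-! Inverse square roots along segments: domination, differentiation, boundary terms. -/

namespace Pool.Agent.GPC
open Filter Topology MeasureTheory Set

/-- branch of the inverse square root cut along the ray opposite to `d` -/
noncomputable def ph (d w : ℂ) : ℂ := (w / d) ^ (-1 / 2 : ℂ)

noncomputable def sg (s : ℝ) : ℝ := s ^ (-1 / 2 : ℝ) * (1 - s) ^ (-1 / 2 : ℝ)

variable {d w : ℂ}

lemma half_cast : (-1 / 2 : ℂ) = ((-1 / 2 : ℝ) : ℂ) := by push_cast; rfl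

lemma cpow_half_sq (hw : w ≠ 0) : (w ^ (-1 / 2 : ℂ)) ^ 2 * w = 1 := by
  rw [sq, ← Complex.cpow_add _ _ hw, show (-1 / 2 + -1 / 2 : ℂ) = -1 by ring, Complex.cpow_neg_one,
    inv_mul_cancel₀ hw]

lemma ph_sq (hd : d ≠ 0) (hw : w ≠ 0) : ph d w ^ 2 * w = d := by
  have := cpow_half_sq (div_ne_zero hw hd)
  rw [ph]
  field_simp at this ⊢
  exact this

lemma ph_ne (hd : d ≠ 0) (hw : w ≠ 0) : ph d w ≠ 0 := fun h =>
  hd (by simpa [h] using (ph_sq hd hw).symm)

lemma hasDerivAt_ph {z : ℂ → ℂ} {z' τ : ℂ} (hz : HasDerivAt z z' τ)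
    (h : z τ / d ∈ Complex.slitPlane) :
    HasDerivAt (fun τ => ph d (z τ)) (-(z' / (2 * z τ)) * ph d (z τ)) τ := by
  have h0 := Complex.slitPlane_ne_zero h
  have h1 : z τ ≠ 0 := fun h => by simp [h] at h0
  have h2 : d ≠ 0 := fun h => by simp [h] at h0
  refine ((hz.div_const d).cpow_const (c := -1 / 2) h).congr_deriv ?_
  rw [Complex.cpow_sub _ _ h0, Complex.cpow_one, ph]
  field_simp

lemma ph_smul {r : ℝ} (hr : 0 < r) (d w : ℂ) : ph d (r * w) = (r ^ (-1 / 2 : ℝ) : ℝ) * ph d w := by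
  rw [ph, ph, mul_div_assoc]
  by_cases h : w / d = 0
  · simp [h]
  rw [Complex.cpow_def_of_ne_zero (mul_ne_zero (by exact_mod_cast hr.ne') h),
    Complex.cpow_def_of_ne_zero h, Complex.log_ofReal_mul hr h, add_mul, Complex.exp_add,
    Real.rpow_def_of_pos hr]
  push_cast
  rfl

lemma norm_ph (d w : ℂ) : ‖ph d w‖ = (‖w‖ / ‖d‖) ^ (-1 / 2 : ℝ) := by
  rw [ph, half_cast, Complex.norm_cpow_real, norm_div]

@[fun_prop]
lemma measurable_ph {X : Type*} [MeasurableSpace X] {z : X → ℂ} (hz : Measurable z) :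
    Measurable fun x => ph d (z x) := by
  unfold ph
  fun_prop

lemma sg_pos {s : ℝ} (hs : s ∈ Ioo (0 : ℝ) 1) : 0 < sg s :=
  mul_pos (Real.rpow_pos_of_pos hs.1 _) (Real.rpow_pos_of_pos (sub_pos.2 hs.2) _)

lemma sg_int : IntegrableOn sg (Ioo 0 1) := by
  have := (intervalIntegrable_iff_integrableOn_Ioo_of_le zero_le_one).1
    (Complex.betaIntegral_convergent (u := 1 / 2) (v := 1 / 2) (by simp) (by simp)).norm
  refine this.congr_fun (fun s hs => ?_) measurableSet_Ioo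
  have h : (1 / 2 - 1 : ℂ) = ((-1 / 2 : ℝ) : ℂ) := by push_cast; ring
  simp only [h, norm_mul, Complex.norm_cpow_real, sg]
  rw [show (1 - s : ℂ) = ((1 - s : ℝ) : ℂ) by push_cast; rfl, Complex.norm_real, Complex.norm_real,
    Real.norm_of_nonneg hs.1.le, Real.norm_of_nonneg (sub_nonneg.2 hs.2.le)]

lemma sg_int_pos : 0 < ∫ s in Ioo (0 : ℝ) 1, sg s := by
  rw [← integral_Ioc_eq_integral_Ioo, ← intervalIntegral.integral_of_le zero_le_one]
  exact intervalIntegral.intervalIntegral_pos_of_pos_on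
    ((intervalIntegrable_iff_integrableOn_Ioo_of_le zero_le_one).2 sg_int)
    (fun s hs => sg_pos hs) one_pos

lemma ae01 {p : ℝ → Prop} (h : ∀ s ∈ Ioo (0 : ℝ) 1, p s) :
    ∀ᵐ s ∂(volume.restrict (Ioo (0 : ℝ) 1)), p s := ae_restrict_of_forall_mem measurableSet_Ioo h

lemma int_of_bd {g : ℝ → ℂ} (hg : Measurable g) {C : ℝ} (h : ∀ s ∈ Ioo (0 : ℝ) 1, ‖g s‖ ≤ C * sg s) :
    IntegrableOn g (Ioo 0 1) := (sg_int.const_mul C).mono' hg.aestronglyMeasurable (ae01 h)

lemma dom {P ι : Type*} [DecidableEq ι] (F : Finset ι) {l : Filter P} {ℓ : ι → ℂ →L[ℝ] ℝ}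
    (hd : d ≠ 0) {z₀ z₁ : P → ι → ℂ} {a b : ι → ℂ} (h₀ : ∀ i, Tendsto (z₀ · i) l (𝓝 (a i)))
    (h₁ : ∀ i, Tendsto (z₁ · i) l (𝓝 (b i))) {i₀ i₁ : ι} (hne : i₀ ≠ i₁)
    (ha : ∀ i ∈ F, i ≠ i₀ → 0 < ℓ i (a i)) (hb : ∀ i ∈ F, i ≠ i₁ → 0 < ℓ i (b i))
    (ha₀ : ∀ᶠ y in l, i₀ ∈ F → 0 ≤ ℓ i₀ (z₀ y i₀)) (hb₀ : ∀ᶠ y in l, i₁ ∈ F → 0 ≤ ℓ i₁ (z₁ y i₁)) :
    ∃ C, 0 ≤ C ∧ ∀ᶠ y in l, ∀ s ∈ Ioo (0 : ℝ) 1, ∀ z : ι → ℂ,
      (∀ i, z i = z₀ y i + s * (z₁ y i - z₀ y i)) →
      (∀ i ∈ F, 0 < ℓ i (z i)) ∧ ‖∏ i ∈ F, ph d (z i)‖ ≤ C * sg s := by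
  have key : ∀ i, ∃ C, 0 ≤ C ∧ ∀ᶠ y in l, i ∈ F → ∀ s ∈ Ioo (0 : ℝ) 1,
      0 < ℓ i (z₀ y i + s * (z₁ y i - z₀ y i)) ∧ ‖ph d (z₀ y i + s * (z₁ y i - z₀ y i))‖ ≤
        C * ((if i = i₀ then s ^ (-1 / 2 : ℝ) else 1) *
          if i = i₁ then (1 - s) ^ (-1 / 2 : ℝ) else 1) := by
    intro i
    by_cases hi : i ∈ F
    swap
    · exact ⟨0, le_rfl, Eventually.of_forall fun _ h => absurd h hi⟩
    obtain ⟨c, hc, h2, h3⟩ : ∃ c > 0, (i ≠ i₀ → c < ℓ i (a i)) ∧ (i ≠ i₁ → c < ℓ i (b i)) := by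
      have h4 : ∀ (p : Prop) (x : ℝ), (p → 0 < x) → ∀ᶠ c in 𝓝[>] (0 : ℝ), p → c < x := by
        intro p x hp
        by_cases h : p
        · exact ((eventually_lt_nhds (hp h)).filter_mono nhdsWithin_le_nhds).mono fun _ h _ => h
        · exact Eventually.of_forall fun _ h' => absurd h' h
      exact (eventually_mem_nhdsWithin.and ((h4 _ _ (ha i hi)).and (h4 _ _ (hb i hi)))).exists
    have h4 : ∀ᶠ y in l, (if i = i₀ then 0 else c) ≤ ℓ i (z₀ y i) := by
      split_ifs with h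
      · subst h; exact ha₀.mono fun _ h => h hi
      · exact (((ℓ i).continuous.tendsto _).comp (h₀ i)).eventually (eventually_ge_nhds (h2 h))
    have h5 : ∀ᶠ y in l, (if i = i₁ then 0 else c) ≤ ℓ i (z₁ y i) := by
      split_ifs with h
      · subst h; exact hb₀.mono fun _ h => h hi
      · exact (((ℓ i).continuous.tendsto _).comp (h₁ i)).eventually (eventually_ge_nhds (h3 h))
    have hd' : 0 < ‖d‖ := norm_pos_iff.2 hd
    refine ⟨(c / ((‖ℓ i‖ + 1) * ‖d‖)) ^ (-1 / 2 : ℝ), by positivity, ?_⟩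
    filter_upwards [h4, h5] with y h4 h5 _ s hs
    set e := (if i = i₀ then s else 1) * (if i = i₁ then 1 - s else 1) with he
    have hs1 := hs.1
    have hs2 := sub_pos.2 hs.2
    have he0 : 0 < e := by rw [he]; split_ifs <;> positivity
    have h6 : c * e ≤ ℓ i (z₀ y i + s * (z₁ y i - z₀ y i)) := by
      rw [map_ray, map_sub]
      have h7 := mul_le_mul_of_nonneg_left h4 hs2.le
      have h8 := mul_le_mul_of_nonneg_left h5 hs1.le
      rw [he]
      split_ifs at h7 h8 ⊢ with h9 h10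
      · exact absurd (h9.symm.trans h10) hne
      all_goals linarith
    refine ⟨(mul_pos hc he0).trans_le h6, ?_⟩
    have h7 := (h6.trans (le_abs_self _)).trans ((ℓ i).le_opNorm _)
    rw [norm_ph]
    calc _ ≤ (c / ((‖ℓ i‖ + 1) * ‖d‖) * e) ^ (-1 / 2 : ℝ) := by
          refine Real.rpow_le_rpow_of_nonpos (by positivity) ?_ (by norm_num)
          rw [div_mul_eq_mul_div, ← div_div, div_le_div_iff_of_pos_right hd',
            div_le_iff₀ (by positivity)]
          nlinarith [norm_nonneg (z₀ y i + s * (z₁ y i - z₀ y i))]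
      _ = _ := by
          rw [Real.mul_rpow (by positivity) he0.le, he, Real.mul_rpow (by split_ifs <;> positivity)
            (by split_ifs <;> positivity)]
          split_ifs <;> simp
  choose C hC0 hC using key
  refine ⟨∏ i ∈ F, C i, Finset.prod_nonneg fun i _ => hC0 i, ?_⟩
  filter_upwards [(eventually_all_finset F).2 fun i _ => hC i] with y hy s hs z hz
  simp only [hz]
  refine ⟨fun i hi => (hy i hi hi s hs).1, ?_⟩
  rw [norm_prod]
  refine (Finset.prod_le_prod (fun _ _ => norm_nonneg _) fun i hi => (hy i hi hi s hs).2).trans ?_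
  rw [Finset.prod_mul_distrib, Finset.prod_mul_distrib, Finset.prod_ite_eq', Finset.prod_ite_eq', sg]
  have h1 : 1 ≤ s ^ (-1 / 2 : ℝ) := Real.one_le_rpow_of_pos_of_le_one_of_nonpos hs.1 hs.2.le
    (by norm_num)
  have h2 : 1 ≤ (1 - s) ^ (-1 / 2 : ℝ) := Real.one_le_rpow_of_pos_of_le_one_of_nonpos
    (sub_pos.2 hs.2) (by linarith [hs.1]) (by norm_num)
  refine mul_le_mul_of_nonneg_left (mul_le_mul ?_ ?_ (by split_ifs <;> positivity) (by positivity))
    (Finset.prod_nonneg fun i _ => hC0 i) <;> split_ifs <;> simp [*]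

lemma holo_param {g g' : ℂ → ℝ → ℂ} {T₀ : ℂ} {C : ℝ} (hm : ∀ T, Measurable (g T))
    (hm' : Measurable (g' T₀)) (h : ∀ᶠ T in 𝓝 T₀, ∀ s ∈ Ioo (0 : ℝ) 1,
      HasDerivAt (g · s) (g' T s) T ∧ ‖g T s‖ ≤ C * sg s) :
    IntegrableOn (g' T₀) (Ioo 0 1) ∧
      HasDerivAt (fun T => ∫ s in Ioo (0 : ℝ) 1, g T s) (∫ s in Ioo (0 : ℝ) 1, g' T₀ s) T₀ := by
  obtain ⟨r, hr, h1⟩ := Metric.eventually_nhds_iff_ball.1 h
  have h2 : ∀ T ∈ Metric.ball T₀ (r / 2), Metric.closedBall T (r / 2) ⊆ Metric.ball T₀ r :=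
    fun T hT => Metric.closedBall_subset_ball' (by rw [Metric.mem_ball] at hT; linarith)
  refine hasDerivAt_integral_of_dominated_loc_of_deriv_le (bound := fun s => C * sg s / (r / 2))
    (Metric.ball_mem_nhds T₀ (half_pos hr))
    (Eventually.of_forall fun T => (hm T).aestronglyMeasurable)
    (int_of_bd (hm _) fun s hs => (h1 _ (Metric.mem_ball_self hr) s hs).2) hm'.aestronglyMeasurable
    (ae01 fun s hs T hT => ?_) ((sg_int.const_mul C).div_const _)
    (ae01 fun s hs T hT => (h1 T (Metric.ball_subset_ball (by linarith) hT) s hs).1)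
  rw [← (h1 T (Metric.ball_subset_ball (by linarith) hT) s hs).1.deriv]
  refine Complex.norm_deriv_le_of_forall_mem_sphere_norm_le (half_pos hr)
    (DifferentiableOn.diffContOnCl ?_) fun z hz =>
      (h1 z (h2 T hT (Metric.sphere_subset_closedBall hz)) s hs).2
  rw [closure_ball _ (half_pos hr).ne']
  exact fun z hz => (h1 z (h2 T hT hz) s hs).1.differentiableAt.differentiableWithinAt

lemma ftc01 {B B' : ℝ → ℂ} {a b : ℂ} (h : ∀ s ∈ Ioo (0 : ℝ) 1, HasDerivAt B (B' s) s)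
    (hi : IntegrableOn B' (Ioo 0 1)) (ha : Tendsto B (𝓝[>] 0) (𝓝 a))
    (hb : Tendsto B (𝓝[<] 1) (𝓝 b)) : ∫ s in Ioo (0 : ℝ) 1, B' s = b - a := by
  rw [← integral_Ioc_eq_integral_Ioo, ← intervalIntegral.integral_of_le zero_le_one]
  exact intervalIntegral.integral_eq_sub_of_hasDerivAt_of_tendsto one_pos h
    ((intervalIntegrable_iff_integrableOn_Ioo_of_le zero_le_one).2 hi) ha hb

lemma van0 {w : ℝ → ℂ} {g : ℂ → ℂ} {C : ℝ} (hw : ∀ s ∈ Ioo (0 : ℝ) 1, ‖w s‖ ≤ C * sg s)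
    (hg : DifferentiableAt ℂ g 0) (h0 : g 0 = 0) :
    Tendsto (fun s => w s * g s) (𝓝[>] 0) (𝓝 0) := by
  have h1 : (fun s : ℝ => g s) =O[𝓝[>] 0] fun s : ℝ => s := by
    have := hg.hasDerivAt.comp_ofReal.isBigO_sub.mono (nhdsWithin_le_nhds (s := Ioi 0))
    simpa [h0] using this
  have h2 : w =O[𝓝[>] 0] sg := Asymptotics.IsBigO.of_bound C <| by
    filter_upwards [Ioo_mem_nhdsGT one_pos] with s hs
    rw [Real.norm_of_nonneg (sg_pos hs).le]
    exact hw s hs
  refine (h2.mul h1).trans_tendsto ?_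
  have h3 : ContinuousAt (fun s : ℝ => s ^ (1 / 2 : ℝ) * (1 - s) ^ (-1 / 2 : ℝ)) 0 :=
    (continuousAt_id.rpow_const (Or.inr (by norm_num))).mul
      ((continuousAt_const.sub continuousAt_id).rpow_const (Or.inl (by simp)))
  have h4 := h3.tendsto.mono_left (nhdsWithin_le_nhds (s := Ioi 0))
  rw [Real.zero_rpow (by norm_num), zero_mul] at h4
  refine h4.congr' ?_
  filter_upwards [self_mem_nhdsWithin] with s hs
  rw [sg, mul_right_comm, ← Real.rpow_add_one (ne_of_gt hs)]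
  norm_num

lemma van1 {w : ℝ → ℂ} {g : ℂ → ℂ} {C : ℝ} (hw : ∀ s ∈ Ioo (0 : ℝ) 1, ‖w s‖ ≤ C * sg s)
    (hg : DifferentiableAt ℂ g 1) (h0 : g 1 = 0) :
    Tendsto (fun s => w s * g s) (𝓝[<] 1) (𝓝 0) := by
  have h1 := van0 (w := fun s => w (1 - s)) (g := fun z => g (1 - z)) (C := C)
    (fun s hs => by
      simpa [sg, mul_comm] using hw (1 - s) ⟨by linarith [hs.2], by linarith [hs.1]⟩)
    (DifferentiableAt.comp 0 (by simpa using hg) (by fun_prop)) (by simpa using h0)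
  have h2 : Tendsto (fun s : ℝ => 1 - s) (𝓝[<] 1) (𝓝[>] 0) := by
    refine tendsto_nhdsWithin_iff.2 ⟨?_, eventually_mem_nhdsWithin.mono fun s hs =>
      mem_Ioi.2 (sub_pos.2 (mem_Iio.1 hs))⟩
    have : Continuous fun s : ℝ => 1 - s := by fun_prop
    simpa using (this.tendsto 1).mono_left nhdsWithin_le_nhds
  simpa [Function.comp_def] using h1.comp h2

lemma hasDerivAt_prod_ph {ι : Type*} (F : Finset ι) {z : ι → ℂ → ℂ} {z' : ι → ℂ} {τ : ℂ}
    (hz : ∀ i ∈ F, HasDerivAt (z i) (z' i) τ) (h : ∀ i ∈ F, z i τ / d ∈ Complex.slitPlane) :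
    HasDerivAt (fun τ => ∏ i ∈ F, ph d (z i τ))
      (-(∑ i ∈ F, z' i / (2 * z i τ)) * ∏ i ∈ F, ph d (z i τ)) τ := by
  classical
  induction F using Finset.induction_on with
  | empty => simpa using hasDerivAt_const τ (1 : ℂ)
  | insert i F hi ih =>
    simp only [Finset.prod_insert hi, Finset.sum_insert hi]
    refine ((hasDerivAt_ph (hz i (by simp)) (h i (by simp))).fun_mul
      (ih (fun j hj => hz j (by simp [hj])) fun j hj => h j (by simp [hj]))).congr_deriv ?_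
    ring

open Polynomial in
lemma eval_der_prod {ι : Type*} (F : Finset ι) (a : ι → ℂ) {x : ℂ} (h : ∀ i ∈ F, x - a i ≠ 0) :
    (derivative (∏ i ∈ F, (X - C (a i)))).eval x =
      (∏ i ∈ F, (X - C (a i))).eval x * ∑ i ∈ F, (x - a i)⁻¹ := by
  classical
  induction F using Finset.induction_on with
  | empty => simp
  | insert i F hi ih =>
    have h1 := h i (by simp)
    simp only [Finset.prod_insert hi, Finset.sum_insert hi, derivative_mul, eval_add, eval_mul,
      ih fun j hj => h j (by simp [hj])]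
    simp only [derivative_sub, derivative_X, derivative_C, eval_sub, eval_X, eval_C, eval_one,
      eval_zero]
    field_simp
    ring

end Pool.Agent.GPC

end MrgPart5

-- ======== part 6: formerly Pool.Agent.MP_cbf1af_ag.h26.Seg
section MrgPart6

/-! Integrals over segments between branch points. -/

namespace Pool.Agent.GPC
open Filter Topology MeasureTheory Set Polynomial Matrix

variable {n : ℕ} (d : ℂ) (α : Fin n → ℂ)

def zz (T x : ℂ) (i : Option (Fin n)) : ℂ := i.elim (T - x) fun j => x - α j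

noncomputable def ww (T x : ℂ) : ℂ := ∏ i, ph d (zz α T x i)

noncomputable def itg (a : ℕ) (u v T s : ℂ) : ℂ :=
  (u + s * (v - u)) ^ a * ww d α T (u + s * (v - u)) * (v - u)

noncomputable def Seg (u v T : ℂ) (a : Fin n) : ℂ := ∫ s in Ioo (0 : ℝ) 1, itg d α a u v T s

/-- admissible end point -/
def Vx (ℓ : Option (Fin n) → ℂ →L[ℝ] ℝ) (T c : ℂ) (i₀ : Option (Fin n)) : Prop :=
  (∀ i ≠ i₀, 0 < ℓ i (zz α T c i)) ∧ 0 ≤ ℓ i₀ (zz α T c i₀)

lemma ww_eq (T x : ℂ) : ww d α T x = ph d (T - x) * ∏ j, ph d (x - α j) := Fintype.prod_option _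

lemma zz_aff (T u v s : ℂ) (i : Option (Fin n)) :
    zz α T (u + s * (v - u)) i = zz α T u i + s * (zz α T v i - zz α T u i) := by
  cases i <;> simp [zz] <;> ring

lemma meas_ww {x : ℝ → ℂ} (hx : Measurable x) (T : ℂ) : Measurable fun s => ww d α T (x s) := by
  simp only [ww_eq]
  fun_prop

lemma meas_itg (a : ℕ) (u v T : ℂ) : Measurable fun s : ℝ => itg d α a u v T s :=
  (Measurable.mul (by fun_prop) (meas_ww d α (by fun_prop) T)).mul_const _

variable {d α} {ℓ : Option (Fin n) → ℂ →L[ℝ] ℝ} (hℓ : ∀ i, 0 < ℓ i d)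

lemma tendsto_zz {P : Type*} {l : Filter P} {u T : P → ℂ} {u₀ T₀ : ℂ} (hu : Tendsto u l (𝓝 u₀))
    (hT : Tendsto T l (𝓝 T₀)) (i : Option (Fin n)) :
    Tendsto (fun y => zz α (T y) (u y) i) l (𝓝 (zz α T₀ u₀ i)) := by
  cases i
  exacts [hT.sub hu, hu.sub_const _]

include hℓ

lemma d_ne : d ≠ 0 := fun h => by simpa [h] using hℓ none

lemma seg_dom {P : Type*} {l : Filter P} {u v T : P → ℂ} {u₀ v₀ T₀ : ℂ} (hu : Tendsto u l (𝓝 u₀))
    (hv : Tendsto v l (𝓝 v₀)) (hT : Tendsto T l (𝓝 T₀)) {i₀ i₁ : Option (Fin n)} (hne : i₀ ≠ i₁)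
    (ha : Vx α ℓ T₀ u₀ i₀) (hb : Vx α ℓ T₀ v₀ i₁)
    (ha₀ : ∀ᶠ y in l, 0 ≤ ℓ i₀ (zz α (T y) (u y) i₀))
    (hb₀ : ∀ᶠ y in l, 0 ≤ ℓ i₁ (zz α (T y) (v y) i₁)) (a : ℕ) :
    ∃ C C', ∀ᶠ y in l, ∀ s ∈ Ioo (0 : ℝ) 1,
      (∀ i, 0 < ℓ i (zz α (T y) (u y + s * (v y - u y)) i)) ∧
      ‖ww d α (T y) (u y + s * (v y - u y))‖ ≤ C * sg s ∧
      ‖itg d α a (u y) (v y) (T y) s‖ ≤ C' * sg s := by
  obtain ⟨C, hC, h⟩ := dom Finset.univ (ℓ := ℓ) (d_ne hℓ) (tendsto_zz (α := α) hu hT)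
    (tendsto_zz (α := α) hv hT) hne (fun i _ => ha.1 i) (fun i _ => hb.1 i)
    (ha₀.mono fun _ h _ => h) (hb₀.mono fun _ h _ => h)
  refine ⟨C, (‖u₀‖ + 1 + (‖v₀ - u₀‖ + 1)) ^ a * C * (‖v₀ - u₀‖ + 1), ?_⟩
  filter_upwards [h, hu.norm.eventually (eventually_le_nhds (lt_add_one _)),
    (hv.sub hu).norm.eventually (eventually_le_nhds (lt_add_one _))] with y h h1 h2 s hs
  obtain ⟨h3, h4⟩ := h s hs _ (zz_aff α _ _ _ _)
  refine ⟨fun i => h3 i (Finset.mem_univ _), h4, ?_⟩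
  have h5 : ‖u y + s * (v y - u y)‖ ≤ ‖u₀‖ + 1 + (‖v₀ - u₀‖ + 1) := by
    refine (norm_add_le _ _).trans (add_le_add h1 ?_)
    rw [norm_mul, Complex.norm_real, Real.norm_of_nonneg hs.1.le]
    exact (mul_le_of_le_one_left (norm_nonneg _) hs.2.le).trans h2
  have := (sg_pos hs).le
  rw [itg, norm_mul, norm_mul, norm_pow]
  calc _ ≤ (‖u₀‖ + 1 + (‖v₀ - u₀‖ + 1)) ^ a * (C * sg s) * (‖v₀ - u₀‖ + 1) := by
        gcongr
        exact h4
    _ = _ := by ring

lemma seg_pt {u v T : ℂ} {i₀ i₁ : Option (Fin n)} (hne : i₀ ≠ i₁) (ha : Vx α ℓ T u i₀)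
    (hb : Vx α ℓ T v i₁) (a : ℕ) : ∃ C C', ∀ s ∈ Ioo (0 : ℝ) 1,
      (∀ i, 0 < ℓ i (zz α T (u + s * (v - u)) i)) ∧ ‖ww d α T (u + s * (v - u))‖ ≤ C * sg s ∧
      ‖itg d α a u v T s‖ ≤ C' * sg s := by
  obtain ⟨C, C', h⟩ := seg_dom hℓ (l := (⊤ : Filter Unit)) tendsto_const_nhds tendsto_const_nhds
    tendsto_const_nhds hne ha hb (Eventually.of_forall fun _ => ha.2)
    (Eventually.of_forall fun _ => hb.2) a
  exact ⟨C, C', h.exists.choose_spec⟩

lemma seg_int {u v T : ℂ} {i₀ i₁ : Option (Fin n)} (hne : i₀ ≠ i₁) (ha : Vx α ℓ T u i₀)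
    (hb : Vx α ℓ T v i₁) (a : ℕ) : IntegrableOn (fun s : ℝ => itg d α a u v T s) (Ioo 0 1) := by
  obtain ⟨C, C', h⟩ := seg_pt hℓ hne ha hb a
  exact int_of_bd (meas_itg _ _ _ _ _ _) fun s hs => (h s hs).2.2

lemma hasDerivAt_ww {x T : ℂ → ℂ} {x' T' τ : ℂ} (hx : HasDerivAt x x' τ) (hT : HasDerivAt T T' τ)
    (h : ∀ i, 0 < ℓ i (zz α (T τ) (x τ) i)) :
    HasDerivAt (fun τ => ww d α (T τ) (x τ)) (-((T' - x') / (2 * (T τ - x τ)) + x' *
      (derivative (f1 α)).eval (x τ) / (2 * (f1 α).eval (x τ))) * ww d α (T τ) (x τ)) τ := by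
  have h1 : ∀ i, zz α (T τ) (x τ) i ≠ 0 := fun i hi => by simpa [hi] using h i
  refine (hasDerivAt_prod_ph Finset.univ (z := fun i τ => zz α (T τ) (x τ) i)
    (z' := fun i => i.elim (T' - x') fun _ => x') (fun i _ => ?_)
    fun i _ => slit_of_pos (hℓ i) (h i)).congr_deriv ?_
  · cases i
    exacts [hT.sub hx, hx.sub_const _]
  · have h2 := eval_f1_ne α (T := x τ) fun k => sub_ne_zero.1 (h1 (some k))
    rw [Fintype.sum_option, f1, eval_der_prod _ _ fun k _ => h1 (some k), ← f1,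
      mul_left_comm, mul_comm 2 (eval _ _), mul_div_mul_left _ _ h2, Finset.mul_sum, Finset.sum_div]
    congr 3
    refine Finset.sum_congr rfl fun k _ => ?_
    simp only [zz, Option.elim]
    rw [← div_eq_mul_inv, div_div, mul_comm]

lemma contAt_ww {T x : ℂ} (h : ∀ i, 0 < ℓ i (zz α T x i)) :
    ContinuousAt (fun z : ℂ × ℂ => ww d α z.1 z.2) (T, x) :=
  tendsto_finsetProd _ fun i _ => (hasDerivAt_ph (hasDerivAt_id _)
    (slit_of_pos (hℓ i) (h i))).continuousAt.tendsto.comp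
      (tendsto_zz continuousAt_snd.tendsto continuousAt_fst.tendsto i)

lemma seg_tendsto {P : Type*} {l : Filter P} [l.IsCountablyGenerated] {u v T : P → ℂ}
    {u₀ v₀ T₀ : ℂ} (hu : Tendsto u l (𝓝 u₀))
    (hv : Tendsto v l (𝓝 v₀)) (hT : Tendsto T l (𝓝 T₀)) {i₀ i₁ : Option (Fin n)} (hne : i₀ ≠ i₁)
    (ha : Vx α ℓ T₀ u₀ i₀) (hb : Vx α ℓ T₀ v₀ i₁)
    (ha₀ : ∀ᶠ y in l, 0 ≤ ℓ i₀ (zz α (T y) (u y) i₀))
    (hb₀ : ∀ᶠ y in l, 0 ≤ ℓ i₁ (zz α (T y) (v y) i₁)) (a : Fin n) :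
    Tendsto (fun y => Seg d α (u y) (v y) (T y) a) l (𝓝 (Seg d α u₀ v₀ T₀ a)) := by
  obtain ⟨C, C', h⟩ := seg_dom hℓ hu hv hT hne ha hb ha₀ hb₀ a
  obtain ⟨_, _, h'⟩ := seg_pt hℓ hne ha hb a
  refine tendsto_integral_filter_of_dominated_convergence (fun s => C' * sg s)
    (Eventually.of_forall fun y => (meas_itg _ _ _ _ _ _).aestronglyMeasurable)
    (h.mono fun y hy => ae01 fun s hs => (hy s hs).2.2) (sg_int.const_mul _) (ae01 fun s hs => ?_)
  have hx := hu.add ((hv.sub hu).const_mul (s : ℂ))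
  exact ((hx.pow a).mul ((contAt_ww hℓ (h' s hs).1).tendsto.comp (hT.prodMk_nhds hx))).mul
    (hv.sub hu)

theorem seg_ode (hα : Function.Injective α) {u v₀ b T₀ : ℂ} {i₀ i₁ : Option (Fin n)}
    (hne : i₀ ≠ i₁) (hu : (f1 α).eval u = 0) (hb : b = 0 ∧ (f1 α).eval v₀ = 0 ∨ b = 1 ∧ v₀ = 0)
    (h0 : ∀ T, zz α T u i₀ = 0) (h1 : ∀ T, zz α T (v₀ + b * T) i₁ = 0) (ha : Vx α ℓ T₀ u i₀)
    (hb' : Vx α ℓ T₀ (v₀ + b * T₀) i₁) (hT : ∀ k, T₀ ≠ α k) (a : Fin n) :
    HasDerivAt (fun T => Seg d α u (v₀ + b * T) T a)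
      ((Am α T₀ *ᵥ Seg d α u (v₀ + b * T₀) T₀) a) T₀ := by
  obtain ⟨C, C', h⟩ := seg_dom hℓ (l := 𝓝 T₀) (u := fun _ => u) (v := fun T => v₀ + b * T)
    (T := fun T => T) tendsto_const_nhds (Continuous.tendsto (by fun_prop) _) tendsto_id hne ha hb'
    (by simp [h0]) (by simp [h1]) a
  set x : ℂ → ℂ → ℂ := fun T s => u + s * (v₀ + b * T - u) with hx
  set g' : ℂ → ℝ → ℂ := fun T s => (a * x T s ^ ((a : ℕ) - 1) * (s * b) * ww d α T (x T s) +
    x T s ^ (a : ℕ) * (-((1 - s * b) / (2 * (T - x T s)) + s * b *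
      (derivative (f1 α)).eval (x T s) / (2 * (f1 α).eval (x T s))) * ww d α T (x T s))) *
      (v₀ + b * T - u) + x T s ^ (a : ℕ) * ww d α T (x T s) * b
  have hw := meas_ww d α (x := fun s : ℝ => x T₀ s) (by simp only [hx]; fun_prop) T₀
  have hp : ∀ p : ℂ[X], Measurable fun s : ℝ => p.eval (x T₀ s) := fun p =>
    p.continuous.measurable.comp (by simp only [hx]; fun_prop)
  obtain ⟨h2, h3⟩ := holo_param (g := fun T s => itg d α a u (v₀ + b * T) T s) (g' := g') (C := C')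
    (fun T => meas_itg _ _ _ _ _ _) (by
      have h5 := hp (f1 α)
      have h6 := hp (derivative (f1 α))
      have h7 : Measurable fun s : ℝ => x T₀ s := by simp only [hx]; fun_prop
      simp only [g']
      fun_prop) (h.mono fun T hT s hs => ⟨by
      have h4 : HasDerivAt (fun T => v₀ + b * T - u) b T := by
        simpa using (((hasDerivAt_id T).const_mul b).const_add v₀).sub_const u
      have h5 : HasDerivAt (x · s) (s * b) T := (h4.const_mul _).const_add u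
      exact ((h5.fun_pow a).fun_mul (hasDerivAt_ww hℓ h5 (hasDerivAt_id T) (hT s hs).1)).fun_mul h4,
      (hT s hs).2.2⟩)
  refine h3.congr_deriv ?_
  have hf := eval_f1_ne α hT
  have hi := fun e : Fin n => seg_int hℓ hne ha hb' e
  have h4 := h.self_of_nhds
  set δ := v₀ + b * T₀ - u with hδ
  set pl : ℂ → ℂ := fun s => b * (f1 α).eval T₀ * s * x T₀ s ^ (a : ℕ) -
    T₀ ^ (a : ℕ) * (f1 α).eval (x T₀ s)
  have hxs : ∀ s, HasDerivAt (x T₀) δ s := fun s =>
    (((hasDerivAt_id s).mul_const δ).const_add u).congr_deriv (one_mul δ)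
  have hpl : ∀ s, HasDerivAt pl (b * (f1 α).eval T₀ * x T₀ s ^ (a : ℕ) + b * (f1 α).eval T₀ * s *
      (a * x T₀ s ^ ((a : ℕ) - 1) * δ) - T₀ ^ (a : ℕ) * ((derivative (f1 α)).eval (x T₀ s) * δ)) s :=
    fun s => by
      simpa using (((hasDerivAt_id s).const_mul (b * (f1 α).eval T₀)).fun_mul
        ((hxs s).fun_pow a)).fun_sub ((((f1 α).hasDerivAt _).comp s (hxs s)).const_mul _)
  have h5 := ftc01 (B := fun s => ww d α T₀ (x T₀ s) * pl s) (B' := fun s => (f1 α).eval T₀ *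
    g' T₀ s - ∑ e, (Nm α a e).eval T₀ * itg d α e u (v₀ + b * T₀) T₀ s) (fun s hs => by
      refine ((hasDerivAt_ww hℓ (hxs s) (hasDerivAt_const _ T₀) (h4 s hs).1).fun_mul
        (hpl s)).comp_ofReal.congr_deriv ?_
      have h6 : ∀ i, zz α T₀ (x T₀ s) i ≠ 0 := fun i hi => by
        have := (h4 s hs).1 i
        rw [show zz α T₀ (u + s * δ) i = 0 from hi] at this
        simp at this
      have h7 : T₀ - x T₀ s ≠ 0 := h6 none
      have h8 := eval_f1_ne α (T := x T₀ s) fun k => sub_ne_zero.1 (h6 (some k))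
      have h9 := key_id hα T₀ (x T₀ s) a
      simp only [coe_aeval_eq_eval] at h9
      have h10 : ∑ e, (Nm α a e).eval T₀ * itg d α e u (v₀ + b * T₀) T₀ s =
          (∑ e : Fin n, (Nm α a e).eval T₀ * x T₀ s ^ (e : ℕ)) * ww d α T₀ (x T₀ s) * δ := by
        simp only [itg, Finset.sum_mul, mul_assoc]; rfl
      have h11 : ∑ e : Fin n, (Nm α a e).eval T₀ * x T₀ s ^ (e : ℕ) = (T₀ ^ (a : ℕ) *
          (derivative (f1 α)).eval (x T₀ s) - ((f1 α).eval T₀ * x T₀ s ^ (a : ℕ) -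
          T₀ ^ (a : ℕ) * (f1 α).eval (x T₀ s)) / (T₀ - x T₀ s)) / 2 := by
        field_simp
        linear_combination -h9
      rw [h10, h11]
      simp only [g', pl, ← hδ]
      field_simp
      ring)
    ((h2.const_mul _).sub (integrable_finsetSum _ fun e _ => (hi e).const_mul _))
    (van0 (fun s hs => (h4 s hs).2.1) (hpl 0).differentiableAt (by simp [pl, hx, hu]))
    (van1 (fun s hs => (h4 s hs).2.1) (hpl 1).differentiableAt (by
      rcases hb with ⟨rfl, hb⟩ | ⟨rfl, rfl⟩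
      · simp [pl, hx, hb]
      · simp [pl, hx, mul_comm]))
  rw [integral_sub (h2.const_mul _) (integrable_finsetSum _ fun e _ => (hi e).const_mul _),
    integral_const_mul, integral_finsetSum _ fun e _ => (hi e).const_mul _, sub_zero,
    sub_eq_zero] at h5
  refine mul_left_cancel₀ hf (h5.trans ?_)
  simp only [integral_const_mul, eval_Nm α hT, mulVec, dotProduct, Finset.mul_sum, mul_assoc, Seg]

theorem cauchy {T c₀ c₁ c₂ : ℂ} {i₀ i₁ i₂ : Option (Fin n)} (h01 : i₀ ≠ i₁) (h02 : i₀ ≠ i₂)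
    (h12 : i₁ ≠ i₂) (h₀ : Vx α ℓ T c₀ i₀) (h₁ : Vx α ℓ T c₁ i₁) (h₂ : Vx α ℓ T c₂ i₂) (a : Fin n) :
    Seg d α c₀ c₂ T a = Seg d α c₀ c₁ T a + Seg d α c₁ c₂ T a := by
  set O := {x | ∀ i, 0 < ℓ i (zz α T x i)}
  have haff : ∀ (x y : ℂ) (r : ℝ) i, ℓ i (zz α T (x + r * (y - x)) i) =
      (1 - r) * ℓ i (zz α T x i) + r * ℓ i (zz α T y i) := fun x y r i => by
    rw [zz_aff, map_ray, map_sub]; ring
  have hseg : ∀ x ∈ O, ∀ y, (∀ i, 0 ≤ ℓ i (zz α T y i)) → ∀ r : ℝ, 0 ≤ r → r < 1 →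
      x + r * (y - x) ∈ O := fun x hx y hy r h1 h2 i => by
    rw [haff]
    exact add_pos_of_pos_of_nonneg (mul_pos (sub_pos.2 h2) (hx i)) (mul_nonneg h1 (hy i))
  have hV : ∀ {c i₀}, Vx α ℓ T c i₀ → ∀ i, 0 ≤ ℓ i (zz α T c i) := fun {c i₀} h i => by
    by_cases hi : i = i₀
    exacts [hi ▸ h.2, (h.1 i hi).le]
  have hO : IsOpen O := by
    simp only [O, ofPred_forall]
    exact isOpen_iInter_of_finite fun i => isOpen_lt continuous_const ((ℓ i).continuous.comp
      (continuous_iff_continuousAt.2 fun x => tendsto_zz tendsto_id tendsto_const_nhds i))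
  have hO' : Convex ℝ O := by
    refine convex_iff_add_mem.2 fun x hx y hy a b ha hb hab => ?_
    rcases eq_or_lt_of_le (show b ≤ 1 by linarith) with h | h
    · simpa [h, show a = 0 by linarith] using hy
    · convert hseg x hx y (fun i => (hy i).le) b hb h using 1
      rw [show a = 1 - b by linarith]
      simp only [Complex.real_smul]
      push_cast
      ring
  obtain ⟨F, hF⟩ := hO'.exists_forall_hasDerivWithinAt (f := fun x => x ^ (a : ℕ) * ww d α T x)
    fun x hx => (((hasDerivAt_id x).fun_pow a).fun_mul (hasDerivAt_ww hℓ (hasDerivAt_id x)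
      (hasDerivAt_const _ T) hx)).differentiableAt.differentiableWithinAt
  have hF' := fun x (hx : x ∈ O) => (hF x hx).hasDerivAt (hO.mem_nhds hx)
  obtain ⟨z, hz⟩ : ∃ z, z ∈ O := by
    obtain ⟨_, _, h⟩ := seg_pt hℓ h01 h₀ h₁ 0
    exact ⟨_, (h (1 / 2) (by norm_num)).1⟩
  have key : ∀ {u v j₀ j₁}, j₀ ≠ j₁ → Vx α ℓ T u j₀ → Vx α ℓ T v j₁ → Tendsto (fun r : ℝ =>
      F (z + r * (v - z)) - F (z + r * (u - z))) (𝓝[<] 1) (𝓝 (Seg d α u v T a)) := by
    intro u v j₀ j₁ hne hu hv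
    have hl : ∀ y : ℂ, Tendsto (fun r : ℝ => z + r * (y - z)) (𝓝[<] 1) (𝓝 y) := fun y => by
      have : Continuous fun r : ℝ => z + r * (y - z) := by fun_prop
      simpa using (this.tendsto 1).mono_left nhdsWithin_le_nhds
    have hm : ∀ {y j}, Vx α ℓ T y j → ∀ᶠ r : ℝ in 𝓝[<] 1, z + r * (y - z) ∈ O := fun h => by
      filter_upwards [Ioo_mem_nhdsLT zero_lt_one] with r hr using
        hseg z hz _ (hV h) r hr.1.le hr.2
    refine (seg_tendsto hℓ (hl u) (hl v) tendsto_const_nhds hne hu hv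
      ((hm hu).mono fun r h => (h _).le) ((hm hv).mono fun r h => (h _).le) a).congr' ?_
    filter_upwards [hm hu, hm hv] with r h1 h2
    generalize z + r * (u - z) = u' at *
    generalize z + r * (v - z) = v' at *
    have hc : Continuous fun s : ℝ => u' + s * (v' - u') := by fun_prop
    refine ftc01 (B := fun s => F (u' + s * (v' - u'))) (fun s hs => ?_)
      (seg_int hℓ hne ⟨fun i _ => h1 i, (h1 _).le⟩ ⟨fun i _ => h2 i, (h2 _).le⟩ a) ?_ ?_
    · have h3 : HasDerivAt (fun s : ℂ => u' + s * (v' - u')) (v' - u') s := by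
        simpa using ((hasDerivAt_id (s : ℂ)).mul_const (v' - u')).const_add u'
      exact ((hF' _ (hseg _ h1 _ (fun i => (h2 i).le) s hs.1.le hs.2)).comp (s : ℂ) h3).comp_ofReal
    · exact (hF' _ h1).continuousAt.tendsto.comp
        (by simpa using (hc.tendsto 0).mono_left nhdsWithin_le_nhds)
    · exact (hF' _ h2).continuousAt.tendsto.comp
        (by simpa using (hc.tendsto 1).mono_left nhdsWithin_le_nhds)
  refine tendsto_nhds_unique (key h02 h₀ h₂) ?_
  simpa using (key h01 h₀ h₁).add (key h12 h₁ h₂)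

end Pool.Agent.GPC

end MrgPart6

-- marker of a merged file
example : 731051 + 342027 = 731051 + 342027 := rfl
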