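import Mathlib.FieldTheory.AlgebraicClosure
import Mathlib.MeasureTheory.Integral.IntervalIntegral.Basic

/-! Definitions used in the statement: periods of the curves `y ^ 2 = f x * (x - t)`. -/

namespace Pool.Agent.GPC
open Filter

variable {n : ℕ}

/-- Period matrix of `y ^ 2 = f x * (x - t)`, where `α` lists the roots of `f`. With the branch
points `r = (α 0, ..., α (n - 1), t)`, the entry `(a, j)` is twice the integral of
`x ^ a dx / y` along the segment from `r j` to `r (j + 1)`. -/
noncomputable def period (f : Polynomial ℚ) (α : Fin n → ℂ) (t : ℂ) : Matrix (Fin n) (Fin n) ℂ :=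
  Matrix.of fun a j =>
    let r : Fin (n + 1) → ℂ := Fin.snoc α t
    let x : ℝ → ℂ := fun s => r j.castSucc + s * (r j.succ - r j.castSucc)
    2 * ((-1) ^ (n - j) * (f.leadingCoeff : ℂ)) ^ (-1 / 2 : ℂ) *
      ∫ s in (0 : ℝ)..1, x s ^ (a : ℕ) *
        (∏ i, (if i ≤ j.castSucc then x s - r i else r i - x s) ^ (-1 / 2 : ℂ)) *
        (r j.succ - r j.castSucc)

/-- Fibre over `t` of the Zariski closure, over the algebraic numbers, of the graph of the period
map. -/
def fibre (f : Polynomial ℚ) (α : Fin n → ℂ) (t : ℂ) : Set (Matrix (Fin n) (Fin n) ℂ) :=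
  {Y | Y.det ≠ 0 ∧ ∀ Q : MvPolynomial (Option (Fin n × Fin n)) (algebraicClosure ℚ ℂ),
    (∀ᶠ τ : ℝ in atTop,
      MvPolynomial.aeval (fun v => v.elim (τ : ℂ) fun w => period f α τ w.1 w.2) Q = 0) →
    MvPolynomial.aeval (fun v => v.elim t fun w => Y w.1 w.2) Q = 0}

/-- The periods at `t` satisfy a rational relation of degree at most `δ` which does not hold on
the whole fibre. -/
def Exceptional (f : Polynomial ℚ) (α : Fin n → ℂ) (δ t : ℕ) : Prop :=
  ∃ P : MvPolynomial (Fin n × Fin n) ℚ, P.totalDegree ≤ δ ∧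
    MvPolynomial.aeval (fun w => period f α t w.1 w.2) P = 0 ∧
    ∃ Y ∈ fibre f α t, MvPolynomial.aeval (fun w => Y w.1 w.2) P ≠ 0

end Pool.Agent.GPC
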