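import Mathlib.LinearAlgebra.PiTensorProduct.Generators
import Pool.Agent.MP_cbf1af_ag.h26.Seg
import Pool.Agent.MP_cbf1af_ag.h26.Jet
import Pool.Agent.MP_cbf1af_ag.h26.Stmt

-- ======== part 0: formerly Pool.Agent.MP_cbf1af_ag.h26.Asm1
section MrgPart0

/-! Functional independence and the zero estimate for products of words. -/

namespace Pool.Agent.GPC
open Filter Topology Matrix Polynomial

/-- product of words -/
def wp {A ι σ : Type*} [CommRing A] [Fintype ι] {D : ℕ} (x : ι → σ → A)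
    (w : ι → Fin D → Option σ) : A := ∏ il : ι × Fin D, (w il.1 il.2).elim 1 (x il.1)

section
variable {ι σ : Type*} [Fintype ι] {D : ℕ}

lemma wp_eq {A : Type*} [CommRing A] (x : ι → σ → A) (w : ι → Fin D → Option σ) :
    wp x w = ∏ i, wd (x i) (w i) := Fintype.prod_prod_type _

lemma nb_wp {r : ℝ} (hr : 0 ≤ r) {x : ι → σ → PowerSeries ℂ} (hx : ∀ i v, Nb r (x i v) 2)
    (w : ι → Fin D → Option σ) : Nb r (wp x w) (2 ^ Fintype.card (ι × Fin D)) := by
  have := nb_prod hr Finset.univ (f := fun il : ι × Fin D => (w il.1 il.2).elim 1 (x il.1))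
    (b := fun _ => 2) fun il _ => by
      cases w il.1 il.2
      exacts [(nb_one hr).mono one_le_two, hx _ _]
  rwa [Finset.prod_const, Finset.card_univ] at this

lemma cv_elim {r : ℝ} (hr : 0 ≤ r) {x : σ → PowerSeries ℂ} (hx : ∀ v, Cv r (x v)) (o : Option σ) :
    Cv r (o.elim 1 x) := by
  cases o
  exacts [(nb_one hr).1, hx _]

lemma cv_wp {r : ℝ} (hr : 0 ≤ r) {x : ι → σ → PowerSeries ℂ} (hx : ∀ i v, Cv r (x i v))
    (w : ι → Fin D → Option σ) : Cv r (wp x w) := cv_prod hr _ fun _ _ => cv_elim hr (hx _) _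

lemma ev_wp {r : ℝ} {z : ℂ} (hz : ‖z‖ ≤ r) {x : ι → σ → PowerSeries ℂ} (hx : ∀ i v, Cv r (x i v))
    (w : ι → Fin D → Option σ) : ev z (wp x w) = wp (fun i v => ev z (x i v)) w := by
  rw [wp, ev_prod _ (fun _ _ => cv_elim ((norm_nonneg _).trans hz) (hx _) _) hz]
  refine Finset.prod_congr rfl fun il _ => ?_
  cases w il.1 il.2
  exacts [ev_one, rfl]

lemma wp_apply {X : Type*} (x : ι → σ → X → ℂ) (w : ι → Fin D → Option σ) (y : X) :
    wp x w y = wp (fun i v => x i v y) w := by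
  rw [wp, Finset.prod_apply]
  refine Finset.prod_congr rfl fun il _ => ?_
  cases w il.1 il.2 <;> rfl

lemma wd_apply {X : Type*} (x : σ → X → ℂ) (w : Fin D → Option σ) (y : X) :
    wd x w y = wd (fun v => x v y) w := by
  rw [wd, Finset.prod_apply]
  refine Finset.prod_congr rfl fun l _ => ?_
  cases w l <;> rfl

lemma tensor_indep [DecidableEq ι] {X : Type*} {r : ℕ} {f : ι → Fin r → X → ℂ}
    (hf : ∀ i, LinearIndependent ℂ (f i)) (c : (ι → Fin r) → ℂ)
    (h : ∀ x : ι → X, ∑ β, c β * ∏ i, f i (β i) (x i) = 0) (β₀ : ι → Fin r) : c β₀ = 0 := by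
  set Φ : MultilinearMap ℂ (fun _ : ι => Fin r → ℂ) ℂ := ∑ β, c β •
    (MultilinearMap.mkPiAlgebra ℂ ι ℂ).compLinearMap fun i => LinearMap.proj (β i)
  have h1 : Φ = 0 := MultilinearMap.ext_of_span_eq_top (g := fun {i} => flip (f i))
    (fun i => span_flip_eq_top_iff_linearIndependent.2 (hf i)) fun x => by
      simpa [Φ, flip] using h x
  have h2 := DFunLike.congr_fun h1 fun i => Pi.single (β₀ i) 1
  simp only [Φ, _root_.sum_apply, _root_.smul_apply,
    MultilinearMap.compLinearMap_apply, MultilinearMap.mkPiAlgebra_apply, LinearMap.proj_apply,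
    smul_eq_mul, _root_.zero_apply] at h2
  rw [Finset.sum_eq_single β₀ (fun β _ hβ => ?_) (by simp)] at h2
  · simpa using h2
  · obtain ⟨i, hi⟩ := Function.ne_iff.1 hβ
    rw [Finset.prod_eq_zero (Finset.mem_univ i) (by simp [hi]), mul_zero]

end

lemma poly_zero_of_freq {q : ℂ[X]} (h : ∃ᶠ τ : ℝ in atTop, q.eval (τ : ℂ) = 0) : q = 0 := by
  by_contra hq
  have : ∀ᶠ τ : ℝ in atTop, ∀ z ∈ q.roots.toFinset, τ ≠ z.re :=
    (eventually_all_finset _).2 fun z _ => eventually_ne_atTop _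
  obtain ⟨τ, h1, h2⟩ := (h.and_eventually this).exists
  exact h2 τ (by simp [hq, h1]) (by simp)

/-- the analytic data -/
structure Ctx {n : ℕ} (c : ℂ) (α : Fin n → ℂ) (p : ℂ →L[ℝ] ℝ) (p₀ : ℝ)
    (Y : ℂ → Matrix (Fin n) (Fin n) ℂ) (J : Matrix (Fin n) (Fin n) ℂ) (L : ℕ) : Prop where
  hc : c ≠ 0
  p1 : 0 < p 1
  sol : Sol α (HP p p₀) Y
  ne : ∀ T ∈ HP p p₀, ∀ k, T ≠ α k
  anti : Jᵀ = -J
  det : J.det ≠ 0
  pair : ∀ T ∈ HP p p₀, (Y T)ᵀ * Kt α T * Y T = J
  inv : ∀ {ι : Type} [Fintype ι] (h : ι → ℝ), (∀ i j, i ≠ j → L ≤ |h i - h j|) →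
    ∀ Φ ∈ PP ι n, (∀ᶠ τ : ℝ in atTop, Φ (τ, fun j => Y (τ + h j)) = 0) →
    ∀ g : ι → Matrix (Fin n) (Fin n) ℂ, (∀ j, g j ∈ SpS J) →
    ∀ T : ℂ, (∀ j, T + h j ∈ HP p p₀) → Φ (T, fun j => Y (T + h j) * g j) = 0

variable {n : ℕ} {c : ℂ} {α : Fin n → ℂ} {p : ℂ →L[ℝ] ℝ} {p₀ : ℝ}
  {Y : ℂ → Matrix (Fin n) (Fin n) ℂ} {J : Matrix (Fin n) (Fin n) ℂ} {L : ℕ}
  (H : Ctx c α p p₀ Y J L)
include H

lemma Ctx.detY : ∀ T ∈ HP p p₀, (Y T).det ≠ 0 := fun T hT h => H.det (by
  rw [← H.pair T hT, Matrix.det_mul, h, mul_zero])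

lemma Ctx.invY {T : ℂ} (hT : T ∈ HP p p₀) : J⁻¹ * (Y T)ᵀ * Kt α T = (Y T)⁻¹ := by
  refine (Matrix.inv_eq_left_inv ?_).symm
  rw [Matrix.mul_assoc, Matrix.mul_assoc, ← Matrix.mul_assoc (Y T)ᵀ, H.pair T hT,
    Matrix.nonsing_inv_mul _ H.det.isUnit]

lemma Ctx.evU {h : ℕ} {K : ℝ} (hK : 0 < K) (hf : Cv K⁻¹ (finv c α))
    (hU : ∀ j a b, Nb K⁻¹ (Uterm c α h j a b) ((1 / 2) ^ j)) {T : ℂ} (hT : K ≤ ‖T‖)
    (hr : Metric.ball T (h + 1) ⊆ HP p p₀) :
    (Uh c α h).map (ev T⁻¹) = Y (T + h) * (Y T)⁻¹ := by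
  rw [← ev_Uh H.hc H.sol (isOpen_HP _ _) H.ne hK hf hU hT hr (by simp),
    Matrix.mul_nonsing_inv_cancel_right _ _
      (H.detY T (hr (Metric.mem_ball_self (by positivity)))).isUnit]

theorem Ctx.indep {ι : Type} [Fintype ι] [DecidableEq ι] (h : ι → ℕ) (h0 : ∀ i, L ≤ h i)
    (hh : ∀ i j, i ≠ j → (L : ℝ) ≤ |(h i : ℝ) - h j|) (D : ℕ) :
    ∃ w : ι → Fin (HF J D) → Fin D → Option (Fin n × Fin n), ∀ P : (ι → Fin (HF J D)) → ℂ[X],
      ∑ β, (P β : PowerSeries ℂ) * wp (fun i v => Uh c α (h i) v.1 v.2) (fun i => w i (β i)) = 0 →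
      ∀ β, P β = 0 := by
  obtain ⟨K₀, hK₀, hK⟩ := exists_K0 c α
  obtain ⟨K₁, hK₁⟩ := hp_ball p p₀ H.p1
  set M := ∑ i, h i
  have hM : ∀ i, (h i : ℝ) ≤ M := fun i => by
    exact_mod_cast Finset.single_le_sum (f := h) (fun _ _ => Nat.zero_le _) (Finset.mem_univ i)
  set K : ℝ := K₀ * (M + 1)
  have hK0 : 0 < K := by positivity
  have hK' := fun i => hK (h i) K (by simp only [K]; gcongr; exact_mod_cast hM i)
  have hball : ∀ᶠ τ : ℝ in atTop, Metric.ball (τ : ℂ) (M + 2) ⊆ HP p p₀ :=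
    (eventually_ge_atTop _).mono (hK₁ M)
  set h' : Option ι → ℝ := fun o => o.elim 0 fun i => h i
  have hin : ∀ᶠ τ : ℝ in atTop, ∀ o, (τ : ℂ) + h' o ∈ HP p p₀ := hball.mono fun τ hτ o => hτ <| by
    rcases o with _ | i
    · simp [h']; positivity
    · have := hM i
      simp [h']; linarith
  obtain ⟨w, hw⟩ : ∃ w : ι → Fin (HF J D) → Fin D → Option (Fin n × Fin n), ∃ᶠ τ : ℝ in atTop,
      ∀ i, LinearIndependent ℂ fun j => wd (xf J (Y (τ + h i)) (Y τ)⁻¹) (w i j) := by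
    by_contra hcon
    simp only [not_exists, not_frequently] at hcon
    obtain ⟨τ, h1, h2⟩ := (hin.and (eventually_all.2 hcon)).exists
    have h3 : (Y τ)⁻¹.det ≠ 0 :=
      (Matrix.isUnit_nonsing_inv_det _ (H.detY τ (by simpa [h'] using h1 none)).isUnit).ne_zero
    choose w hw using fun i => exists_words J (H.detY _ (h1 (some i))) h3 D
    exact h2 w hw
  refine ⟨w, fun P hP β₀ => ?_⟩
  set N := ∑ β, (P β).natDegree
  have hN : ∀ β, (P β).natDegree ≤ N := fun β => Finset.single_le_sum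
    (f := fun β => (P β).natDegree) (fun _ _ => Nat.zero_le _) (Finset.mem_univ β)
  set x : ι → Fin n × Fin n → ℂ × (Option ι → Matrix (Fin n) (Fin n) ℂ) → ℂ := fun i v z =>
    (z.2 (some i) * (J⁻¹ * (z.2 none)ᵀ * Kt α z.1)) v.1 v.2
  set Φ := ∑ β, aeval (R := ℂ) Prod.fst (reflect N (P β)) * wp x fun i => w i (β i)
  have hΦ : ∀ z, Φ z = ∑ β, (reflect N (P β)).eval z.1 * wp (fun i v => x i v z) fun i => w i (β i) :=
    fun z => by simp only [Φ, Finset.sum_apply, Pi.mul_apply, wp_apply, aeval_pi_apply₂,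
      coe_aeval_eq_eval]
  have hΦm : Φ ∈ PP (Option ι) n := by
    have h1 : Prod.fst ∈ PP (Option ι) n := Algebra.subset_adjoin (Set.mem_insert _ _)
    have h2 : ∀ j a b, (fun z : ℂ × (Option ι → Matrix (Fin n) (Fin n) ℂ) => z.2 j a b) ∈
      PP (Option ι) n := fun j a b => Algebra.subset_adjoin (Set.mem_insert_of_mem _ ⟨(j, a, b), rfl⟩)
    refine Subalgebra.sum_mem _ fun β _ => Subalgebra.mul_mem _
      (Algebra.adjoin_le (by simpa using h1) (aeval_mem_adjoin_singleton _ _))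
      (Subalgebra.prod_mem _ fun il _ => ?_)
    show (w il.1 (β il.1) il.2).elim 1 (x il.1) ∈ _
    rcases w il.1 (β il.1) il.2 with _ | v
    · exact Subalgebra.one_mem _
    have h3 := mul_entry_mem (PP (Option ι) n) (M := fun _ => J⁻¹) (M' := fun z => (z.2 none)ᵀ)
      (fun a b => Subalgebra.algebraMap_mem _ (J⁻¹ a b)) fun a b => h2 none b a
    have h4 := mul_entry_mem (PP (Option ι) n) h3 (M' := fun z => Kt α z.1) fun a b => by
      have : (fun z : ℂ × (Option ι → Matrix (Fin n) (Fin n) ℂ) => Kt α z.1 a b) =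
          algebraMap ℂ _ (Kt α 0 a b) + Prod.fst * algebraMap ℂ _ ((Kt α 1 - Kt α 0) a b) := by
        funext z; rw [Kt_lin]; rfl
      rw [this]
      exact Subalgebra.add_mem _ (Subalgebra.algebraMap_mem _ _)
        (Subalgebra.mul_mem _ h1 (Subalgebra.algebraMap_mem _ _))
    exact mul_entry_mem (PP (Option ι) n) (M := fun z => z.2 (some il.1)) (h2 _) h4 v.1 v.2
  have h3 := H.inv h' (by
    rintro (_ | i) (_ | j) hij
    · exact absurd rfl hij
    · simpa [h'] using h0 j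
    · simpa [h'] using h0 i
    · exact hh i j fun h => hij (congrArg _ h)) Φ hΦm (by
    filter_upwards [hball, hin, eventually_ge_atTop K] with τ h4 h5 h6
    have h7 : 0 < τ := hK0.trans_le h6
    have h8 : K ≤ ‖(τ : ℂ)‖ := by rwa [Complex.norm_real, Real.norm_of_nonneg h7.le]
    have h9 : ‖(τ : ℂ)⁻¹‖ ≤ K⁻¹ := by rw [norm_inv]; gcongr
    have cU := fun i (v : Fin n × Fin n) => (nb_Uh (inv_pos.2 hK0) (hK' i).2 v.1 v.2).1
    have h10 := congrArg (ev (τ : ℂ)⁻¹) hP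
    have h11 := (inv_pos.2 hK0).le
    rw [ev_sum _ (fun β _ => (cv_poly h11 _).mul h11 (cv_wp h11 cU _)) h9, ev_zero] at h10
    simp only [ev_mul (cv_poly h11 _) (cv_wp h11 cU _) h9, ev_poly, ev_wp h9 cU] at h10
    rw [hΦ, ← mul_eq_zero_iff_right (a := ∑ _, _) (pow_ne_zero N (inv_ne_zero
      (show (τ : ℂ) ≠ 0 by exact_mod_cast h7.ne'))), ← h10, Finset.sum_mul]
    refine Finset.sum_congr rfl fun β _ => ?_
    rw [← eval_reflect (inv_ne_zero (by exact_mod_cast h7.ne')) (hN β), inv_inv, mul_right_comm]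
    congr 2
    funext i v
    have h12 := H.evU hK0 (hK' i).1 (hK' i).2 h8
      ((Metric.ball_subset_ball (by linarith [hM i])).trans h4)
    simp only [x, h', Option.elim, Complex.ofReal_zero, add_zero, Complex.ofReal_natCast,
      H.invY (show (τ : ℂ) ∈ _ by simpa [h'] using h5 none), ← h12, Matrix.map_apply])
  refine (reflect_eq_zero_iff (N := N)).1 (poly_zero_of_freq ((hw.and_eventually hin).mono ?_))
  rintro τ ⟨h4, h5⟩
  refine tensor_indep h4 (fun β => (reflect N (P β)).eval (τ : ℂ)) (fun g => ?_) β₀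
  have h6 := h3 (fun o => o.elim 1 fun i => (g i).1) (by
    rintro (_ | i)
    exacts [one_mem_SpS, (g i).2]) τ h5
  simpa only [hΦ, wp_eq, wd_apply, xf, x, h', Option.elim, Complex.ofReal_zero, add_zero,
    Complex.ofReal_natCast, Matrix.mul_one,
    H.invY (show (τ : ℂ) ∈ _ by simpa [h'] using h5 none)] using h6

theorem Ctx.zero {ι κ : Type} [Fintype ι] [Fintype κ] (h : ι → ℕ) {D : ℕ}
    (w : κ → ι → Fin D → Option (Fin n × Fin n)) :
    ∃ C, ∀ (N : ℕ) (P : κ → ℂ[X]), (∀ β, (P β).natDegree ≤ N) →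
      ∑ β, (P β : PowerSeries ℂ) * wp (fun i v => Uh c α (h i) v.1 v.2) (w β) ≠ 0 →
      ∃ m ≤ (Fintype.card (ι × Fin D) + 1) ^ Fintype.card (ι × Fin n × Fin n) * N + C,
        PowerSeries.coeff m (∑ β, (P β : PowerSeries ℂ) *
          wp (fun i v => Uh c α (h i) v.1 v.2) (w β)) ≠ 0 := by
  classical
  set Z : Finset ℂ := ((Finset.univ.image fun v : ι × Fin n => α v.2 - h v.1) ∪
    Finset.univ.image α).erase 0
  have hZ : ∀ β ∈ Z, β ≠ 0 := fun β => Finset.ne_of_mem_erase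
  set T : ℂ[X] := X * ∏ β ∈ Z, (1 - C β * X)
  set y : ι × Fin n × Fin n → PowerSeries ℂ := fun v => Uh c α (h v.1) v.2.1 v.2.2
  have h1 : ∀ β ∈ Z, (1 - C β * X : ℂ[X]).natDegree = 1 := fun β hβ => by
    rw [show (1 - C β * X : ℂ[X]) = C (-β) * X + C 1 by simp; ring]
    exact natDegree_linear (neg_ne_zero.2 (hZ β hβ))
  have h2 : ∀ β ∈ Z, (1 - C β * X : ℂ[X]) ≠ 0 := fun β hβ h => by simpa [h] using h1 β hβ
  have h3 : ∀ u ∈ A1 ℂ y, (T : PowerSeries ℂ) * PowerSeries.derivative ℂ u ∈ Pl Z.card * A1 ℂ y := by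
    intro u hu
    induction hu using Submodule.span_induction with
    | mem u hu =>
      rcases hu with rfl | ⟨v, rfl⟩
      · simp
      · exact Uh_ode H.hc H.p1 H.sol H.ne H.detY (h v.1) Z
          (fun k hk => Finset.mem_erase.2 ⟨hk, Finset.mem_union_left _
            (Finset.mem_image.2 ⟨(v.1, k), Finset.mem_univ _, rfl⟩)⟩)
          (fun k hk => Finset.mem_erase.2 ⟨hk, Finset.mem_union_right _
            (Finset.mem_image.2 ⟨k, Finset.mem_univ _, rfl⟩)⟩) _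
          (fun a b => mem_A1 y (v.1, a, b)) _ _
    | zero => simp
    | add u u' _ _ hu hu' => rw [map_add, mul_add]; exact add_mem hu hu'
    | smul a u _ hu => rw [Derivation.map_smul, mul_smul_comm]; exact Submodule.smul_mem _ _ hu
  have h4 := gen_pow (E := ℂ) y (Fintype.card (ι × Fin D))
  have := h4.finite
  obtain ⟨C, hC⟩ := zero_lemma T Z.card (by
      rw [natDegree_mul X_ne_zero (Finset.prod_ne_zero_iff.2 h2), natDegree_prod _ _ h2,
        Finset.sum_congr rfl h1, natDegree_X]; simp [add_comm])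
    (insert 0 (Z.image (·⁻¹))) (by
      intro z hz
      rcases Finset.mem_insert.1 hz with rfl | hz
      · simp [T]
      · obtain ⟨β, hβ, rfl⟩ := Finset.mem_image.1 hz
        simp only [T, eval_mul, eval_prod]
        rw [Finset.prod_eq_zero hβ (by simp [hZ β hβ]), mul_zero])
    (by rw [Finset.card_insert_of_notMem (by simpa using fun h => hZ 0 h rfl),
      Finset.card_image_of_injective _ inv_injective]) _
    (deriv_pow_mem _ _ _ h3 (Fintype.card (ι × Fin D)))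
  refine ⟨C, fun N P hP hne => ?_⟩
  obtain ⟨m, hm, h5⟩ := hC N _ (Submodule.sum_mem _ fun β _ => Submodule.mul_mem_mul
    (coe_mem_Pl (hP β)) (prod_mem_pow_card Finset.univ fun il _ => by
      cases w β il.1 il.2
      exacts [one_mem_A1 y, mem_A1 y (il.1, _)])) hne
  exact ⟨m, hm.trans (by gcongr; exact h4.finrank_le), h5⟩

end Pool.Agent.GPC

end MrgPart0

-- ======== part 1: formerly Pool.Agent.MP_cbf1af_ag.h26.Asm2
section MrgPart1

/-! The dimension of the space of values and the heights of the jets. -/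

namespace Pool.Agent.GPC
open Filter Topology Matrix Module
open scoped Pointwise

section
open MvPolynomial
variable {E : Type*} [Field E] [Algebra E ℂ] {σ : Type*}

/-- polynomials of bounded degree with coefficients in a power of a subspace -/
def Gp (W : Submodule E ℂ) (σ : Type*) (D : ℕ) : Submodule E (MvPolynomial σ ℂ) where
  carrier := {Q | Q.totalDegree ≤ D ∧ ∀ γ, Q.coeff γ ∈ W ^ D}
  add_mem' := fun h h' => ⟨(totalDegree_add _ _).trans (max_le h.1 h'.1),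
    fun γ => by rw [coeff_add]; exact add_mem (h.2 γ) (h'.2 γ)⟩
  zero_mem' := ⟨by simp, by simp⟩
  smul_mem' := fun e _ h => ⟨(totalDegree_smul_le _ _).trans h.1,
    fun γ => by rw [coeff_smul]; exact Submodule.smul_mem _ _ (h.2 γ)⟩

lemma pow_le_Gp {W : Submodule E ℂ} (h1 : (1 : ℂ) ∈ W) {τ : Type*} {x : τ → MvPolynomial σ ℂ}
    (hx : ∀ v, x v ∈ Gp W σ 1) (D : ℕ) : A1 E x ^ D ≤ Gp W σ D := by
  classical
  have h0 : ∀ D, (1 : MvPolynomial σ ℂ) ∈ Gp W σ D := fun D => ⟨by simp, fun γ => by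
    rw [coeff_one]; split_ifs; exacts [one_mem_pow h1 D, zero_mem _]⟩
  induction D with
  | zero => rw [pow_zero, Submodule.one_le]; exact h0 0
  | succ D ih =>
    rw [pow_succ, Submodule.mul_le]
    intro P hP Q hQ
    have hQ' : Q ∈ Gp W σ 1 := Submodule.span_le.2 (by
      rintro _ (rfl | ⟨v, rfl⟩); exacts [h0 1, hx v]) hQ
    refine ⟨(totalDegree_mul _ _).trans (add_le_add (ih hP).1 hQ'.1), fun γ => ?_⟩
    rw [coeff_mul, pow_add]
    exact Submodule.sum_mem _ fun _ _ => Submodule.mul_mem_mul ((ih hP).2 _) (hQ'.2 _)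

lemma exists_subst [Algebra ℚ E] [IsScalarTower ℚ E ℂ] {m : Type*} [Fintype m] (Ω : Matrix m m ℂ)
    {P : MvPolynomial (m × m) ℚ} {δ : ℕ} (hP : P.totalDegree ≤ δ) :
    ∃ Q ∈ Gp (A1 E fun v : m × m => Ω v.1 v.2) (m × m) δ, ∀ U : Matrix m m ℂ,
      eval (fun v => U v.1 v.2) Q = aeval (fun v => (U * Ω) v.1 v.2) P := by
  classical
  set x : m × m → MvPolynomial (m × m) ℂ := fun v => ∑ e, C (Ω e v.2) * X (v.1, e)
  refine ⟨aeval x P, pow_le_Gp (one_mem_A1 _) (x := x) (fun v => Submodule.sum_mem _ fun e _ =>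
    ⟨(totalDegree_mul _ _).trans (by simp), fun γ => ?_⟩) δ ?_, fun U => ?_⟩
  · rw [coeff_C_mul, coeff_X, pow_one]
    split_ifs
    · simpa using mem_A1 (E := E) (fun v : m × m => Ω v.1 v.2) (e, v.2)
    · simp
  · rw [← aeval_map_algebraMap E]
    exact aeval_mem_pow x ((Finset.sup_mono (support_map_subset _ _)).trans hP)
  · have := comp_aeval_apply x ((aeval (R := ℂ) fun v : m × m => U v.1 v.2).restrictScalars ℚ) P
    refine this.trans ?_
    congr 2
    funext v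
    simp [x, Matrix.mul_apply, mul_comm]

end

lemma tors_iff {m : Type*} [Fintype m] [DecidableEq m] {J A B K₁ K₀ : Matrix m m ℂ} (hA : A.det ≠ 0)
    (hB : B.det ≠ 0) (h₁ : Aᵀ * K₁ * A = J) (h₀ : Bᵀ * K₀ * B = J) (U : Matrix m m ℂ) :
    Uᵀ * K₁ * U = K₀ ↔ ∃ g ∈ SpS J, U = A * g * B⁻¹ := by
  have h1 := (Matrix.isUnit_iff_isUnit_det _).2 hB.isUnit
  have h2 : IsUnit Bᵀ := (Matrix.isUnit_iff_isUnit_det _).2 (by simpa using hB)
  have key : ∀ g, U * B = A * g → (Uᵀ * K₁ * U = K₀ ↔ g ∈ SpS J) := fun g hg => by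
    have h3 : Bᵀ * (Uᵀ * K₁ * U) * B = gᵀ * J * g := by
      calc _ = (U * B)ᵀ * K₁ * (U * B) := by simp only [Matrix.transpose_mul, Matrix.mul_assoc]
        _ = _ := by simp only [hg, ← h₁, Matrix.transpose_mul, Matrix.mul_assoc]
    rw [← h2.mul_right_inj, ← h1.mul_left_inj, h3, h₀]
    rfl
  constructor
  · intro h
    have h3 := (Matrix.mul_nonsing_inv_cancel_left A (U * B) hA.isUnit).symm
    exact ⟨_, (key _ h3).1 h, by rw [← h3, Matrix.mul_nonsing_inv_cancel_right _ _ hB.isUnit]⟩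
  · rintro ⟨g, hg, rfl⟩
    exact (key g (Matrix.nonsing_inv_mul_cancel_right _ _ hB.isUnit)).2 hg

lemma prod_mem_prod' {E ι : Type*} [Field E] [Algebra E ℂ] (s : Finset ι) {W : ι → Submodule E ℂ}
    {y : ι → ℂ} (h : ∀ i ∈ s, y i ∈ W i) : ∏ i ∈ s, y i ∈ ∏ i ∈ s, W i := by
  classical
  induction s using Finset.induction_on with
  | empty => simp [Submodule.one_eq_span]
  | insert i s hi ih =>
    rw [Finset.prod_insert hi, Finset.prod_insert hi]
    exact Submodule.mul_mem_mul (h i (by simp)) (ih fun j hj => h j (by simp [hj]))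

lemma int_prod {ι : Type*} (s : Finset ι) {M d : ℕ} {F : ι → PowerSeries ℂ}
    (h : ∀ i ∈ s, ∀ m ≤ M, ∃ z : ℤ, (d : ℂ) * PowerSeries.coeff m (F i) = z) :
    ∀ m ≤ M, ∃ z : ℤ, ((d ^ s.card : ℕ) : ℂ) * PowerSeries.coeff m (∏ i ∈ s, F i) = z := by
  classical
  induction s using Finset.induction_on with
  | empty => exact fun m _ => ⟨if m = 0 then 1 else 0, by simp [PowerSeries.coeff_one]⟩
  | insert i s hi ih =>
    intro m hm
    choose! z hz using h i (by simp)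
    choose! z' hz' using ih fun j hj => h j (by simp [hj])
    refine ⟨∑ p ∈ Finset.HasAntidiagonal.antidiagonal m, z p.1 * z' p.2, ?_⟩
    rw [Finset.prod_insert hi, Finset.card_insert_of_notMem hi, PowerSeries.coeff_mul,
      Finset.mul_sum]
    push_cast at hz' ⊢
    refine Finset.sum_congr rfl fun p hp => ?_
    have := Finset.HasAntidiagonal.mem_antidiagonal.1 hp
    rw [← hz _ (by omega), ← hz' _ (by omega)]
    ring

lemma ls_wp {ι σ : Type*} [Fintype ι] [Fintype σ] {D t k : ℕ} (ht : 2 ≤ t) {u : ι → σ → ℂ}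
    {F : ι → σ → PowerSeries ℂ} (h : ∀ i v, Gd t (Set.range (u i)) k (F i v)) (M : ℕ) :
    ∃ d : ℕ, 0 < d ∧ ∀ w : ι → Fin D → Option σ, LS (Set.range fun w : ι → Fin D → Option σ =>
      wp u w) M d ((t : ℝ) ^ (((k * (Fintype.card (ι × Option σ) + 1) + 1) *
        Fintype.card (ι × Fin D) + 1) * (M + 1))) (wp F w) := by
  obtain ⟨d, hd, h1⟩ := gd_family ht (ι := ι × Option σ) (c := k)
    (S := fun io => Set.range fun o : Option σ => o.elim 1 (u io.1))
    (F := fun io => io.2.elim 1 (F io.1)) (by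
      rintro ⟨i, _ | v⟩
      · exact (gd_C (s := 1) (Set.mem_range_self (f := fun o : Option σ => o.elim 1 (u i))
          none)).mono ht le_rfl (Nat.zero_le _)
      · exact (h i v).mono ht (by rintro _ ⟨v, rfl⟩; exact ⟨some v, rfl⟩) le_rfl) M
  refine ⟨d ^ (Finset.univ : Finset (ι × Fin D)).card, by positivity, fun w => ?_⟩
  refine (ls_prod Finset.univ fun (il : ι × Fin D) _ => h1 (il.1, w il.1 il.2)).mono ?_ ?_
  · intro y hy
    obtain ⟨g, hg, rfl⟩ := (Set.mem_fintype_prod _ _).1 hy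
    choose o ho using hg
    exact ⟨fun i l => o (i, l), Finset.prod_congr rfl fun il _ => ho il⟩
  · have h2 : (1 : ℝ) ≤ t := by exact_mod_cast one_le_two.trans ht
    calc _ ≤ ((t : ℝ) ^ (M + 1) * t ^ (k * (Fintype.card (ι × Option σ) + 1) * (M + 1))) ^
          Fintype.card (ι × Fin D) := by
          rw [Finset.card_univ]
          gcongr
          exact succ_le_pow ht M
      _ ≤ _ := by
          rw [← pow_add, ← pow_mul]
          exact pow_le_pow_right₀ h2 (by nlinarith)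

variable {n : ℕ} {c : ℂ} {α : Fin n → ℂ} {p : ℂ →L[ℝ] ℝ} {p₀ : ℝ}
  {Y : ℂ → Matrix (Fin n) (Fin n) ℂ} {J : Matrix (Fin n) (Fin n) ℂ} {L : ℕ}
  (H : Ctx c α p p₀ Y J L)
include H

theorem Ctx.dim (halg : ∀ k, IsAlgebraic ℚ (α k)) : ∃ e : ℕ, ∀ {ι : Type} [Fintype ι] (t : ℕ)
    (h : ι → ℕ), (t : ℂ) ∈ HP p p₀ → (∀ i, (t + h i : ℂ) ∈ HP p p₀) → ∀ δ D : ℕ, δ ≤ D →
    ∀ M₀ : Matrix (Fin n) (Fin n) ℂ, (∀ i, ∃ P : MvPolynomial (Fin n × Fin n) ℚ,
      P.totalDegree ≤ δ ∧ MvPolynomial.aeval (fun v => (Y (t + h i) * M₀) v.1 v.2) P = 0 ∧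
      ∃ g ∈ SpS J, MvPolynomial.aeval (fun v => (Y (t + h i) * g * M₀) v.1 v.2) P ≠ 0) →
    Gen ℚ (Submodule.span ℚ (Set.range fun w : ι → Fin D → Option (Fin n × Fin n) =>
      wp (fun i v => (Y (t + h i) * (Y t)⁻¹) v.1 v.2) w))
      (e * ((δ * (((D + 1) ^ Fintype.card (Fin n × Fin n) + 1) * Fintype.card ι) + 1) ^
        Fintype.card (Fin n × Fin n) * (HF J D - HF J (D - δ)) ^ Fintype.card ι)) := by
  let E := IntermediateField.adjoin ℚ (Set.range α)
  have : FiniteDimensional ℚ E := IntermediateField.finiteDimensional_adjoin (by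
    rintro _ ⟨k, rfl⟩; exact (halg k).isIntegral)
  refine ⟨finrank ℚ E, fun {ι} _ t h ht hh δ D hδ M₀ hP => ?_⟩
  have hK : ∀ T ∈ E, ∃ K : Matrix (Fin n) (Fin n) E, K.map (algebraMap E ℂ) = Kt α T := fun T hT =>
    ⟨Matrix.of fun a b => ⟨_, Kt_mem α E.toSubfield
      (fun k => IntermediateField.subset_adjoin _ _ ⟨k, rfl⟩) hT a b⟩, rfl⟩
  obtain ⟨K₀, hK₀⟩ := hK t (natCast_mem _ _)
  set W := A1 E fun v : Fin n × Fin n => (Y t * M₀) v.1 v.2
  have hd := H.detY _ ht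
  have key : ∀ i, ∃ a : ℂ, a ≠ 0 ∧ ∃ V : Submodule E ℂ, Gen E V (HF J D - HF J (D - δ)) ∧
      ∀ y ∈ A1 E (fun v : Fin n × Fin n => 
        (Y (t + h i) * (1 : Matrix (Fin n) (Fin n) ℂ) * (Y t)⁻¹) v.1 v.2) ^ D,
        a * y ∈ (W ^ δ) ^ ((D + 1) ^ Fintype.card (Fin n × Fin n) + 1) * V := by
    intro i
    obtain ⟨P, h1, h2, g, hg, h3⟩ := hP i
    obtain ⟨K₁, hK₁⟩ := hK (t + h i) (add_mem (natCast_mem _ _) (natCast_mem _ _))
    obtain ⟨Q, hQ, h4⟩ := exists_subst (E := E) (Y t * M₀) h1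
    have h5 : ∀ A : Matrix (Fin n) (Fin n) ℂ, A * (Y t)⁻¹ * (Y t * M₀) = A * M₀ := fun A => by
      rw [Matrix.mul_assoc, Matrix.nonsing_inv_mul_cancel_left _ _ hd.isUnit]
    exact value_block H.anti H.det K₁ K₀ (H.detY _ (hh i))
      (Matrix.isUnit_nonsing_inv_det _ hd.isUnit).ne_zero (fun U => by
        rw [hK₀, hK₁]; exact tors_iff (H.detY _ (hh i)) hd (H.pair _ (hh i)) (H.pair _ ht) U)
      one_mem_SpS _ (one_mem_pow (one_mem_A1 _) δ) hδ Q hQ.1 hQ.2
      (by rw [h4, h5, Matrix.mul_one]; exact h2) ⟨g, hg, by rwa [h4, h5]⟩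
  choose a ha V hV h1 using key
  refine gen_restrict (V := W ^ (δ * (((D + 1) ^ Fintype.card (Fin n × Fin n) + 1) *
    Fintype.card ι)) * ∏ i, V i) ((gen_pow _ _).mul (by
      simpa using gen_prod Finset.univ fun i _ => hV i)) (a := ∏ i, a i)
    (Finset.prod_ne_zero_iff.2 fun i _ => ha i) ?_
  rintro _ ⟨w, rfl⟩
  have := prod_mem_prod' Finset.univ fun i _ => h1 i _ (wd_mem _ (w i))
  simp only [Finset.prod_mul_distrib, Finset.prod_const, Finset.card_univ, Matrix.mul_one,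
    ← pow_mul] at this
  simpa only [wp_eq, mul_assoc] using this

end Pool.Agent.GPC

end MrgPart1

-- ======== part 2: formerly Pool.Agent.MP_cbf1af_ag.h26.Per
section MrgPart2

/-! The period integrals have the properties used for the monodromy computation. -/

namespace Pool.Agent.GPC
open Filter Topology MeasureTheory Set Polynomial Matrix

section
variable {n : ℕ} {d : ℂ} {α : Fin n → ℂ}

noncomputable def kap (d : ℂ) (α : Fin n → ℂ) (m : Fin n) (x : ℂ) : ℂ :=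
  ∏ j ∈ Finset.univ.erase m, ph d (x - α j)

lemma ww_kap (m : Fin n) (T x : ℂ) :
    ww d α T x = ph d (T - x) * (ph d (x - α m) * kap d α m x) := by
  rw [ww_eq, kap, Finset.mul_prod_erase _ (fun j => ph d (x - α j)) (Finset.mem_univ m)]

lemma hasDerivAt_kap {m : Fin n} {x : ℂ} (h : ∀ j ≠ m, (x - α j) / d ∈ Complex.slitPlane) :
    HasDerivAt (kap d α m) (-(∑ j ∈ Finset.univ.erase m, 1 / (2 * (x - α j))) * kap d α m x) x :=
  hasDerivAt_prod_ph _ (z := fun j x => x - α j) (fun _ _ => (hasDerivAt_id x).sub_const _)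
    fun j hj => h j (Finset.ne_of_mem_erase hj)

lemma kap_ne {m : Fin n} {x : ℂ} (h : ∀ j ≠ m, (x - α j) / d ∈ Complex.slitPlane) :
    kap d α m x ≠ 0 := Finset.prod_ne_zero_iff.2 fun j hj => by
  have := div_ne_zero_iff.1 (Complex.slitPlane_ne_zero (h j (Finset.ne_of_mem_erase hj)))
  exact ph_ne this.2 this.1

lemma meas_kap (m : Fin n) {x : ℝ → ℂ} (hx : Measurable x) :
    Measurable fun s => kap d α m (x s) := by
  simp only [kap]
  fun_prop

lemma rpow_half {t : ℝ} (ht : 0 < t) :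
    ((t ^ (-1 / 2 : ℝ) : ℝ) : ℂ) * (t ^ (-1 / 2 : ℝ) : ℝ) * t = 1 := by
  rw [← Complex.ofReal_mul, ← Complex.ofReal_mul, ← Real.rpow_add ht, ← Real.rpow_add_one ht.ne']
  norm_num

lemma limJ_aux (hd : d ≠ 0) {m : Fin n} (h : ∀ j ≠ m, (α m - α j) / d ∈ Complex.slitPlane) :
    ∃ γ : ℂ, γ ≠ 0 ∧ Tendsto (fun t : ℝ => Seg d α (α m) (α m + t * d) (α m + t * d)) (𝓝[>] 0)
      (𝓝 (γ • vV α m)) := by
  refine ⟨(∫ s in Ioo (0 : ℝ) 1, sg s : ℝ) * d * kap d α m (α m), mul_ne_zero (mul_ne_zero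
    (by exact_mod_cast sg_int_pos.ne') hd) (kap_ne h), tendsto_pi_nhds.2 fun a => ?_⟩
  set g : ℂ → ℂ := fun x => x ^ (a : ℕ) * kap d α m x * d
  have hg : ContinuousAt g (α m) :=
    ((continuousAt_id.pow _).mul (hasDerivAt_kap h).continuousAt).mul continuousAt_const
  have h1 : Tendsto (fun t : ℝ => ∫ s in Ioo (0 : ℝ) 1, sg s * g (α m + s * (t * d))) (𝓝[>] 0)
      (𝓝 (∫ s in Ioo (0 : ℝ) 1, sg s * g (α m))) := by
    obtain ⟨r, hr, h2⟩ := Metric.eventually_nhds_iff_ball.1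
      (hg.norm.eventually (eventually_le_nhds (lt_add_one _)))
    refine tendsto_integral_filter_of_dominated_convergence (fun s => (‖g (α m)‖ + 1) * sg s)
      (Eventually.of_forall fun t => Measurable.aestronglyMeasurable ?_) ?_ (sg_int.const_mul _)
      (ae01 fun s _ => (hg.tendsto.comp ?_).const_mul _)
    · have := meas_kap (d := d) (α := α) m (x := fun s : ℝ => α m + s * (t * d)) (by fun_prop)
      simp only [g, sg]
      fun_prop
    · filter_upwards [(tendsto_ray 0 d).eventually (Metric.ball_mem_nhds _ hr)] with t ht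
      refine ae01 fun s hs => ?_
      rw [norm_mul, Complex.norm_real, Real.norm_of_nonneg (sg_pos hs).le, mul_comm]
      refine mul_le_mul_of_nonneg_right (h2 _ ?_) (sg_pos hs).le
      simp only [Metric.mem_ball, dist_self_add_left, zero_add, dist_zero_right] at ht ⊢
      rw [norm_mul, Complex.norm_real, Real.norm_of_nonneg hs.1.le]
      exact (mul_le_of_le_one_left (norm_nonneg _) hs.2.le).trans_lt ht
    · simpa [mul_left_comm] using tendsto_ray (α m) (s * d)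
  rw [integral_mul_const, integral_complex_ofReal] at h1
  convert h1.congr' ?_ using 2
  · simp only [g, vV, Pi.smul_apply, smul_eq_mul]; ring
  filter_upwards [self_mem_nhdsWithin] with t ht
  refine setIntegral_congr_fun measurableSet_Ioo fun s hs => ?_
  have h2 : α m + t * d - (α m + s * (t * d)) = (1 - s : ℝ) * (t * d) := by push_cast; ring
  simp only [itg, ww_kap m, add_sub_cancel_left, h2, ph_smul hs.1, ph_smul (sub_pos.2 hs.2),
    ph_smul ht, g, sg, show ph d d = 1 by simp [ph, hd]]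
  push_cast
  linear_combination (-(α m + s * (t * d)) ^ (a : ℕ) * kap d α m (α m + s * (t * d)) * d *
    (s ^ (-1 / 2 : ℝ) : ℝ) * ((1 - s) ^ (-1 / 2 : ℝ) : ℝ)) * rpow_half ht

lemma lim0_aux (hα : Function.Injective α) {ℓ : Option (Fin n) → ℂ →L[ℝ] ℝ} (hℓ : ∀ i, 0 < ℓ i d)
    {m m' : Fin n} (hne : m ≠ m') (h0 : ∀ j ≠ m, 0 < ℓ (some j) (α m - α j))
    (h1 : ∀ j ≠ m', 0 < ℓ (some j) (α m' - α j)) (h2 : 0 < ℓ none (α m - α m')) :
    ∃ e : ℂ, e ≠ 0 ∧ Tendsto (fun t : ℝ => lamV α m ⬝ᵥ Seg d α (α m) (α m') (α m + t * d))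
      (𝓝[>] 0) (𝓝 e) := by
  have hd := d_ne hℓ
  set δ := α m' - α m with hδ
  have hδ0 : δ ≠ 0 := sub_ne_zero.2 (hα.ne hne.symm)
  have hπ := pi1_ne hα m
  have hk0 := fun j hj => slit_of_pos (hℓ _) (h0 j hj)
  set x : ℂ → ℂ := fun s => α m + s * δ with hx
  have hxs : ∀ s, HasDerivAt x δ s := fun s =>
    (((hasDerivAt_id s).mul_const δ).const_add _).congr_deriv (one_mul δ)
  have hxm : Measurable fun s : ℝ => x s := by simp only [hx]; fun_prop
  obtain ⟨M, hM⟩ := isCompact_Icc.exists_bound_of_continuousOn (s := Icc (0 : ℝ) 1)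
    (f := fun s : ℝ => (derivative (p1 α m)).eval (x s))
    ((Polynomial.continuous _).comp (by simp only [hx]; fun_prop)).continuousOn
  obtain ⟨C, -, hC⟩ := dom (Finset.univ.erase (some m)) (l := 𝓝[>] (0 : ℝ)) (ℓ := ℓ) hd
    (tendsto_zz (α := α) (u := fun _ => α m) tendsto_const_nhds (tendsto_ray (α m) d))
    (tendsto_zz (α := α) (u := fun _ => α m') tendsto_const_nhds (tendsto_ray (α m) d))
    (i₀ := none) (i₁ := some m') (by simp) (by
      rintro (_ | j) hj h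
      exacts [absurd rfl h, h0 j (by simpa using hj)]) (by
      rintro (_ | j) hj h
      exacts [h2, h1 j (by simpa using h)])
    (eventually_mem_nhdsWithin.mono fun t ht _ => by
      simpa [zz, ← Complex.real_smul] using (mul_pos ht (hℓ none)).le) (by simp [zz])
  obtain ⟨C', -, hC'⟩ := dom (Finset.univ.erase m) (l := (⊤ : Filter Unit))
    (ℓ := fun j => ℓ (some j)) hd (z₀ := fun _ j => α m - α j) (z₁ := fun _ j => α m' - α j)
    (fun _ => tendsto_const_nhds) (fun _ => tendsto_const_nhds) hne (fun j _ => h0 j)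
    (fun j _ => h1 j) (by simp) (by simp)
  have hκ : ∀ s ∈ Ioo (0 : ℝ) 1, (∀ j ≠ m, 0 < ℓ (some j) (x s - α j)) ∧
      ‖kap d α m (x s)‖ ≤ C' * sg s := fun s hs => by
    have := hC'.exists.choose_spec s hs (fun j => x s - α j) fun j => by simp only [hx, hδ]; ring
    exact ⟨fun j hj => this.1 j (by simpa using hj), this.2⟩
  set c := δ * ph d δ * δ / (2 * pi1 α m)
  set G : ℝ → ℝ → ℂ := fun t s => c * (derivative (p1 α m)).eval (x s) *
    ((s ^ (-1 / 2 : ℝ) : ℝ) * s) * (ph d (α m + t * d - x s) * kap d α m (x s))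
  have hp : Measurable fun s : ℝ => (derivative (p1 α m)).eval (x s) :=
    (Polynomial.continuous _).measurable.comp hxm
  have hkm := meas_kap (d := d) (α := α) m hxm
  have h3 : Tendsto (fun t : ℝ => ∫ s in Ioo (0 : ℝ) 1, G t s) (𝓝[>] 0)
      (𝓝 (∫ s in Ioo (0 : ℝ) 1, c * ph d (-δ) * ((derivative (p1 α m)).eval (x s) *
        kap d α m (x s)))) := by
    refine tendsto_integral_filter_of_dominated_convergence (fun s => ‖c‖ * M * 1 * (C * sg s))
      (Eventually.of_forall fun t => Measurable.aestronglyMeasurable (by simp only [G]; fun_prop))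
      (hC.mono fun t ht => ae01 fun s hs => ?_) ((sg_int.const_mul _).const_mul _)
      (ae01 fun s hs => ?_)
    · have h4 := (ht s hs _ (zz_aff α _ _ _ _)).2
      have h5 : ∏ i ∈ Finset.univ.erase (some m), ph d (zz α (α m + t * d) (x s) i) =
          ph d (α m + t * d - x s) * kap d α m (x s) := by
        refine mul_left_cancel₀ (ph_ne hd (w := x s - α m) (by simp [hx, hδ0, hs.1.ne'])) ?_
        rw [mul_left_comm, ← ww_kap]
        exact Finset.mul_prod_erase _ (fun i => ph d (zz α _ (x s) i)) (Finset.mem_univ (some m))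
      rw [show α m + s * (α m' - α m) = x s from rfl, h5] at h4
      have h6 := hM s (Ioo_subset_Icc_self hs)
      have h7 : ‖((s ^ (-1 / 2 : ℝ) : ℝ) * s : ℂ)‖ ≤ 1 := by
        rw [← Complex.ofReal_mul, ← Real.rpow_add_one hs.1.ne', Complex.norm_real,
          Real.norm_of_nonneg (Real.rpow_nonneg hs.1.le _)]
        exact Real.rpow_le_one hs.1.le hs.2.le (by norm_num)
      have h8 := (norm_nonneg _).trans h6
      simp only [G]
      rw [norm_mul, norm_mul, norm_mul]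
      gcongr
    · have h4 : α m - x s = s * (-δ) := by simp only [hx]; ring
      have h5 : 0 < ℓ none (α m - x s) := by
        rw [h4, ← Complex.real_smul, map_smul, hδ, neg_sub]
        exact mul_pos hs.1 h2
      have h6 := ((((hasDerivAt_ph (hasDerivAt_id _) (slit_of_pos (hℓ _)
        h5)).continuousAt.tendsto.comp ((tendsto_ray (α m) d).sub_const (x s))).mul_const
        (kap d α m (x s))).const_mul (c * (derivative (p1 α m)).eval (x s) *
          ((s ^ (-1 / 2 : ℝ) : ℝ) * s)))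
      have h7 : c * ph d (-δ) * ((derivative (p1 α m)).eval (x s) * kap d α m (x s)) =
          c * (derivative (p1 α m)).eval (x s) * ((s ^ (-1 / 2 : ℝ) : ℝ) * s) *
            (ph d (α m - x s) * kap d α m (x s)) := by
        rw [h4, ph_smul hs.1]
        linear_combination (-c * ph d (-δ) * ((derivative (p1 α m)).eval (x s) *
          kap d α m (x s))) * rpow_half hs.1
      rw [h7]
      exact h6
  have h4 := ftc01 (B := fun s => kap d α m (x s) * (p1 α m).eval (x s))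
    (B' := fun s => δ / 2 * ((derivative (p1 α m)).eval (x s) * kap d α m (x s))) (fun s hs => by
      refine (((hasDerivAt_kap fun j hj => slit_of_pos (hℓ _) ((hκ s hs).1 j hj)).comp (s : ℂ)
        (hxs s)).fun_mul (((p1 α m).hasDerivAt _).comp (s : ℂ) (hxs s))).comp_ofReal.congr_deriv ?_
      have h5 := eval_der_prod (Finset.univ.erase m) α (x := x s) fun j hj h => by
        simpa [h] using (hκ s hs).1 j (Finset.ne_of_mem_erase hj)
      simp only [Function.comp, one_div, mul_inv, ← Finset.mul_sum]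
      rw [show (derivative (p1 α m)).eval (x s) = (p1 α m).eval (x s) * _ from h5]
      ring)
    (int_of_bd (C := ‖δ / 2‖ * (M * C')) (by fun_prop) fun s hs => by
      have h6 := hM s (Ioo_subset_Icc_self hs)
      have h8 := (norm_nonneg _).trans h6
      rw [norm_mul, norm_mul, mul_assoc, mul_assoc]
      gcongr
      exact (hκ s hs).2)
    (a := kap d α m (α m) * pi1 α m)
    ((((hasDerivAt_kap hk0).continuousAt.mul (p1 α m).continuousAt).tendsto).comp
      (tendsto_ray (α m) δ))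
    (van1 (g := fun s => (p1 α m).eval (x s)) (fun s hs => (hκ s hs).2)
      (((p1 α m).hasDerivAt _).comp 1 (hxs 1)).differentiableAt
      (by simp [hx, hδ, eval_p1_ne α hne.symm]))
  rw [integral_const_mul] at h3 h4
  refine ⟨_, mul_ne_zero (mul_ne_zero (div_ne_zero (mul_ne_zero (mul_ne_zero hδ0 (ph_ne hd hδ0))
    hδ0) (mul_ne_zero two_ne_zero hπ)) (ph_ne hd (neg_ne_zero.2 hδ0))) (fun h => ?_), h3.congr' ?_⟩
  · rw [h, mul_zero, zero_sub, zero_eq_neg] at h4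
    exact mul_ne_zero (kap_ne hk0) hπ h4
  filter_upwards [self_mem_nhdsWithin] with t ht
  have h5 : 0 < ℓ none (t * d) := by
    simpa [← Complex.real_smul] using mul_pos ht (hℓ none)
  have hi := fun a : Fin n => seg_int hℓ (α := α) (u := α m) (v := α m') (T := α m + t * d)
    (i₀ := some m) (i₁ := some m') (by simpa using hne) ⟨by
      rintro (_ | j) hj
      exacts [by simpa [zz] using h5, h0 j (by simpa using hj)], by simp [zz]⟩ ⟨by
      rintro (_ | j) hj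
      exacts [by simpa [zz, add_sub_right_comm] using add_pos h2 h5, h1 j (by simpa using hj)],
      by simp [zz]⟩ a
  simp only [dotProduct, Seg, ← integral_const_mul]
  rw [← integral_finsetSum _ fun a _ => (hi a).const_mul _]
  refine setIntegral_congr_fun measurableSet_Ioo fun s hs => ?_
  have h6 : ∑ a, lamV α m a * itg d α a (α m) (α m') (α m + t * d) s =
      (∑ a : Fin n, lamV α m a * x s ^ (a : ℕ)) * ww d α (α m + t * d) (x s) * δ := by
    simp only [itg, Finset.sum_mul, mul_assoc]; rfl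
  have h7 : x s - α m = s * δ := by simp [hx]
  simp only [h6, lam_sum, ww_kap m, f1_eq α m, h7, ph_smul hs.1, G, c, derivative_mul, eval_sub,
    eval_add, eval_mul, eval_X, eval_C, derivative_sub, derivative_X, derivative_C, eval_one,
    eval_zero]
  ring

/-- vector solutions -/
def SolV (α : Fin n → ℂ) (O : Set ℂ) (y : ℂ → Fin n → ℂ) : Prop :=
  ∀ T ∈ O, ∀ a, HasDerivAt (fun z => y z a) ((Am α T *ᵥ y T) a) T

lemma SolV.add {O : Set ℂ} {y z : ℂ → Fin n → ℂ} (hy : SolV α O y) (hz : SolV α O z) :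
    SolV α O fun T => y T + z T := fun T hT a => by
  rw [mulVec_add]; exact (hy T hT a).fun_add (hz T hT a)

lemma SolV.sub {O : Set ℂ} {y z : ℂ → Fin n → ℂ} (hy : SolV α O y) (hz : SolV α O z) :
    SolV α O fun T => y T - z T := fun T hT a => by
  rw [mulVec_sub]; exact (hy T hT a).fun_sub (hz T hT a)

lemma cone_eq {ℓ ℓ' ℓ₀ : ℂ →L[ℝ] ℝ} (hc : ∀ w, 0 < ℓ w → ℓ' w < 0 → w ∈ Complex.slitPlane)
    (h1 : 0 < ℓ 1) (h1' : ℓ' 1 < 0) (hd : 0 < ℓ₀ d) {ε : ℂ} (hε : ε ≠ 0)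
    (h : ∀ w, 0 < ℓ w → ℓ' w < 0 → 0 < ℓ₀ (ε * w)) {w : ℂ} (hw : 0 < ℓ w) (hw' : ℓ' w < 0) :
    w ^ (-1 / 2 : ℂ) = (ph d ε)⁻¹ * ph d (ε * w) := by
  have hd0 : d ≠ 0 := fun h => by simp [h] at hd
  have h2 : Convex ℝ (HP ℓ 0 ∩ HP (-ℓ') 0) := (convex_HP _ _).inter (convex_HP _ _)
  have h3 : ∀ z ∈ HP ℓ 0 ∩ HP (-ℓ') 0, 0 < ℓ z ∧ ℓ' z < 0 := fun z hz => by simpa [HP] using hz
  have h4 : ∀ z ∈ HP ℓ 0 ∩ HP (-ℓ') 0, z ≠ 0 := fun z hz h => by simpa [h] using (h3 z hz).1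
  refine h2.isPreconnected.eq_of_sq_eq (f := fun w => w ^ (-1 / 2 : ℂ))
    (g := fun w => (ph d ε)⁻¹ * ph d (ε * w)) (fun z hz => ?_) (fun z hz => ?_) (fun z hz => ?_)
    (fun {z} hz => mul_ne_zero (inv_ne_zero (ph_ne hd0 hε)) (ph_ne hd0 (mul_ne_zero hε (h4 z hz))))
    (y := 1) (by simpa [HP] using ⟨h1, h1'⟩) (by simp [ph_ne hd0 hε]) (by simpa [HP] using ⟨hw, hw'⟩)
  · exact (continuousAt_cpow_const (hc z (h3 z hz).1 (h3 z hz).2)).continuousWithinAt
  · exact (continuousAt_const.mul (hasDerivAt_ph ((hasDerivAt_id z).const_mul ε) (slit_of_pos hd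
      (h z (h3 z hz).1 (h3 z hz).2))).continuousAt).continuousWithinAt
  · have h5 := cpow_half_sq (h4 z hz)
    have h6 := ph_sq hd0 hε
    have h7 := ph_sq hd0 (mul_ne_zero hε (h4 z hz))
    have h8 := ph_ne hd0 hε
    simp only [Pi.pow_apply]
    rw [mul_pow, inv_pow, eq_inv_mul_iff_mul_eq₀ (pow_ne_zero _ h8)]
    refine mul_right_cancel₀ (mul_ne_zero hε (h4 z hz)) ?_
    linear_combination ph d ε ^ 2 * ε * h5 + h6 - h7

lemma alg_half {w : ℂ} (h : IsAlgebraic ℚ w) (hw : w ≠ 0) : IsAlgebraic ℚ (w ^ (-1 / 2 : ℂ)) :=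
  IsAlgebraic.of_pow (n := 2) (by norm_num) (by
    rw [eq_inv_of_mul_eq_one_left (cpow_half_sq hw)]; exact h.inv)

end

namespace Geo
variable {N : ℕ} {α : Fin (N + 1) → ℂ} (G : Geo α)

noncomputable def Iv (k : Fin N) (T : ℂ) : Fin (N + 1) → ℂ := Seg G.d α (α k.castSucc) (α k.succ) T

noncomputable def Jv (m : Fin (N + 1)) (T : ℂ) : Fin (N + 1) → ℂ := Seg G.d α (α m) T T

noncomputable def Av (l : Fin (N + 1)) (T : ℂ) : Fin (N + 1) → ℂ :=
  ∑ k ∈ Finset.univ.filter fun k : Fin N => k.castSucc < l, G.Iv k T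

noncomputable def Ym (m : Fin (N + 1)) (T : ℂ) : Matrix (Fin (N + 1)) (Fin (N + 1)) ℂ :=
  Matrix.of fun a l => (G.Jv m T + G.Av m T - G.Av l T) a

lemma Av_succ (k : Fin N) (T : ℂ) : G.Av k.succ T = G.Iv k T + G.Av k.castSucc T := by
  rw [Av, Av, ← Finset.sum_insert (f := fun k => G.Iv k T) (by simp)]
  congr 1
  ext j
  simp only [Finset.mem_filter, Finset.mem_univ, true_and, Finset.mem_insert, Fin.lt_def,
    Fin.ext_iff, Fin.val_castSucc, Fin.val_succ]
  omega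

lemma Ym_single (m l : Fin (N + 1)) (T : ℂ) :
    G.Ym m T *ᵥ Pi.single l 1 = G.Jv m T + G.Av m T - G.Av l T := by
  rw [mulVec_single_one]; rfl

lemma Ym_diff (m : Fin (N + 1)) (k : Fin N) (T : ℂ) :
    G.Ym m T *ᵥ (Pi.single k.castSucc 1 - Pi.single k.succ 1) = G.Iv k T := by
  rw [mulVec_sub, Ym_single, Ym_single, Av_succ]; abel

/-- choice of functionals for the segment between consecutive roots -/
def lI (k : Fin N) (ℓ : ℂ →L[ℝ] ℝ) (i : Option (Fin (N + 1))) : ℂ →L[ℝ] ℝ :=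
  i.elim ℓ fun j => if j ≤ k.castSucc then G.p else G.q

lemma lI_pos (k : Fin N) {ℓ : ℂ →L[ℝ] ℝ} (h : 0 < ℓ G.d) (i : Option (Fin (N + 1))) :
    0 < G.lI k ℓ i G.d := by
  rcases i with _ | j
  · exact h
  · simp only [lI, Option.elim]; split_ifs; exacts [G.pd, G.qd]

lemma lI_0 (k : Fin N) (ℓ : ℂ →L[ℝ] ℝ) :
    ∀ j ≠ k.castSucc, 0 < G.lI k ℓ (some j) (α k.castSucc - α j) := by
  intro j hj
  simp only [lI, Option.elim]
  split_ifs with h <;> rw [map_sub, sub_pos]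
  exacts [G.mp (lt_of_le_of_ne h hj), G.mq (not_le.1 h)]

lemma lI_1 (k : Fin N) (ℓ : ℂ →L[ℝ] ℝ) :
    ∀ j ≠ k.succ, 0 < G.lI k ℓ (some j) (α k.succ - α j) := by
  intro j hj
  simp only [lI, Option.elim]
  split_ifs with h <;> rw [map_sub, sub_pos]
  exacts [G.mp (h.trans_lt Fin.castSucc_lt_succ),
    G.mq (lt_of_le_of_ne (Fin.castSucc_lt_iff_succ_le.1 (not_le.1 h)) hj.symm)]

lemma vx_I (k : Fin N) {ℓ : ℂ →L[ℝ] ℝ} {T : ℂ} (h0 : ℓ (α k.castSucc) < ℓ T)
    (h1 : ℓ (α k.succ) < ℓ T) : Vx α (G.lI k ℓ) T (α k.castSucc) (some k.castSucc) ∧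
      Vx α (G.lI k ℓ) T (α k.succ) (some k.succ) := by
  refine ⟨⟨?_, by simp [zz]⟩, ⟨?_, by simp [zz]⟩⟩ <;> rintro (_ | j) hj
  exacts [by simpa [zz, lI] using h0, G.lI_0 k ℓ j (by simpa using hj),
    by simpa [zz, lI] using h1, G.lI_1 k ℓ j (by simpa using hj)]

lemma exists_l (k : Fin N) (m : Fin (N + 1)) {T : ℂ} (h0 : k.succ ≤ m → G.p (α k.succ) < G.p T)
    (h1 : m ≤ k.castSucc → G.q (α k.castSucc) < G.q T) :
    ∃ ℓ : ℂ →L[ℝ] ℝ, 0 < ℓ G.d ∧ ℓ (α k.castSucc) < ℓ T ∧ ℓ (α k.succ) < ℓ T := by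
  rcases le_or_gt m k.castSucc with h | h
  · exact ⟨G.q, G.qd, h1 h, (G.mq Fin.castSucc_lt_succ).trans (h1 h)⟩
  · have := h0 (Fin.castSucc_lt_iff_succ_le.1 h)
    exact ⟨G.p, G.pd, (G.mp Fin.castSucc_lt_succ).trans this, this⟩

variable (hN : 0 < N)
include hN

lemma sol_I (k : Fin N) (m : Fin (N + 1)) : SolV α (G.S m) (G.Iv k) := by
  intro T hT a
  obtain ⟨ℓ, h1, h2, h3⟩ := G.exists_l k m (T := T)
    (fun h => (G.mp.monotone h).trans_lt (hT.1 (Fin.pos_iff_ne_zero.1 (k.succ_pos.trans_le h))))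
    (fun h => (G.mq.antitone h).trans_lt (hT.2 (h.trans_lt k.castSucc_lt_last).ne))
  simpa [Iv] using seg_ode (G.lI_pos k h1) G.inj (v₀ := α k.succ) (b := 0) (i₁ := some k.succ)
    (by simp [Fin.castSucc_lt_succ.ne]) (by simp [eval_f1, Finset.prod_eq_zero_iff, sub_eq_zero])
    (Or.inl ⟨rfl, by simp [eval_f1, Finset.prod_eq_zero_iff, sub_eq_zero]⟩) (by simp [zz])
    (by simp [zz]) (G.vx_I k h2 h3).1 (by simpa using (G.vx_I k h2 h3).2) (G.S_ne hN T hT) a

lemma sol_J (m : Fin (N + 1)) : SolV α (G.S m) (G.Jv m) := by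
  intro T hT a
  obtain ⟨ℓ, h1, h2⟩ : ∃ ℓ : ℂ →L[ℝ] ℝ, 0 < ℓ G.d ∧ 0 < ℓ (T - α m) :=
    (G.S_pos hN hT).elim (fun h => ⟨_, G.pd, h⟩) fun h => ⟨_, G.qd, h⟩
  simpa [Jv] using seg_ode (ℓ := fun i => i.elim ℓ fun j => if j < m then G.p else if m < j then G.q
    else ℓ) (d := G.d) (by
      rintro (_ | j)
      · exact h1
      · simp only [Option.elim]; split_ifs; exacts [G.pd, G.qd, h1]) G.inj (u := α m) (v₀ := 0)
    (b := 1) (T₀ := T) (i₀ := some m) (i₁ := none) (by simp)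
    (by simp [eval_f1, Finset.prod_eq_zero_iff, sub_eq_zero]) (Or.inr ⟨rfl, rfl⟩) (by simp [zz])
    (by simp [zz]) ⟨by
      rintro (_ | j) hj
      · exact h2
      · simp only [Option.elim, zz]
        rcases lt_or_gt_of_ne (show j ≠ m by simpa using hj) with h | h
        · simpa [h] using G.mp h
        · simpa [h, h.not_gt] using G.mq h, by simp [zz]⟩ ⟨by
      rintro (_ | j) hj
      · exact absurd rfl hj
      · simp only [Option.elim, zz, zero_add, one_mul]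
        rcases lt_trichotomy j m with h | rfl | h
        · simpa [h] using (G.mp h).trans (hT.1 (Fin.pos_iff_ne_zero.1 ((Fin.zero_le _).trans_lt h)))
        · simpa using h2
        · simpa [h, h.not_gt] using (G.mq h).trans (hT.2 (h.trans_le (Fin.le_last _)).ne),
      by simp [zz]⟩ (G.S_ne hN T hT) a

lemma sol_A (l m : Fin (N + 1)) : SolV α (G.S m) (G.Av l) := by
  induction l using Fin.induction with
  | zero => intro T _ a; simpa [Av] using hasDerivAt_const T (0 : ℂ)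
  | succ k ih => rw [show G.Av k.succ = _ from funext (G.Av_succ k)]; exact (G.sol_I hN k m).add ih

lemma J_succ (k : Fin N) {T : ℂ} (hT : ∀ m, T ∈ G.S m) :
    G.Jv k.castSucc T = G.Iv k T + G.Jv k.succ T := by
  have h1 : ∀ j, G.p (α j) < G.p T := fun j => (G.mp.monotone (Fin.le_last j)).trans_lt
    ((hT _).1 fun h => by simp [Fin.ext_iff] at h; omega)
  have h2 : ∀ j, G.q (α j) < G.q T := fun j => (G.mq.antitone (Fin.zero_le j)).trans_lt
    ((hT _).2 fun h => by simp [Fin.ext_iff] at h; omega)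
  funext a
  refine cauchy (G.lI_pos k G.pd) (i₂ := none) (by simp [Fin.castSucc_lt_succ.ne]) (by simp)
    (by simp) (G.vx_I k (h1 _) (h1 _)).1 (G.vx_I k (h1 _) (h1 _)).2 ⟨?_, by simp [zz]⟩ a
  rintro (_ | j) hj
  · exact absurd rfl hj
  · simp only [lI, zz, Option.elim]
    split_ifs <;> rw [map_sub, sub_pos]
    exacts [h1 j, h2 j]

theorem per : Per G G.Ym where
  sol m T hT a l := (((G.sol_J hN m).add (G.sol_A hN m m)).sub (G.sol_A hN l m)) T hT a
  eqU T hT := by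
    have : ∀ m, G.Jv m T + G.Av m T = G.Jv 0 T + G.Av 0 T := fun m => by
      induction m using Fin.induction with
      | zero => rfl
      | succ k ih => rw [← ih, G.J_succ hN k hT, Av_succ]; abel
    intro m l
    simp only [Ym, this]
  limJ m := by
    simp only [Ym_single, add_sub_cancel_right]
    refine limJ_aux G.d_ne fun j hj => ?_
    rcases lt_or_gt_of_ne hj with h | h
    · exact slit_of_pos G.pd (by simpa using G.mp h)
    · exact slit_of_pos G.qd (by simpa using G.mq h)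
  limI m k h0 h1 := by
    simp only [Ym_diff]
    obtain ⟨ℓ, h2, h3, h4⟩ := G.exists_l k m (T := α m) (fun h => G.mp (lt_of_le_of_ne h h1))
      fun h => G.mq (lt_of_le_of_ne h h0.symm)
    exact ⟨_, tendsto_pi_nhds.2 fun a => seg_tendsto (G.lI_pos k h2) tendsto_const_nhds
      tendsto_const_nhds (tendsto_ray _ _) (by simp [Fin.castSucc_lt_succ.ne]) (G.vx_I k h3 h4).1
      (G.vx_I k h3 h4).2 (by simp [zz]) (by simp [zz]) a⟩
  lim0 k := by
    simp only [Ym_diff]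
    exact lim0_aux G.inj (G.lI_pos k G.qd) Fin.castSucc_lt_succ.ne (G.lI_0 k _) (G.lI_1 k _)
      (by simpa [lI] using G.mq Fin.castSucc_lt_succ)

omit hN in
theorem period_eq {f : ℚ[X]} (hf : f ≠ 0) : ∃ M₀ : Matrix (Fin (N + 1)) (Fin (N + 1)) ℂ,
    M₀.det ≠ 0 ∧ (∀ a b, IsAlgebraic ℚ (M₀ a b)) ∧
      ∀ᶠ τ : ℝ in atTop, period f α τ = G.Ym (Fin.last N) τ * M₀ := by
  set μ : Fin (N + 1) → Fin (N + 1) → ℂ := fun j i => (ph G.d (if i ≤ j then 1 else -1))⁻¹
  set D : Fin (N + 1) → ℂ := fun j => 2 * ((-1) ^ (N + 1 - j) * (f.leadingCoeff : ℂ)) ^ (-1 / 2 : ℂ)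
    * ((∏ i, μ j i) * (ph G.d 1)⁻¹)
  set col : Fin (N + 1) → Fin (N + 1) → ℂ := Fin.lastCases (Pi.single (Fin.last N) 1)
    fun k => Pi.single k.castSucc 1 - Pi.single k.succ 1 with hcol
  have hlc : ∀ j : Fin (N + 1), (-1) ^ (N + 1 - j) * (f.leadingCoeff : ℂ) ≠ 0 := fun j => by
    simpa using hf
  have hε : ∀ j i : Fin (N + 1), (if i ≤ j then 1 else -1 : ℂ) ≠ 0 := fun j i => by
    split_ifs <;> simp
  have hD : ∀ j, D j ≠ 0 := fun j => mul_ne_zero (mul_ne_zero two_ne_zero (by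
    rw [Ne, Complex.cpow_eq_zero_iff]; exact fun h => hlc j h.1)) (mul_ne_zero
    (Finset.prod_ne_zero_iff.2 fun i _ => inv_ne_zero (ph_ne G.d_ne (hε j i)))
    (inv_ne_zero (ph_ne G.d_ne one_ne_zero)))
  refine ⟨Matrix.of fun l j => D j * col j l, ?_, fun l j => ?_, ?_⟩
  · rw [Matrix.det_of_isLowerTriangular]
    · refine Finset.prod_ne_zero_iff.2 fun j _ => mul_ne_zero (hD j) ?_
      induction j using Fin.lastCases with
      | last => simp [hcol]
      | cast k => simp [hcol, Fin.castSucc_lt_succ.ne]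
    · intro l j h
      have h : l < j := h
      induction j using Fin.lastCases with
      | last => simp [hcol, h.ne]
      | cast k => simp [hcol, h.ne, (h.trans Fin.castSucc_lt_succ).ne]
  · set K := (algebraicClosure ℚ ℂ).toSubalgebra
    have hph : ∀ ε : ℂ, ε ≠ 0 → IsAlgebraic ℚ ε → (ph G.d ε)⁻¹ ∈ K := fun ε h0 h =>
      (alg_half (h.mul G.alg.inv) (mul_ne_zero h0 (inv_ne_zero G.d_ne))).inv.isIntegral
    have h1 : D j ∈ K := K.mul_mem (K.mul_mem (by exact_mod_cast K.natCast_mem 2)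
      (alg_half (by simpa using isAlgebraic_ratCast (A := ℂ) ℚ ((-1) ^ (N + 1 - j) * f.leadingCoeff))
        (hlc j)).isIntegral) (K.mul_mem (K.prod_mem fun i _ => hph _ (hε j i) (by
        split_ifs; exacts [isAlgebraic_one, isAlgebraic_one.neg])) (hph _ one_ne_zero isAlgebraic_one))
    have h2 : ∀ i : Fin (N + 1), (Pi.single i 1 : Fin (N + 1) → ℂ) l ∈ K := fun i => by
      rw [Pi.single_apply]; split_ifs; exacts [K.one_mem, K.zero_mem]
    refine IsIntegral.isAlgebraic (K.mul_mem h1 ?_)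
    induction j using Fin.lastCases with
    | last => simpa [hcol] using h2 _
    | cast k => simpa [hcol] using K.sub_mem (h2 _) (h2 _)
  filter_upwards [(tendsto_id.atTop_mul_const G.p1).eventually_gt_atTop (G.p (α (Fin.last N))),
    (tendsto_id.atTop_mul_const_of_neg G.q1).eventually_lt_atBot (G.q (α (Fin.last N)))]
    with τ h1 h2
  simp only [id, ← map_real] at h1 h2
  set r : Fin (N + 2) → ℂ := Fin.snoc α τ with hr
  have hp : StrictMono fun i => G.p (r i) := Fin.strictMono_iff_lt_succ.2 fun i => by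
    induction i using Fin.lastCases with
    | last => simpa [hr] using h1
    | cast k => simpa only [hr, Fin.succ_castSucc, Fin.snoc_castSucc] using G.mp (Fin.castSucc_lt_succ (i := k))
  have hq : StrictAnti fun i => G.q (r i) := Fin.strictAnti_iff_succ_lt.2 fun i => by
    induction i using Fin.lastCases with
    | last => simpa [hr] using h2
    | cast k => simpa only [hr, Fin.succ_castSucc, Fin.snoc_castSucc] using G.mq (Fin.castSucc_lt_succ (i := k))
  ext a j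
  have h3 : (G.Ym (Fin.last N) τ * Matrix.of fun l j => D j * col j l) a j =
      D j * Seg G.d α (r j.castSucc) (r j.succ) τ a := by
    rw [show Seg G.d α (r j.castSucc) (r j.succ) τ = G.Ym (Fin.last N) τ *ᵥ col j from ?_]
    · simp only [Matrix.mul_apply, Matrix.of_apply, mulVec, dotProduct, Finset.mul_sum,
        mul_left_comm]
    induction j using Fin.lastCases with
    | last => simp only [hcol, Fin.lastCases_last, Ym_single]; simp [hr, Jv]
    | cast k =>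
      simp only [hcol, Fin.lastCases_castSucc, Ym_diff, hr, Iv, Fin.succ_castSucc, Fin.snoc_castSucc]
  rw [h3, period, Matrix.of_apply]
  simp only [← hr, D, Seg]
  rw [intervalIntegral.integral_of_le zero_le_one, integral_Ioc_eq_integral_Ioo, mul_assoc _ (_ * _),
    ← integral_const_mul (_ * (ph G.d 1)⁻¹)]
  congr 1
  refine setIntegral_congr_fun measurableSet_Ioo fun s hs => ?_
  simp only [itg]
  set x := r j.castSucc + s * (r j.succ - r j.castSucc) with hx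
  have h4 := hp (Fin.castSucc_lt_succ (i := j))
  have h5 := hq (Fin.castSucc_lt_succ (i := j))
  simp only at h4 h5
  have h6 : ∀ i ≤ j.castSucc, 0 < G.p (x - r i) ∧ G.q (x - r i) < 0 := fun i hi => by
    have h7 := hp.monotone hi
    have h8 := hq.antitone hi
    simp only [map_sub, hx, map_ray] at h7 h8 ⊢
    constructor <;> nlinarith [hs.1]
  have h7 : ∀ i, ¬i ≤ j.castSucc → 0 < G.p (r i - x) ∧ G.q (r i - x) < 0 := fun i hi => by
    have h7 := hp.monotone (Fin.castSucc_lt_iff_succ_le.1 (not_le.1 hi))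
    have h8 := hq.antitone (Fin.castSucc_lt_iff_succ_le.1 (not_le.1 hi))
    simp only [map_sub, hx, map_ray] at h7 h8 ⊢
    constructor <;> nlinarith [hs.2]
  have c1 := fun w => cone_eq (w := w) G.cone G.p1 G.q1 G.pd one_ne_zero fun w h _ => by simpa using h
  have c2 := fun w => cone_eq (w := w) G.cone G.p1 G.q1 G.qd (neg_ne_zero.2 one_ne_zero)
    fun w _ h => by simpa using h
  have h8 : ¬Fin.last (N + 1) ≤ j.castSucc := j.castSucc_lt_last.not_ge
  have h9 : ∀ i : Fin (N + 1), (if i.castSucc ≤ j.castSucc then x - r i.castSucc else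
      r i.castSucc - x) ^ (-1 / 2 : ℂ) = μ j i * ph G.d (x - α i) := fun i => by
    simp only [μ, ← Fin.castSucc_le_castSucc_iff (a := i)]
    split_ifs with h
    · rw [c1 _ (h6 _ h).1 (h6 _ h).2]; simp [hr]
    · rw [c2 _ (h7 _ h).1 (h7 _ h).2]; simp [hr]
  rw [Fin.prod_univ_castSucc, if_neg h8, c1 _ (h7 _ h8).1 (h7 _ h8).2, ww_eq]
  simp only [h9, Finset.prod_mul_distrib, one_mul, show r (Fin.last (N + 1)) = τ by simp [hr]]
  ring

end Geo

end Pool.Agent.GPC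

end MrgPart2

-- ======== part 3: formerly Pool.Agent.MP_cbf1af_ag.h26.Tors
section MrgPart3

/-! An exceptional relation does not vanish on the symplectic torsor through the periods. -/

namespace Pool.Agent.GPC
open Filter Matrix MvPolynomial

variable {n : ℕ} {f : Polynomial ℚ} {α : Fin n → ℂ}

lemma fibre_rel (hα : ∀ k, IsAlgebraic ℚ (α k)) {C₀ : Matrix (Fin n) (Fin n) ℂ}
    (h : ∀ᶠ τ : ℝ in atTop, (period f α τ)ᵀ * Kt α τ * period f α τ = C₀) {t : ℂ}
    {W : Matrix (Fin n) (Fin n) ℂ} (hW : W ∈ fibre f α t) (a b a' b' : Fin n)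
    (e e' e₀ : algebraicClosure ℚ ℂ) (he : e * C₀ a b - e' * C₀ a' b' = e₀) :
    e * (Wᵀ * Kt α t * W) a b - e' * (Wᵀ * Kt α t * W) a' b' = e₀ := by
  let L := algebraicClosure ℚ ℂ
  have hK : ∀ T ∈ L, ∀ a b, Kt α T a b ∈ L := fun T hT =>
    Kt_mem α L.toSubfield (fun k => mem_algebraicClosure_iff.2 (hα k)) hT
  set Kq : Matrix (Fin n) (Fin n) (MvPolynomial (Option (Fin n × Fin n)) L) := Matrix.of fun a b =>
    C ⟨_, hK 0 L.zero_mem a b⟩ + X none * (C ⟨_, hK 1 L.one_mem a b⟩ - C ⟨_, hK 0 L.zero_mem a b⟩)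
  set Xm : Matrix (Fin n) (Fin n) (MvPolynomial (Option (Fin n × Fin n)) L) :=
    Matrix.of fun a b => X (some (a, b))
  have key : ∀ (T : ℂ) (V : Matrix (Fin n) (Fin n) ℂ), aeval (fun v => v.elim T fun w => V w.1 w.2)
      (C e * (Xmᵀ * Kq * Xm) a b - C e' * (Xmᵀ * Kq * Xm) a' b' - C e₀) =
      e * (Vᵀ * Kt α T * V) a b - e' * (Vᵀ * Kt α T * V) a' b' - e₀ := by
    intro T V
    set φ := aeval (R := L) (S₁ := ℂ) fun v : Option (Fin n × Fin n) => v.elim T fun w => V w.1 w.2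
    have h1 : (Xmᵀ * Kq * Xm).map φ = Vᵀ * Kt α T * V := by
      rw [Matrix.map_mul, Matrix.map_mul]
      congr 2
      · ext a b; simp [Xm, φ]
      · rw [Kt_lin]; ext a b; simp [Kq, φ]
      · ext a b; simp [Xm, φ]
    simp only [map_sub, map_mul, ← h1, Matrix.map_apply, algHom_C]
    rfl
  rw [← sub_eq_zero, ← key]
  refine hW.2 _ (h.mono fun τ hτ => ?_)
  rw [key, hτ, he, sub_self]

theorem tors (hα : ∀ k, IsAlgebraic ℚ (α k)) {s : ℂ} (hs : s ≠ 0) (hn : Even n) (hn0 : 0 < n)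
    {M₀ : Matrix (Fin n) (Fin n) ℂ} (hM : M₀.det ≠ 0) (hM' : ∀ a b, IsAlgebraic ℚ (M₀ a b))
    {Y : ℝ → Matrix (Fin n) (Fin n) ℂ} (h : ∀ᶠ τ : ℝ in atTop, period f α τ = Y τ * M₀ ∧
      (Y τ)ᵀ * Kt α τ * Y τ = s • Sg ℂ n) {t : ℕ} {A : Matrix (Fin n) (Fin n) ℂ}
    (hA : Aᵀ * Kt α t * A = s • Sg ℂ n) {W : Matrix (Fin n) (Fin n) ℂ} (hW : W ∈ fibre f α t)
    {P : MvPolynomial (Fin n × Fin n) ℚ} (hP : aeval (fun w => W w.1 w.2) P ≠ 0) :
    ∃ g ∈ SpS (s • Sg ℂ n), aeval (fun w => (A * g * M₀) w.1 w.2) P ≠ 0 := by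
  set L := algebraicClosure ℚ ℂ
  set S := M₀ᵀ * Sg ℂ n * M₀ with hS
  have hSd : S.det ≠ 0 := by simp [hS, hM, Sg_det hn]
  have hA' := congrArg Matrix.det hA
  simp only [Matrix.det_mul, Matrix.det_transpose, Matrix.det_smul] at hA'
  have h1 := hA' ▸ mul_ne_zero (pow_ne_zero _ hs) (Sg_det hn)
  have hAd : A.det ≠ 0 := right_ne_zero_of_mul h1
  have hKd : (Kt α t).det ≠ 0 := right_ne_zero_of_mul (left_ne_zero_of_mul h1)
  have h2 : ∀ᶠ τ : ℝ in atTop, (period f α τ)ᵀ * Kt α τ * period f α τ = s • S :=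
    h.mono fun τ hτ => by
      rw [hτ.1, hS, ← Matrix.smul_mul, ← Matrix.mul_smul, ← hτ.2, Matrix.transpose_mul]
      simp only [Matrix.mul_assoc]
  set Ml : Matrix (Fin n) (Fin n) L := Matrix.of fun a b =>
    ⟨M₀ a b, mem_algebraicClosure_iff.2 (hM' a b)⟩
  set Sl := Mlᵀ * Sg L n * Ml
  have hSl : Sl.map (algebraMap L ℂ) = S := by
    rw [Matrix.map_mul, Matrix.map_mul, Sg_map]; rfl
  have hSl' : ∀ a b, (Sl a b : ℂ) = S a b := fun a b => congrFun (congrFun hSl a) b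
  suffices ∃ V : Matrix (Fin n) (Fin n) ℂ, Vᵀ * Kt α t * V = s • S ∧
      aeval (fun w => V w.1 w.2) P ≠ 0 by
    obtain ⟨V, h3, h4⟩ := this
    have h5 : A * (A⁻¹ * V * M₀⁻¹) * M₀ = V := by
      rw [Matrix.mul_assoc, Matrix.nonsing_inv_mul_cancel_right _ _ hM.isUnit,
        Matrix.mul_nonsing_inv_cancel_left _ _ hAd.isUnit]
    refine ⟨A⁻¹ * V * M₀⁻¹, ?_, by rwa [h5]⟩
    generalize A⁻¹ * V * M₀⁻¹ = g at *
    have h6 : M₀ᵀ * (gᵀ * (s • Sg ℂ n) * g) * M₀ = M₀ᵀ * (s • Sg ℂ n) * M₀ := by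
      conv_rhs => rw [Matrix.mul_smul, Matrix.smul_mul, ← hS, ← h3, ← h5]
      simp only [← hA, Matrix.transpose_mul, Matrix.mul_assoc]
    have h7 := (Matrix.isUnit_iff_isUnit_det _).2 hM.isUnit
    have h8 : IsUnit M₀ᵀ := (Matrix.isUnit_iff_isUnit_det _).2 (by simpa using hM)
    exact h8.mul_left_cancel (h7.mul_right_cancel h6)
  by_cases h3 : IsAlgebraic L s
  · have : Algebra.IsAlgebraic ℚ L := algebraicClosure.isAlgebraic ℚ ℂ
    have h4 : s ∈ L := mem_algebraicClosure_iff.2 (h3.restrictScalars ℚ)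
    refine ⟨W, ?_, hP⟩
    ext a b
    simpa [hSl'] using fibre_rel hα h2 hW a b a b 1 0 (⟨s, h4⟩ * Sl a b) (by simp [hSl'])
  obtain ⟨a₀, b₀, h4⟩ : ∃ a b, S a b ≠ 0 := by
    by_contra h4
    push Not at h4
    have : Nonempty (Fin n) := ⟨⟨0, hn0⟩⟩
    exact hSd (by rw [show S = 0 from Matrix.ext h4, Matrix.det_zero])
  set s' := (Wᵀ * Kt α t * W) a₀ b₀ / S a₀ b₀
  have h5 : Wᵀ * Kt α t * W = s' • S := by
    ext a b
    have := fibre_rel hα h2 hW a b a₀ b₀ (Sl a₀ b₀) (Sl a b) 0 (by simp [hSl']; ring)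
    simp only [hSl', ZeroMemClass.coe_zero] at this
    simp only [s', Matrix.smul_apply, smul_eq_mul]
    field_simp
    linear_combination this
  have h6 : s' ≠ 0 := fun h6 => by
    have := congrArg Matrix.det h5
    have h7 : Nonempty (Fin n) := ⟨⟨0, hn0⟩⟩
    rw [h6, zero_smul, Matrix.det_zero] at this
    simp [hW.1, hKd] at this
  by_contra h7
  push Not at h7
  set Kl : Matrix (Fin n) (Fin n) L := Matrix.of fun a b => ⟨Kt α t a b, Kt_mem α L.toSubfield
    (fun k => mem_algebraicClosure_iff.2 (hα k)) (natCast_mem _ t) a b⟩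
  have h8 := scale_transfer Kl Sl (MvPolynomial.map (algebraMap ℚ L) P) h3
    (fun V hV => by rw [aeval_map_algebraMap]; exact h7 V (hSl ▸ hV)) h6 W (hSl.symm ▸ h5)
  rw [aeval_map_algebraMap] at h8
  exact hP h8

end Pool.Agent.GPC

end MrgPart3

-- ======== part 4: formerly Pool.Agent.MP_cbf1af_ag.h26.Main
section MrgPart4

/-! Assembly of the window theorem. -/

namespace Pool.Agent.GPC
open Filter Topology Matrix Module

/-- polynomial growth -/
def PolyB (e : ℕ → ℕ) : Prop := ∃ c κ : ℕ, ∀ δ, e δ ≤ c * (δ + 1) ^ κ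

lemma PolyB.const (a : ℕ) : PolyB fun _ => a := ⟨a, 0, by simp⟩

lemma PolyB.id : PolyB fun δ => δ := ⟨1, 1, by simp⟩

lemma PolyB.add {e e' : ℕ → ℕ} (h : PolyB e) (h' : PolyB e') : PolyB fun δ => e δ + e' δ := by
  obtain ⟨c, κ, h⟩ := h
  obtain ⟨c', κ', h'⟩ := h'
  refine ⟨c + c', κ + κ', fun δ => ?_⟩
  rw [add_mul]
  exact add_le_add ((h δ).trans (by gcongr <;> omega)) ((h' δ).trans (by gcongr <;> omega))

lemma PolyB.mul {e e' : ℕ → ℕ} (h : PolyB e) (h' : PolyB e') : PolyB fun δ => e δ * e' δ := by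
  obtain ⟨c, κ, h⟩ := h
  obtain ⟨c', κ', h'⟩ := h'
  exact ⟨c * c', κ + κ', fun δ => (Nat.mul_le_mul (h δ) (h' δ)).trans_eq (by ring)⟩

lemma PolyB.pow {e : ℕ → ℕ} (h : PolyB e) (a : ℕ) : PolyB fun δ => e δ ^ a := by
  obtain ⟨c, κ, h⟩ := h
  exact ⟨c ^ a, κ * a, fun δ => (Nat.pow_le_pow_left (h δ) a).trans_eq (by ring)⟩

lemma count_bound {x δ D m e : ℕ} (hx : 2 ≤ x) (hδ : δ ≤ x) (hD : D ≤ x * x * δ)
    (hk : (4 * m + 4) * m + 1 ≤ x) (he : 16 * e ≤ x) :
    16 * (e * (δ * (((D + 1) ^ m + 1) * ((4 * m + 4) * m + 1)) + 1) ^ m) ≤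
      x ^ ((4 * m + 4) * m + 1) := by
  have h0 : ∀ a, x ^ a + 1 ≤ x ^ (a + 1) := fun a => by
    have := Nat.one_le_pow a x (by omega)
    rw [pow_succ]; nlinarith
  have h1 : D + 1 ≤ x ^ 4 := le_trans (by
    have : x * x * δ ≤ x ^ 3 := by rw [pow_succ, sq]; gcongr
    omega) (h0 3)
  have h2 : (D + 1) ^ m + 1 ≤ x ^ (4 * m + 1) := le_trans (by rw [pow_mul]; gcongr) (h0 _)
  have h3 : δ * (((D + 1) ^ m + 1) * ((4 * m + 4) * m + 1)) + 1 ≤ x ^ (4 * m + 4) :=
    le_trans (by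
      rw [show x ^ (4 * m + 3) = x * (x ^ (4 * m + 1) * x) by ring]; gcongr) (h0 (4 * m + 3))
  rw [← mul_assoc, pow_succ', pow_mul]
  gcongr

variable {n : ℕ} {c : ℂ} {α : Fin n → ℂ} {p : ℂ →L[ℝ] ℝ} {p₀ : ℝ}
  {Y : ℂ → Matrix (Fin n) (Fin n) ℂ} {J : Matrix (Fin n) (Fin n) ℂ} {L : ℕ}

theorem Ctx.main (H : Ctx c α p p₀ Y J L) (hα : Function.Injective α)
    (halg : ∀ k, IsAlgebraic ℚ (α k)) (hF : ∀ m, ∃ z : ℤ, (FF c α).coeff m = z)
    (M₀ : Matrix (Fin n) (Fin n) ℂ) : ∃ k c' κ : ℕ, ∀ δ A t : ℕ,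
    (2 * A + 2) ^ (c' * (δ + 1) ^ κ) ≤ t → ∀ h : Fin k → ℕ, (∀ i, L ≤ h i) → (∀ i, h i ≤ A) →
    (∀ i j, i ≠ j → (L : ℝ) ≤ |(h i : ℝ) - h j|) → ¬∀ i, ∃ P : MvPolynomial (Fin n × Fin n) ℚ,
      P.totalDegree ≤ δ ∧ MvPolynomial.aeval (fun v => (Y (t + h i) * M₀) v.1 v.2) P = 0 ∧
      ∃ g ∈ SpS J, MvPolynomial.aeval (fun v => (Y (t + h i) * g * M₀) v.1 v.2) P ≠ 0 := by
  obtain ⟨e, he⟩ := H.dim halg
  obtain ⟨K₀, hK₀, hK⟩ := exists_K0 c α
  obtain ⟨K₁, hK₁⟩ := hp_ball p p₀ H.p1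
  obtain ⟨Λ, hΛ⟩ := Uh_int hα H.hc hF
  obtain ⟨B₀, hB₀⟩ := gd_Res hα H.hc hF
  set m := Fintype.card (Fin n × Fin n) with hm
  set k := (4 * m + 4) * m + 1 with hk
  obtain ⟨c₀, hc₀⟩ := eventually_atTop.1 ((((tendsto_pow_const_div_const_pow_of_one_lt (4 * m)
    one_lt_two).eventually (eventually_lt_nhds one_pos)).and (eventually_ge_atTop 2)).and
    ((eventually_ge_atTop k).and (eventually_ge_atTop (16 * e))))
  set c₂ := n * (n * (4 * n + 3 + 2) + n.factorial * (n * (4 * n + 3 + 1) + 1) + 2) *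
    (Fintype.card (Fin k × Option (Fin n × Fin n)) + 1) + 1 with hc₂
  set m₂ := Fintype.card (Fin k × Fin n × Fin n) with hm₂
  obtain ⟨c', κ, hE⟩ : PolyB fun δ => (K₀ + 1) * 8 + (K₀ + 1 + Λ * (k * (c₀ + δ) ^ 3)) *
      ((k * (c₀ + δ) ^ 3 + 1) ^ m₂ * (8 * (c₂ * (k * (c₀ + δ) ^ 3) + 1) + 1)) +
      (K₁ + 1 + (B₀ + 1)) := by
    have h1 := (PolyB.const k).mul (((PolyB.const c₀).add PolyB.id).pow 3)
    exact ((PolyB.const _).add (((PolyB.const _).add ((PolyB.const _).mul h1)).mul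
      (((h1.add (.const _)).pow _).mul (((PolyB.const _).mul (((PolyB.const _).mul h1).add
        (.const _))).add (.const _))))).add (.const _)
  refine ⟨k, c', κ, fun δ A t ht h h0 hA hh hP => ?_⟩
  simp only at hE
  have hb := fun a (ha : a ≤ _) =>
    (Nat.pow_le_pow_right (n := 2 * A + 2) (by omega) (ha.trans (hE δ))).trans ht
  have hb' : ∀ a, a ≤ (2 * A + 2) ^ a := fun a => (Nat.lt_pow_self (by omega)).le
  have hb'' : ∀ a, a * (2 * A + 2) ≤ (2 * A + 2) ^ (a + 1) := fun a => by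
    rw [pow_succ]; gcongr; exact hb' a
  have t1 : 2 * A + 2 ≤ t := by simpa using hb 1 (by omega)
  have t2 : B₀ ≤ t := (hb' _).trans (hb _ (by omega))
  have t3 : K₁ * (A + 1) ≤ t := le_trans (Nat.mul_le_mul_left _ (by omega)) ((hb'' K₁).trans (hb _ (by omega)))
  have t4 : (2 * (K₀ * (A + 1))) ^ 8 ≤ t := le_trans (by
    rw [pow_mul]; gcongr; exact le_trans (by ring_nf; rfl) (hb'' K₀)) (hb ((K₀ + 1) * 8) (by omega))
  obtain ⟨⟨h1, h2⟩, h3, h4⟩ := hc₀ (c₀ + δ) (Nat.le_add_right _ _)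
  set x := c₀ + δ with hx
  have hδ : δ ≤ x := Nat.le_add_left _ _
  have hx3 : x * x * δ ≤ x ^ 3 := by rw [pow_succ, sq]; gcongr
  obtain ⟨D, hD1, hD2, hD3⟩ := pigeon (HF J) (HF_mono J) (HF_pos J 0) (x := x) (δ := δ) (by omega) (by
    refine (HF_le J _).trans_lt (lt_of_le_of_lt (b := x ^ (4 * m)) ?_ ?_)
    · rw [pow_mul]
      gcongr
      have := Nat.one_le_pow 3 x (by omega)
      rw [pow_succ x 3]; nlinarith
    · rw [div_lt_one (by positivity)] at h1
      exact_mod_cast h1)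
  have hq : Fintype.card (Fin k × Fin D) ≤ k * x ^ 3 := by
    rw [Fintype.card_prod, Fintype.card_fin, Fintype.card_fin]; gcongr; exact hD2.trans hx3
  set q := Fintype.card (Fin k × Fin D) with hq'
  have hball := hK₁ A t (by exact_mod_cast t3)
  simp only [Complex.ofReal_natCast] at hball
  have hA' : ∀ i, (h i : ℝ) ≤ A := fun i => by exact_mod_cast hA i
  have ht0 : (t : ℂ) ∈ HP p p₀ := hball (Metric.mem_ball_self (by positivity))
  have hti : ∀ i, (t + h i : ℂ) ∈ HP p p₀ := fun i => hball (by simp; linarith [hA' i])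
  have hG := he t h ht0 hti δ D hD1 M₀ hP
  obtain ⟨w, hw⟩ := H.indep h h0 hh D
  set K : ℝ := K₀ * (A + 1) with hKd
  have hK1 : 1 ≤ K := one_le_mul_of_one_le_of_one_le (by exact_mod_cast hK₀) (by simp)
  have hK0 : 0 < K := one_pos.trans_le hK1
  have hK' := fun i => hK (h i) K (by rw [hKd]; gcongr; exact hA i)
  have nU := fun i (v : Fin n × Fin n) => nb_Uh (inv_pos.2 hK0) (hK' i).2 v.1 v.2
  choose r hr cJ eJ using fun i => ev_Jt H.hc H.sol (isOpen_HP _ _) (convex_HP _ _).isPreconnected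
    H.ne H.detY (hti i) ht0
  obtain ⟨r₀, hr₀, hr₁⟩ := (eventually_mem_nhdsWithin.and (eventually_all.2 fun i =>
    (eventually_le_nhds (hr i)).filter_mono (nhdsWithin_le_nhds (s := Set.Ioi 0)))).exists
  have cJ' := fun i (v : Fin n × Fin n) => (cJ i v.1 v.2).mono (le_of_lt hr₀) (hr₁ i)
  have t5 : (2 * K) ^ 8 ≤ t := by rw [hKd]; exact_mod_cast t4
  have ht2 : 2 ≤ t := by omega
  have hgd : ∀ τ : ℕ, (τ : ℂ) ∈ HP p p₀ → t ≤ τ → τ ≤ t + A →
      ∀ a b, Gd t {1} (4 * n + 3) (Res c α τ a b) := fun τ h5 h6 h7 =>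
    hB₀ t τ t2 (by omega) (by nlinarith) (eval_FF_ne H.hc (H.ne _ h5))
  refine core (ι := Fin k → Fin (HF J D))
    (fun β => wp (fun i v => Uh c α (h i) v.1 v.2) fun i => w i (β i))
    (fun β => wp (fun i v => Jt c α (t + h i) t (Y (t + h i) * (Y t)⁻¹) v.1 v.2) fun i => w i (β i))
    K _ r₀ (Λ ^ q) t (c₂ * q + 1) ((q + 1) ^ m₂) _ _ (Set.finite_range _) hK1
    (fun β => nb_wp (inv_pos.2 hK0).le nU _) (fun M => ?_) hr₀
    (fun β => cv_wp (le_of_lt hr₀) cJ' _) ?_ (fun M => ?_) hG ?_ ?_ hw (H.zero h _)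
    (by omega) t5 ?_
  · obtain ⟨d, h5, h6, h7⟩ := hΛ M
    refine ⟨d ^ q, by positivity, by rw [← pow_mul, mul_comm, pow_mul]; gcongr, fun β => ?_⟩
    refine int_prod Finset.univ fun il _ => ?_
    beta_reduce
    rcases w il.1 (β il.1) il.2 with _ | v
    · exact fun m _ => ⟨if m = 0 then d else 0, by simp [PowerSeries.coeff_one]⟩
    · exact h7 _ _ _
  · filter_upwards [eventually_all.2 eJ, Metric.ball_mem_nhds (0 : ℂ) hr₀,
      Metric.ball_mem_nhds (0 : ℂ) one_pos] with η h5 h6 h7 β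
    rw [mem_ball_zero_iff] at h6 h7
    have h8 : K ≤ ‖(t : ℂ) + η‖ := by
      have h9 := norm_sub_norm_le (t : ℂ) (-η)
      have h10 : 2 * K ≤ (2 * K) ^ 8 := le_self_pow₀ (by linarith) (by norm_num)
      rw [sub_neg_eq_add, norm_neg, Complex.norm_natCast] at h9
      linarith
    have h9 : ∀ i, Metric.ball ((t : ℂ) + η) (h i + 1) ⊆ HP p p₀ := fun i =>
      (Metric.ball_subset_ball' (by simp; linarith [hA' i])).trans hball
    rw [ev_wp h6.le cJ', ev_wp (r := K⁻¹) (by rw [norm_inv]; gcongr) fun i v => (nU i v).1]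
    congr 1
    funext i v
    have h10 := H.evU hK0 (hK' i).1 (hK' i).2 h8 (h9 i)
    rw [add_right_comm, ← h5 i, Matrix.mul_nonsing_inv_cancel_right _ _
      (H.detY _ (h9 i (Metric.mem_ball_self (by positivity)))).isUnit] at h10
    exact (congrFun (congrFun h10 v.1) v.2).symm
  · obtain ⟨d, h5, h6⟩ := ls_wp (D := D) ht2 
      (u := fun i (v : Fin n × Fin n) => (Y (t + h i) * (Y t)⁻¹) v.1 v.2) (fun i v => gd_Jt ht2 (Y (t + h i) * (Y t)⁻¹) (by
        simpa using hgd (t + h i) (by simpa using hti i) (by omega) (by simpa using hA i))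
        (hgd t ht0 le_rfl (by omega)) v.1 v.2) M
    exact ⟨d, h5, fun β => h6 _⟩
  · by_contra h5
    obtain ⟨s, h6, h7⟩ := hG
    rw [Finset.card_eq_zero.1 (show s.card = 0 by omega)] at h7
    simpa [wp] using h7 (Submodule.subset_span ⟨fun _ _ => none, rfl⟩)
  · rw [← mul_assoc e, ← mul_assoc 16, Fintype.card_fun, Fintype.card_fin, Fintype.card_fin]
    refine le_trans ?_ (Nat.pow_le_pow_left hD3 k)
    rw [mul_pow]
    exact Nat.mul_le_mul_right _ (count_bound h2 hδ hD2 h3 h4)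
  · have h5 : (K₀ * (A + 1) * Λ ^ q) ^ ((q + 1) ^ m₂ * (8 * (c₂ * q + 1) + 1)) ≤ t := by
      refine le_trans ?_ (hb ((K₀ + 1 + Λ * q) * ((q + 1) ^ m₂ * (8 * (c₂ * q + 1) + 1))) ?_)
      · rw [pow_mul (2 * A + 2), pow_add, pow_mul (2 * A + 2)]
        gcongr
        · exact le_trans (Nat.mul_le_mul_left _ (by omega)) (hb'' K₀)
        · exact hb' Λ
      · exact le_trans (by gcongr) ((Nat.le_add_left _ _).trans (Nat.le_add_right _ _))
    rw [hKd]
    exact_mod_cast h5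

lemma exists_gaps {L k : ℕ} {F : Finset ℕ} (h : k * L < F.card) :
    ∃ τ : Fin (k + 1) → ℕ, (∀ i, τ i ∈ F) ∧ ∀ i j, i < j → τ i + L ≤ τ j := by
  set e := F.orderEmbOfFin rfl
  have h1 : ∀ (a d : ℕ) (ha : a + d < F.card), e ⟨a, by omega⟩ + d ≤ e ⟨a + d, ha⟩ := by
    intro a d
    induction d with
    | zero => exact fun _ => le_rfl
    | succ d ih =>
      intro ha
      have := e.strictMono (show (⟨a + d, by omega⟩ : Fin F.card) < ⟨a + (d + 1), ha⟩ by simp)
      have := ih (by omega)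
      omega
  have h2 : ∀ i : Fin (k + 1), i * L < F.card := fun i =>
    lt_of_le_of_lt (Nat.mul_le_mul_right _ (Nat.lt_succ_iff.1 i.2)) h
  refine ⟨fun i => e ⟨i * L, h2 i⟩, fun i => F.orderEmbOfFin_mem _ _, fun i j hij => ?_⟩
  have h3 : i * L + L ≤ j * L := by
    rw [← Nat.succ_mul]; exact Nat.mul_le_mul_right _ hij
  exact (h1 _ L (h3.trans_lt (h2 j))).trans (e.monotone h3)

open Polynomial in
theorem window {g : ℕ} (hg : 1 ≤ g) (f : ℚ[X]) (hf : f.natDegree = 2 * g) (α : Fin (2 * g) → ℂ)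
    (hα : ∀ j, aeval (α j) f = 0) (hord : StrictMono fun j => toLex ((α j).re, (α j).im)) :
    ∃ K c κ : ℕ, ∀ δ H t : ℕ, (2 * H + 2) ^ (c * (δ + 1) ^ κ) ≤ t →
      {τ ∈ Set.Icc t (t + H) | Exceptional f α δ τ}.ncard ≤ K := by
  have hn : Even (2 * g) := even_two_mul g
  have hn0 : 2 ≤ 2 * g := by omega
  generalize 2 * g = n at *
  obtain ⟨N, rfl⟩ : ∃ N, n = N + 1 := ⟨n - 1, by omega⟩
  have hN : 0 < N := by omega
  have hf0 : f ≠ 0 := fun h => by simp [h] at hf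
  obtain ⟨G⟩ := exists_geo α hord
  have halg : ∀ k, IsAlgebraic ℚ (α k) := fun k => ⟨f, hf0, hα k⟩
  obtain ⟨s, hs, hC⟩ := (G.per hN).pair hN
  obtain ⟨L, hL⟩ := (G.per hN).invar hN (by simpa [Nat.even_add_one] using hn) hs hC
  obtain ⟨M₀, hM, hM', hper⟩ := G.period_eq hf0
  obtain ⟨b, hb, hb'⟩ := IsLocalization.integerNormalization_spec (nonZeroDivisors ℤ) f
  have h1 : f.map (algebraMap ℚ ℂ) = C (f.leadingCoeff : ℂ) * f1 α := by
    rw [eq_leadingCoeff_mul_of_monic_of_dvd_of_natDegree_le (f1_monic α)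
      (q := f.map (algebraMap ℚ ℂ)) (Finset.prod_dvd_of_coprime
        ((pairwise_coprime_X_sub_C G.inj).set_pairwise _) fun k _ => dvd_iff_isRoot.2 (by
          rw [IsRoot, eval_map_algebraMap, hα])) (by rw [natDegree_map, hf, natDegree_f1])]
    simp
  have H : Ctx (b * f.leadingCoeff) α G.p (G.p (α (Fin.last N))) (G.Ym (Fin.last N))
      (s • Sg ℂ (N + 1)) L := by
    refine ⟨by simpa [hf0] using nonZeroDivisors.ne_zero hb, G.p1, ?_, ?_, by simp [Sg_transpose],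
      ?_, ?_, ?_⟩ <;> try rw [← G.S_last hN]
    exacts [(G.per hN).sol _, G.S_ne hN,
      by rw [Matrix.det_smul]; exact mul_ne_zero (pow_ne_zero _ hs) (Sg_det hn), hC _, hL]
  obtain ⟨k, c, κ, h2⟩ := H.main G.inj halg (fun m => ⟨_, by
    have := congrArg (fun q => (q.coeff m : ℂ)) hb'
    simp only [coeff_map, coeff_smul] at this
    simp only [eq_intCast, Rat.cast_intCast, zsmul_eq_mul, Rat.cast_mul] at this
    rw [this, FF, C_mul, mul_assoc, ← h1, coeff_C_mul, coeff_map]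
    rfl⟩) M₀
  have h3 := hper.and ((G.S_right 0).mono fun τ hτ => (⟨by simpa using hτ,
    hC _ _ (by simpa using hτ)⟩ : (τ : ℂ) ∈ G.S (Fin.last N) ∧ _))
  obtain ⟨τ₁, h4⟩ := eventually_atTop.1 (tendsto_natCast_atTop_atTop.eventually h3)
  simp only [Complex.ofReal_natCast] at h4
  refine ⟨k * L, c + τ₁, κ, fun δ A t ht => ?_⟩
  by_contra hcon
  have hfin : {τ ∈ Set.Icc t (t + A) | Exceptional f α δ τ}.Finite :=
    (Set.finite_Icc _ _).subset (Set.sep_subset _ _)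
  rw [Set.ncard_eq_toFinset_card _ hfin, not_le] at hcon
  obtain ⟨τ, h5, h6⟩ := exists_gaps hcon
  simp only [Set.Finite.mem_toFinset, Set.mem_ofPred_eq, Set.mem_Icc] at h5
  have h7 : ∀ i : Fin k, τ 0 + L ≤ τ i.succ := fun i => h6 _ _ i.succ_pos
  have h8 : τ₁ ≤ t := le_trans ((Nat.lt_pow_self (by omega)).le.trans (Nat.pow_le_pow_right
    (by omega) ((Nat.le_add_left _ _).trans (Nat.le_mul_of_pos_right _ (by positivity))))) ht
  refine h2 δ A (τ 0) (le_trans (Nat.pow_le_pow_right (by omega) (by gcongr; omega))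
    (ht.trans (h5 0).1.1)) (fun i => τ i.succ - τ 0) (fun i => by have := h7 i; omega)
    (fun i => by have := (h5 0).1.1; have := (h5 i.succ).1.2; omega) (fun i j hij => ?_) fun i => ?_
  · rw [Nat.cast_sub (by have := h7 i; omega), Nat.cast_sub (by have := h7 j; omega),
      sub_sub_sub_cancel_right, le_abs]
    rcases lt_or_gt_of_ne hij with h | h
    · right
      have : (τ i.succ : ℝ) + L ≤ τ j.succ := by exact_mod_cast h6 _ _ (Fin.succ_lt_succ_iff.2 h)
      linarith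
    · left
      have : (τ j.succ : ℝ) + L ≤ τ i.succ := by exact_mod_cast h6 _ _ (Fin.succ_lt_succ_iff.2 h)
      linarith
  · obtain ⟨P, h9, h10, W, hW, h11⟩ := (h5 i.succ).2
    obtain ⟨h12, -, h13⟩ := h4 (τ i.succ) (h8.trans (h5 _).1.1)
    rw [← Nat.cast_add, Nat.add_sub_cancel' (by have := h7 i; omega)]
    exact ⟨P, h9, h12 ▸ h10, tors halg hs hn (by omega) hM hM'
      (h3.mono fun τ hτ => ⟨hτ.1, hτ.2.2⟩) h13 hW h11⟩

end Pool.Agent.GPC

end MrgPart4

-- marker of a merged file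
example : 731051 + 217323 = 731051 + 217323 := rfl
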